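import Pool.Agent.Lib.MP_f44088_al.FB4.Spec

/-! Project FB4: (Br), a complement of the `r`-part of the commutator subgroup: the normalizer of `U`. -/

set_option autoImplicit false

namespace Pool.Agent.Lib.MP_f44088_fc

open scoped commutatorElement

namespace BrAux

/-- transfer: a central element of `r`-power order in the commutator subgroup is trivial, if the Sylow
`r`-subgroups are abelian -/
theorem central {H : Type} [Group H] [Finite H] (r : ℕ) [Fact r.Prime]
    (hab : ∀ P : Subgroup H, IsPGroup r P → ∀ x ∈ P, ∀ y ∈ P, x * y = y * x)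
    (z : H) (hz : z ∈ commutator H) (hc : ∀ g : H, g * z = z * g)
    (Q : Sylow r H) (hzQ : z ∈ (Q : Subgroup H)) : z = 1 := by
  let _ : CommGroup (Q : Subgroup H) :=
    { (inferInstance : Group (Q : Subgroup H)) with
      mul_comm := fun x y => Subtype.ext (hab Q Q.isPGroup' x x.2 y y.2) }
  have h1 : (MonoidHom.transfer (MonoidHom.id (Q : Subgroup H))) z = 1 :=
    Abelianization.commutator_subset_ker _ hz
  have hcp : ∀ (k : ℕ) (g : H), g⁻¹ * z ^ k * g = z ^ k := by
    intro k g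
    have h2 : Commute g (z ^ k) := Commute.pow_right (hc g) k
    rw [mul_assoc, ← h2.eq, ← mul_assoc, inv_mul_cancel, one_mul]
  rw [MonoidHom.transfer_eq_pow (MonoidHom.id (Q : Subgroup H)) z (fun k g _ => hcp k g)] at h1
  have h2 : z ^ (Q : Subgroup H).index = 1 := congrArg Subtype.val h1
  obtain ⟨k, hk⟩ := Q.isPGroup' ⟨z, hzQ⟩
  have h3 : z ^ (r ^ k) = 1 := congrArg Subtype.val hk
  have h4 : ((Q : Subgroup H).index).Coprime (r ^ k) := by
    apply Nat.Coprime.pow_right
    rw [Nat.coprime_comm]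
    exact (Nat.Prime.coprime_iff_not_dvd Fact.out).2 Q.not_dvd_index
  exact orderOf_eq_one_iff.1 (Nat.eq_one_of_dvd_coprimes h4 (orderOf_dvd_of_pow_eq_one h2)
    (orderOf_dvd_of_pow_eq_one h3))

/-- the conjugation step -/
theorem frattini (hConj : O_Conj) {H : Type} [Group H] [Finite H] (B E U : Subgroup H) (hB : B.Normal)
    (hE : E.Normal) (hBc : ∀ x ∈ B, ∀ y ∈ B, x * y = y * x) (hBE : B ≤ E) (hUE : U ≤ E)
    (hBU : ∀ x ∈ B, x ∈ U → x = 1) (hEU : ∀ g ∈ E, ∃ b ∈ B, ∃ u ∈ U, g = b * u)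
    (hcop : (Nat.card B).Coprime (Nat.card U)) (h : H) :
    ∃ b ∈ B, ∀ u ∈ U, (b * h) * u * (b * h)⁻¹ ∈ U := by
  have hU' : ∀ u ∈ U, h * u * h⁻¹ ∈ E := fun u hu => hE.conj_mem u (hUE hu) h
  let B' : Subgroup E := B.subgroupOf E
  let V : Subgroup E := U.subgroupOf E
  let W : Subgroup E := (U.map (MulAut.conj h).toMonoidHom).subgroupOf E
  have hWE : U.map (MulAut.conj h).toMonoidHom ≤ E := by
    rintro _ ⟨u, hu, rfl⟩
    exact hU' u hu
  have hWmem : ∀ x : E, x ∈ W ↔ h⁻¹ * x * h ∈ U := by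
    intro x
    constructor
    · rintro ⟨u, hu, hux⟩
      have h1 : h * u * h⁻¹ = x := hux
      rw [← h1]
      have h2 : h⁻¹ * (h * u * h⁻¹) * h = u := by group
      rw [h2]
      exact hu
    · intro hx
      refine ⟨_, hx, ?_⟩
      change h * (h⁻¹ * x * h) * h⁻¹ = x
      group
  have hB'n : B'.Normal := hB.subgroupOf E
  have hB'c : ∀ x ∈ B', ∀ y ∈ B', x * y = y * x := fun x hx y hy => Subtype.ext (hBc x hx y hy)
  have hcV : Subgroup.IsComplement' B' V := by
    apply Subgroup.isComplement'_of_disjoint_and_mul_eq_univ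
    · rw [Subgroup.disjoint_def]
      intro x hx hy
      exact Subtype.ext (hBU x hx hy)
    · apply Set.eq_univ_of_forall
      intro g
      obtain ⟨b, hb, u, hu, hg⟩ := hEU g g.2
      exact ⟨⟨b, hBE hb⟩, hb, ⟨u, hUE hu⟩, hu, Subtype.ext hg.symm⟩
  have hcW : Subgroup.IsComplement' B' W := by
    apply Subgroup.isComplement'_of_disjoint_and_mul_eq_univ
    · rw [Subgroup.disjoint_def]
      intro x hx hy
      have h1 : h⁻¹ * (x : H) * h ∈ B := by
        have h2 := hB.conj_mem x hx h⁻¹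
        rwa [inv_inv] at h2
      have h3 := hBU _ h1 ((hWmem x).1 hy)
      apply Subtype.ext
      have h4 : (x : H) = h * (h⁻¹ * (x : H) * h) * h⁻¹ := by group
      rw [h4, h3]
      simp
    · apply Set.eq_univ_of_forall
      intro g
      have h1 : h⁻¹ * (g : H) * h ∈ E := by
        have h2 := hE.conj_mem g g.2 h⁻¹
        rwa [inv_inv] at h2
      obtain ⟨b, hb, u, hu, hg⟩ := hEU _ h1
      have hb' : h * b * h⁻¹ ∈ B := hB.conj_mem b hb h
      refine ⟨⟨h * b * h⁻¹, hBE hb'⟩, hb', ⟨h * u * h⁻¹, hU' u hu⟩, ?_, Subtype.ext ?_⟩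
      · exact ⟨u, hu, rfl⟩
      · change h * b * h⁻¹ * (h * u * h⁻¹) = g
        have h4 : (g : H) = h * (h⁻¹ * (g : H) * h) * h⁻¹ := by group
        rw [h4, hg]
        group
  have hcard : (Nat.card B').Coprime (Nat.card W) := by
    have e1 : Nat.card B' = Nat.card B := Nat.card_congr (Subgroup.subgroupOfEquivOfLe hBE).toEquiv
    have e2 : Nat.card W = Nat.card U := by
      rw [Nat.card_congr (Subgroup.subgroupOfEquivOfLe hWE).toEquiv]
      exact (Nat.card_congr (U.equivMapOfInjective _ (MulAut.conj h).injective).toEquiv).symm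
    rw [e1, e2]
    exact hcop
  obtain ⟨b, hb, hbu⟩ := hConj E B' W V hB'n hB'c hcW hcV hcard
  refine ⟨b, hb, fun u hu => ?_⟩
  have h1 := hbu ⟨h * u * h⁻¹, hU' u hu⟩ ⟨u, hu, rfl⟩
  have h2 : (b : H) * (h * u * h⁻¹) * (b : H)⁻¹ ∈ U := h1
  have h3 : (b : H) * h * u * ((b : H) * h)⁻¹ = (b : H) * (h * u * h⁻¹) * (b : H)⁻¹ := by group
  rw [h3]
  exact h2

end BrAux

open BrAux in
theorem Br : O_Conj → S_EU → S_Br := by
  intro hConj hEU H _ _ hder hab r hr
  have hfact : Fact r.Prime := ⟨hr⟩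
  have habr := hab r hr
  have hAc : ∀ x ∈ commutator H, ∀ y ∈ commutator H, x * y = y * x := by
    intro x hx y hy
    have h1 : ⁅x, y⁆ ∈ derivedSeries H 2 := by
      rw [derivedSeries_succ, derivedSeries_one]
      exact Subgroup.commutator_mem_commutator hx hy
    rw [hder, Subgroup.mem_bot] at h1
    exact commutatorElement_eq_one_iff_mul_comm.1 h1
  obtain ⟨E, U, hAE, hUE, hAU, hEdec, hUcop, hpow⟩ := hEU H (commutator H) le_rfl hAc r hr
  have hAn : (commutator H).Normal := inferInstance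
  have hEn : E.Normal := Subgroup.Normal.of_commutator_le H hAE
  let B : Subgroup H :=
    { carrier := {x | x ∈ commutator H ∧ ∃ j : ℕ, x ^ (r ^ j) = 1}
      mul_mem' := by
        rintro x y ⟨hx, i, hi⟩ ⟨hy, j, hj⟩
        refine ⟨mul_mem hx hy, i + j, ?_⟩
        rw [(show Commute x y from hAc x hx y hy).mul_pow, pow_add, pow_mul, hi, one_pow, one_mul,
          mul_comm (r ^ i), pow_mul, hj, one_pow]
      one_mem' := ⟨one_mem _, 0, one_pow _⟩
      inv_mem' := by
        rintro x ⟨hx, i, hi⟩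
        exact ⟨inv_mem hx, i, by rw [inv_pow, hi, inv_one]⟩ }
  have hBmem : ∀ x, x ∈ B ↔ x ∈ commutator H ∧ ∃ j : ℕ, x ^ (r ^ j) = 1 := fun _ => Iff.rfl
  have hBn : B.Normal := ⟨fun x hx g => ⟨hAn.conj_mem x hx.1 g, by
    obtain ⟨j, hj⟩ := hx.2
    exact ⟨j, by rw [conj_pow, hj]; group⟩⟩⟩
  have hBc : ∀ x ∈ B, ∀ y ∈ B, x * y = y * x := fun x hx y hy => hAc x hx.1 y hy.1
  have hBE : B ≤ E := fun x hx => hAE hx.1
  have hBU : ∀ x ∈ B, x ∈ U → x = 1 := fun x hx hxU => hAU x hx.1 hx.2 hxU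
  have hEdec' : ∀ g ∈ E, ∃ b ∈ B, ∃ u ∈ U, g = b * u := by
    intro g hg
    obtain ⟨b, hb, hbr, u, hu, h⟩ := hEdec g hg
    exact ⟨b, ⟨hb, hbr⟩, u, hu, h⟩
  have hBp : IsPGroup r B := fun x => by
    obtain ⟨j, hj⟩ := x.2.2
    exact ⟨j, Subtype.ext hj⟩
  obtain ⟨Q, hQ⟩ := hBp.exists_le_sylow
  have hcop : (Nat.card B).Coprime (Nat.card U) := by
    obtain ⟨k, hk⟩ := IsPGroup.iff_card.1 hBp
    rw [hk]
    exact Nat.Coprime.pow_left k hUcop.symm
  refine ⟨Subgroup.normalizer (U : Set H), ?_, ?_⟩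
  · -- `B ⊓ N = ⊥`
    intro z hz hzr hzN
    have hzB : z ∈ B := ⟨hz, hzr⟩
    refine central r habr z hz ?_ Q (hQ hzB)
    -- `z` is central
    let C : Subgroup H := Subgroup.centralizer {z}
    have hCmem : ∀ g : H, g ∈ C ↔ g * z = z * g := by
      intro g
      rw [Subgroup.mem_centralizer_singleton_iff]
    have hUC : ∀ u ∈ U, u * z = z * u := by
      intro u hu
      have h1 : z * u * z⁻¹ ∈ U := (Subgroup.mem_normalizer_iff.1 hzN u).1 hu
      have h2 : z * u * z⁻¹ * u⁻¹ ∈ U := U.mul_mem h1 (U.inv_mem hu)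
      have h3 : z * u * z⁻¹ * u⁻¹ ∈ B := by
        have h4 : u * z⁻¹ * u⁻¹ ∈ B := hBn.conj_mem _ (B.inv_mem hzB) u
        have h5 : z * u * z⁻¹ * u⁻¹ = z * (u * z⁻¹ * u⁻¹) := by group
        rw [h5]
        exact B.mul_mem hzB h4
      have h6 := hBU _ h3 h2
      have h7 : z * u = u * z := by
        have h8 : z * u = (z * u * z⁻¹ * u⁻¹) * (u * z) := by group
        rw [h8, h6, one_mul]
      exact h7.symm
    have hEC : E ≤ C := by
      intro g hg
      obtain ⟨b, hb, u, hu, rfl⟩ := hEdec' g hg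
      exact C.mul_mem ((hCmem b).2 (hBc b hb z hzB)) ((hCmem u).2 (hUC u hu))
    have hQC : (Q : Subgroup H) ≤ C := fun g hg => (hCmem g).2 (habr Q Q.isPGroup' g hg z (hQ hzB))
    have hCn : C.Normal := Subgroup.Normal.of_commutator_le H (hAE.trans hEC)
    have hp : IsPGroup r (H ⧸ C) := by
      intro x
      obtain ⟨g, rfl⟩ := QuotientGroup.mk_surjective x
      obtain ⟨j, hj⟩ := hpow g
      refine ⟨j, ?_⟩
      rw [← QuotientGroup.mk_pow, QuotientGroup.eq_one_iff]
      exact hEC hj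
    have htop : C = ⊤ := by
      rw [← Subgroup.index_eq_one]
      rcases hp.card_eq_or_dvd with h1 | h1
      · rw [Subgroup.index_eq_card]
        exact h1
      · exfalso
        rw [← Subgroup.index_eq_card] at h1
        exact Q.not_dvd_index (h1.trans (Subgroup.index_dvd_of_le hQC))
    intro g
    exact (hCmem g).1 (htop ▸ Subgroup.mem_top g)
  · -- `H = B N`
    intro h
    obtain ⟨b, hb, hbu⟩ := frattini hConj B E U hBn hEn hBc hBE hUE hBU hEdec' hcop h
    refine ⟨b⁻¹, (B.inv_mem hb).1, (B.inv_mem hb).2, b * h, ?_, by group⟩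
    have hmap : U.map (MulAut.conj (b * h)).toMonoidHom = U := by
      apply Subgroup.eq_of_le_of_card_ge
      · rintro _ ⟨u, hu, rfl⟩
        exact hbu u hu
      · exact (Nat.card_congr (U.equivMapOfInjective _ (MulAut.conj (b * h)).injective).toEquiv).le
    rw [Subgroup.mem_normalizer_iff]
    intro u
    constructor
    · intro hu
      exact hbu u hu
    · intro hu
      rw [← hmap] at hu
      obtain ⟨v, hv, hvu⟩ := hu
      have h1 : b * h * v * (b * h)⁻¹ = b * h * u * (b * h)⁻¹ := hvu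
      have h2 : v = u := by
        have h3 := mul_right_cancel h1
        exact mul_left_cancel h3
      rw [← h2]
      exact hv

end Pool.Agent.Lib.MP_f44088_fc
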