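import Mathlib
import Pool.Agent.Lib.MP_f44088_al.FB3.Spec
import Pool.Agent.Lib.MP_f44088_al.FB3.Spec2

/-! Project FB4 (MP_f44088_al): every variety of A-groups of derived length <= 3 (any exponent) is finitely
based. Definitions and first facts. The statements of FB3 (squarefree exponent) which are used again are
available as `O_Fa`, `O_Fb`, ... -/

set_option autoImplicit false

namespace Pool.Agent.Lib.MP_f44088_fc

open Pool.Agent.Lib.MP_f44088_fb (Sat InVar FGrp Cls Mono Rich IsChar Lam)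

/-- the statement of FB3 -/
abbrev O_Seq : Prop := Pool.Agent.Lib.MP_f44088_fb.S_Seq
/-- the statement of FB3 -/
abbrev O_Fa : Prop := Pool.Agent.Lib.MP_f44088_fb.S_Fa
/-- the statement of FB3 -/
abbrev O_Fb : Prop := Pool.Agent.Lib.MP_f44088_fb.S_Fb
/-- the statement of FB3 -/
abbrev O_Conj : Prop := Pool.Agent.Lib.MP_f44088_fb.S_Conj
/-- the statement of FB3 -/
abbrev O_Spn : Prop := Pool.Agent.Lib.MP_f44088_fb.S_Spn
/-- the statement of FB3 -/
abbrev O_RM : Prop := Pool.Agent.Lib.MP_f44088_fb.S_RM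
/-- the statement of FB3 -/
abbrev O_Joint : Prop := Pool.Agent.Lib.MP_f44088_fb.S_Joint
/-- the statement of FB3 -/
abbrev O_Ger : Prop := Pool.Agent.Lib.MP_f44088_fb.S_Ger
/-- the statement of FB3 -/
abbrev O_F2 : Prop := Pool.Agent.Lib.MP_f44088_fb.S_F2

/-- a subsequence on which a function with finitely many values is constant -/
theorem exists_const_subseq {α : Type} [Finite α] (f : ℕ → α) :
    ∃ s : ℕ → ℕ, StrictMono s ∧ ∃ a, ∀ i, f (s i) = a := by
  obtain ⟨a, ha⟩ : ∃ a, {i | f i = a}.Infinite := by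
    by_contra hcon
    have hfin : (⋃ a, {i | f i = a}).Finite := by
      apply Set.finite_iUnion
      intro a
      by_contra h
      exact hcon ⟨a, h⟩
    have huniv : (Set.univ : Set ℕ) ⊆ ⋃ a, {i | f i = a} := by
      intro i _
      simp only [Set.mem_iUnion]
      exact ⟨f i, rfl⟩
    exact Set.infinite_univ (hfin.subset huniv)
  exact ⟨Nat.nth (fun i => f i = a), Nat.nth_strictMono ha, a, fun i => Nat.nth_mem_of_infinite ha i⟩

/-- the group of all maps `v ↦ m + a * (v translated by x)` of the functions `K → R`, `R` a commutative ring -/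
@[ext] structure Aff (K R : Type) [CommRing R] where
  /-- the translation part -/
  m : K → R
  /-- the multiplier -/
  a : K → Rˣ
  /-- the shift -/
  x : K

namespace Aff

variable {K R : Type} [CommRing R] [AddCommGroup K]

instance : Mul (Aff K R) :=
  ⟨fun u v => ⟨fun y => u.m y + (u.a y : R) * v.m (y + u.x), fun y => u.a y * v.a (y + u.x), u.x + v.x⟩⟩

instance : One (Aff K R) := ⟨⟨0, 1, 0⟩⟩

instance : Inv (Aff K R) :=
  ⟨fun u => ⟨fun y => -(((u.a (y - u.x))⁻¹ : Rˣ) : R) * u.m (y - u.x), fun y => (u.a (y - u.x))⁻¹, -u.x⟩⟩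

theorem mul_m (u v : Aff K R) (y : K) : (u * v).m y = u.m y + (u.a y : R) * v.m (y + u.x) := rfl
theorem mul_a (u v : Aff K R) (y : K) : (u * v).a y = u.a y * v.a (y + u.x) := rfl
theorem mul_x (u v : Aff K R) : (u * v).x = u.x + v.x := rfl
theorem one_m (y : K) : (1 : Aff K R).m y = 0 := rfl
theorem one_a (y : K) : (1 : Aff K R).a y = 1 := rfl
theorem one_x : (1 : Aff K R).x = 0 := rfl
theorem inv_m (u : Aff K R) (y : K) :
    (u⁻¹).m y = -(((u.a (y - u.x))⁻¹ : Rˣ) : R) * u.m (y - u.x) := rfl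
theorem inv_a (u : Aff K R) (y : K) : (u⁻¹).a y = (u.a (y - u.x))⁻¹ := rfl
theorem inv_x (u : Aff K R) : (u⁻¹).x = -u.x := rfl

instance : Group (Aff K R) :=
  Group.ofLeftAxioms
    (by
      intro u v w
      apply Aff.ext
      · funext y
        simp only [mul_m, mul_a, mul_x, Units.val_mul, add_assoc]
        ring_nf
        try rfl
      · funext y
        simp only [mul_a, mul_x, add_assoc, mul_assoc]
      · simp only [mul_x, add_assoc])
    (by
      intro u
      apply Aff.ext
      · funext y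
        simp [mul_m, one_m, one_a, one_x]
      · funext y
        simp [mul_a, one_a, one_x]
      · simp [mul_x, one_x])
    (by
      intro u
      apply Aff.ext
      · funext y
        simp only [mul_m, inv_m, inv_a, inv_x, one_m, ← sub_eq_add_neg]
        ring
      · funext y
        simp only [mul_a, inv_a, inv_x, one_a, ← sub_eq_add_neg]
        simp
      · simp [mul_x, inv_x, one_x])

end Aff

/-- the ring of coefficients of the bottom layer: `R / p = k`, `p ^ e = 0`, multiplicative lifts `tau` -/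
structure GRing (p e : ℕ) (k R : Type) [Field k] [CommRing R] where
  /-- residue map -/
  res : R →+* k
  /-- multiplicative lifts -/
  tau : kˣ →* Rˣ
  /-- they are lifts -/
  res_tau : ∀ z : kˣ, res (tau z : R) = z
  /-- the kernel of the residue map is generated by `p` -/
  ker : ∀ x : R, res x = 0 → ∃ y, x = (p : R) * y
  /-- `p ^ e = 0` -/
  nil : (p : R) ^ e = 0
  /-- elements killed by `p ^ (e - 1)` are 0 modulo `p` -/
  top : ∀ x : R, (p : R) ^ (e - 1) * x = 0 → res x = 0

variable {K k R : Type} [Field k] [CommRing R] [AddCommGroup K]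

/-- the subgroup of `Aff K R` attached to the group of functions `A` and the group `Δ` of pairs (scalar, shift):
multipliers `y ↦ tau (c * f y)`, shift `x`, with `f ∈ A` and `(c, x) ∈ Δ` (for all translates) -/
def GA (τ : kˣ →* Rˣ) (A : Subgroup (K → kˣ)) (Δ : Subgroup (kˣ × Multiplicative K)) :
    Subgroup (Aff K R) where
  carrier := {u | ∀ z : K, ∃ c : kˣ, ∃ f ∈ A, (c, Multiplicative.ofAdd u.x) ∈ Δ ∧
    ∀ y, u.a (y + z) = τ (c * f y)}
  mul_mem' := by
    intro u v hu hv z
    obtain ⟨c1, f1, hf1, hc1, h1⟩ := hu z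
    obtain ⟨c2, f2, hf2, hc2, h2⟩ := hv (z + u.x)
    refine ⟨c1 * c2, f1 * f2, A.mul_mem hf1 hf2, Δ.mul_mem hc1 hc2, ?_⟩
    intro y
    rw [Aff.mul_a, h1 y, add_assoc, h2 y, ← map_mul]
    congr 1
    simp only [Pi.mul_apply]
    exact mul_mul_mul_comm _ _ _ _
  one_mem' := by
    intro z
    refine ⟨1, 1, A.one_mem, Δ.one_mem, ?_⟩
    intro y
    rw [Aff.one_a]
    simp
  inv_mem' := by
    intro u hu z
    obtain ⟨c, f, hf, hc, h⟩ := hu (z - u.x)
    refine ⟨c⁻¹, f⁻¹, A.inv_mem hf, Δ.inv_mem hc, ?_⟩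
    intro y
    rw [Aff.inv_a, add_sub_assoc, h y, ← map_inv]
    congr 1
    simp only [Pi.inv_apply]
    exact mul_inv _ _

/-- the conditions on a code `(A, Δ)` -/
structure IsCode (n : ℕ) (K k : Type) [Field k] [AddCommGroup K] (A : Subgroup (K → kˣ))
    (Δ : Subgroup (kˣ × Multiplicative K)) : Prop where
  /-- exponent of `K` -/
  expK : ∀ x : K, n • x = 0
  /-- exponent of `A` -/
  expA : ∀ f ∈ A, ∀ y, f y ^ n = 1
  /-- exponent of the scalars -/
  expD : ∀ c x, (c, x) ∈ Δ → c ^ n = 1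
  /-- translation invariance -/
  tr : ∀ f ∈ A, ∀ z : K, (fun y => f (y + z)) ∈ A
  /-- `r`-elements commute -/
  ag : ∀ r : ℕ, r.Prime → ∀ f ∈ A, (∃ j : ℕ, ∀ y, f y ^ (r ^ j) = 1) → ∀ x : K,
    (∃ j : ℕ, (r ^ j) • x = 0) → ∀ y, f (y + x) = f y
  /-- faithfulness -/
  ff : ∀ x : K, (∀ f ∈ A, ∀ y, f (y + x) = f y) → x = 0
  /-- every shift occurs -/
  onto : ∀ x : K, ∃ c, (c, Multiplicative.ofAdd x) ∈ Δ

/-- `(K₁, A₁, Δ₁)` is below `(K₂, A₂, Δ₂)` -/
def Below {K₁ K₂ k : Type} [Field k] [AddCommGroup K₁] [AddCommGroup K₂]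
    (A₁ : Subgroup (K₁ → kˣ)) (Δ₁ : Subgroup (kˣ × Multiplicative K₁))
    (A₂ : Subgroup (K₂ → kˣ)) (Δ₂ : Subgroup (kˣ × Multiplicative K₂)) : Prop :=
  ∃ φ : K₁ →+ K₂, Function.Injective φ ∧ (∀ f ∈ A₁, ∃ g ∈ A₂, ∀ y, f y = g (φ y)) ∧
    ∀ c x, (c, Multiplicative.ofAdd x) ∈ Δ₁ → (c, Multiplicative.ofAdd (φ x)) ∈ Δ₂

/-- a bundled code over `k` -/
structure Code (n : ℕ) (k : Type) [Field k] where
  /-- the finite abelian group -/
  K : Type
  /-- its group structure -/
  grp : AddCommGroup K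
  /-- finiteness -/
  fin : Finite K
  /-- the group of functions -/
  A : Subgroup (K → kˣ)
  /-- the group of scalars and shifts -/
  D : Subgroup (kˣ × Multiplicative K)
  /-- the conditions -/
  ok : IsCode n K k A D

attribute [instance] Code.grp Code.fin

/-- the reduction modulo `q` -/
noncomputable def redE (q h : ℕ) (hh : h ≠ 0) : (ℕ →₀ ZMod (q ^ h)) →+ (ℕ →₀ ZMod q) :=
  Finsupp.mapRange.addMonoidHom (ZMod.castHom (dvd_pow_self q hh) (ZMod q)).toAddMonoidHom

/-- the reductions of the `x` such that `v + q ^ t x` is in `Z` -/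
def Cla {ι : Type} (q : ι → ℕ) {X V : ι → Type} [∀ a, AddCommGroup (X a)] [∀ a, AddCommGroup (V a)]
    (red : ∀ a, X a →+ V a) (v : ∀ a, X a) (t : ι → ℕ) (Z : Set (∀ a, X a)) : Set (∀ a, V a) :=
  {w | ∃ z ∈ Z, ∃ x : ∀ a, X a, (∀ a, w a = red a (x a)) ∧ ∀ a, z a = v a + (q a ^ t a) • x a}

/-- the prime powers `q ^ h > 1` which divide `n` -/
abbrev Idx (n : ℕ) : Type := {a : ℕ × ℕ // a.1.Prime ∧ 0 < a.2 ∧ a.1 ^ a.2 ∣ n}

theorem finite_Idx (n : ℕ) (hn : 0 < n) : Finite (Idx n) := by
  have h : ∀ a : Idx n, a.1 ∈ Finset.product (Finset.range (n + 1)) (Finset.range (n + 1)) := by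
    intro a
    obtain ⟨⟨q, e⟩, hq, he, hd⟩ := a
    have hle : q ^ e ≤ n := Nat.le_of_dvd hn hd
    have h1 : q ≤ q ^ e := Nat.le_self_pow he.ne' q
    have h2 : e < q ^ e := Nat.lt_pow_self hq.one_lt
    simp only [Finset.product_eq_sprod, Finset.mem_product, Finset.mem_range]
    omega
  exact Finite.of_injective
    (fun a : Idx n => (⟨a.1, h a⟩ : {x // x ∈ Finset.product (Finset.range (n + 1)) (Finset.range (n + 1))}))
    (by
      intro a b hab
      apply Subtype.ext
      exact congrArg (fun x => x.1) hab)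

/-- a decomposition of `K` into cyclic groups of prime power order -/
structure Coord (n : ℕ) (K : Type) [AddCommGroup K] where
  /-- the number of cyclic summands of order `q ^ h` -/
  d : Idx n → ℕ
  /-- the isomorphism -/
  θ : K ≃+ (∀ a : Idx n, (Fin (d a) → ZMod (a.1.1 ^ a.1.2)))

/-- the pairing with a vector `l` (only the first `d a` coordinates are used) -/
def Coord.pair {n : ℕ} {K : Type} [AddCommGroup K] (c : Coord n K) (a : Idx n)
    (l : ℕ →₀ ZMod (a.1.1 ^ a.1.2)) (y : K) : ZMod (a.1.1 ^ a.1.2) :=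
  ∑ s : Fin (c.d a), l s * c.θ y a s

/-- convolution -/
def conv {K S : Type} [AddCommGroup K] [Fintype K] [CommRing S] (f g : K → S) (y : K) : S :=
  ∑ x : K, f x * g (y - x)

/-- the homomorphism `ZMod r → ZMod (r ^ N)`, `1 ↦ r ^ (N - 1)` -/
def inc (r N : ℕ) : ZMod r →+ ZMod (r ^ N) :=
  ZMod.lift r ⟨(zmultiplesHom (ZMod (r ^ N))) ((r : ZMod (r ^ N)) ^ (N - 1)), by
    simp only [zmultiplesHom_apply, zsmul_eq_mul, Int.cast_natCast]
    rcases Nat.eq_zero_or_pos N with h | h
    · subst h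
      have h0 : ∀ a : ZMod (r ^ 0), a = 0 := by
        rw [pow_zero]
        intro a
        exact Subsingleton.elim _ _
      exact h0 _
    · rw [← pow_succ', Nat.sub_add_cancel h]
      exact_mod_cast ZMod.natCast_self (r ^ N)⟩

/-- the functions `g : K → ZMod (r ^ N)`, `N` the exponent of `r` in `n`, whose exponential lies in `A` -/
def Dfull {K k : Type} [Field k] (n : ℕ) (ex : ∀ r : ℕ, ZMod (r ^ n.factorization r) →+ Additive kˣ)
    (A : Subgroup (K → kˣ)) (r : ℕ) : AddSubgroup (K → ZMod (r ^ n.factorization r)) where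
  carrier := {g | (fun y => Additive.toMul (ex r (g y))) ∈ A}
  add_mem' := by
    intro a b ha hb
    have h := A.mul_mem ha hb
    have e1 : (fun y => Additive.toMul (ex r ((a + b) y))) =
        (fun y => Additive.toMul (ex r (a y))) * (fun y => Additive.toMul (ex r (b y))) := by
      funext y
      simp [Pi.add_apply, map_add]
    show (fun y => Additive.toMul (ex r ((a + b) y))) ∈ A
    rw [e1]
    exact h
  zero_mem' := by
    show (fun y : K => Additive.toMul (ex r ((0 : K → ZMod (r ^ n.factorization r)) y))) ∈ A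
    have e1 : (fun y : K => Additive.toMul (ex r ((0 : K → ZMod (r ^ n.factorization r)) y))) = 1 := by
      funext y
      simp
    rw [e1]
    exact A.one_mem
  neg_mem' := by
    intro a ha
    have h := A.inv_mem ha
    have e1 : (fun y => Additive.toMul (ex r ((-a) y))) =
        (fun y => Additive.toMul (ex r (a y)))⁻¹ := by
      funext y
      simp [Pi.neg_apply, map_neg]
    show (fun y => Additive.toMul (ex r ((-a) y))) ∈ A
    rw [e1]
    exact h

/-- the functions `h : K → ZMod r` such that `inc ∘ h = r ^ t • g` for some `g` in `Dfull` -/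
def Dof {K k : Type} [Field k] (n : ℕ) (ex : ∀ r : ℕ, ZMod (r ^ n.factorization r) →+ Additive kˣ)
    (A : Subgroup (K → kˣ)) (r t : ℕ) : AddSubgroup (K → ZMod r) :=
  ((Dfull n ex A r).map (nsmulAddMonoidHom (r ^ t))).comap ((inc r (n.factorization r)).compLeft K)

theorem mem_Dof {K k : Type} [Field k] (n : ℕ)
    (ex : ∀ r : ℕ, ZMod (r ^ n.factorization r) →+ Additive kˣ)
    (A : Subgroup (K → kˣ)) (r t : ℕ) (h : K → ZMod r) :
    h ∈ Dof n ex A r t ↔ ∃ g ∈ Dfull n ex A r, ∀ y, (r ^ t) • g y = inc r (n.factorization r) (h y) := by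
  constructor
  · rintro ⟨g, hg, hh⟩
    exact ⟨g, hg, fun y => congrFun hh y⟩
  · rintro ⟨g, hg, hh⟩
    exact ⟨g, hg, funext hh⟩

/-- the exponentials are isomorphisms onto the `r ^ N`-th roots of unity -/
def IsExp (n p : ℕ) (k : Type) [Field k] (ex : ∀ r : ℕ, ZMod (r ^ n.factorization r) →+ Additive kˣ) :
    Prop :=
  ∀ r ∈ n.primeFactors.erase p, Function.Injective (ex r) ∧
    ∀ z : kˣ, z ^ (r ^ n.factorization r) = 1 → ∃ t, Additive.toMul (ex r t) = z

/-- the pairs `(r, t)`, `r ≠ p` a prime factor of `n`, `t` smaller than the exponent of `r` in `n` -/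
abbrev QQ (n p : ℕ) : Type := {c : ℕ × ℕ // c.1 ∈ n.primeFactors.erase p ∧ c.2 < n.factorization c.1}

theorem finite_QQ (n p : ℕ) : Finite (QQ n p) := by
  have h : ∀ c : QQ n p, c.1 ∈ Finset.product (n.primeFactors)
      (Finset.range (n.primeFactors.sup n.factorization + 1)) := by
    intro c
    obtain ⟨⟨r, t⟩, hr, ht⟩ := c
    have hr' : r ∈ n.primeFactors := Finset.mem_of_mem_erase hr
    have h1 : n.factorization r ≤ n.primeFactors.sup n.factorization := Finset.le_sup hr'
    have ht' : t < n.factorization r := ht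
    simp only [Finset.product_eq_sprod, Finset.mem_product, Finset.mem_range]
    exact ⟨hr', by omega⟩
  exact Finite.of_injective
    (fun c : QQ n p => (⟨c.1, h c⟩ : {x // x ∈ Finset.product (n.primeFactors)
      (Finset.range (n.primeFactors.sup n.factorization + 1))}))
    (by
      intro a b hab
      apply Subtype.ext
      exact congrArg (fun x => x.1) hab)

/-- the conditions on an additive code -/
structure IsD (n : ℕ) (Q : Type) (rr : Q → ℕ) (K k : Type) [Field k] [AddCommGroup K]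
    (D : ∀ c : Q, AddSubgroup (K → ZMod (rr c))) (Λ : K → k) : Prop where
  expK : ∀ x : K, n • x = 0
  tr : ∀ c, ∀ f ∈ D c, ∀ z : K, (fun y => f (y + z)) ∈ D c
  rinv : ∀ c, ∀ f ∈ D c, ∀ x : K, (∃ j : ℕ, (rr c ^ j) • x = 0) → ∀ y, f (y + x) = f y
  ff : ∀ x : K, (∀ c, ∀ f ∈ D c, ∀ y, f (y + x) = f y) → x = 0
  ch : IsChar Λ

/-- a bundled additive code -/
structure DCode (n : ℕ) (Q : Type) (rr : Q → ℕ) (k : Type) [Field k] where
  K : Type
  grp : AddCommGroup K
  fin : Finite K
  D : ∀ c : Q, AddSubgroup (K → ZMod (rr c))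
  Λ : K → k
  ok : IsD n Q rr K k D Λ

attribute [instance] DCode.grp DCode.fin

end Pool.Agent.Lib.MP_f44088_fc
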