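import Mathlib
import Pool.Agent.Lib.MP_f44088_al.FB4.Defs

/-! Project FB4 (MP_f44088_al), statements of the well quasi order part. Every docstring contains the complete proof. -/

set_option autoImplicit false

namespace Pool.Agent.Lib.MP_f44088_fc

open Pool.Agent.Lib.MP_f44088_fb (Sat InVar FGrp Cls Mono Rich IsChar Lam)

/-! ## Part L: coloured point sets in modules over `Z / q ^ h` -/

/-- (Str) Structure of an arbitrary set of points. Allowed hypothesis: `O_RM`. `X a` is an abelian group, `V a = X a / q X a`.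
For `v0, t0` let `Z_(v0,t0) = {z ∈ Z : z a ∈ v0 a + q^(t0 a) X a for all a}`, `Cl(v0,t0) = Cla q red v0 t0 Z`. PROOF. Show
by induction on `∑_a (h a - t0 a)` (natural subtraction): for all `v0, t0` and all finite dimensional `U0` the set
`Z_(v0,t0)` has a structure with `U ≥ U0` which covers `Z_(v0,t0)`. Let `J = {a : t0 a < h a}`. If `Rich U0 J Cl(v0,t0)`:
one class. Otherwise let `N` be the largest number for which there are `N` points of `Cl(v0,t0)`, independent modulo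
`U0 a` for all `a ∈ J` (`N = 0` is possible), `w 1 .. w N` such points, `U1 a = U0 a + span (w s a)` for all `a`: finite
dimensional, so finite (`ZMod (q a)` is finite). For every element `c` of `U1 a` choose a lift `c~ ∈ X a`
(`red` is onto). Let `z ∈ Z_(v0,t0)`, `z a = v0 a + q^(t0 a) x a`. By maximality the point `(red (x a))_a` of the class
together with `w` is not independent: there is `a ∈ J` with `red (x a) = c ∈ U1 a`; so `x a = c~ + q x'` (`hker`) and
`z a = (v0 a + q^(t0 a) c~) + q^(t0 a + 1) x'`: `z ∈ Z_(v1,t1)` where `v1, t1` are `v0, t0` with the component `a`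
changed to `v0 a + q^(t0 a) c~`, `t0 a + 1`. There are finitely many such `(a, c)`; by induction each has a
structure with some `U_(a,c) ≥ U1`. Let `U` be the sum of all of them (and `U0`), `T` the disjoint union of the index
types (`Empty` if there are no `(a, c)`); richness is preserved by `O_RM`. Finally take `v0 = 0`, `t0 = 0`, `U0 = ⊥`. -/
def S_Str : Prop :=
  ∀ (ι : Type) [Finite ι] (q h : ι → ℕ) [∀ a, Fact (q a).Prime] (X V : ι → Type)
    [∀ a, AddCommGroup (X a)] [∀ a, AddCommGroup (V a)] [∀ a, Module (ZMod (q a)) (V a)]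
    (red : ∀ a, X a →+ V a), (∀ a, Function.Surjective (red a)) →
    (∀ a x, red a x = 0 → ∃ y, x = (q a) • y) → ∀ Z : Set (∀ a, X a),
    ∃ (U : ∀ a, Submodule (ZMod (q a)) (V a)) (T : Type) (v : T → ∀ a, X a) (t : T → ι → ℕ),
      (∀ a, (U a).FG) ∧ Finite T ∧ (∀ z ∈ Z, ∃ s, ∀ a, ∃ x, z a = v s a + (q a ^ t s a) • x) ∧
      ∀ s, Rich U {a | t s a < h a} (Cla q red (v s) (t s) Z)

/-- (Pur) Finitely many elements lie in the span of elements which are independent modulo `q`. No hypotheses. PROOF.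
Add one element at a time: let `b 1 .. b r` have independent images `red (b s)`, `x ∈ X`. Let `t ≤ h` be maximal
with `x = β + q^t w` for some `β` in the ℤ-span of the `b` and `w ∈ X` (`t = 0` is possible). If `t = h`, `x = β`. If
`t < h`: `red w` is not in the span of the `red (b s)`: otherwise `w - β'` is in the kernel of `red` for some `β'` in the
ℤ-span, `w = β' + q w'`, `x = β + q^t β' + q^(t+1) w'`. So `b, w` are independent and `x` is in their span. -/
def S_Pur : Prop :=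
  ∀ (q h : ℕ) [Fact q.Prime] (X V : Type) [AddCommGroup X] [AddCommGroup V] [Module (ZMod q) V]
    (red : X →+ V), (∀ x, red x = 0 → ∃ y, x = q • y) → (∀ x : X, (q ^ h) • x = 0) →
    ∀ (T : Type) [Finite T] (v : T → X), ∃ (r : ℕ) (b : Fin r → X) (c : T → Fin r → ℤ),
      LinearIndependent (ZMod q) (fun s => red (b s)) ∧ ∀ t, v t = ∑ s, c t s • b s

/-- (Lif) Prescribed values. No hypotheses. PROOF. Choose functionals `ρ' s : (ℕ →₀ ZMod q) → ZMod q` with
`ρ' s (red x_(s')) = δ` (independent vectors), lift them to linear functionals `ρ s : (ℕ →₀ ZMod (q^h)) → ZMod (q^h)`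
(lift the values at the basis vectors). The matrix `M = (ρ s (x s'))` is the identity modulo `q`, so its determinant
is a unit of `ZMod (q^h)` and `M` is invertible; `π y = ∑_s (M^(-1) (ρ y))_s • t s`. -/
def S_Lif : Prop :=
  ∀ (q h : ℕ) [Fact q.Prime] (hh : h ≠ 0) (S : Type) [Finite S] (x t : S → (ℕ →₀ ZMod (q ^ h))),
    LinearIndependent (ZMod q) (fun s => redE q h hh (x s)) →
    ∃ π : (ℕ →₀ ZMod (q ^ h)) →+ (ℕ →₀ ZMod (q ^ h)), ∀ s, π (x s) = t s

/-- (LW) The lemma: finite coloured sets of points in products of free modules over `ZMod (q^h)` are well quasi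
ordered by linear images. Allowed hypotheses: `S_Str`, `S_Pur`, `S_Lif`, `O_RM`, `O_Joint`, `O_Ger`. PROOF. `𝒰 = hyperfilter
ℕ`, `E a = ℕ →₀ ZMod (q a ^ h a)`, `E' a = ℕ →₀ ZMod (q a)`, `X a = Germ 𝒰 (E a)`, `V a = Germ 𝒰 (E' a)`, `red a` induced by
`redE` (onto, as `redE` is; kernel `q X`). `Z* c` = the set of the `z` whose coordinates are the germs of a sequence `ζ`
with `ζ i ∈ Z i c` for almost all `i`. For every colour `S_Str` gives `U^c, T^c, v, t`; let `U` be the sum of the `U^c`,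
`T = Σ c, T^c` (finite). `S_Pur` for the `v s a` (`s ∈ T`), for every `a`: `b a 1 .. b a (r a)`, `v s a = ∑ coef • b a l`. Let
`U' a = U a + span (red (b a l))`; all classes are rich modulo `U'` by `O_RM`. Choose representatives `b a l i ∈ E a` and
put `v s a i = ∑ coef • b a l i`. (A) For almost all `i`: for all `c` and `z ∈ Z i c` there is `s ∈ T^c` with
`z a ∈ v s a i + q^(t s a) E a` for all `a`. Otherwise, for some `c`, for almost all `i` there is a bad `z i ∈ Z i c`; its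
germ is in `Z* c`, so it lies in a class `s`, so `z i a = v s a i + q^(t s a) x i a` for almost all `i`: contradiction.
Fix `i` with (A). For `s ∈ T^c` let `z_(s,m)`, `m < N s`, be the elements of `Z i c` in the class `s`:
`z_(s,m) a = v s a i + q^(t s a) W_(s,m) a`. `O_Joint` (for the sets `Cla q red (v s) (t s) (Z* c)` and `U'`) gives points
`w_(s,m)` of these sets with independent coordinates modulo `U' a` (the `(s,m)` with `t s a < h a`); they come from
`y_(s,m) ∈ Z* c`, `y_(s,m) a = v s a + q^(t s a) x_(s,m) a`, `red (x_(s,m) a) = w_(s,m) a`. The family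
`(red (b a l)) ∪ (w_(s,m) a)_(t s a < h a)` is linearly independent in `V a`, so by `O_Ger` for almost all `j` the family
`(redE (b a l j)) ∪ (redE (x_(s,m) a j))` is independent in `E' a`, and `y_(s,m) j ∈ Z j c`, `y_(s,m) j a = v s a j +
q^(t s a) x_(s,m) a j`. Take such a `j > i`. `S_Lif`: `π a` with `b a l j ↦ b a l i`, `x_(s,m) a j ↦ W_(s,m) a` (if
`t s a < h a`). Then `π a (v s a j) = v s a i` and `π a (y_(s,m) j a) = z_(s,m) a` (if `t s a ≥ h a` the second term is 0 on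
both sides). -/
def S_LW : Prop :=
  ∀ (ι : Type) [Finite ι] (q h : ι → ℕ), (∀ a, (q a).Prime) → (∀ a, h a ≠ 0) → ∀ (C : Type) [Finite C]
    (Z : ℕ → C → Set (∀ a, ℕ →₀ ZMod (q a ^ h a))), (∀ i c, (Z i c).Finite) →
    ∃ i j, i < j ∧ ∃ π : ∀ a, (ℕ →₀ ZMod (q a ^ h a)) →+ (ℕ →₀ ZMod (q a ^ h a)),
      ∀ c, ∀ z ∈ Z i c, ∃ z' ∈ Z j c, ∀ a, π a (z' a) = z a

/-! ## Part D: duality and Fourier transform -/

/-- (Coo) Coordinates exist. No hypotheses. PROOF. `AddCommGroup.equiv_directSum_zmod_of_finite`: `K` is a direct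
sum of cyclic groups `ZMod (p j ^ e j)`; those with `e j = 0` are trivial; for the others `p j ^ e j` divides `n` (an
element of this order is killed by `n`). Collect the summands with the same `(p j, e j)`: `d a` = their number. -/
def S_Coo : Prop :=
  ∀ n : ℕ, 0 < n → ∀ (K : Type) [AddCommGroup K] [Finite K], (∀ x : K, n • x = 0) → Nonempty (Coord n K)

/-- (Dual) Linear maps between the coordinate spaces come from a homomorphism. No hypotheses. PROOF. `φ y` is the
element of `K₂` with the coordinates `c₂.θ (φ y) a s = c₁.pair a (π a (Finsupp.single s 1)) y`; additive in `y`. For `l`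
with `l s = 0` for `s ≥ c₂.d a`: `l = ∑_(s < d a) single s (l s)`, so `c₂.pair a l (φ y) = ∑_s l s * c₁.pair a (π a (single s 1)) y
= c₁.pair a (π a l) y` (`π a` is `ZMod`-linear since it is additive). -/
def S_Dual : Prop :=
  ∀ (n : ℕ) (K₁ K₂ : Type) [AddCommGroup K₁] [AddCommGroup K₂] (c₁ : Coord n K₁) (c₂ : Coord n K₂)
    (π : ∀ a : Idx n, (ℕ →₀ ZMod (a.1.1 ^ a.1.2)) →+ (ℕ →₀ ZMod (a.1.1 ^ a.1.2))),
    ∃ φ : K₁ →+ K₂, ∀ (a : Idx n) (l : ℕ →₀ ZMod (a.1.1 ^ a.1.2)), (∀ s, c₂.d a ≤ s → l s = 0) →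
      ∀ y : K₁, c₂.pair a l (φ y) = c₁.pair a (π a l) y

/-- (Ch) Logarithms of characters. No hypotheses. PROOF. For `a = (q, h)` with `q ≠ r` let `ζ a ∈ F` be a primitive
`q^h`-th root of unity (`F` algebraically closed of characteristic `r ≠ q`), `E a t = (ζ a)^(t.val)`; for `q = r` put
`E a t = 1`. Let `χ` be a character of `K`; for `a` and `s < d a` let `g` be the element of `K` with the single coordinate 1
at `(a, s)`. `χ g` is a `q^h`-th root of unity; for `q ≠ r`, `χ g = (ζ a)^(l a s)`; for `q = r`, `χ g = 1`, `l a s = 0`.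
`y = ∑ (coordinates of y) g`, so `χ y = ∏_(a,s) (ζ a)^(l a s * θ y a s) = ∏_a E a (pair a (l a) y)`. -/
def S_Ch : Prop :=
  ∀ n : ℕ, 0 < n → ∀ (r : ℕ), r.Prime → ∀ (F : Type) [Field F] [IsAlgClosed F] [CharP F r],
    ∃ E : ∀ a : Idx n, ZMod (a.1.1 ^ a.1.2) → F, ∀ (K : Type) [AddCommGroup K] [Finite K]
      (c : Coord n K) (χ : K → F), IsChar χ →
      ∃ l : ∀ a : Idx n, (ℕ →₀ ZMod (a.1.1 ^ a.1.2)), (∀ a s, c.d a ≤ s → l a s = 0) ∧
        ∀ y, χ y = ∏ᶠ a : Idx n, E a (c.pair a (l a) y)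

/-- (F1) Fourier transform. No hypotheses. PROOF. `V` = the span in the definition of `Lam`, a subspace of `K → F`,
invariant under the translations `T x`, `(T x g) y = g (y + x)`. `K = K_r ⊕ K'`, `K_r` the `r`-part, `K'` of order
`m` prime to `r`. `T x` is the identity on `V` for `x ∈ K_r`; for a character `c : K' → F` put
`g_c = (1/m) ∑_(x ∈ K') c(-x) T x g`, an eigenvector or 0, and `∑_c g_c = g` (there are `m` characters `K' → F`; sum over
them of `c(-x)` is 0 for `x ≠ 0`). A common eigenvector `g ≠ 0`: `g (y + x) = c x · g y`; `c` (extended by 1 on `K_r`) is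
a character of `K`, `g y = g 0 · c y`, `g 0 ≠ 0`, so `c ∈ V`, `c ∈ Lam D`. So `V` is the span of `Lam D`, and it contains
the function of the statement. (As `S_F1` of FB3, where `n` was squarefree.) -/
def S_F1 : Prop :=
  ∀ (r : ℕ), r.Prime → ∀ (F : Type) [Field F] [IsAlgClosed F] [CharP F r]
    (K : Type) [AddCommGroup K] [Finite K],
    ∀ D : AddSubgroup (K → ZMod r), (∀ f ∈ D, ∀ z : K, (fun y => f (y + z)) ∈ D) →
      (∀ f ∈ D, ∀ x : K, (∃ j : ℕ, (r ^ j) • x = 0) → ∀ y, f (y + x) = f y) →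
      ∀ f ∈ D, (fun y => ZMod.castHom (dvd_refl r) F (f y)) ∈ Submodule.span F (Lam (F := F) D)

/-- (WD) Well quasi order of the additive codes. Allowed hypotheses: `S_LW`, `S_Coo`, `S_Dual`, `S_Ch`, `S_F1`, `O_F2`.
PROOF. `ι = Idx n` (finite), `q a = a.1.1`, `h a = a.1.2`, colours `C = Option Q`. `F c = AlgebraicClosure (ZMod (rr c))`,
`E^c` from `S_Ch` with `r = rr c`; `E^none` from `S_Ch` with `r = p`, `F = k`. Coordinates `co i` of `K i` from `S_Coo`. For
`l ∈ ∏_a (ℕ →₀ ZMod)` with `l a s = 0` for `s ≥ d a` put `char l y = ∏ᶠ a, E a (pair a (l a) y)`. `Z i (some c)` = the set of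
these `l` for which `char l` (with `E^c`) is in `Lam (D_i c)`, `Z i none` = the set of these `l` for which `char l` (with
`E^none`) is `Λ_i`. Finite sets (bounded support, finite values). `S_LW`: `i < j` and `π a`; `S_Dual`: `φ : K_i →+ K_j`
(`K₁ = K_i`, `K₂ = K_j`). For `z ∈ Z i c` there is `z' ∈ Z j c` with `π a (z' a) = z a`, so `pair_j a (z' a) (φ y) =
pair_i a (z a) y` and `char z y = char z' (φ y)`. By `S_Ch` every `μ ∈ Lam (D_i c)` is `char z` with `z ∈ Z i c`, so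
`μ = μ' ∘ φ` with `μ' ∈ Lam (D_j c)`; with `S_F1` (for `D_i c`) `O_F2` gives the statement for `D c`. `Λ_i = char z`,
`z ∈ Z i none`, so `Λ_i = Λ_j ∘ φ`. `φ` injective: if `φ x = 0` then `f (y + x) = g (φ y + φ x) = f y` for all `c`, `f`, so
`x = 0` by `ff`. -/
def S_WD : Prop :=
  ∀ n : ℕ, 0 < n → ∀ p : ℕ, p.Prime → ∀ (k : Type) [Field k] [IsAlgClosed k] [CharP k p] (Q : Type) [Finite Q]
    (rr : Q → ℕ), (∀ c, (rr c).Prime) → ∀ d : ℕ → DCode n Q rr k,
    ∃ i j, i < j ∧ ∃ φ : (d i).K →+ (d j).K, Function.Injective φ ∧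
      (∀ c, ∀ f ∈ (d i).D c, ∃ g ∈ (d j).D c, ∀ y, f y = g (φ y)) ∧ ∀ y, (d i).Λ y = (d j).Λ (φ y)

/-! ## Part M: lifting from `ZMod r` to `ZMod (r ^ N)` -/

/-- (Reg) Idempotents. No hypotheses. PROOF. `conv` is the multiplication of the commutative ring
`AddMonoidAlgebra (ZMod (r^N)) K` (`AddMonoidAlgebra.mul_apply`; or check associativity and commutativity of `conv`
directly). If `N = 0` all functions are equal. Let `N > 0`, `s > 0` with `r^s ≡ 1 mod m`, `M = r^s ≥ 2`. In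
`AddMonoidAlgebra (ZMod r) K` (characteristic `r`) the map `x ↦ x^M` is a ring homomorphism which fixes all
`single x a` (`M • x = x`, `a^r = a`), so it is the identity. So the power `u^M` is `u` modulo `r`: `u^M = u + r • w`.
`γ = u^(M-1)`, and for every `f`, `γ f = (u^(M-2) f) u`. -/
def S_Reg : Prop :=
  ∀ (r N m : ℕ), r.Prime → m.Coprime r → ∀ (K : Type) [AddCommGroup K] [Fintype K],
    (∀ x : K, m • x = 0) → ∀ u : K → ZMod (r ^ N),
    ∃ γ : K → ZMod (r ^ N), (∀ f : K → ZMod (r ^ N), ∃ δ : K → ZMod (r ^ N), conv γ f = conv δ u) ∧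
      ∃ w : K → ZMod (r ^ N), conv γ u = u + r • w

/-- (ML0) Comparison of two invariant groups. Allowed hypothesis: `S_Reg`. PROOF. `D` and `P` are closed under
`conv γ` (`conv γ f` is an integral combination of translates of `f`). Show by induction on `t ≤ N`: every `f ∈ D` with
`r^t • f = 0` is in `P`. `t = 0`: clear. Let `t < N`, `f ∈ D`, `r^(t+1) • f = 0`; `g ∈ P` with `r^t • f = r^t • g`; so
`r^(t+1) • g = 0`. Let `j = N - 1 - t`; pointwise `f = r^j • f'`, `g = r^j • g'`; `r^(N-1) • (g' - f') = 0`, so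
`g' = f' + r • h`. `S_Reg` for `u = f'`: `conv γ f' = f' + r • w`, `conv γ h = conv δ f'`. `conv γ g = conv γ f + r^(j+1) •
conv γ h = conv γ f + r • conv δ f =: p1`, in `P` (left side) and in `D` (right side). `r^t • (f - p1) = r^t • (f - conv γ f)
= r^(N-1) • (f' - conv γ f') = - r^N • w = 0` (and `r^(t+1) • conv δ f = 0`). By induction `f - p1 ∈ P`, so `f ∈ P`. -/
def S_ML0 : Prop :=
  ∀ (r N m : ℕ), r.Prime → m.Coprime r → ∀ (K : Type) [AddCommGroup K] [Finite K], (∀ x : K, m • x = 0) →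
    ∀ D P : AddSubgroup (K → ZMod (r ^ N)), (∀ f ∈ D, ∀ z : K, (fun y => f (y + z)) ∈ D) →
      (∀ f ∈ P, ∀ z : K, (fun y => f (y + z)) ∈ P) →
      (∀ t < N, ∀ f ∈ D, (r ^ (t + 1)) • f = 0 → ∃ g ∈ P, (r ^ t) • f = (r ^ t) • g) → D ≤ P

/-- (ML) The same for groups of functions which are invariant under the `r`-part of `K`. Allowed hypothesis: `S_ML0`.
PROOF. `Nat.card K = r^a m`, `m` prime to `r`; `K' = {x : m • x = 0}` (a subgroup), `K_r = {x : r^a • x = 0}`; every `y ∈ K` is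
`y' + x` with `y' ∈ K'`, `x ∈ K_r` (integers with `u m + v r^a = 1`). Restriction to `K'` maps `D`, `P` to translation
invariant subgroups `D'`, `P'` which satisfy the hypothesis of `S_ML0` (an invariant function which vanishes on
`K'` is 0: `r^(t+1) • f|K' = 0` implies `r^(t+1) • f = 0`). So for `f ∈ D` there is `g ∈ P` with the same restriction to `K'`,
and `f = g` by the invariance. -/
def S_ML : Prop :=
  ∀ (r N : ℕ), r.Prime → ∀ (K : Type) [AddCommGroup K] [Finite K],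
    ∀ D P : AddSubgroup (K → ZMod (r ^ N)), (∀ f ∈ D, ∀ z : K, (fun y => f (y + z)) ∈ D) →
      (∀ f ∈ P, ∀ z : K, (fun y => f (y + z)) ∈ P) →
      (∀ f ∈ D, ∀ x : K, (∃ j : ℕ, (r ^ j) • x = 0) → ∀ y, f (y + x) = f y) →
      (∀ f ∈ P, ∀ x : K, (∃ j : ℕ, (r ^ j) • x = 0) → ∀ y, f (y + x) = f y) →
      (∀ t < N, ∀ f ∈ D, (r ^ (t + 1)) • f = 0 → ∃ g ∈ P, (r ^ t) • f = (r ^ t) • g) → D ≤ P

/-! ## Part T: translation of the codes -/

/-- (Tr1) The exponentials. No hypotheses. PROOF. For a prime `r ≠ p` there is a primitive `r^N`-th root of unity `ζ` in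
`k` (algebraically closed of characteristic `p`); `ex r` = the homomorphism `t ↦ ζ^t` (`ZMod.lift`), injective as `ζ`
has order `r^N`; every `z` with `z^(r^N) = 1` is a power of `ζ`. For other `r` take 0. -/
def S_Tr1 : Prop :=
  ∀ n p : ℕ, p.Prime → ∀ (k : Type) [Field k] [IsAlgClosed k] [CharP k p],
    ∃ ex : ∀ r : ℕ, ZMod (r ^ n.factorization r) →+ Additive kˣ, IsExp n p k ex

/-- (Pow) Decomposition of a function with values in the `n`-th roots of unity. No hypotheses. PROOF. Integers `m r`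
(`r ∈ n.primeFactors`) with `m r ≡ 1` modulo `r^(N r)`, `N r = n.factorization r`, and `m r ≡ 0` modulo `n / r^(N r)`;
`∑ m r ≡ 1 mod n`, so `f = ∏ f^(m r)` (`f^n = 1`). `(f^(m r))^(r^(N r)) = 1` (`n` divides `m r · r^(N r)`). For `r = p` in
characteristic `p`, `z^(p^N) = 1` implies `z = 1`, so `f^(m p) = 1`. For `r ≠ p`: `f^(m r) = ex ∘ g r` with
`g r : K → ZMod (r^N)` (`IsExp`), and `f^(m r) ∈ A`, so `g r ∈ Dfull n ex A r`. -/
def S_Pow : Prop :=
  ∀ n p : ℕ, 0 < n → p.Prime → ∀ (k : Type) [Field k] [CharP k p]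
    (ex : ∀ r : ℕ, ZMod (r ^ n.factorization r) →+ Additive kˣ), IsExp n p k ex →
    ∀ (K : Type) [AddCommGroup K] (A : Subgroup (K → kˣ)) (f : K → kˣ), f ∈ A → (∀ y, f y ^ n = 1) →
      ∃ g : ∀ r : ℕ, K → ZMod (r ^ n.factorization r), (∀ r ∈ n.primeFactors.erase p, g r ∈ Dfull n ex A r) ∧
        ∀ y, f y = ∏ r ∈ n.primeFactors.erase p, Additive.toMul (ex r (g r y))

/-- (Tr2) The additive code of a code. Allowed hypothesis: `S_Pow`. PROOF. `expK`: same. Let `r ∈ n.primeFactors.erase p`,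
`N = n.factorization r > 0`. (i) the functions `g ∈ Dfull r` are translation invariant as a set (`tr`) and invariant
under the `r`-elements `x`: `f = ex ∘ g` has `f^(r^N) = 1`, so `f (y + x) = f y` by `ag`, `ex r` is injective. (ii) For
`h ∈ Dof r t`: `inc ∘ h = r^t • g`; `inc` is injective (`N > 0`); so `tr` and `rinv` follow from (i). `ff`: let `x` be such
that `h (y + x) = h y` for all `r` and `h ∈ Dof r 0`. Claim: `g (y + x) = g y` for all `g ∈ Dfull r`. Let
`δ y = g (y + x) - g y`, `δ ∈ Dfull r`, suppose `δ ≠ 0`; let `t` be maximal with `δ' = r^t • δ ≠ 0`; `r • δ' = 0`, so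
`δ' = inc ∘ h` (elements of `ZMod (r^N)` killed by `r` are in the image of `inc`) with `h ∈ Dof r 0`, so `δ'` is invariant
under `x`. Let `m > 0` be prime to `r` with `m • x` an `r`-element (the order of `x` without its `r`-part). Then
`∑_(s < m) δ (y + s x) = g (y + m x) - g y = 0`, so `0 = ∑_(s < m) δ' (y + s x) = m • δ' y`, `δ' = 0`: contradiction. So for
`f ∈ A`, by `S_Pow`, `f` is invariant under `x`; so `x = 0` by `ff` of `IsCode`. -/
def S_Tr2 : Prop :=
  ∀ n p : ℕ, 0 < n → p.Prime → ∀ (k : Type) [Field k] [CharP k p]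
    (ex : ∀ r : ℕ, ZMod (r ^ n.factorization r) →+ Additive kˣ), IsExp n p k ex →
    ∀ (K : Type) [AddCommGroup K] [Finite K] (A : Subgroup (K → kˣ))
      (Δ : Subgroup (kˣ × Multiplicative K)), IsCode n K k A Δ → ∀ Λ : K → k, IsChar Λ →
      IsD n (QQ n p) (fun c => c.1.1) K k (fun c => Dof n ex A c.1.1 c.1.2) Λ

/-- (Lmd) The character of the scalars. No hypotheses. PROOF. `Δ0 = {z : (z, 1) ∈ Δ}` is a subgroup of `kˣ`, finite (its
elements are `n`-th roots of unity, `n > 0`), of order `m0`; so `z^(m0) = 1` for `z ∈ Δ0`, and as `z^(m0) = 1` has at most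
`m0` solutions in `k`: `z ∈ Δ0 ↔ z^(m0) = 1`. For `x ∈ K` choose `c_x` with `(c_x, x) ∈ Δ` (`onto`), `Λ x = (c_x)^(m0)`. `(z, x) ∈ Δ`
iff `z / c_x ∈ Δ0` iff `z^(m0) = Λ x`. Character: `(c_x c_y, x + y) ∈ Δ`, `(1, 0) ∈ Δ`. -/
def S_Lmd : Prop :=
  ∀ n : ℕ, 0 < n → ∀ (K k : Type) [Field k] [AddCommGroup K] (A : Subgroup (K → kˣ))
    (Δ : Subgroup (kˣ × Multiplicative K)), IsCode n K k A Δ →
    ∃ Λ : K → k, IsChar Λ ∧ ∀ (z : kˣ) (x : K), ((z, Multiplicative.ofAdd x) ∈ Δ ↔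
      (z : k) ^ (Nat.card {z : kˣ // (z, (1 : Multiplicative K)) ∈ Δ}) = Λ x)

/-- (Tr3) Comparison. Allowed hypotheses: `S_Pow`, `S_ML`. PROOF. The condition on `Δ`: `(z, x) ∈ Δ₁` iff `z^m = Λ₁ x =
Λ₂ (φ x)` iff `(z, φ x) ∈ Δ₂`. Let `r ∈ n.primeFactors.erase p`, `N = n.factorization r`. Claim: every `f ∈ Dfull n ex A₁ r` is
`g ∘ φ` with `g ∈ Dfull n ex A₂ r`. Apply `S_ML` to `D = Dfull n ex A₁ r` and `P = {g ∘ φ : g ∈ Dfull n ex A₂ r}`: both are
translation invariant (`tr`) and invariant under the `r`-elements `x` of `K₁` (`ag`, `ex r` injective; `φ x` is an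
`r`-element). If `f ∈ D`, `t < N`, `r^(t+1) • f = 0`: `r^t • f = inc ∘ h` (elements killed by `r` are in the image of `inc`),
`h ∈ Dof n ex A₁ r t`, so `h = h' ∘ φ`, `h' ∈ Dof n ex A₂ r t`, `inc ∘ h' = r^t • g'` with `g' ∈ Dfull n ex A₂ r`, and
`r^t • f = r^t • (g' ∘ φ)`. Now let `f ∈ A₁`; `S_Pow`: `f = ∏ ex (g r)`, `g r = g' r ∘ φ`, `g' r ∈ Dfull n ex A₂ r`, so
`f = F ∘ φ` with `F = ∏ ex (g' r) ∈ A₂`. -/
def S_Tr3 : Prop :=
  ∀ n p : ℕ, 0 < n → p.Prime → ∀ (k : Type) [Field k] [CharP k p]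
    (ex : ∀ r : ℕ, ZMod (r ^ n.factorization r) →+ Additive kˣ), IsExp n p k ex →
    ∀ (K₁ K₂ : Type) [AddCommGroup K₁] [AddCommGroup K₂] [Finite K₁] [Finite K₂]
      (A₁ : Subgroup (K₁ → kˣ)) (Δ₁ : Subgroup (kˣ × Multiplicative K₁))
      (A₂ : Subgroup (K₂ → kˣ)) (Δ₂ : Subgroup (kˣ × Multiplicative K₂)),
      IsCode n K₁ k A₁ Δ₁ → IsCode n K₂ k A₂ Δ₂ → ∀ (m : ℕ) (Λ₁ : K₁ → k) (Λ₂ : K₂ → k),
      (∀ (z : kˣ) (x : K₁), ((z, Multiplicative.ofAdd x) ∈ Δ₁ ↔ (z : k) ^ m = Λ₁ x)) →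
      (∀ (z : kˣ) (x : K₂), ((z, Multiplicative.ofAdd x) ∈ Δ₂ ↔ (z : k) ^ m = Λ₂ x)) →
      ∀ φ : K₁ →+ K₂, Function.Injective φ →
      (∀ c : QQ n p, ∀ f ∈ Dof n ex A₁ c.1.1 c.1.2, ∃ g ∈ Dof n ex A₂ c.1.1 c.1.2, ∀ y, f y = g (φ y)) →
      (∀ y, Λ₁ y = Λ₂ (φ y)) → Below A₁ Δ₁ A₂ Δ₂

/-- (WC) Well quasi order of the codes. Allowed hypotheses: `S_Tr1`, `S_Tr2`, `S_Lmd`, `S_Tr3`, `S_WD`. PROOF. `ex` from
`S_Tr1`. `m i = Nat.card {z // (z, 1) ∈ (c i).D}` is at most `n` (`n`-th roots of unity, `expD`), so (`exists_const_subseq`)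
constant `= m` on a subsequence `s`. `Λ i` from `S_Lmd`. The additive codes `⟨(c (s i)).K, _, _, Dof ..., Λ i, S_Tr2⟩` over
`QQ n p` (finite; `c.1.1` is prime); `S_WD`, then `S_Tr3`. -/
def S_WC : Prop :=
  ∀ n : ℕ, 0 < n → ∀ p : ℕ, p.Prime → ∀ (k : Type) [Field k] [IsAlgClosed k] [CharP k p]
    (c : ℕ → Code n k), ∃ i j, i < j ∧ Below (c i).A (c i).D (c j).A (c j).D

end Pool.Agent.Lib.MP_f44088_fc
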