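import Mathlib
import Pool.Agent.Lib.MP_f44088_al.FB4.Spec2

/-! Project FB4 (MP_f44088_al): logarithms of characters. -/

set_option autoImplicit false

namespace Pool.Agent.Lib.MP_f44088_fc

open Pool.Agent.Lib.MP_f44088_fb (Sat InVar FGrp Cls Mono Rich IsChar Lam)

namespace ChAux

theorem char_nsmul {K F : Type} [AddCommGroup K] [Field F] {c : K → F} (hc : IsChar c) (m : ℕ) (y : K) :
    c (m • y) = c y ^ m := by
  induction m with
  | zero => simp [hc.1]
  | succ m ih => rw [succ_nsmul, hc.2, ih, pow_succ]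

theorem char_fsum {K F J : Type} [AddCommGroup K] [Field F] {c : K → F} (hc : IsChar c)
    (s : Finset J) (f : J → K) : c (∑ j ∈ s, f j) = ∏ j ∈ s, c (f j) := by
  classical
  induction s using Finset.induction_on with
  | empty => rw [Finset.sum_empty, Finset.prod_empty, hc.1]
  | insert j s hj ih => rw [Finset.sum_insert hj, Finset.prod_insert hj, hc.2, ih]

theorem pow_sum {F J : Type} [Field F] (z : F) (m : ℕ) (hm : 0 < m) (hz : z ^ m = 1) (s : Finset J)
    (f : J → ZMod m) : z ^ (∑ j ∈ s, f j).val = ∏ j ∈ s, z ^ (f j).val := by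
  classical
  have : NeZero m := ⟨hm.ne'⟩
  induction s using Finset.induction_on with
  | empty => rw [Finset.sum_empty, Finset.prod_empty, ZMod.val_zero, pow_zero]
  | insert j s hj ih =>
    rw [Finset.sum_insert hj, Finset.prod_insert hj, ← ih, ← pow_add, ZMod.val_add]
    exact (pow_eq_pow_mod _ hz).symm

theorem pow_mul_val {F : Type} [Field F] (z : F) (m : ℕ) (hz : z ^ m = 1) (u v : ZMod m) :
    z ^ (u * v).val = (z ^ u.val) ^ v.val := by
  rw [← pow_mul, ZMod.val_mul]
  exact (pow_eq_pow_mod _ hz).symm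

/-- the element with the single coordinate 1 at `(a, s)` -/
noncomputable def gen {n : ℕ} {K : Type} [AddCommGroup K] (c : Coord n K) (a : Idx n) (s : Fin (c.d a)) : K :=
  c.θ.symm (Pi.single a (Pi.single s 1))

theorem gen_ord {n : ℕ} {K : Type} [AddCommGroup K] (c : Coord n K) (a : Idx n) (s : Fin (c.d a)) :
    (a.1.1 ^ a.1.2) • gen c a s = 0 := by
  unfold gen
  rw [← map_nsmul, ← Pi.single_smul, ← Pi.single_smul]
  have h : (a.1.1 ^ a.1.2) • (1 : ZMod (a.1.1 ^ a.1.2)) = 0 := by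
    rw [nsmul_eq_mul, ZMod.natCast_self, zero_mul]
  rw [h, Pi.single_zero, Pi.single_zero, map_zero]

theorem gen_sum {n : ℕ} {K : Type} [AddCommGroup K] [Fintype (Idx n)] (hq : ∀ a : Idx n, NeZero (a.1.1 ^ a.1.2))
    (c : Coord n K) (y : K) :
    y = ∑ a : Idx n, ∑ s : Fin (c.d a), (c.θ y a s).val • gen c a s := by
  apply c.θ.injective
  rw [map_sum]
  simp only [map_sum, map_nsmul]
  unfold gen
  simp only [AddEquiv.apply_symm_apply]
  have h1 : ∀ a : Idx n, ∑ s : Fin (c.d a), (c.θ y a s).val •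
      (Pi.single a (Pi.single s 1) : ∀ a : Idx n, (Fin (c.d a) → ZMod (a.1.1 ^ a.1.2))) =
      Pi.single a (c.θ y a) := by
    intro a
    have h2 : ∀ s : Fin (c.d a), (c.θ y a s).val •
        (Pi.single a (Pi.single s 1) : ∀ a : Idx n, (Fin (c.d a) → ZMod (a.1.1 ^ a.1.2))) =
        Pi.single a (Pi.single s (c.θ y a s)) := by
      intro s
      have := hq a
      rw [← Pi.single_smul, ← Pi.single_smul, nsmul_eq_mul, mul_one, ZMod.natCast_zmod_val]
    rw [Finset.sum_congr rfl (fun s _ => h2 s)]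
    have h3 := Finset.univ_sum_single (c.θ y a)
    have h4 := map_sum (AddMonoidHom.single (fun a : Idx n => (Fin (c.d a) → ZMod (a.1.1 ^ a.1.2))) a)
      (fun s => Pi.single s (c.θ y a s)) Finset.univ
    rw [h3] at h4
    simp only [AddMonoidHom.single_apply] at h4
    exact h4.symm
  rw [Finset.sum_congr rfl (fun a _ => h1 a)]
  exact (Finset.univ_sum_single (c.θ y)).symm

end ChAux

open ChAux in
theorem Ch : S_Ch := by
  intro n hn r hr F _ _ _
  have : Fact r.Prime := ⟨hr⟩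
  have hroot : ∀ a : Idx n, ∃ z : F, z ^ (a.1.1 ^ a.1.2) = 1 ∧
      ∀ x : F, x ^ (a.1.1 ^ a.1.2) = 1 → ∃ t : ZMod (a.1.1 ^ a.1.2), x = z ^ t.val := by
    rintro ⟨⟨q, h⟩, hq, hh, hd⟩
    simp only
    have hq' : q.Prime := hq
    have hpos : 0 < q ^ h := pow_pos hq'.pos h
    by_cases hqr : q = r
    · refine ⟨1, one_pow _, fun x hx => ⟨0, ?_⟩⟩
      rw [one_pow]
      rw [hqr] at hx
      have h2 : (x - 1) ^ (r ^ h) = 0 := by
        rw [sub_pow_char_pow, hx, one_pow, sub_self]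
      exact sub_eq_zero.mp (pow_eq_zero_iff (pow_pos hr.pos h).ne' |>.mp h2)
    · have h1 : ((q ^ h : ℕ) : F) ≠ 0 := by
        intro h0
        have h2 : r ∣ q ^ h := (CharP.cast_eq_zero_iff F r (q ^ h)).mp h0
        exact hqr ((Nat.prime_dvd_prime_iff_eq hr hq').mp (hr.dvd_of_dvd_pow h2)).symm
      have : NeZero ((q ^ h : ℕ) : F) := ⟨h1⟩
      obtain ⟨z, hz⟩ := HasEnoughRootsOfUnity.exists_primitiveRoot F (q ^ h)
      refine ⟨z, hz.pow_eq_one, fun x hx => ?_⟩
      have : NeZero (q ^ h) := ⟨hpos.ne'⟩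
      obtain ⟨i, hi, hix⟩ := hz.eq_pow_of_pow_eq_one hx
      refine ⟨(i : ZMod (q ^ h)), ?_⟩
      rw [ZMod.val_natCast, Nat.mod_eq_of_lt hi]
      exact hix.symm
  choose z hz hlog using hroot
  refine ⟨fun a t => z a ^ t.val, ?_⟩
  intro K _ _ c χ hχ
  have : Finite (Idx n) := finite_Idx n hn
  have : Fintype (Idx n) := Fintype.ofFinite _
  have hne : ∀ a : Idx n, NeZero (a.1.1 ^ a.1.2) := fun a => ⟨(pow_pos a.2.1.pos _).ne'⟩
  have hg : ∀ (a : Idx n) (s : Fin (c.d a)), ∃ t : ZMod (a.1.1 ^ a.1.2), χ (gen c a s) = z a ^ t.val := by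
    intro a s
    apply hlog a
    rw [← char_nsmul hχ, gen_ord, hχ.1]
  choose L hL using hg
  refine ⟨fun a => Finsupp.onFinset (Finset.range (c.d a))
    (fun s => if h : s < c.d a then L a ⟨s, h⟩ else 0) ?_, ?_, ?_⟩
  · intro s hs
    rw [Finset.mem_range]
    by_contra h
    exact hs (dif_neg h)
  · intro a s hs
    rw [Finsupp.onFinset_apply, dif_neg (not_lt.mpr hs)]
  · intro y
    rw [finprod_eq_prod_of_fintype]
    conv_lhs => rw [gen_sum hne c y]
    rw [char_fsum hχ]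
    refine Finset.prod_congr rfl fun a _ => ?_
    rw [char_fsum hχ]
    unfold Coord.pair
    beta_reduce
    rw [pow_sum (z a) _ (pow_pos a.2.1.pos _) (hz a)]
    refine Finset.prod_congr rfl fun s _ => ?_
    rw [char_nsmul hχ, hL a s, pow_mul_val (z a) _ (hz a), Finsupp.onFinset_apply, dif_pos s.2]

end Pool.Agent.Lib.MP_f44088_fc
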