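import Mathlib
import Pool.Agent.Lib.MP_f44088_al.FB4.Spec2

/-! Project FB4 (MP_f44088_al), module Coo: coordinates exist. -/

set_option autoImplicit false

namespace Pool.Agent.Lib.MP_f44088_fc

namespace CooAux

/-- grouping of the factors with the same index -/
def grpE {S J : Type} (β : S → J) (G : J → Type) [∀ j, AddCommGroup (G j)] :
    (∀ i : S, G (β i)) ≃+ (∀ j : J, ({i : S // β i = j} → G j)) :=
  AddEquiv.symm
    { toFun := fun g i => g (β i) ⟨i, rfl⟩
      invFun := fun x j i => i.2 ▸ x i.1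
      left_inv := by
        intro g
        funext j i
        obtain ⟨i, h⟩ := i
        subst h
        rfl
      right_inv := by
        intro x
        rfl
      map_add' := by
        intro g g'
        rfl }

/-- reindexing -/
def reE {A B M : Type} [AddCommGroup M] (f : B ≃ A) : (A → M) ≃+ (B → M) :=
  { toFun := fun g b => g (f b)
    invFun := fun g a => g (f.symm a)
    left_inv := by
      intro g
      funext a
      simp
    right_inv := by
      intro g
      funext b
      simp
    map_add' := by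
      intro g g'
      rfl }

/-- trivial factors are dropped -/
def dropE {ι : Type} (P : ι → Prop) [DecidablePred P] (G : ι → Type) [∀ i, AddCommGroup (G i)]
    (h : ∀ i, ¬ P i → ∀ x y : G i, x = y) : (∀ i : ι, G i) ≃+ (∀ i : {i : ι // P i}, G i.1) :=
  { toFun := fun g i => g i.1
    invFun := fun g i => if hi : P i then g ⟨i, hi⟩ else 0
    left_inv := by
      intro g
      funext i
      by_cases hi : P i
      · simp only [dif_pos hi]
      · exact h i hi _ _
    right_inv := by
      intro g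
      funext i
      obtain ⟨i, hi⟩ := i
      simp only [dif_pos hi]
    map_add' := by
      intro g g'
      rfl }

end CooAux

open CooAux in
theorem Coo : S_Coo := by
  intro n hn K _ _ hK
  obtain ⟨ι, hι, p, hp, e, ⟨ψ⟩⟩ := AddCommGroup.equiv_directSum_zmod_of_finite K
  classical
  let ψ1 : K ≃+ (∀ i : ι, ZMod (p i ^ e i)) :=
    ψ.trans (DirectSum.addEquivProd (fun i => ZMod (p i ^ e i)))
  have hdvd : ∀ i, p i ^ e i ∣ n := by
    intro i
    have h1 := hK (ψ1.symm (Pi.single i 1))
    have h2 : n • (Pi.single i (1 : ZMod (p i ^ e i)) : ∀ i : ι, ZMod (p i ^ e i)) = 0 := by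
      have h3 := congrArg ψ1 h1
      rw [map_nsmul, AddEquiv.apply_symm_apply, map_zero] at h3
      exact h3
    have h4 := congrFun h2 i
    rw [Pi.smul_apply, Pi.single_eq_same, Pi.zero_apply, nsmul_eq_mul, mul_one] at h4
    exact (ZMod.natCast_eq_zero_iff n (p i ^ e i)).mp h4
  let β : {i : ι // 0 < e i} → Idx n := fun i => ⟨(p i.1, e i.1), hp i.1, i.2, hdvd i.1⟩
  have hsub : ∀ i, ¬ 0 < e i → ∀ x y : ZMod (p i ^ e i), x = y := by
    intro i hi
    have h0 : e i = 0 := by omega
    rw [h0, pow_zero]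
    intro x y
    exact Subsingleton.elim x y
  let ψ2 : (∀ i : ι, ZMod (p i ^ e i)) ≃+ (∀ i : {i : ι // 0 < e i}, ZMod (p i.1 ^ e i.1)) :=
    dropE (fun i => 0 < e i) (fun i => ZMod (p i ^ e i)) hsub
  let ψ3 : (∀ i : {i : ι // 0 < e i}, ZMod (p i.1 ^ e i.1)) ≃+
      (∀ a : Idx n, ({i : {i : ι // 0 < e i} // β i = a} → ZMod (a.1.1 ^ a.1.2))) :=
    grpE β (fun a => ZMod (a.1.1 ^ a.1.2))
  let d : Idx n → ℕ := fun a => Fintype.card {i : {i : ι // 0 < e i} // β i = a}
  let ψ4 : (∀ a : Idx n, ({i : {i : ι // 0 < e i} // β i = a} → ZMod (a.1.1 ^ a.1.2))) ≃+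
      (∀ a : Idx n, (Fin (d a) → ZMod (a.1.1 ^ a.1.2))) :=
    AddEquiv.piCongrRight (fun a => reE (Fintype.equivFin _).symm)
  exact ⟨⟨d, ((ψ1.trans ψ2).trans ψ3).trans ψ4⟩⟩

end Pool.Agent.Lib.MP_f44088_fc
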