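import Mathlib
import Pool.Agent.Lib.MP_f44088_al.FB4.Defs

/-! Project FB4 (MP_f44088_al), statements. Every docstring contains the complete proof. -/

set_option autoImplicit false

namespace Pool.Agent.Lib.MP_f44088_fc

open Pool.Agent.Lib.MP_f44088_fb (Sat InVar FGrp Cls Mono Rich IsChar Lam)

/-! ## Part V: varieties -/

/-- (Exp) A locally finite variety has finite exponent. No hypotheses. PROOF. Otherwise for every `m > 0` choose a
group `G m` with `Sat W` and `x m : G m` with `x m ^ m ≠ 1`. The product `P` of the `G m` satisfies `W`, the element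
`x = (x m)_m` has `x ^ m ≠ 1` for all `m > 0`, so `Subgroup.closure {x}` is infinite: contradiction to the local
finiteness of `P`. -/
def S_Exp : Prop :=
  ∀ W : Set (FreeGroup ℕ), (∀ (G : Type) [Group G], Sat W G →
    ∀ s : Finset G, Finite (Subgroup.closure (s : Set G))) →
    ∃ n : ℕ, 0 < n ∧ ∀ (G : Type) [Group G], Sat W G → ∀ x : G, x ^ n = 1

/-- (Main) well quasi order of the monolithic groups. Allowed hypotheses: `S_Cod`, `S_GR`, `S_Sec`, `S_WC`. PROOF. By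
`S_Cod` choose for every `i` a prime `p i` and `e i`, `0 < e i`, `p i ^ e i ∣ n`, `p i ∈ n.primeFactors`: finitely many
pairs (`e i ≤ n`), so (`exists_const_subseq`) they are constant `(p, e)` on a subsequence `s`. `k = AlgebraicClosure
(ZMod p)` (`Fact p.Prime`), `R, gr` from `S_GR`, codes `c i` of `G (s i)` from `S_Cod`. `S_WC` gives `i < j` with `Below`
and `S_Sec` (with `(c j).ok.tr`) `InVar (GA (c i)) (GA (c j))`; compose with the two `InVar` of `S_Cod`. -/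
def S_Main : Prop :=
  ∀ n : ℕ, 0 < n → ∀ G : ℕ → FGrp, (∀ i, Cls n (G i).C) → (∀ i, Mono (G i).C) →
    ∃ i j, i < j ∧ InVar (G i).C (G j).C

/-- (Fin) The theorem. Allowed hypotheses: `S_Exp`, `O_Seq`, `S_Main`. PROOF. `n` from `S_Exp`, so `Hyp n W` of FB3
holds. If no finite `B` works, `O_Seq` contradicts `S_Main`. -/
def S_Fin : Prop :=
  ∀ W : Set (FreeGroup ℕ), (∀ (G : Type) [Group G], Sat W G →
      (∀ s : Finset G, Finite (Subgroup.closure (s : Set G))) ∧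
      (∀ p : ℕ, p.Prime → ∀ P : Sylow p G, ∀ x ∈ P, ∀ y ∈ P, x * y = y * x) ∧
      derivedSeries G 3 = ⊥) →
    ∃ B : Finset (FreeGroup ℕ), ∀ (G : Type) [Group G], (Sat W G ↔ Sat (B : Set (FreeGroup ℕ)) G)

/-! ## Part S: structure of the monolithic groups -/

/-- (Fit) The bottom layer. Allowed hypotheses: `O_Fa`, `O_Fb`. PROOF. `p, F` from `O_Fa`; `F` is abelian by
`Cls` (`p`-subgroup). `O_Fb` gives the centralizer. A Sylow `p`-subgroup `P` contains the normal `p`-subgroup `F`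
and is abelian by `Cls`, so `P` centralizes `F`, `P ≤ F`, `P = F`: `p` does not divide the index. `F ≠ ⊥` has an
element of order `p`, which divides `n > 0`. -/
def S_Fit : Prop :=
  ∀ n : ℕ, 0 < n → ∀ (G : Type) [Group G] [Finite G], Cls n G → Mono G →
    ∃ p : ℕ, p ∈ n.primeFactors ∧ ∃ F : Subgroup G, F.Normal ∧ F ≠ ⊥ ∧ IsPGroup p F ∧
      (∀ x ∈ F, ∀ y ∈ F, x * y = y * x) ∧
      (∀ g : G, (∀ x ∈ F, g * x = x * g) → g ∈ F) ∧ ¬ p ∣ F.index

/-- (Hm) The complement is metabelian. No hypotheses. PROOF. Let `H1, H2` be the images in `G` of `derivedSeries H 1`,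
`derivedSeries H 2`. Suppose `H2 ≠ ⊥`. Let `X ∈ {H, H1, H2}`, normal in `H`, `X ≠ ⊥`, `m = Nat.card X` prime to `p`.
`⁅F, X⁆ ≤ F` is normal in `G` (`G = F H`, `F` abelian normal, `X` normalized by `H`), and `≠ ⊥` (otherwise `X`
centralizes `F`, so `X ≤ F ⊓ H = ⊥`). `C = {z ∈ F : z commutes with X}` is normal in `G`. For `f ∈ F` put
`N f = ∏_(x ∈ X) x f x^(-1)` (in the abelian group `F`; a homomorphism): `N f ∈ C`, and `N` is 1 on `⁅F, X⁆`
(`N (x f x^(-1)) = N f`); if `z ∈ C ⊓ ⁅F, X⁆` then `1 = N z = z^m`, so `z = 1` (`F` a `p`-group). So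
`C ⊓ ⁅F, X⁆ = ⊥` and by `Mono` `C = ⊥`. So `N f = 1` for all `f`, and `f^m = f^m (N f)^(-1) = ∏ f (x f x^(-1))^(-1) ∈
⁅F, X⁆`; the `m`-th power is a bijection of `F`: `F = ⁅F, X⁆`. Now `F = ⁅F, H⁆ ≤ D1 = derivedSeries G 1` and `H1 ≤ D1`;
so `F = ⁅F, H1⁆ ≤ ⁅D1, D1⁆ = D2` and `H2 ≤ D2`; so `F = ⁅F, H2⁆ ≤ ⁅D2, D2⁆ = D3 = ⊥`, contradiction. -/
def S_Hm : Prop :=
  ∀ (G : Type) [Group G] [Finite G], Mono G → derivedSeries G 3 = ⊥ → ∀ p : ℕ, p.Prime →
    ∀ F H : Subgroup G, F.Normal → F ≠ ⊥ → IsPGroup p F →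
      (∀ x ∈ F, ∀ y ∈ F, x * y = y * x) → Subgroup.IsComplement' F H → ¬ p ∣ F.index →
      (∀ g : G, (∀ x ∈ F, g * x = x * g) → g ∈ F) → derivedSeries H 2 = ⊥

/-- (EU) The `r'`-part modulo `A`. No hypotheses. PROOF. `A` is normal (contains the commutator subgroup), `H/A` is
abelian. `E = {g : g^m ∈ A for some m prime to r}`: a subgroup containing `A`, normal. `B = {x ∈ A : x^(r^j) = 1 for
some j}`: normal in `H`, `|B|` a power of `r`. The index of `B` in `E` is prime to `r`: otherwise (Cauchy in `E/B`)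
there is `g ∈ E`, `g ∉ B`, `g^r ∈ B`; then `g` has order a power of `r`; as `g^m ∈ A` with `m` prime to `r`,
`g ∈ A` (`g` is a power of `g^m`), `g ∈ B`, contradiction. Schur-Zassenhaus in `↥E`
(`Subgroup.exists_right_complement'_of_coprime`) gives `U`, of order prime to `r`. For `g ∈ H` of order `r^j m`, `m`
prime to `r`: `(g^(r^j))^m = 1 ∈ A`, so `g^(r^j) ∈ E`. -/
def S_EU : Prop :=
  ∀ (H : Type) [Group H] [Finite H],
    ∀ A : Subgroup H, commutator H ≤ A → (∀ x ∈ A, ∀ y ∈ A, x * y = y * x) → ∀ r : ℕ, r.Prime →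
    ∃ E U : Subgroup H, A ≤ E ∧ U ≤ E ∧ (∀ x ∈ A, (∃ j : ℕ, x ^ (r ^ j) = 1) → x ∈ U → x = 1) ∧
      (∀ g ∈ E, ∃ b ∈ A, (∃ j : ℕ, b ^ (r ^ j) = 1) ∧ ∃ u ∈ U, g = b * u) ∧
      (Nat.card U).Coprime r ∧ ∀ g : H, ∃ j : ℕ, g ^ (r ^ j) ∈ E

/-- (Br) A complement of the `r`-part `B` of the commutator subgroup. Allowed hypotheses: `O_Conj`, `S_EU`. PROOF.
`A = commutator H` is abelian. `E, U` from `S_EU`, `E` is normal (`A ≤ E`). `B = {x ∈ A : x^(r^j) = 1}`, normal in `H`,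
an abelian `r`-group; `U` is a complement of `B` in `E`. `N` = normalizer of `U`. (1) `H = B N`: for `h ∈ H` the
subgroup `h U h^(-1) ≤ E` is also a complement of `B` in `E`, so by `O_Conj` in `↥E` there is `b ∈ B` with
`b (h U h^(-1)) b^(-1) = U` (inclusion and equal finite orders): `b h ∈ N`. (2) `B0 = B ⊓ N`. `B0` commutes with `U`
(`⁅B0, U⁆ ≤ B ⊓ U = ⊥`). Let `S` be a Sylow `r`-subgroup of `N`. `N = U S`: for `g ∈ N` some `g^(r^j) ∈ E ⊓ N = B0 U`,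
and then some `g^(r^l) ∈ U`; so `N/U` is an `r`-group, `|U|` is prime to `r`. `B S` is an `r`-group (`B` normal), so `S`
commutes with `B` and `S` is abelian (hypothesis). So `N/U` is abelian, `⁅N, N⁆ ≤ U`, and `⁅B, N⁆ = ⁅B, U⁆`
(`S` centralizes `B`). (3) `⁅B, N⁆` is normal in `H = B N` and modulo it `B` is central, so `A = ⁅B N, B N⁆ ≤
⁅B, N⁆ ⁅N, N⁆ ≤ ⁅B, U⁆ U`. (4) Let `z ∈ B0`. `z ∈ A`, `z = c u`, `c ∈ ⁅B, U⁆ ≤ B`, `u ∈ U`: `u = c^(-1) z ∈ B ⊓ U = ⊥`, so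
`z ∈ ⁅B, U⁆`, and `z` commutes with `U`. With `N b = ∏_(u ∈ U) u b u^(-1)` (abelian group `B`) we get `N = 1` on
`⁅B, U⁆` and `1 = N z = z^|U|`, so `z = 1`. So `B ⊓ N = ⊥` and `L = N` works. -/
def S_Br : Prop :=
  ∀ (H : Type) [Group H] [Finite H], derivedSeries H 2 = ⊥ →
    (∀ p : ℕ, p.Prime → ∀ P : Subgroup H, IsPGroup p P → ∀ x ∈ P, ∀ y ∈ P, x * y = y * x) →
    ∀ r : ℕ, r.Prime →
    ∃ L : Subgroup H, (∀ x ∈ commutator H, (∃ j : ℕ, x ^ (r ^ j) = 1) → x ∈ L → x = 1) ∧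
      ∀ g : H, ∃ b ∈ commutator H, (∃ j : ℕ, b ^ (r ^ j) = 1) ∧ ∃ l ∈ L, g = b * l

/-- (Kin) A complement of `A`. No hypotheses. PROOF. Induction on a finite set `P` of primes: there is a subgroup
`K_P` with `K_P ⊓ A_P = ⊥` and `H = A_P K_P`, where `A_P` is the set of the elements of `A` whose order has all prime
factors in `P` (`A` normal abelian). Step: `K_(P ∪ {r}) = K_P ⊓ L r`. `A_(P ∪ {r}) = A_P × A_r`; if `x = a b` lies in it
and in `K_P ⊓ L r`, the powers `a', b'` of `x` (`x ^ m` for suitable `m`) lie in `A_P ⊓ K_P`, `A_r ⊓ L r`: `x = 1`. For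
`g ∈ H`: `g = a k`, `a ∈ A_P`, `k ∈ K_P`; index count: `|H : K_P ⊓ L r| ≤ |H : K_P| |H : L r| = |A_P| |A_r|`, and with the
trivial intersection equality, so `H = A_(P ∪ {r}) (K_P ⊓ L r)`. Take for `P` the prime factors of `Nat.card A`. -/
def S_Kin : Prop :=
  ∀ (H : Type) [Group H] [Finite H],
    ∀ A : Subgroup H, commutator H ≤ A → (∀ x ∈ A, ∀ y ∈ A, x * y = y * x) →
    (∀ r : ℕ, r.Prime → ∃ L : Subgroup H, (∀ x ∈ A, (∃ j : ℕ, x ^ (r ^ j) = 1) → x ∈ L → x = 1) ∧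
      ∀ g : H, ∃ b ∈ A, (∃ j : ℕ, b ^ (r ^ j) = 1) ∧ ∃ l ∈ L, g = b * l) →
    ∃ K : Subgroup H, Subgroup.IsComplement' A K

/-- (Dec) A metabelian A-group splits over its commutator subgroup. Allowed hypotheses: `S_Br`, `S_Kin`. PROOF.
`commutator H` is abelian since `derivedSeries H 2 = ⊥`. `S_Kin` with `A = commutator H`. `D` is abelian:
commutators of elements of `D` lie in `D ⊓ commutator H = ⊥`. -/
def S_Dec : Prop :=
  ∀ (H : Type) [Group H] [Finite H], derivedSeries H 2 = ⊥ →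
    (∀ p : ℕ, p.Prime → ∀ P : Subgroup H, IsPGroup p P → ∀ x ∈ P, ∀ y ∈ P, x * y = y * x) →
    ∃ D : Subgroup H, Subgroup.IsComplement' (commutator H) D ∧ ∀ x ∈ D, ∀ y ∈ D, x * y = y * x

/-- (Mol) The monolith. No hypotheses. PROOF. Let `N0` be a nontrivial normal subgroup of least order. For every
nontrivial normal subgroup `N` the group `N0 ⊓ N` is normal and `≠ ⊥` by `Mono`, so it is `N0`: `N0 ≤ N`. Let `e` be
minimal with `x^(p^e) = 1` for all `x ∈ F`; `e > 0` as `F ≠ ⊥`. `{x^(p^(e-1)) : x ∈ F}` is a subgroup (`F` abelian),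
normal in `G`, `≠ ⊥`: it contains `N0`; take `x` with `1 ≠ x^(p^(e-1)) ∈ N0`. `p^e` is the order of an element, so it
divides `n` (`n > 0`, `x^n = 1`). -/
def S_Mol : Prop :=
  ∀ n : ℕ, 0 < n → ∀ (G : Type) [Group G] [Finite G], (∀ x : G, x ^ n = 1) → Mono G → ∀ p : ℕ, p.Prime →
    ∀ F : Subgroup G, F.Normal → F ≠ ⊥ → IsPGroup p F → (∀ x ∈ F, ∀ y ∈ F, x * y = y * x) →
    ∃ e : ℕ, 0 < e ∧ p ^ e ∣ n ∧ (∀ x ∈ F, x ^ (p ^ e) = 1) ∧
      ∃ x ∈ F, x ^ (p ^ (e - 1)) ≠ 1 ∧ ∀ N : Subgroup G, N.Normal → N ≠ ⊥ → x ^ (p ^ (e - 1)) ∈ N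

/-- the situation after the splitting: `G = F B D` -/
structure Setup (n p e : ℕ) (G : Type) [Group G] (F B D : Subgroup G) : Prop where
  normF : F.Normal
  abF : ∀ x ∈ F, ∀ y ∈ F, x * y = y * x
  expF : ∀ x ∈ F, x ^ (p ^ e) = 1
  mono : ∃ x ∈ F, x ^ (p ^ (e - 1)) ≠ 1 ∧ ∀ N : Subgroup G, N.Normal → N ≠ ⊥ → x ^ (p ^ (e - 1)) ∈ N
  faith : ∀ g : G, (∀ x ∈ F, g * x = x * g) → g ∈ F
  abB : ∀ x ∈ B, ∀ y ∈ B, x * y = y * x
  abD : ∀ x ∈ D, ∀ y ∈ D, x * y = y * x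
  nor : ∀ y ∈ D, ∀ b ∈ B, y * b * y⁻¹ ∈ B
  dec : ∀ g : G, ∃ x ∈ F, ∃ b ∈ B, ∃ y ∈ D, g = x * b * y
  uni : ∀ x ∈ F, ∀ b ∈ B, ∀ y ∈ D, x * b * y = 1 → x = 1 ∧ b = 1 ∧ y = 1
  cop : ∃ m : ℕ, m.Coprime p ∧ (∀ b ∈ B, b ^ m = 1) ∧ ∀ y ∈ D, y ^ m = 1
  expG : ∀ x : G, x ^ n = 1
  ag : ∀ r : ℕ, r.Prime → ∀ P : Subgroup G, IsPGroup r P → ∀ x ∈ P, ∀ y ∈ P, x * y = y * x

/-- `ℓ : F → R` is additive, an eigenvector of `B` (eigenvalues `χ`) and of the elements of `D` which commute with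
`B` (eigenvalues `ω`), and not 0 modulo `p` at a suitable point -/
structure Eigen {p e : ℕ} {k R : Type} [Field k] [CommRing R] (gr : GRing p e k R) (G : Type) [Group G]
    (F B D : Subgroup G) (ℓ : G → R) (χ ω : G → kˣ) : Prop where
  add : ∀ x ∈ F, ∀ y ∈ F, ℓ (x * y) = ℓ x + ℓ y
  ne : ∃ x ∈ F, gr.res (ℓ x) ≠ 0 ∧ ∀ N : Subgroup G, N.Normal → N ≠ ⊥ → x ^ (p ^ (e - 1)) ∈ N
  eigB : ∀ b ∈ B, ∀ x ∈ F, ℓ (b * x * b⁻¹) = (gr.tau (χ b) : R) * ℓ x
  mulB : ∀ b ∈ B, ∀ b' ∈ B, χ (b * b') = χ b * χ b'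
  eigD : ∀ z ∈ D, (∀ b ∈ B, z * b = b * z) → ∀ x ∈ F, ℓ (z * x * z⁻¹) = (gr.tau (ω z) : R) * ℓ x
  mulD : ∀ y ∈ D, ∀ y' ∈ D, ω (y * y') = ω y * ω y'

/-- (GR) The coefficient rings. No hypotheses. PROOF. `R = WittVector p k ⧸ (p^e)` (`Fact p.Prime`; `k` is perfect).
`res` is induced by the 0-th component `WittVector.constantCoeff` (`p ↦ 0`, `e > 0`), `tau` by the Teichmueller map
(`WittVector.teichmuller`, `Units.map`). `ker`: a Witt vector with 0-th component 0 is `verschiebung x'`, and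
`x' = frobenius x''` (`k` perfect), `verschiebung (frobenius x'') = x'' * p`. `top`: `p^(e-1) x = p^e y` in the domain
`WittVector p k` of characteristic 0 gives `x = p y`. -/
def S_GR : Prop :=
  ∀ p e : ℕ, p.Prime → 0 < e → ∀ (k : Type) [Field k] [IsAlgClosed k] [CharP k p],
    ∃ (R : Type) (_ : CommRing R), Nonempty (GRing p e k R)

/-- (Dua) Functionals separate the elements. No hypotheses. PROOF. `M` is a direct sum of cyclic groups
`ZMod (p^(e_i))`, `e_i ≤ e` (`AddCommGroup.equiv_directSum_zmod_of_finite`; all orders are powers of `p`); a component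
of `v` is not 0, and `ZMod (p^(e_i)) → ZMod (p^e)`, `1 ↦ p^(e - e_i)`, is injective. (Or: characters of finite abelian
groups.) -/
def S_Dua : Prop :=
  ∀ p e : ℕ, p.Prime → ∀ (M : Type) [AddCommGroup M] [Finite M], (∀ x : M, (p ^ e) • x = 0) →
    ∀ v : M, v ≠ 0 → ∃ f : M →+ ZMod (p ^ e), f v ≠ 0

/-- (Prj) Decomposition into eigenvectors. No hypotheses. PROOF. `N = Nat.card A` is prime to `p`, so a unit of `R`
(`p` is nilpotent). For a homomorphism `χ : A →* kˣ` put `f_χ = N^(-1) ∑_a τ(χ a)^(-1) ρ(a) f`; `ρ(b) f_χ = τ(χ b) f_χ`.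
`∑_χ f_χ = f`: for `a ≠ 1` there is `χ0` with `χ0 a ≠ 1` (`k` has all roots of unity of order `N`;
`CommGroup.exists_apply_ne_one_of_hasEnoughRootsOfUnity`), and `(τ(χ0 a)^(-1) - 1) ∑_χ τ(χ a)^(-1) = 0` with the first
factor a unit (its residue is not 0; an element with residue `≠ 0` is a unit: `res x = z`, `x = τ z + p y`, unit plus
nilpotent), so `∑_χ τ(χ a)^(-1) = 0`; and the number of the `χ` is `N`. So `L (f_χ) ≠ 0` for some `χ`. -/
def S_Prj : Prop :=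
  ∀ p e : ℕ, p.Prime → 0 < e → ∀ (k : Type) [Field k] [IsAlgClosed k] [CharP k p] (R : Type) [CommRing R]
    (gr : GRing p e k R) (A : Type) [CommGroup A] [Finite A], (Nat.card A).Coprime p →
    ∀ (M : Type) [AddCommGroup M] [Module R M] (ρ : A →* Module.End R M) (L : M →ₗ[R] R) (f : M), L f ≠ 0 →
      ∃ (χ : A →* kˣ) (g : M), (∀ a, ρ a g = (gr.tau (χ a) : R) • g) ∧ L g ≠ 0

/-- (Ex) Extension of characters. No hypotheses. PROOF. `kˣ` is divisible (`k` algebraically closed), so extend one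
element at a time: if `χ` is defined on `C ≤ D` and `d ∉ C`, let `m > 0` be minimal with `d^m ∈ C`, choose `z` with
`z^m = χ (d^m)` and put `χ (c d^i) = χ(c) z^i` (well defined); `D` is finite. (Or: Mathlib's duality for finite abelian
groups.) -/
def S_Ex : Prop :=
  ∀ (k : Type) [Field k] [IsAlgClosed k] (D : Type) [CommGroup D] [Finite D] (D0 : Subgroup D)
    (χ : D0 →* kˣ), ∃ ω : D →* kˣ, ∀ z : D0, ω z = χ z

/-- (Eig) The eigenfunction. Allowed hypotheses: `S_Dua`, `S_Prj`, `S_Ex`. PROOF. `x0 ∈ F` from `mono`, `v = x0^(p^(e-1))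
≠ 1`. `S_Dua` for `Additive F`: additive `f0 : F → ZMod (p^e)`, `f0 v ≠ 0`; compose with the injective additive map
`ZMod (p^e) → R`, `1 ↦ 1` (injective: `p^(e-1) ≠ 0` in `R` by `top`, `nil`): `f v ≠ 0`. `A` = the group generated by `B`
and `D0 = {z ∈ D : z commutes with B}`: commutative, of order prime to `p` (`cop`; all elements of `A` have order
dividing a number prime to `p`), acts on `M = {additive functions F → R}` by `(ρ a f)(x) = f (a x a^(-1))` (a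
homomorphism as `A` is commutative). `L` = evaluation at `v`. `S_Prj` gives `ℓ` and `χ : A →* kˣ`. `S_Ex` extends `χ|D0` to
`ω : D →* kˣ`. Extend everything by 0 resp. 1 to `G`. `ne`: `ℓ v = p^(e-1) ℓ(x0) ≠ 0`, so `res (ℓ x0) ≠ 0` (otherwise
`ℓ x0 = p y`, `p^e y = 0`). -/
def S_Eig : Prop :=
  ∀ (n p e : ℕ), p.Prime → 0 < e → ∀ (G : Type) [Group G] [Finite G] (F B D : Subgroup G),
    Setup n p e G F B D → ∀ (k : Type) [Field k] [IsAlgClosed k] [CharP k p] (R : Type) [CommRing R]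
    (gr : GRing p e k R), ∃ (ℓ : G → R) (χ ω : G → kˣ), Eigen gr G F B D ℓ χ ω

/-- (Quo) The quotient of `D`. No hypotheses. PROOF. `D0 = {z ∈ D : z commutes with all elements of B}`,
`K = Additive (D ⧸ D0)` (`D` is commutative), `π` the projection, extended by 0 outside of `D`, `s` a section. -/
def S_Quo : Prop :=
  ∀ (G : Type) [Group G] [Finite G] (B D : Subgroup G), (∀ x ∈ D, ∀ y ∈ D, x * y = y * x) →
    ∃ (K : Type) (_ : AddCommGroup K) (_ : Finite K) (π : G → K) (s : K → G),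
      (∀ y ∈ D, ∀ y' ∈ D, π (y * y') = π y + π y') ∧
      (∀ z ∈ D, (π z = 0 ↔ ∀ b ∈ B, z * b = b * z)) ∧ ∀ x : K, s x ∈ D ∧ π (s x) = x

/-- (Emb) The embedding. No hypotheses. PROOF. `ψ` is defined by the formula (`dec`, `uni`). HOMOMORPHISM:
`(x b y)(x' b' y') = (x · b y x' (b y)^(-1)) (b · y b' y^(-1)) (y y')`. At `κ`, `s = s κ ∈ D`, `κ' = κ + π y`, `s' = s κ'`;
`s y = s' z` with `z ∈ D`, `π z = 0`, so `z` commutes with `B` (and with `D`). `ℓ (s b y x' y^(-1) b^(-1) s^(-1))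
= τ(χ(s b s^(-1))) ℓ (s y x' (s y)^(-1))` (`eigB`), `ℓ (s y x' (s y)^(-1)) = ℓ (z (s' x' s'^(-1)) z^(-1))
= τ(ω z) ℓ (s' x' s'^(-1))` (`eigD`), `ω z = ω(s')^(-1) ω(s) ω(y)`: so the `m`-component at `κ` of the product is
`u.m κ + τ(ω(y) χ(s b s^(-1))) v.m κ'`; `χ(s y b' y^(-1) s^(-1)) = χ(s' b' s'^(-1))`: the `a`-component. INJECTIVE:
`N0 = {x ∈ F : ℓ (d x d^(-1)) = 0 for all d ∈ D}` is a subgroup, normal in `G` (under `F`: abelian; under `D`: clear;
under `B`: `ℓ (d b x b^(-1) d^(-1)) = τ(χ(d b d^(-1))) ℓ (d x d^(-1))`). If `N0 ≠ ⊥` then `x0^(p^(e-1)) ∈ N0` (`ne`), but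
`ℓ (x0^(p^(e-1))) = p^(e-1) ℓ x0 ≠ 0` by `top`. So `N0 = ⊥`. Let `ψ (x b y) = 1`: `π y = 0`; the `m`-component is 0:
`ℓ (s κ x (s κ)^(-1)) = 0` for all `κ`, so for all `d = s z`: `x ∈ N0`, `x = 1`; the `a`-component is 1:
then `ψ (b y x' (b y)^(-1)) = ψ x'` for `x' ∈ F` by the product formula, so (`N0 = ⊥`) `b y` commutes with `F`,
`b y ∈ F`, and `(b y)^(-1) · b · y = 1` gives `b = 1`, `y = 1` by `uni`. -/
def S_Emb : Prop :=
  ∀ (n p e : ℕ) (G : Type) [Group G] [Finite G] (F B D : Subgroup G), Setup n p e G F B D →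
    ∀ (k R : Type) [Field k] [CommRing R] (gr : GRing p e k R) (ℓ : G → R) (χ ω : G → kˣ),
      Eigen gr G F B D ℓ χ ω → ∀ (K : Type) [AddCommGroup K] (π : G → K) (s : K → G),
      (∀ y ∈ D, ∀ y' ∈ D, π (y * y') = π y + π y') →
      (∀ z ∈ D, (π z = 0 ↔ ∀ b ∈ B, z * b = b * z)) → (∀ x : K, s x ∈ D ∧ π (s x) = x) →
      ∃ ψ : G →* Aff K R, Function.Injective ψ ∧ ∀ x ∈ F, ∀ b ∈ B, ∀ y ∈ D, ψ (x * b * y) =
        ⟨fun κ => (gr.tau (ω (s κ))⁻¹ : Rˣ) * ℓ (s κ * x * (s κ)⁻¹),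
          fun κ => gr.tau (ω y * χ (s κ * b * (s κ)⁻¹)), π y⟩

/-- (Lin) The translation part of a word is linear in the translation parts. No hypotheses. PROOF. Induction on
`w` (`FreeGroup.induction_on`): `1`; generators and inverses of generators (`inv_m`); products by `mul_m`. `s` = a
finite set of letters. (As `S_Lin` of FB3, with a commutative ring `R` in place of the field.) -/
def S_Lin : Prop :=
  ∀ (K R : Type) [CommRing R] [AddCommGroup K] (u : ℕ → Aff K R) (w : FreeGroup ℕ),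
    ∃ (T : (ℕ → K → R) →ₗ[R] (K → R)) (s : Finset ℕ),
      (∀ m : ℕ → K → R, (∀ i ∈ s, m i = 0) → T m = 0) ∧
      ∀ m : ℕ → K → R,
        (FreeGroup.lift (fun i => (⟨m i, (u i).a, (u i).x⟩ : Aff K R)) w).m = T m ∧
        (FreeGroup.lift (fun i => (⟨m i, (u i).a, (u i).x⟩ : Aff K R)) w).a = (FreeGroup.lift u w).a ∧
        (FreeGroup.lift (fun i => (⟨m i, (u i).a, (u i).x⟩ : Aff K R)) w).x = (FreeGroup.lift u w).x

/-- (Spn) An invariant submodule which is not 0 modulo `p` is everything. Allowed hypothesis: `O_Spn`. PROOF. `res` is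
onto (`res (tau z) = z`). The functions `res ∘ m`, `m ∈ M`, form a subspace of `K → k` which satisfies the hypotheses of
`O_Spn`, so it is everything: every `g : K → R` is `m + p g'` with `m ∈ M` (`ker`, pointwise). Iterate `e` times: `p^e = 0`,
so `g ∈ M`. -/
def S_Spn : Prop :=
  ∀ (p e : ℕ) (k R : Type) [Field k] [CommRing R] (gr : GRing p e k R) (K : Type) [AddCommGroup K]
    [Finite K] (A : Subgroup (K → kˣ)), (∀ f ∈ A, ∀ z : K, (fun y => f (y + z)) ∈ A) →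
    (∀ x : K, (∀ f ∈ A, ∀ y, f (y + x) = f y) → x = 0) →
    ∀ M : Submodule R (K → R), (∃ m ∈ M, ∃ y, gr.res (m y) ≠ 0) →
      (∀ m ∈ M, ∀ z : K, (fun y => m (y + z)) ∈ M) →
      (∀ m ∈ M, ∀ f ∈ A, (fun y => (gr.tau (f y) : R) * m y) ∈ M) → M = ⊤

/-- (Rep) The code of `G`. Allowed hypotheses: `S_Eig`, `S_Quo`, `S_Emb`, `S_Lin`, `S_Spn`. PROOF. `ℓ, χ, ω` from `S_Eig`,
`K, π, s` from `S_Quo`, `ψ` from `S_Emb`. `hat b κ = χ (s κ · b · (s κ)^(-1))`, `A = {hat b : b ∈ B}`, a subgroup;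
`Δ = {(ω y, π y) : y ∈ D}`, a subgroup. `Θ x κ = τ(ω (s κ))^(-1) ℓ (s κ x (s κ)^(-1))`. `IsCode`: `expK`, `expA`, `expD`
from `expG` (`χ`, `ω` multiplicative); `tr`: `hat b (κ + π y) = hat (y b y^(-1)) κ` (`s κ y = s (κ + π y) z`, `z` commutes
with `B`); `onto` clear; `ag`: `f = hat b`, `f^(r^j) = 1` gives `hat (b^(r^j)) = 1`, so `ψ (b^(r^j)) = 1` (`ψ (b) = (0, hat b, 0)`
as `ℓ 1 = 0`, `ω 1 = 1`), `b^(r^j) = 1`; `x ∈ K` an `r`-element, `x = π d`; replacing `d` by a power `d^m`, `m` prime to `r`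
(with `m ≡ 1` modulo the order of `x`), `d` is an `r`-element of `D` with `π d = x`; the `r`-elements of `B` and the
powers of `d` generate an `r`-subgroup (`B` abelian, normalized by `d`), abelian by `ag` of `Setup`: `d b d^(-1) = b`, so
`f (κ + x) = f κ`. `ff`: if `x = π d` leaves all `hat b` invariant, `hat (d b d^(-1)) = hat b`, `ψ` injective:
`d b d^(-1) = b`, `π d = 0`. `InVar G (GA τ A Δ)`: `ψ` maps into it (for `z ∈ K`: `hat b (κ + z) = hat (z' b z'^(-1)) κ`,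
`c = ω y`), injective. `InVar (GA τ A Δ) G`: `w` a law of `G`, `u : ℕ → GA τ A Δ`; `(u i).a = τ ∘ (c i • hat (b i))`, `(c i, (u i).x) =
(ω (y i), π (y i))`. `T, s` from `S_Lin`. If all `m i` are `Θ (x i)`, `x i ∈ F`, the tuple is `ψ (x i · b i · y i)`, so the
value of the word is `ψ 1 = 1`: `T m = 0`, and the other two components of `lift u w` are 1 and 0. So
`T (Pi.single i (Θ x)) = 0` (`Θ 1 = 0`), and by linearity `T (Pi.single i m) = 0` for `m` in the `R`-span `M` of the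
`Θ x`, `x ∈ F`; `M = ⊤` by `S_Spn`: `Θ x (κ + π y) = τ(ω y)^(-1) Θ (y x y^(-1)) κ`, `τ(hat b κ) Θ x κ = Θ (b x b^(-1)) κ`
(product formula of `ψ`), and `res (Θ x0 0) ≠ 0` (`s 0` commutes with `B`, `ℓ (s 0 x0 (s 0)^(-1)) = τ(ω (s 0)) ℓ x0`). So
`T = 0` on tuples with support in `s`, hence `T = 0`, and `(lift u w).m = T (fun i => (u i).m) = 0`. -/
def S_Rep : Prop :=
  ∀ (n p e : ℕ), p.Prime → 0 < e → ∀ (G : Type) [Group G] [Finite G] (F B D : Subgroup G),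
    Setup n p e G F B D → ∀ (k : Type) [Field k] [IsAlgClosed k] [CharP k p] (R : Type) [CommRing R]
    (gr : GRing p e k R),
      ∃ c : Code n k, InVar G (GA gr.tau c.A c.D) ∧ InVar (GA gr.tau c.A c.D) G

/-- (Cod) Codes of monolithic groups. Allowed hypotheses: `S_Fit`, `S_Hm`, `S_Dec`, `S_Mol`, `S_Rep`. PROOF. `p, F` from
`S_Fit`; `Nat.card F` is a power of `p`, prime to the index: Schur-Zassenhaus
(`Subgroup.exists_right_complement'_of_coprime`) gives a complement `H`. `S_Hm`: `derivedSeries H 2 = ⊥`. `S_Dec`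
for `↥H` (`p`-subgroups abelian: map to `G`): `D`; `B = commutator H` is abelian and normal in `H`. The images of `B, D`
in `G` with `F` and `e` from `S_Mol` form a `Setup` (`cop`: `m = Nat.card H = F.index`). `S_Rep`. -/
def S_Cod : Prop :=
  ∀ n : ℕ, 0 < n → ∀ (G : Type) [Group G] [Finite G], Cls n G → Mono G →
    ∃ p ∈ n.primeFactors, ∃ e : ℕ, 0 < e ∧ p ^ e ∣ n ∧
      ∀ (k : Type) [Field k] [IsAlgClosed k] [CharP k p] (R : Type) [CommRing R] (gr : GRing p e k R),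
      ∃ c : Code n k, InVar G (GA gr.tau c.A c.D) ∧ InVar (GA gr.tau c.A c.D) G

/-- (Sec) Below implies section. No hypotheses. PROOF. `φ : K₁ → K₂`. `P = {(u, w) ∈ GA₂ × GA₁ : u.x = φ (w.x),
u.m (φ y) = w.m y, u.a (φ y) = w.a y for all y}` is a subgroup of `GA₂ × GA₁` (`u.x = φ w.x` gives
`v.m (φ y + u.x) = v.m (φ (y + w.x))`). The projection `P → GA₂` is injective (`φ` injective for the component `x`), the
projection `P → GA₁` is onto: for `w ∈ GA₁` take `c, f` (for `z = 0`) with `w.a y = τ (c * f y)`, `(c, w.x) ∈ Δ₁`, `g ∈ A₂`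
with `f = g ∘ φ`; `u = (Function.extend φ w.m 0, y ↦ τ (c * g y), φ w.x)` lies in `GA₂` because of the translation
invariance of `A₂` and `(c, φ w.x) ∈ Δ₂`. So `GA₁` is a quotient of a subgroup of `GA₂` (`inVar_of_surjective`,
`inVar_of_injective`, `InVar.trans` of FB3/Defs). -/
def S_Sec : Prop :=
  ∀ (k R K₁ K₂ : Type) [Field k] [CommRing R] [AddCommGroup K₁] [AddCommGroup K₂] (τ : kˣ →* Rˣ)
    (A₁ : Subgroup (K₁ → kˣ)) (Δ₁ : Subgroup (kˣ × Multiplicative K₁))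
    (A₂ : Subgroup (K₂ → kˣ)) (Δ₂ : Subgroup (kˣ × Multiplicative K₂)),
    (∀ f ∈ A₂, ∀ z : K₂, (fun y => f (y + z)) ∈ A₂) → Below A₁ Δ₁ A₂ Δ₂ →
    InVar (GA τ A₁ Δ₁) (GA τ A₂ Δ₂)

end Pool.Agent.Lib.MP_f44088_fc
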