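import Mathlib
import Pool.Agent.Lib.MP_f44088_al.FB4.Spec

/-! Project FB4 (MP_f44088_al): a metabelian A-group splits over its commutator subgroup. -/

set_option autoImplicit false

open scoped commutatorElement

namespace Pool.Agent.Lib.MP_f44088_fc

namespace DecAux

/-- the commutator subgroup of a metabelian group is abelian -/
theorem comm_abelian {H : Type} [Group H] (h : derivedSeries H 2 = ⊥) :
    ∀ x ∈ commutator H, ∀ y ∈ commutator H, x * y = y * x := by
  have h1 : derivedSeries H 2 = ⁅commutator H, commutator H⁆ := by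
    rw [show (2 : ℕ) = 1 + 1 from rfl, derivedSeries_succ, derivedSeries_one]
  rw [h1] at h
  intro x hx y hy
  have h2 : ⁅x, y⁆ ∈ (⊥ : Subgroup H) := by
    rw [← h]
    exact Subgroup.commutator_mem_commutator hx hy
  exact commutatorElement_eq_one_iff_mul_comm.mp (Subgroup.mem_bot.mp h2)

end DecAux

open DecAux in
theorem Dec : S_Br → S_Kin → S_Dec := by
  intro hBr hKin H _ _ hd hp
  obtain ⟨D, hD⟩ := hKin H (commutator H) le_rfl (comm_abelian hd) (hBr H hd hp)
  refine ⟨D, hD, ?_⟩
  intro x hx y hy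
  have h1 : ⁅x, y⁆ ∈ D := by
    rw [commutatorElement_def]
    exact D.mul_mem (D.mul_mem (D.mul_mem hx hy) (D.inv_mem hx)) (D.inv_mem hy)
  have h2 : ⁅x, y⁆ ∈ commutator H := by
    rw [commutator_def]
    exact Subgroup.commutator_mem_commutator (Subgroup.mem_top x) (Subgroup.mem_top y)
  have h3 : ⁅x, y⁆ ∈ (⊥ : Subgroup H) := by
    have := hD.disjoint
    rw [disjoint_iff] at this
    rw [← this]
    exact ⟨h2, h1⟩
  exact commutatorElement_eq_one_iff_mul_comm.mp (Subgroup.mem_bot.mp h3)

end Pool.Agent.Lib.MP_f44088_fc
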