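import Pool.Agent.Lib.MP_f44088_al.FB4.Spec
import Mathlib.GroupTheory.FiniteAbelian.Basic

/-!
Project FB4 (MP_f44088_al), module Dua (helper64): functionals with values in `ZMod (p ^ e)` separate the elements
of a finite abelian group killed by `p ^ e`.
-/

set_option autoImplicit false

namespace Pool.Agent.Lib.MP_f44088_fc

namespace DuaAux

/-- an injective homomorphism `ZMod N → ZMod (N * c)` -/
theorem exists_inj (N c : ℕ) (hc : 0 < c) :
    ∃ g : ZMod N →+ ZMod (N * c), ∀ x, g x = 0 → x = 0 := by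
  have h0 : (zmultiplesHom (ZMod (N * c))) ((c : ℕ) : ZMod (N * c)) (N : ℤ) = 0 := by
    simp only [zmultiplesHom_apply, zsmul_eq_mul, Int.cast_natCast]
    have := ZMod.natCast_self (N * c)
    rw [Nat.cast_mul] at this
    exact this
  refine ⟨ZMod.lift N ⟨(zmultiplesHom (ZMod (N * c))) ((c : ℕ) : ZMod (N * c)), h0⟩, ?_⟩
  intro x hx
  obtain ⟨k, rfl⟩ := ZMod.intCast_surjective x
  rw [ZMod.lift_coe] at hx
  simp only [zmultiplesHom_apply, zsmul_eq_mul] at hx
  have h1 : (((k * (c : ℤ)) : ℤ) : ZMod (N * c)) = 0 := by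
    push_cast
    exact hx
  rw [ZMod.intCast_zmod_eq_zero_iff_dvd] at h1
  rw [ZMod.intCast_zmod_eq_zero_iff_dvd]
  have hc' : (c : ℤ) ≠ 0 := by exact_mod_cast hc.ne'
  push_cast at h1
  exact Int.dvd_of_mul_dvd_mul_right hc' h1

end DuaAux

theorem Dua : S_Dua := by
  intro p e hp M _ _ hM v hv
  obtain ⟨ι, _, q, hq, n, ⟨φ⟩⟩ := AddCommGroup.equiv_directSum_zmod_of_finite M
  classical
  have h1 : φ v ≠ 0 := by
    intro h
    exact hv (by simpa using h)
  obtain ⟨i, hi⟩ : ∃ i, (φ v) i ≠ 0 := by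
    by_contra hcon
    push Not at hcon
    exact h1 (DFinsupp.ext hcon)
  have hdvd : q i ^ n i ∣ p ^ e := by
    have h2 := hM (φ.symm (DirectSum.of (fun i => ZMod (q i ^ n i)) i 1))
    have h3 : φ ((p ^ e) • φ.symm (DirectSum.of (fun i => ZMod (q i ^ n i)) i 1)) = 0 := by
      rw [h2, map_zero]
    rw [map_nsmul, AddEquiv.apply_symm_apply, ← map_nsmul] at h3
    have h4 : (p ^ e) • (1 : ZMod (q i ^ n i)) = 0 := by
      apply DirectSum.of_injective (β := fun i => ZMod (q i ^ n i)) i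
      rw [h3, map_zero]
    rw [nsmul_eq_mul, mul_one] at h4
    exact (ZMod.natCast_eq_zero_iff _ _).1 h4
  obtain ⟨c, hc⟩ := hdvd
  have hc0 : 0 < c := by
    rcases Nat.eq_zero_or_pos c with h | h
    · rw [h, mul_zero] at hc
      exact absurd hc (pow_pos hp.pos e).ne'
    · exact h
  rw [hc]
  obtain ⟨g, hg⟩ := DuaAux.exists_inj (q i ^ n i) c hc0
  refine ⟨g.comp ((DirectSum.component ℕ ι (fun i => ZMod (q i ^ n i)) i).toAddMonoidHom.comp
    φ.toAddMonoidHom), ?_⟩
  intro h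
  exact hi (hg _ h)

end Pool.Agent.Lib.MP_f44088_fc
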