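import Pool.Agent.Lib.MP_f44088_al.FB4.Spec2

set_option autoImplicit false

namespace Pool.Agent.Lib.MP_f44088_fc

namespace DualAux

/-- the pairing as an additive function of the vector -/
def pl {n : ℕ} {K : Type} [AddCommGroup K] (c : Coord n K) (a : Idx n) (y : K) :
    (ℕ →₀ ZMod (a.1.1 ^ a.1.2)) →+ ZMod (a.1.1 ^ a.1.2) where
  toFun l := c.pair a l y
  map_zero' := by simp [Coord.pair]
  map_add' l l' := by
    simp only [Coord.pair]
    rw [← Finset.sum_add_distrib]
    exact Finset.sum_congr rfl fun s _ => by rw [Finsupp.add_apply]; ring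

theorem pair_add {n : ℕ} {K : Type} [AddCommGroup K] (c : Coord n K) (a : Idx n)
    (l : ℕ →₀ ZMod (a.1.1 ^ a.1.2)) (y y' : K) : c.pair a l (y + y') = c.pair a l y + c.pair a l y' := by
  simp only [Coord.pair]
  rw [← Finset.sum_add_distrib]
  exact Finset.sum_congr rfl fun s _ => by rw [map_add, Pi.add_apply, Pi.add_apply]; ring

theorem pair_zero {n : ℕ} {K : Type} [AddCommGroup K] (c : Coord n K) (a : Idx n)
    (l : ℕ →₀ ZMod (a.1.1 ^ a.1.2)) : c.pair a l 0 = 0 := by
  simp only [Coord.pair]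
  exact Finset.sum_eq_zero fun s _ => by rw [map_zero]; simp

theorem expand {m d : ℕ} (l : ℕ →₀ ZMod m) (h : ∀ s, d ≤ s → l s = 0) :
    l = ∑ s : Fin d, l s • Finsupp.single (s : ℕ) (1 : ZMod m) := by
  ext t
  rw [Finsupp.finsetSum_apply]
  by_cases ht : t < d
  · rw [Finset.sum_eq_single (⟨t, ht⟩ : Fin d)]
    · simp
    · intro b _ hb
      have hne : (b : ℕ) ≠ t := fun h => hb (Fin.ext h)
      simp [hne]
    · intro h
      exact absurd (Finset.mem_univ _) h
  · rw [h t (not_lt.1 ht)]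
    refine (Finset.sum_eq_zero fun b _ => ?_).symm
    have hne : (b : ℕ) ≠ t := fun h => ht (h ▸ b.2)
    simp [hne]

end DualAux

open DualAux in
theorem Dual : S_Dual := by
  intro n K₁ K₂ _ _ c₁ c₂ π
  let φ : K₁ →+ K₂ :=
    { toFun := fun y => c₂.θ.symm (fun a s => c₁.pair a (π a (Finsupp.single (s : ℕ) 1)) y)
      map_zero' := by
        have h : (fun (a : Idx n) (s : Fin (c₂.d a)) =>
            c₁.pair a (π a (Finsupp.single (s : ℕ) 1)) 0) = 0 := by
          funext a s
          exact pair_zero c₁ a _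
        rw [h, map_zero]
      map_add' := by
        intro y y'
        rw [← map_add]
        congr 1
        funext a s
        exact pair_add c₁ a _ y y' }
  refine ⟨φ, fun a l hl y => ?_⟩
  have h1 : c₂.pair a l (φ y) =
      ∑ s : Fin (c₂.d a), l s * c₁.pair a (π a (Finsupp.single (s : ℕ) 1)) y := by
    have h2 : c₂.θ (φ y) = fun (a : Idx n) (s : Fin (c₂.d a)) =>
        c₁.pair a (π a (Finsupp.single (s : ℕ) 1)) y :=
      c₂.θ.apply_symm_apply _
    simp only [Coord.pair] at h2 ⊢
    rw [h2]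
  have h3 : c₁.pair a (π a l) y = pl c₁ a y (π a l) := rfl
  rw [h1, h3]
  conv_rhs => rw [expand l hl]
  rw [map_sum, map_sum]
  refine Finset.sum_congr rfl fun s _ => ?_
  rw [ZMod.map_smul (π a), ZMod.map_smul (pl c₁ a y), smul_eq_mul]
  rfl

end Pool.Agent.Lib.MP_f44088_fc
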