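import Mathlib
import Pool.Agent.Lib.MP_f44088_al.FB4.Spec

/-! Project FB4: the prime to `r` part modulo `A` (statement `S_EU`). -/

set_option autoImplicit false

namespace Pool.Agent.Lib.MP_f44088_fc

open scoped commutatorElement

namespace EUAux

theorem mem_of_coprime {G : Type} [Group G] (S : Subgroup G) (g : G) (a b : ℕ) (h : Nat.Coprime a b)
    (ha : g ^ a ∈ S) (hb : g ^ b ∈ S) : g ∈ S := by
  have h1 : (1 : ℤ) = a * Nat.gcdA a b + b * Nat.gcdB a b := by
    rw [← Nat.gcd_eq_gcd_ab, Nat.Coprime.gcd_eq_one h]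
    rfl
  have h2 : g = (g ^ a) ^ (Nat.gcdA a b) * (g ^ b) ^ (Nat.gcdB a b) := by
    rw [← zpow_natCast, ← zpow_natCast, ← zpow_mul, ← zpow_mul, ← zpow_add, ← h1, zpow_one]
  rw [h2]
  exact S.mul_mem (S.zpow_mem ha _) (S.zpow_mem hb _)

theorem normal_of {H : Type} [Group H] (A : Subgroup H) (hA : commutator H ≤ A) : A.Normal := by
  constructor
  intro x hx g
  have h1 : g * x * g⁻¹ = ⁅g, x⁆ * x := by
    rw [commutatorElement_def]
    group
  rw [h1]
  exact A.mul_mem (hA (Subgroup.commutator_mem_commutator (Subgroup.mem_top g) (Subgroup.mem_top x))) hx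

theorem mul_pow_mem {H : Type} [Group H] (A : Subgroup H) (hA : commutator H ≤ A) (m : ℕ) (g h : H)
    (hg : g ^ m ∈ A) (hh : h ^ m ∈ A) : (g * h) ^ m ∈ A := by
  have := normal_of A hA
  rw [← QuotientGroup.eq_one_iff] at hg hh ⊢
  have hc : Commute (QuotientGroup.mk g : H ⧸ A) (QuotientGroup.mk h) := by
    change (QuotientGroup.mk g : H ⧸ A) * QuotientGroup.mk h = QuotientGroup.mk h * QuotientGroup.mk g
    rw [← QuotientGroup.mk_mul, ← QuotientGroup.mk_mul, QuotientGroup.eq]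
    have e : (g * h)⁻¹ * (h * g) = ⁅h⁻¹, g⁻¹⁆ := by
      rw [commutatorElement_def]
      group
    rw [e]
    exact hA (Subgroup.commutator_mem_commutator (Subgroup.mem_top _) (Subgroup.mem_top _))
  rw [QuotientGroup.mk_pow, QuotientGroup.mk_mul, hc.mul_pow, ← QuotientGroup.mk_pow,
    ← QuotientGroup.mk_pow, hg, hh, one_mul]

theorem pow_add_eq_one {G : Type} [Group G] (g : G) (r i j : ℕ) (h : g ^ (r ^ i) = 1) :
    g ^ (r ^ (i + j)) = 1 := by
  rw [pow_add, pow_mul, h, one_pow]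

end EUAux

open EUAux in
theorem EU : S_EU := by
  intro H _ _ A hA hab r hr
  have hAn := normal_of A hA
  have : Fact r.Prime := ⟨hr⟩
  obtain ⟨l, m, hm1, hm2⟩ : ∃ l m : ℕ, Nat.Coprime m r ∧ ∀ g : H, g ^ (r ^ l * m) = 1 := by
    obtain ⟨l, m, hm, hN⟩ := Nat.exists_eq_pow_mul_and_not_dvd (Nat.card_pos (α := H)).ne' r hr.ne_one
    refine ⟨l, m, ?_, ?_⟩
    · rw [Nat.coprime_comm, Nat.Prime.coprime_iff_not_dvd hr]
      exact hm
    · intro g
      rw [← hN]
      exact pow_card_eq_one'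
  -- the subgroup `E`
  let E : Subgroup H :=
    { carrier := {g | g ^ m ∈ A}
      mul_mem' := fun {g h} hg hh => mul_pow_mem A hA m g h hg hh
      one_mem' := by
        change (1 : H) ^ m ∈ A
        rw [one_pow]
        exact A.one_mem
      inv_mem' := by
        intro g hg
        change g⁻¹ ^ m ∈ A
        rw [inv_pow]
        exact A.inv_mem hg }
  have hE : ∀ g, g ∈ E ↔ g ^ m ∈ A := fun g => Iff.rfl
  have hAE : A ≤ E := fun g hg => (hE g).2 (A.pow_mem hg m)
  -- the subgroup `B`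
  let B : Subgroup H :=
    { carrier := {g | g ∈ A ∧ ∃ j : ℕ, g ^ (r ^ j) = 1}
      mul_mem' := by
        rintro g h ⟨hg, i, hg'⟩ ⟨hh, j, hh'⟩
        refine ⟨A.mul_mem hg hh, i + j, ?_⟩
        have hc : Commute g h := hab g hg h hh
        rw [hc.mul_pow, pow_add_eq_one g r i j hg', add_comm i j, pow_add_eq_one h r j i hh', one_mul]
      one_mem' := ⟨A.one_mem, 0, one_pow _⟩
      inv_mem' := by
        rintro g ⟨hg, j, hg'⟩
        refine ⟨A.inv_mem hg, j, ?_⟩
        rw [inv_pow, hg', inv_one] }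
  have hB : ∀ g, g ∈ B ↔ g ∈ A ∧ ∃ j : ℕ, g ^ (r ^ j) = 1 := fun g => Iff.rfl
  have hBn : B.Normal := by
    constructor
    intro x hxB g
    rw [hB] at hxB ⊢
    obtain ⟨hx, j, hj⟩ := hxB
    refine ⟨hAn.conj_mem x hx g, j, ?_⟩
    rw [conj_pow, hj]
    simp
  let B' : Subgroup E := B.subgroupOf E
  have hBn' : B'.Normal := Subgroup.normal_subgroupOf
  have hB'p : IsPGroup r B' := by
    intro x
    have h1 : ((x : E) : H) ∈ B := Subgroup.mem_subgroupOf.1 x.2
    obtain ⟨j, hj⟩ := ((hB _).1 h1).2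
    refine ⟨j, ?_⟩
    apply Subtype.ext
    apply Subtype.ext
    simpa using hj
  have hidx : Nat.Coprime (B'.index) r := by
    rw [Nat.coprime_comm, Nat.Prime.coprime_iff_not_dvd hr]
    intro hd
    have hd' : r ∣ Nat.card (E ⧸ B') := hd
    obtain ⟨q, hq⟩ := exists_prime_orderOf_dvd_card' r hd'
    obtain ⟨g, rfl⟩ := QuotientGroup.mk_surjective q
    have h1 : g ^ r ∈ B' := by
      rw [← QuotientGroup.eq_one_iff, QuotientGroup.mk_pow, ← hq]
      exact pow_orderOf_eq_one _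
    have h2 : g ∉ B' := by
      intro h
      rw [← QuotientGroup.eq_one_iff] at h
      rw [h, orderOf_one] at hq
      exact hr.one_lt.ne hq
    apply h2
    have h3 : ((g : H)) ^ r ∈ B := by
      have := Subgroup.mem_subgroupOf.1 h1
      simpa using this
    obtain ⟨-, j, hj⟩ := (hB _).1 h3
    have h4 : (g : H) ^ (r ^ (j + 1)) = 1 := by
      rw [pow_succ', pow_mul]
      exact hj
    have h5 : (g : H) ∈ A := mem_of_coprime A (g : H) m (r ^ (j + 1)) (Nat.Coprime.pow_right _ hm1)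
      ((hE _).1 g.2) (by
        rw [h4]
        exact A.one_mem)
    exact Subgroup.mem_subgroupOf.2 ((hB _).2 ⟨h5, j + 1, h4⟩)
  have hcop : Nat.Coprime (Nat.card B') B'.index := by
    obtain ⟨k, hk⟩ := IsPGroup.iff_card.1 hB'p
    rw [hk]
    exact (Nat.Coprime.pow_right k hidx).symm
  obtain ⟨U', hU'⟩ := Subgroup.exists_right_complement'_of_coprime hcop
  refine ⟨E, U'.map E.subtype, hAE, Subgroup.map_subtype_le U', ?_, ?_, ?_, ?_⟩
  · rintro x hxA hxr ⟨u, hu, rfl⟩
    have h1 : u ∈ B' := Subgroup.mem_subgroupOf.2 ((hB _).2 ⟨hxA, hxr⟩)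
    have h2 : u ∈ B' ⊓ U' := ⟨h1, hu⟩
    rw [hU'.disjoint.eq_bot, Subgroup.mem_bot] at h2
    rw [h2]
    simp
  · intro g hg
    obtain ⟨⟨b, u⟩, hbu, -⟩ := Subgroup.IsComplement.existsUnique hU' ⟨g, hg⟩
    have h1 : ((b : E) : H) ∈ B := Subgroup.mem_subgroupOf.1 b.2
    refine ⟨((b : E) : H), ((hB _).1 h1).1, ((hB _).1 h1).2, ((u : E) : H), ⟨(u : E), u.2, rfl⟩, ?_⟩
    have := congrArg (Subtype.val) hbu
    simpa using this.symm
  · have h1 : Nat.card (U'.map E.subtype) = Nat.card U' :=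
      (Nat.card_congr (U'.equivMapOfInjective E.subtype Subtype.val_injective).toEquiv).symm
    rw [h1, ← hU'.symm.index_eq_card]
    exact hidx
  · intro g
    refine ⟨l, ?_⟩
    rw [hE, ← pow_mul, hm2]
    exact A.one_mem

end Pool.Agent.Lib.MP_f44088_fc
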