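import Pool.Agent.Lib.MP_f44088_al.FB4.Spec

/-! Project FB4 (MP_f44088_al), module Eig: the eigenfunction. -/

set_option autoImplicit false

namespace Pool.Agent.Lib.MP_f44088_fc

open Pool.Agent.Lib.MP_f44088_fb (Sat InVar FGrp Cls Mono Rich IsChar Lam)

namespace EigAux

/-- the operator of conjugation by `a` on functions -/
def T (R : Type) [CommRing R] {G : Type} [Group G] (a : G) : (G → R) →ₗ[R] (G → R) :=
  LinearMap.funLeft R R (fun x => a * x * a⁻¹)

theorem T_apply {R : Type} [CommRing R] {G : Type} [Group G] (a : G) (f : G → R) (x : G) :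
    T R a f x = f (a * x * a⁻¹) := rfl

/-- the additive functions on `F`, extended by 0 -/
def V (R : Type) [CommRing R] {G : Type} [Group G] (F : Subgroup G) : Submodule R (G → R) where
  carrier := {f | (∀ x ∈ F, ∀ y ∈ F, f (x * y) = f x + f y) ∧ ∀ x, x ∉ F → f x = 0}
  add_mem' := by
    rintro f g ⟨hf1, hf2⟩ ⟨hg1, hg2⟩
    refine ⟨fun x hx y hy => ?_, fun x hx => ?_⟩
    · rw [Pi.add_apply, Pi.add_apply, Pi.add_apply, hf1 x hx y hy, hg1 x hx y hy]
      ring
    · rw [Pi.add_apply, hf2 x hx, hg2 x hx, add_zero]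
  zero_mem' := ⟨fun _ _ _ _ => (add_zero (0 : R)).symm, fun _ _ => rfl⟩
  smul_mem' := by
    rintro c f ⟨hf1, hf2⟩
    refine ⟨fun x hx y hy => ?_, fun x hx => ?_⟩
    · rw [Pi.smul_apply, Pi.smul_apply, Pi.smul_apply, hf1 x hx y hy, smul_add]
    · rw [Pi.smul_apply, hf2 x hx, smul_zero]

theorem T_mem {R : Type} [CommRing R] {G : Type} [Group G] {F : Subgroup G} (hF : F.Normal) (a : G)
    {f : G → R} (hf : f ∈ V R F) : T R a f ∈ V R F := by
  obtain ⟨h1, h2⟩ := hf
  refine ⟨fun x hx y hy => ?_, fun x hx => ?_⟩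
  · rw [T_apply, T_apply, T_apply, ← h1 _ (hF.conj_mem x hx a) _ (hF.conj_mem y hy a)]
    congr 1
    group
  · rw [T_apply]
    refine h2 _ fun h => hx ?_
    have h3 := hF.conj_mem _ h a⁻¹
    have h4 : a⁻¹ * (a * x * a⁻¹) * a⁻¹⁻¹ = x := by group
    rwa [h4] at h3

/-- the representation of a commutative group of elements of `G` -/
def rho (R : Type) [CommRing R] {G : Type} [Group G] {F : Subgroup G} (hF : F.Normal)
    (A : Subgroup G) (hA : ∀ x ∈ A, ∀ y ∈ A, x * y = y * x) : A →* Module.End R (V R F) where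
  toFun a := (T R (a : G)).restrict (fun _ hf => T_mem hF (a : G) hf)
  map_one' := by
    apply LinearMap.ext
    intro f
    apply Subtype.ext
    funext x
    change (f : G → R) (((1 : A) : G) * x * ((1 : A) : G)⁻¹) = (f : G → R) x
    congr 1
    simp
  map_mul' := by
    intro a b
    apply LinearMap.ext
    intro f
    apply Subtype.ext
    funext x
    change (f : G → R) (((a * b : A) : G) * x * ((a * b : A) : G)⁻¹) =
      (f : G → R) ((b : G) * ((a : G) * x * (a : G)⁻¹) * (b : G)⁻¹)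
    congr 1
    rw [Subgroup.coe_mul, hA _ a.2 _ b.2]
    group

theorem rho_apply {R : Type} [CommRing R] {G : Type} [Group G] {F : Subgroup G} (hF : F.Normal)
    (A : Subgroup G) (hA : ∀ x ∈ A, ∀ y ∈ A, x * y = y * x) (a : A) (f : V R F) (x : G) :
    ((rho R hF A hA a f : V R F) : G → R) x = (f : G → R) ((a : G) * x * (a : G)⁻¹) := rfl

theorem V_pow {R : Type} [CommRing R] {G : Type} [Group G] {F : Subgroup G} {f : G → R}
    (hf : ∀ x ∈ F, ∀ y ∈ F, f (x * y) = f x + f y) {x : G} (hx : x ∈ F) (m : ℕ) :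
    f (x ^ m) = (m : R) * f x := by
  induction m with
  | zero =>
    have h := hf 1 F.one_mem 1 F.one_mem
    rw [mul_one] at h
    have h0 : f 1 = 0 := by
      have h2 : f 1 + 0 = f 1 + f 1 := by rw [add_zero]; exact h
      exact (add_left_cancel h2).symm
    rw [pow_zero, h0, Nat.cast_zero, zero_mul]
  | succ m ih =>
    rw [pow_succ, hf _ (F.pow_mem hx m) _ hx, ih]
    push_cast
    ring

theorem charP_R {p e : ℕ} (hp : p.Prime) (he : 0 < e) {k R : Type} [Field k] [CommRing R]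
    (gr : GRing p e k R) : CharP R (p ^ e) := by
  have : Fact p.Prime := ⟨hp⟩
  obtain ⟨d, rfl⟩ : ∃ d, e = d + 1 := ⟨e - 1, by omega⟩
  have h1 : ¬ (p ^ d) • (1 : R) = 0 := by
    intro h
    rw [nsmul_one] at h
    have h2 := gr.top 1 (by
      rw [mul_one, Nat.add_sub_cancel]
      exact_mod_cast h)
    rw [map_one] at h2
    exact one_ne_zero h2
  have h2 : (p ^ (d + 1)) • (1 : R) = 0 := by
    rw [nsmul_one]
    exact_mod_cast gr.nil
  have h3 := addOrderOf_eq_prime_pow h1 h2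
  refine ⟨fun x => ?_⟩
  rw [← nsmul_one, ← addOrderOf_dvd_iff_nsmul_eq_zero, h3]

theorem exists_form {p e : ℕ} (hp : p.Prime) (he : 0 < e) {k R : Type} [Field k] [CommRing R]
    (gr : GRing p e k R) (hDua : S_Dua) {G : Type} [Group G] [Finite G] {F : Subgroup G}
    (hab : ∀ x ∈ F, ∀ y ∈ F, x * y = y * x) (hexp : ∀ x ∈ F, x ^ (p ^ e) = 1)
    {v : G} (hv : v ∈ F) (hv1 : v ≠ 1) : ∃ f ∈ V R F, f v ≠ 0 := by
  classical
  have hch := charP_R hp he gr
  let iA : AddCommGroup (Additive F) := Pool.Agent.Lib.MP_f44088_fb.addK F hab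
  have hz : ∀ x : Additive F, (p ^ e) • x = 0 := by
    intro x
    apply Additive.toMul.injective
    exact Subtype.ext (hexp _ (Additive.toMul x).2)
  have hne : (Additive.ofMul (⟨v, hv⟩ : F) : Additive F) ≠ 0 := by
    intro h
    exact hv1 (congrArg Subtype.val (Additive.ofMul.injective h))
  have hfin : Finite (Additive F) := inferInstanceAs (Finite F)
  obtain ⟨φ, hφ⟩ := hDua p e hp (Additive F) hz _ hne
  have hinj : Function.Injective (ZMod.castHom (dvd_refl (p ^ e)) R) := ZMod.castHom_injective R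
  obtain ⟨f, hf⟩ : ∃ f : G → R, f = fun x =>
      if h : x ∈ F then ZMod.castHom (dvd_refl (p ^ e)) R (φ (Additive.ofMul (⟨x, h⟩ : F))) else 0 :=
    ⟨_, rfl⟩
  have hfF : ∀ x (hx : x ∈ F),
      f x = ZMod.castHom (dvd_refl (p ^ e)) R (φ (Additive.ofMul (⟨x, hx⟩ : F))) := by
    intro x hx
    rw [hf]
    exact dif_pos hx
  refine ⟨f, ⟨fun x hx y hy => ?_, fun x hx => ?_⟩, ?_⟩
  · have e4 : (Additive.ofMul (⟨x * y, F.mul_mem hx hy⟩ : F) : Additive F) =
        Additive.ofMul (⟨x, hx⟩ : F) + Additive.ofMul (⟨y, hy⟩ : F) := rfl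
    rw [hfF _ (F.mul_mem hx hy), hfF x hx, hfF y hy, e4, map_add, map_add]
  · rw [hf]
    exact dif_neg hx
  · rw [hfF v hv]
    intro h
    apply hφ
    apply hinj
    rw [h, map_zero]

theorem closure_comm {G : Type} [Group G] {S : Set G} (h : ∀ x ∈ S, ∀ y ∈ S, x * y = y * x) :
    ∀ x ∈ Subgroup.closure S, ∀ y ∈ Subgroup.closure S, x * y = y * x := by
  intro x hx y hy
  have h2 : S ⊆ Subgroup.centralizer S := fun a ha => by
    rw [SetLike.mem_coe, Subgroup.mem_centralizer_iff]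
    exact fun b hb => h b hb a ha
  have h3 : Subgroup.closure S ≤ Subgroup.centralizer S := (Subgroup.closure_le _).2 h2
  have h4 : S ⊆ Subgroup.centralizer (Subgroup.closure S : Set G) := fun a ha => by
    rw [SetLike.mem_coe, Subgroup.mem_centralizer_iff]
    intro b hb
    exact ((Subgroup.mem_centralizer_iff.1 (h3 hb)) a ha).symm
  have h5 : Subgroup.closure S ≤ Subgroup.centralizer (Subgroup.closure S : Set G) :=
    (Subgroup.closure_le _).2 h4
  exact (Subgroup.mem_centralizer_iff.1 (h5 hy)) x hx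

theorem closure_pow {G : Type} [Group G] {S : Set G} (h : ∀ x ∈ S, ∀ y ∈ S, x * y = y * x)
    {m : ℕ} (hm : ∀ x ∈ S, x ^ m = 1) : ∀ x ∈ Subgroup.closure S, x ^ m = 1 := by
  intro x hx
  induction hx using Subgroup.closure_induction with
  | mem x hx => exact hm x hx
  | one => exact one_pow m
  | mul x y hx hy hx1 hy1 =>
    have hc : Commute x y := closure_comm h x hx y hy
    rw [hc.mul_pow, hx1, hy1, mul_one]
  | inv x hx hx1 => rw [inv_pow, hx1, inv_one]

theorem card_coprime {A : Type} [Group A] [Finite A] {p m : ℕ} (hp : p.Prime) (hm : m.Coprime p)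
    (h : ∀ x : A, x ^ m = 1) : (Nat.card A).Coprime p := by
  have : Fact p.Prime := ⟨hp⟩
  rw [Nat.coprime_comm, hp.coprime_iff_not_dvd]
  intro hd
  obtain ⟨x, hx⟩ := exists_prime_orderOf_dvd_card' p hd
  have h1 : p ∣ m := by
    rw [← hx]
    exact orderOf_dvd_of_pow_eq_one (h x)
  have h2 : p ∣ 1 := by
    rw [← hm]
    exact Nat.dvd_gcd h1 (dvd_refl p)
  exact hp.one_lt.ne' (Nat.dvd_one.1 h2)

end EigAux

open EigAux in
theorem Eig : S_Dua → S_Prj → S_Ex → S_Eig := by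
  intro hDua hPrj hEx n p e hp he G _ _ F B D hS k _ _ _ R _ gr
  classical
  obtain ⟨x0, hx0, hx1, hmono⟩ := hS.mono
  obtain ⟨m, hm, hmB, hmD⟩ := hS.cop
  obtain ⟨f, hfV, hfv⟩ := exists_form hp he gr hDua hS.abF hS.expF (F.pow_mem hx0 (p ^ (e - 1))) hx1
  obtain ⟨S, hSdef⟩ : ∃ S : Set G, S = {g | g ∈ B ∨ (g ∈ D ∧ ∀ b ∈ B, g * b = b * g)} := ⟨_, rfl⟩
  have hcom : ∀ x ∈ S, ∀ y ∈ S, x * y = y * x := by
    intro x hx y hy
    rw [hSdef] at hx hy
    rcases hx with hx | ⟨hxD, hxB⟩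
    · rcases hy with hy | ⟨hyD, hyB⟩
      · exact hS.abB x hx y hy
      · exact (hyB x hx).symm
    · rcases hy with hy | ⟨hyD, hyB⟩
      · exact hxB y hy
      · exact hS.abD x hxD y hyD
  have hpow : ∀ x ∈ S, x ^ m = 1 := by
    intro x hx
    rw [hSdef] at hx
    rcases hx with hx | ⟨hxD, _⟩
    · exact hmB x hx
    · exact hmD x hxD
  have hBA : ∀ b ∈ B, b ∈ Subgroup.closure S := fun b hb =>
    Subgroup.subset_closure (by rw [hSdef]; exact Or.inl hb)
  have hDA : ∀ z ∈ D, (∀ b ∈ B, z * b = b * z) → z ∈ Subgroup.closure S := fun z hz hzB =>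
    Subgroup.subset_closure (by rw [hSdef]; exact Or.inr ⟨hz, hzB⟩)
  obtain ⟨A, hAdef⟩ : ∃ A : Subgroup G, A = Subgroup.closure S := ⟨_, rfl⟩
  rw [← hAdef] at hBA hDA
  have hA : ∀ x ∈ A, ∀ y ∈ A, x * y = y * x := by
    rw [hAdef]
    exact closure_comm hcom
  have hApow : ∀ x ∈ A, x ^ m = 1 := by
    rw [hAdef]
    exact closure_pow hcom hpow
  let iA : CommGroup A := { (inferInstance : Group A) with
    mul_comm := fun a b => Subtype.ext (hA _ a.2 _ b.2) }
  have hcard : (Nat.card A).Coprime p :=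
    card_coprime hp hm (fun x => Subtype.ext (hApow _ x.2))
  obtain ⟨χ, g, hg1, hg2⟩ := hPrj p e hp he k R gr A hcard (V R F) (rho R hS.normF A hA)
    ((LinearMap.proj (x0 ^ (p ^ (e - 1)))).comp (V R F).subtype) ⟨f, hfV⟩ hfv
  let iD : CommGroup D := { (inferInstance : Group D) with
    mul_comm := fun a b => Subtype.ext (hS.abD _ a.2 _ b.2) }
  let D0 : Subgroup D := (Subgroup.centralizer (B : Set G)).subgroupOf D
  have hD0 : ∀ z : D, z ∈ D0 ↔ ∀ b ∈ B, (z : G) * b = b * (z : G) := by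
    intro z
    rw [Subgroup.mem_subgroupOf, Subgroup.mem_centralizer_iff]
    exact ⟨fun h b hb => (h b hb).symm, fun h b hb => (h b hb).symm⟩
  let inc0 : D0 →* A :=
    { toFun := fun z => ⟨((z : D) : G), hDA _ (z : D).2 ((hD0 _).1 z.2)⟩
      map_one' := rfl
      map_mul' := fun _ _ => rfl }
  obtain ⟨ω, hω⟩ := hEx k D D0 (χ.comp inc0)
  have hgl : ∀ a (ha : a ∈ A) x, (g : G → R) (a * x * a⁻¹) = (gr.tau (χ ⟨a, ha⟩) : R) * (g : G → R) x := by
    intro a ha x
    have h1 := hg1 ⟨a, ha⟩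
    have h2 := congrFun (congrArg Subtype.val h1) x
    rw [rho_apply] at h2
    rw [h2]
    rfl
  refine ⟨(g : G → R), fun a => if h : a ∈ A then χ ⟨a, h⟩ else 1,
    fun a => if h : a ∈ D then ω ⟨a, h⟩ else 1, ?_⟩
  refine ⟨g.2.1, ⟨x0, hx0, ?_, hmono⟩, ?_, ?_, ?_, ?_⟩
  · intro hres
    obtain ⟨y, hy⟩ := gr.ker _ hres
    apply hg2
    change (g : G → R) (x0 ^ (p ^ (e - 1))) = 0
    rw [V_pow g.2.1 hx0, hy, ← mul_assoc]
    have h1 : ((p ^ (e - 1) : ℕ) : R) * (p : R) = (p : R) ^ e := by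
      push_cast
      rw [← pow_succ]
      congr 1
      omega
    rw [h1, gr.nil, zero_mul]
  · intro b hb x _
    rw [dif_pos (hBA b hb)]
    exact hgl b (hBA b hb) x
  · intro b hb b' hb'
    rw [dif_pos (hBA b hb), dif_pos (hBA b' hb'), dif_pos (hBA _ (B.mul_mem hb hb')), ← map_mul]
    rfl
  · intro z hz hzB x _
    rw [dif_pos hz, hgl z (hDA z hz hzB) x]
    have h1 := hω ⟨⟨z, hz⟩, (hD0 _).2 hzB⟩
    have h2 : ω ⟨z, hz⟩ = χ ⟨z, hDA z hz hzB⟩ := h1
    rw [h2]
  · intro y hy y' hy'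
    rw [dif_pos hy, dif_pos hy', dif_pos (D.mul_mem hy hy'), ← map_mul]
    rfl

end Pool.Agent.Lib.MP_f44088_fc
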