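import Mathlib
import Pool.Agent.Lib.MP_f44088_al.FB4.Spec

/-! Project FB4 (MP_f44088_al), module Emb: the embedding of `G = F B D` into the affine group `Aff`. -/

set_option autoImplicit false

namespace Pool.Agent.Lib.MP_f44088_fc

namespace EmbAux

variable {n p e : ℕ} {G : Type} [Group G] {F B D : Subgroup G} {k R : Type} [Field k] [CommRing R]
  {gr : GRing p e k R} {ℓ : G → R} {χ ω : G → kˣ} {K : Type} [AddCommGroup K] {π : G → K}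
  {s : K → G}

/-- uniqueness of the decomposition -/
theorem uniq (hS : Setup n p e G F B D) {x x' a a' y y' : G} (hx : x ∈ F) (hx' : x' ∈ F)
    (ha : a ∈ B) (ha' : a' ∈ B) (hy : y ∈ D) (hy' : y' ∈ D)
    (h : x * a * y = x' * a' * y') : x = x' ∧ a = a' ∧ y = y' := by
  have ht : y * y'⁻¹ ∈ D := D.mul_mem hy (D.inv_mem hy')
  have h1 := hS.uni (x'⁻¹ * x) (F.mul_mem (F.inv_mem hx') hx)
    (a * ((y * y'⁻¹) * a'⁻¹ * (y * y'⁻¹)⁻¹)) (B.mul_mem ha (hS.nor _ ht _ (B.inv_mem ha')))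
    (y * y'⁻¹) ht (by
      have e : x'⁻¹ * x * (a * ((y * y'⁻¹) * a'⁻¹ * (y * y'⁻¹)⁻¹)) * (y * y'⁻¹) =
          x'⁻¹ * (x * a * y) * y'⁻¹ * a'⁻¹ := by group
      rw [e, h]
      group)
  obtain ⟨h2, h3, h4⟩ := h1
  rw [h4] at h3
  refine ⟨(inv_mul_eq_one.mp h2).symm, ?_, mul_inv_eq_one.mp h4⟩
  have h5 : a * a'⁻¹ = 1 := by simpa using h3
  exact mul_inv_eq_one.mp h5

theorem l_one (hE : Eigen gr G F B D ℓ χ ω) : ℓ 1 = 0 := by
  have h := hE.add 1 F.one_mem 1 F.one_mem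
  rw [mul_one] at h
  simpa using h

theorem l_inv (hE : Eigen gr G F B D ℓ χ ω) {x : G} (hx : x ∈ F) : ℓ x⁻¹ = -ℓ x := by
  have h := hE.add x hx x⁻¹ (F.inv_mem hx)
  rw [mul_inv_cancel, l_one hE] at h
  exact (neg_eq_of_add_eq_zero_right h.symm).symm

theorem l_pow (hE : Eigen gr G F B D ℓ χ ω) {x : G} (hx : x ∈ F) (m : ℕ) :
    ℓ (x ^ m) = (m : R) * ℓ x := by
  induction m with
  | zero => simp [l_one hE]
  | succ m ih =>
    rw [pow_succ, hE.add _ (F.pow_mem hx m) _ hx, ih]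
    push_cast
    ring

theorem conjF (hS : Setup n p e G F B D) (g : G) {x : G} (hx : x ∈ F) : g * x * g⁻¹ ∈ F :=
  hS.normF.conj_mem x hx g

/-- `ℓ` of a conjugate of a product -/
theorem l_mul (hS : Setup n p e G F B D) (hE : Eigen gr G F B D ℓ χ ω) (z : G) {x x' : G}
    (hx : x ∈ F) (hx' : x' ∈ F) :
    ℓ (z * (x * x') * z⁻¹) = ℓ (z * x * z⁻¹) + ℓ (z * x' * z⁻¹) := by
  rw [← hE.add _ (conjF hS z hx) _ (conjF hS z hx')]
  congr 1
  group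

/-- `ℓ` of a conjugate by `z a` -/
theorem l_eig (hS : Setup n p e G F B D) (hE : Eigen gr G F B D ℓ χ ω) {z : G} (hz : z ∈ D)
    {a x : G} (ha : a ∈ B) (hx : x ∈ F) :
    ℓ (z * (a * x * a⁻¹) * z⁻¹) = (gr.tau (χ (z * a * z⁻¹)) : R) * ℓ (z * x * z⁻¹) := by
  rw [← hE.eigB _ (hS.nor z hz a ha) _ (conjF hS z hx)]
  congr 1
  group

/-- `χ` of a conjugate of a product -/
theorem c_mul (hS : Setup n p e G F B D) (hE : Eigen gr G F B D ℓ χ ω) {z : G} (hz : z ∈ D)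
    {a b : G} (ha : a ∈ B) (hb : b ∈ B) :
    χ (z * (a * b) * z⁻¹) = χ (z * a * z⁻¹) * χ (z * b * z⁻¹) := by
  rw [← hE.mulB _ (hS.nor z hz a ha) _ (hS.nor z hz b hb)]
  congr 1
  group

/-- the data of the section -/
structure SecD (B D : Subgroup G) (π : G → K) (s : K → G) : Prop where
  add : ∀ y ∈ D, ∀ y' ∈ D, π (y * y') = π y + π y'
  zero : ∀ z ∈ D, (π z = 0 ↔ ∀ b ∈ B, z * b = b * z)
  sec : ∀ x : K, s x ∈ D ∧ π (s x) = x

theorem exists_z (hK : SecD B D π s) {d : G} (hd : d ∈ D) (κ : K) (hκ : π d = κ) :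
    ∃ z ∈ D, (∀ b ∈ B, z * b = b * z) ∧ d = z * s κ := by
  have hz : d * (s κ)⁻¹ ∈ D := D.mul_mem hd (D.inv_mem (hK.sec κ).1)
  refine ⟨d * (s κ)⁻¹, hz, ?_, by group⟩
  apply (hK.zero _ hz).mp
  have h1 := hK.add _ hz _ (hK.sec κ).1
  rw [inv_mul_cancel_right, (hK.sec κ).2, hκ] at h1
  exact left_eq_add.mp (by rw [add_comm] at h1; exact h1)

theorem exists_z' (hK : SecD B D π s) (κ : K) {y : G} (hy : y ∈ D) :
    ∃ z ∈ D, (∀ b ∈ B, z * b = b * z) ∧ s κ * y = z * s (κ + π y) := by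
  apply exists_z hK (D.mul_mem (hK.sec κ).1 hy)
  rw [hK.add _ (hK.sec κ).1 _ hy, (hK.sec κ).2]

theorem key_l (hS : Setup n p e G F B D) (hE : Eigen gr G F B D ℓ χ ω) (hK : SecD B D π s)
    (κ : K) {y x : G} (hy : y ∈ D) (hx : x ∈ F) :
    ((gr.tau (ω (s κ))⁻¹ : Rˣ) : R) * ℓ (s κ * (y * x * y⁻¹) * (s κ)⁻¹) =
      ((gr.tau (ω y) : Rˣ) : R) * (((gr.tau (ω (s (κ + π y)))⁻¹ : Rˣ) : R) *
        ℓ (s (κ + π y) * x * (s (κ + π y))⁻¹)) := by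
  obtain ⟨z, hz, hzB, hzs⟩ := exists_z' hK κ hy
  have hs := (hK.sec κ).1
  have hs' := (hK.sec (κ + π y)).1
  have e1 : s κ * (y * x * y⁻¹) * (s κ)⁻¹ =
      z * (s (κ + π y) * x * (s (κ + π y))⁻¹) * z⁻¹ := by
    have e2 : s κ * (y * x * y⁻¹) * (s κ)⁻¹ = (s κ * y) * x * (s κ * y)⁻¹ := by group
    rw [e2, hzs]
    group
  rw [e1, hE.eigD z hz hzB _ (conjF hS _ hx)]
  have hw1 : ω (s κ) * ω y = ω z * ω (s (κ + π y)) := by
    rw [← hE.mulD _ hs _ hy, hzs, hE.mulD _ hz _ hs']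
  have hw : (ω (s κ))⁻¹ * ω z = ω y * (ω (s (κ + π y)))⁻¹ := by
    rw [inv_mul_eq_iff_eq_mul, ← mul_assoc, hw1, mul_inv_cancel_right]
  have ht := congrArg (fun u : kˣ => ((gr.tau u : Rˣ) : R)) hw
  simp only [map_mul, Units.val_mul] at ht
  rw [← mul_assoc, ht, mul_assoc]

theorem key_c (hS : Setup n p e G F B D) (hK : SecD B D π s) (κ : K) {y b : G} (hy : y ∈ D)
    (hb : b ∈ B) : s κ * (y * b * y⁻¹) * (s κ)⁻¹ = s (κ + π y) * b * (s (κ + π y))⁻¹ := by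
  obtain ⟨z, hz, hzB, hzs⟩ := exists_z' hK κ hy
  have hs' := (hK.sec (κ + π y)).1
  have e2 : s κ * (y * b * y⁻¹) * (s κ)⁻¹ = (s κ * y) * b * (s κ * y)⁻¹ := by group
  have e3 : (z * s (κ + π y)) * b * (z * s (κ + π y))⁻¹ =
      z * (s (κ + π y) * b * (s (κ + π y))⁻¹) * z⁻¹ := by group
  rw [e2, hzs, e3, hzB _ (hS.nor _ hs' _ hb), mul_inv_cancel_right]

/-- the kernel on `F` -/
def kerT (hS : Setup n p e G F B D) (hE : Eigen gr G F B D ℓ χ ω) : Subgroup G where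
  carrier := {x | x ∈ F ∧ ∀ z ∈ D, ℓ (z * x * z⁻¹) = 0}
  mul_mem' := by
    intro x x' hx hx'
    refine ⟨F.mul_mem hx.1 hx'.1, fun z hz => ?_⟩
    rw [l_mul hS hE z hx.1 hx'.1, hx.2 z hz, hx'.2 z hz, add_zero]
  one_mem' := by
    refine ⟨F.one_mem, fun z _ => ?_⟩
    rw [mul_one, mul_inv_cancel, l_one hE]
  inv_mem' := by
    intro x hx
    refine ⟨F.inv_mem hx.1, fun z hz => ?_⟩
    have e : z * x⁻¹ * z⁻¹ = (z * x * z⁻¹)⁻¹ := by group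
    rw [e, l_inv hE (conjF hS z hx.1), hx.2 z hz, neg_zero]

theorem mem_kerT (hS : Setup n p e G F B D) (hE : Eigen gr G F B D ℓ χ ω) (x : G) :
    x ∈ kerT hS hE ↔ x ∈ F ∧ ∀ z ∈ D, ℓ (z * x * z⁻¹) = 0 := Iff.rfl

theorem kerT_normal (hS : Setup n p e G F B D) (hE : Eigen gr G F B D ℓ χ ω) :
    (kerT hS hE).Normal := by
  constructor
  intro m hm g
  obtain ⟨x, hx, a, ha, y, hy, rfl⟩ := hS.dec g
  have hm' := (mem_kerT hS hE m).mp hm
  have h1 : y * m * y⁻¹ ∈ F := conjF hS y hm'.1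
  have h2 : a * (y * m * y⁻¹) * a⁻¹ ∈ F := conjF hS a h1
  have e : x * a * y * m * (x * a * y)⁻¹ = a * (y * m * y⁻¹) * a⁻¹ := by
    have e1 : x * a * y * m * (x * a * y)⁻¹ = x * (a * (y * m * y⁻¹) * a⁻¹) * x⁻¹ := by group
    rw [e1, hS.abF x hx _ h2, mul_inv_cancel_right]
  rw [e, mem_kerT]
  refine ⟨h2, fun z hz => ?_⟩
  rw [l_eig hS hE hz ha h1]
  have e2 : z * (y * m * y⁻¹) * z⁻¹ = (z * y) * m * (z * y)⁻¹ := by group
  rw [e2, hm'.2 _ (D.mul_mem hz hy), mul_zero]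

theorem kerT_bot (hS : Setup n p e G F B D) (hE : Eigen gr G F B D ℓ χ ω) :
    kerT hS hE = ⊥ := by
  by_contra hne
  obtain ⟨x, hx, hx0, hN⟩ := hE.ne
  have h1 : x ^ (p ^ (e - 1)) ∈ kerT hS hE := hN _ (kerT_normal hS hE) hne
  have h2 := h1.2 1 D.one_mem
  rw [one_mul, inv_one, mul_one, l_pow hE hx] at h2
  apply hx0
  apply gr.top
  rw [← h2]
  push_cast
  rfl

theorem mem_of_pm (hS : Setup n p e G F B D) (hE : Eigen gr G F B D ℓ χ ω) (hK : SecD B D π s)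
    {x : G} (hx : x ∈ F)
    (h : ∀ κ : K, ((gr.tau (ω (s κ))⁻¹ : Rˣ) : R) * ℓ (s κ * x * (s κ)⁻¹) = 0) :
    x ∈ kerT hS hE := by
  rw [mem_kerT]
  refine ⟨hx, fun d hd => ?_⟩
  obtain ⟨z, hz, hzB, hzs⟩ := exists_z hK hd (π d) rfl
  have e1 : d * x * d⁻¹ = z * (s (π d) * x * (s (π d))⁻¹) * z⁻¹ := by
    have e2 : (z * s (π d)) * x * (z * s (π d))⁻¹ = z * (s (π d) * x * (s (π d))⁻¹) * z⁻¹ := by
      group
    rw [← e2, ← hzs]
  have h0 : ℓ (s (π d) * x * (s (π d))⁻¹) = 0 := (Units.mul_right_eq_zero _).mp (h (π d))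
  rw [e1, hE.eigD z hz hzB _ (conjF hS _ hx), h0, mul_zero]

/-- the value of the embedding on a triple -/
def tri (gr : GRing p e k R) (ℓ : G → R) (χ ω : G → kˣ) (π : G → K) (s : K → G) (x b y : G) :
    Aff K R :=
  ⟨fun κ => (gr.tau (ω (s κ))⁻¹ : Rˣ) * ℓ (s κ * x * (s κ)⁻¹),
    fun κ => gr.tau (ω y * χ (s κ * b * (s κ)⁻¹)), π y⟩

theorem tri_mul (hS : Setup n p e G F B D) (hE : Eigen gr G F B D ℓ χ ω) (hK : SecD B D π s)
    {x b y x' b' y' : G} (hx : x ∈ F) (hb : b ∈ B) (hy : y ∈ D) (hx' : x' ∈ F) (hb' : b' ∈ B)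
    (hy' : y' ∈ D) :
    tri gr ℓ χ ω π s (x * (b * (y * x' * y⁻¹) * b⁻¹)) (b * (y * b' * y⁻¹)) (y * y') =
      tri gr ℓ χ ω π s x b y * tri gr ℓ χ ω π s x' b' y' := by
  have h1 : y * x' * y⁻¹ ∈ F := conjF hS y hx'
  have h2 : b * (y * x' * y⁻¹) * b⁻¹ ∈ F := conjF hS b h1
  apply Aff.ext
  · funext κ
    rw [Aff.mul_m]
    change ((gr.tau (ω (s κ))⁻¹ : Rˣ) : R) *
        ℓ (s κ * (x * (b * (y * x' * y⁻¹) * b⁻¹)) * (s κ)⁻¹) =
      ((gr.tau (ω (s κ))⁻¹ : Rˣ) : R) * ℓ (s κ * x * (s κ)⁻¹) +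
        ((gr.tau (ω y * χ (s κ * b * (s κ)⁻¹)) : Rˣ) : R) *
        (((gr.tau (ω (s (κ + π y)))⁻¹ : Rˣ) : R) *
          ℓ (s (κ + π y) * x' * (s (κ + π y))⁻¹))
    have h3 := key_l hS hE hK κ hy hx'
    rw [l_mul hS hE _ hx h2, l_eig hS hE (hK.sec κ).1 hb h1, mul_add, map_mul, Units.val_mul]
    congr 1
    calc ((gr.tau (ω (s κ))⁻¹ : Rˣ) : R) * (((gr.tau (χ (s κ * b * (s κ)⁻¹)) : Rˣ) : R) *
          ℓ (s κ * (y * x' * y⁻¹) * (s κ)⁻¹))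
        = ((gr.tau (χ (s κ * b * (s κ)⁻¹)) : Rˣ) : R) * (((gr.tau (ω (s κ))⁻¹ : Rˣ) : R) *
          ℓ (s κ * (y * x' * y⁻¹) * (s κ)⁻¹)) := by ring
      _ = _ := by
        rw [h3]
        ring
  · funext κ
    rw [Aff.mul_a]
    change gr.tau (ω (y * y') * χ (s κ * (b * (y * b' * y⁻¹)) * (s κ)⁻¹)) =
      gr.tau (ω y * χ (s κ * b * (s κ)⁻¹)) *
        gr.tau (ω y' * χ (s (κ + π y) * b' * (s (κ + π y))⁻¹))
    rw [c_mul hS hE (hK.sec κ).1 hb (hS.nor y hy b' hb'), key_c hS hK κ hy hb', hE.mulD _ hy _ hy',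
      ← map_mul]
    congr 1
    exact mul_mul_mul_comm _ _ _ _
  · exact hK.add y hy y' hy'

end EmbAux

open EmbAux in
theorem Emb : S_Emb := by
  intro n p e G _ _ F B D hS k R _ _ gr ℓ χ ω hE K _ π s hπ hz0 hs0
  have hK : SecD B D π s := ⟨hπ, hz0, hs0⟩
  choose cx hcx cb hcb cy hcy hc using hS.dec
  let ψ0 : G → Aff K R := fun g => tri gr ℓ χ ω π s (cx g) (cb g) (cy g)
  have key : ∀ x ∈ F, ∀ b ∈ B, ∀ y ∈ D, ψ0 (x * b * y) = tri gr ℓ χ ω π s x b y := by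
    intro x hx b hb y hy
    obtain ⟨h1, h2, h3⟩ := uniq hS (hcx (x * b * y)) hx (hcb (x * b * y)) hb (hcy (x * b * y)) hy
      (hc (x * b * y)).symm
    change tri gr ℓ χ ω π s (cx (x * b * y)) (cb (x * b * y)) (cy (x * b * y)) = _
    rw [h1, h2, h3]
  have hmul : ∀ g g' : G, ψ0 (g * g') = ψ0 g * ψ0 g' := by
    intro g g'
    have hx := hcx g
    have hx' := hcx g'
    have ha := hcb g
    have ha' := hcb g'
    have e : g * g' = (cx g * (cb g * (cy g * cx g' * (cy g)⁻¹) * (cb g)⁻¹)) *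
        (cb g * (cy g * cb g' * (cy g)⁻¹)) * (cy g * cy g') := by
      have e1 : (cx g * (cb g * (cy g * cx g' * (cy g)⁻¹) * (cb g)⁻¹)) *
        (cb g * (cy g * cb g' * (cy g)⁻¹)) * (cy g * cy g') =
          (cx g * cb g * cy g) * (cx g' * cb g' * cy g') := by
        group
      rw [e1, ← hc g, ← hc g']
    rw [e, key _ (F.mul_mem hx (conjF hS _ (conjF hS _ hx'))) _
      (B.mul_mem ha (hS.nor _ (hcy g) _ ha')) _ (D.mul_mem (hcy g) (hcy g'))]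
    exact tri_mul hS hE hK hx ha (hcy g) hx' ha' (hcy g')
  refine ⟨MonoidHom.mk' ψ0 hmul, ?_, ?_⟩
  · rw [injective_iff_map_eq_one]
    intro g hg
    have h0 : tri gr ℓ χ ω π s (cx g) (cb g) (cy g) = (1 : Aff K R) := hg
    have hm := congrArg Aff.m h0
    have hat1 := congrArg Aff.a h0
    have hy0 : π (cy g) = 0 := congrArg Aff.x h0
    have hx1 : cx g = 1 := by
      have h1 : cx g ∈ kerT hS hE := by
        apply mem_of_pm hS hE hK (hcx g)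
        intro κ
        exact congrFun hm κ
      rw [kerT_bot hS hE] at h1
      exact Subgroup.mem_bot.mp h1
    have hχ : ∀ κ : K, gr.tau (ω (cy g) * χ (s κ * cb g * (s κ)⁻¹)) = 1 := by
      intro κ
      exact congrFun hat1 κ
    have hF : cb g * cy g ∈ F := by
      apply hS.faith
      intro x hx
      have hyx : cy g * x * (cy g)⁻¹ ∈ F := conjF hS _ hx
      have hbx : cb g * (cy g * x * (cy g)⁻¹) * (cb g)⁻¹ ∈ F := conjF hS _ hyx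
      have h1 : cb g * (cy g * x * (cy g)⁻¹) * (cb g)⁻¹ * x⁻¹ ∈ kerT hS hE := by
        apply mem_of_pm hS hE hK (F.mul_mem hbx (F.inv_mem hx))
        intro κ
        have h3 := key_l hS hE hK κ (hcy g) hx
        rw [hy0, add_zero] at h3
        rw [l_mul hS hE _ hbx (F.inv_mem hx), l_eig hS hE (hK.sec κ).1 (hcb g) hyx]
        have e2 : s κ * x⁻¹ * (s κ)⁻¹ = (s κ * x * (s κ)⁻¹)⁻¹ := by group
        rw [e2, l_inv hE (conjF hS _ hx)]
        have h4 := congrArg (fun u : Rˣ => (u : R)) (hχ κ)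
        simp only [map_mul, Units.val_mul, Units.val_one] at h4
        calc ((gr.tau (ω (s κ))⁻¹ : Rˣ) : R) *
              (((gr.tau (χ (s κ * cb g * (s κ)⁻¹)) : Rˣ) : R) *
                ℓ (s κ * (cy g * x * (cy g)⁻¹) * (s κ)⁻¹) + -ℓ (s κ * x * (s κ)⁻¹))
            = ((gr.tau (χ (s κ * cb g * (s κ)⁻¹)) : Rˣ) : R) *
                (((gr.tau (ω (s κ))⁻¹ : Rˣ) : R) *
                  ℓ (s κ * (cy g * x * (cy g)⁻¹) * (s κ)⁻¹)) -
                ((gr.tau (ω (s κ))⁻¹ : Rˣ) : R) * ℓ (s κ * x * (s κ)⁻¹) := by ring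
          _ = (((gr.tau (ω (cy g)) : Rˣ) : R) *
                ((gr.tau (χ (s κ * cb g * (s κ)⁻¹)) : Rˣ) : R) - 1) *
                (((gr.tau (ω (s κ))⁻¹ : Rˣ) : R) * ℓ (s κ * x * (s κ)⁻¹)) := by
              rw [h3]
              ring
          _ = 0 := by rw [h4, sub_self, zero_mul]
      rw [kerT_bot hS hE] at h1
      have h2 := Subgroup.mem_bot.mp h1
      have h3 := mul_inv_eq_one.mp h2
      calc cb g * cy g * x = cb g * (cy g * x * (cy g)⁻¹) * (cb g)⁻¹ * (cb g * cy g) := by group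
        _ = x * (cb g * cy g) := by rw [h3]
    have h1 := hS.uni (cb g * cy g)⁻¹ (F.inv_mem hF) (cb g) (hcb g) (cy g) (hcy g) (by group)
    rw [hc g, hx1, h1.2.1, h1.2.2]
    simp
  · intro x hx b hb y hy
    exact key x hx b hb y hy

end Pool.Agent.Lib.MP_f44088_fc
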