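import Mathlib
import Pool.Agent.Lib.MP_f44088_al.FB4.Spec

/-! Project FB4 (MP_f44088_al): extension of characters of finite abelian groups with values in the
units of an algebraically closed field. -/

set_option autoImplicit false

namespace Pool.Agent.Lib.MP_f44088_fc

namespace ExAux

variable (k : Type) [Field k] [IsAlgClosed k]

/-- the units of an algebraically closed field are divisible (as an additive group) -/
theorem smul_surj {n : ℕ} (hn : n ≠ 0) : Function.Surjective (fun a : Additive kˣ => n • a) := by
  intro b
  obtain ⟨z, hz⟩ := IsAlgClosed.exists_pow_nat_eq ((Additive.toMul b : kˣ) : k) (Nat.pos_of_ne_zero hn)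
  have hz0 : z ≠ 0 := by
    intro h
    rw [h, zero_pow hn] at hz
    exact (Additive.toMul b).ne_zero hz.symm
  refine ⟨Additive.ofMul (Units.mk0 z hz0), ?_⟩
  apply Additive.toMul.injective
  apply Units.ext
  simp only [toMul_nsmul, toMul_ofMul, Units.val_pow_eq_pow_val, Units.val_mk0]
  exact hz

/-- the units of an algebraically closed field are an injective abelian group -/
theorem inj : Module.Injective ℤ (Additive kˣ) := by
  let _ : DivisibleBy (Additive kˣ) ℕ := divisibleByOfSMulRightSurj _ _ (fun {n} hn => smul_surj k hn)
  let _ : DivisibleBy (Additive kˣ) ℤ := AddGroup.divisibleByIntOfDivisibleByNat _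
  exact (Module.Baer.of_divisible (Additive kˣ)).injective

end ExAux

theorem Ex : S_Ex := by
  intro k _ _ D _ _ D0 χ
  let i : Additive D0 →ₗ[ℤ] Additive D := (MonoidHom.toAdditive D0.subtype).toIntLinearMap
  let f : Additive D0 →ₗ[ℤ] Additive kˣ := (MonoidHom.toAdditive χ).toIntLinearMap
  have hi : Function.Injective i := by
    intro a b hab
    exact Subtype.ext hab
  obtain ⟨h, hh⟩ := (ExAux.inj k).out i hi f
  refine ⟨MonoidHom.toAdditive.symm h.toAddMonoidHom, ?_⟩
  intro z
  exact hh (Additive.ofMul z)

end Pool.Agent.Lib.MP_f44088_fc
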