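import Mathlib
import Pool.Agent.Lib.MP_f44088_al.FB4.Spec

set_option autoImplicit false

namespace Pool.Agent.Lib.MP_f44088_fc

open Pool.Agent.Lib.MP_f44088_fb (Sat InVar FGrp Cls Mono Rich IsChar Lam)

namespace ExpAux

/-- a product of groups which satisfy the laws satisfies the laws -/
theorem sat_pi {W : Set (FreeGroup ℕ)} (G : ℕ → Type) [∀ m, Group (G m)]
    (h : ∀ m, Sat W (G m)) : Sat W (∀ m, G m) := by
  intro w hw f
  funext m
  have h1 := h m w hw (fun i => f i m)
  have h2 : (Pi.evalMonoidHom G m).comp (FreeGroup.lift f) = FreeGroup.lift (fun i => f i m) := by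
    apply FreeGroup.ext_hom
    intro i
    simp
  have h3 := DFunLike.congr_fun h2 w
  rw [h1] at h3
  exact h3

end ExpAux

theorem Exp : S_Exp := by
  intro W hW
  by_contra hcon
  push Not at hcon
  have hcon' : ∀ m : ℕ, ∃ (G : Type) (g : Group G) (_ : @Sat W G g), ∃ x : G, x ^ (m + 1) ≠ 1 := by
    intro m
    obtain ⟨G, g, hs, x, hx⟩ := hcon (m + 1) (Nat.succ_pos m)
    exact ⟨G, g, hs, x, hx⟩
  choose G g hs x hx using hcon'
  let _ : ∀ m, Group (G m) := g
  have hP : Sat W (∀ m, G m) := ExpAux.sat_pi G hs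
  have hfin := hW (∀ m, G m) hP {x}
  have hx1 : (x : ∀ m, G m) ∈ Subgroup.closure (({x} : Finset (∀ m, G m)) : Set (∀ m, G m)) := by
    apply Subgroup.subset_closure
    simp
  have hfo : IsOfFinOrder (⟨x, hx1⟩ : Subgroup.closure (({x} : Finset (∀ m, G m)) : Set (∀ m, G m))) :=
    isOfFinOrder_of_finite _
  obtain ⟨m, hm, hxm⟩ := isOfFinOrder_iff_pow_eq_one.mp hfo
  have h2 : x ^ m = 1 := by
    have := congrArg Subtype.val hxm
    simpa using this
  have h3 := congrFun h2 (m - 1)
  have h4 := hx (m - 1)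
  rw [Nat.sub_add_cancel hm] at h4
  exact h4 h3

end Pool.Agent.Lib.MP_f44088_fc
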