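import Pool.Agent.Lib.MP_f44088_al.FB4.Spec

set_option autoImplicit false

namespace Pool.Agent.Lib.MP_f44088_fc

open Pool.Agent.Lib.MP_f44088_fb (Sat InVar FGrp Cls Mono)

theorem Fin : S_Exp → O_Seq → S_Main → S_Fin := by
  intro hExp hSeq hMain W hW
  obtain ⟨n, hn, hexp⟩ := hExp W (fun G _ hG => (hW G hG).1)
  have hyp : Pool.Agent.Lib.MP_f44088_fb.Hyp n W := by
    intro G _ hG
    obtain ⟨h1, h2, h3⟩ := hW G hG
    exact ⟨h1, h2, hexp G hG, h3⟩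
  by_contra hcon
  have hno : ∀ B : Finset (FreeGroup ℕ),
      ¬ ∀ (G : Type) [Group G], (Sat W G ↔ Sat (B : Set (FreeGroup ℕ)) G) := by
    intro B hB
    exact hcon ⟨B, hB⟩
  obtain ⟨G, h1, h2, h3⟩ := hSeq n W hn hyp hno
  obtain ⟨i, j, hij, hv⟩ := hMain n hn G h1 h2
  exact h3 i j hij hv

end Pool.Agent.Lib.MP_f44088_fc
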