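import Mathlib
import Pool.Agent.Lib.MP_f44088_al.FB4.Spec

/-! Project FB4 (MP_f44088_al): the bottom layer of a monolithic group. -/

set_option autoImplicit false

namespace Pool.Agent.Lib.MP_f44088_fc

open Pool.Agent.Lib.MP_f44088_fb (Sat InVar FGrp Cls Mono Rich IsChar Lam)

namespace FitAux

/-- a nontrivial element of `p`-power order has order divisible by `p` -/
theorem dvd_order {G : Type} [Group G] (n p j : ℕ) (hp : p.Prime) (x : G)
    (hx : x ^ n = 1) (hj : x ^ p ^ j = 1) (hx1 : x ≠ 1) : p ∣ n := by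
  have h1 : orderOf x ∣ p ^ j := orderOf_dvd_of_pow_eq_one hj
  obtain ⟨i, -, hi⟩ := (Nat.dvd_prime_pow hp).1 h1
  have h2 : orderOf x ∣ n := orderOf_dvd_of_pow_eq_one hx
  have h3 : i ≠ 0 := by
    intro h0
    rw [h0, pow_zero] at hi
    exact hx1 (orderOf_eq_one_iff.1 hi)
  rw [hi] at h2
  exact (dvd_pow_self p h3).trans h2

end FitAux

open FitAux in
theorem Fit : O_Fa → O_Fb → S_Fit := by
  intro hFa hFb n hn G _ _ hC hM
  obtain ⟨hexp, hder, hab⟩ := hC
  obtain ⟨p, hp, F, hFn, hFne, hFp, hmax, hoth⟩ := hFa G hM hder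
  have hfact : Fact p.Prime := ⟨hp⟩
  have habF := hab p hp F hFp
  have hcent := hFb G hder p hp F hFn hFp habF hmax hoth
  have hpn : p ∣ n := by
    obtain ⟨x, hx, hx1⟩ := (Subgroup.bot_or_exists_ne_one F).resolve_left hFne
    obtain ⟨j, hj⟩ := hFp ⟨x, hx⟩
    have hj' : x ^ p ^ j = 1 := congrArg Subtype.val hj
    exact dvd_order n p j hp x (hexp x) hj' hx1
  refine ⟨p, Nat.mem_primeFactors.2 ⟨hp, hpn, hn.ne'⟩, F, hFn, hFne, hFp, habF, hcent, ?_⟩
  obtain ⟨Q, hQ⟩ := hFp.exists_le_sylow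
  have hQF : (Q : Subgroup G) = F := by
    refine le_antisymm (fun g hg => ?_) hQ
    exact hcent g fun x hx => hab p hp Q Q.isPGroup' g hg x (hQ hx)
  rw [← hQF]
  exact Sylow.not_dvd_index Q

end Pool.Agent.Lib.MP_f44088_fc
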