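import Pool.Agent.Lib.MP_f44088_al.FB4.Spec
import Mathlib.RingTheory.WittVector.DiscreteValuationRing
import Mathlib.RingTheory.WittVector.Teichmuller

/-! Project FB4 (MP_f44088_al), module GR: the coefficient rings (Witt vectors). -/

set_option autoImplicit false

namespace Pool.Agent.Lib.MP_f44088_fc

namespace GRAux

variable {p : ℕ} [hp : Fact p.Prime] {k : Type} [Field k] [CharP k p]

/-- the constant coefficient of a multiple of `p` -/
theorem cc_p (y : WittVector p k) : WittVector.constantCoeff ((p : WittVector p k) * y) = 0 := by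
  rw [map_mul, map_natCast, CharP.cast_eq_zero, zero_mul]

/-- a Witt vector with constant coefficient 0 is a multiple of `p` -/
theorem dvd_of_cc [PerfectRing k p] (w : WittVector p k) (hw : WittVector.constantCoeff w = 0) :
    ∃ y, w = (p : WittVector p k) * y := by
  by_cases h0 : w = 0
  · exact ⟨0, by rw [h0, mul_zero]⟩
  · obtain ⟨m, b, hb, hm⟩ := WittVector.exists_eq_pow_p_mul w h0
    rcases Nat.eq_zero_or_pos m with h | h
    · exfalso
      rw [h, pow_zero, one_mul] at hm
      rw [hm] at hw
      exact hb hw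
    · refine ⟨(p : WittVector p k) ^ (m - 1) * b, ?_⟩
      rw [hm, ← mul_assoc, ← pow_succ', Nat.sub_add_cancel h]

end GRAux

open GRAux in
theorem GR : S_GR := by
  intro p e hp he k _ _ _
  have : Fact p.Prime := ⟨hp⟩
  have hpe : ∀ y : WittVector p k, WittVector.constantCoeff ((p : WittVector p k) ^ e * y) = 0 := by
    intro y
    have h1 : (p : WittVector p k) ^ e * y = (p : WittVector p k) * ((p : WittVector p k) ^ (e - 1) * y) := by
      rw [← mul_assoc, ← pow_succ', Nat.sub_add_cancel he]
    rw [h1]
    exact cc_p _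
  have hI : ∀ a ∈ Ideal.span {(p : WittVector p k) ^ e}, WittVector.constantCoeff a = 0 := by
    intro a ha
    obtain ⟨y, hy⟩ := Ideal.mem_span_singleton'.1 ha
    rw [← hy, mul_comm]
    exact hpe y
  refine ⟨WittVector p k ⧸ Ideal.span {(p : WittVector p k) ^ e}, inferInstance, ⟨?_⟩⟩
  refine
    { res := Ideal.Quotient.lift _ WittVector.constantCoeff hI
      tau := Units.map ((Ideal.Quotient.mk (Ideal.span {(p : WittVector p k) ^ e})).toMonoidHom.comp
        (WittVector.teichmuller p))
      res_tau := ?_
      ker := ?_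
      nil := ?_
      top := ?_ }
  · intro z
    exact WittVector.teichmuller_coeff_zero p (z : k)
  · intro x hx
    obtain ⟨w, rfl⟩ := Ideal.Quotient.mk_surjective x
    rw [Ideal.Quotient.lift_mk] at hx
    obtain ⟨y, hy⟩ := dvd_of_cc w hx
    refine ⟨Ideal.Quotient.mk _ y, ?_⟩
    rw [hy, map_mul, map_natCast]
  · rw [← map_natCast (Ideal.Quotient.mk (Ideal.span {(p : WittVector p k) ^ e})), ← map_pow]
    exact Ideal.Quotient.eq_zero_iff_mem.2 (Ideal.mem_span_singleton_self _)
  · intro x hx
    obtain ⟨w, rfl⟩ := Ideal.Quotient.mk_surjective x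
    rw [← map_natCast (Ideal.Quotient.mk (Ideal.span {(p : WittVector p k) ^ e})), ← map_pow, ← map_mul,
      Ideal.Quotient.eq_zero_iff_mem] at hx
    obtain ⟨y, hy⟩ := Ideal.mem_span_singleton'.1 hx
    have h1 : (p : WittVector p k) ^ (e - 1) * w = (p : WittVector p k) ^ (e - 1) * ((p : WittVector p k) * y) := by
      rw [← hy, ← mul_assoc, ← pow_succ, Nat.sub_add_cancel he, mul_comm]
    have h2 := mul_left_cancel₀ (pow_ne_zero _ (WittVector.p_nonzero p k)) h1
    rw [Ideal.Quotient.lift_mk, h2]
    exact cc_p y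

end Pool.Agent.Lib.MP_f44088_fc
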