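import Pool.Agent.Lib.MP_f44088_al.FB4.Spec

/-! Project FB4, module Hm: the complement is metabelian. -/

set_option autoImplicit false

namespace Pool.Agent.Lib.MP_f44088_fc

open Pool.Agent.Lib.MP_f44088_fb (Sat InVar FGrp Cls Mono Rich IsChar Lam)

namespace HmAux

/-- `f ^ m ∈ S` with `m` prime to `p` implies `f ∈ S` for a `p`-element `f` -/
theorem root_mem {G : Type} [Group G] (S : Subgroup G) {p m j : ℕ} (f : G)
    (hm : f ^ m ∈ S) (hj : f ^ (p ^ j) = 1) (hcop : m.Coprime (p ^ j)) : f ∈ S := by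
  have h1 : ((m.gcd (p ^ j) : ℕ) : ℤ) = m * m.gcdA (p ^ j) + (p ^ j : ℕ) * m.gcdB (p ^ j) :=
    Nat.gcd_eq_gcd_ab m (p ^ j)
  rw [hcop.gcd_eq_one] at h1
  have h2 : f = (f ^ m) ^ (m.gcdA (p ^ j)) * (f ^ (p ^ j)) ^ (m.gcdB (p ^ j)) := by
    rw [← zpow_natCast f m, ← zpow_natCast f (p ^ j), ← zpow_mul, ← zpow_mul, ← zpow_add, ← h1]
    simp
  rw [h2, hj, one_zpow, mul_one]
  exact S.zpow_mem hm _

/-- For `X ≤ H` nontrivial and normalized by `H`, the commutator subgroup `⁅F, X⁆` is `F`. -/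
theorem comm_eq {G : Type} [Group G] [Finite G] (hMono : Mono G) (p : ℕ) (hp : p.Prime)
    (F H X : Subgroup G) (hF : F.Normal) (hpF : IsPGroup p F)
    (hab : ∀ x ∈ F, ∀ y ∈ F, x * y = y * x) (hc : Subgroup.IsComplement' F H)
    (hind : ¬ p ∣ F.index)
    (hself : ∀ g : G, (∀ x ∈ F, g * x = x * g) → g ∈ F) (hX : X ≤ H) (hX0 : X ≠ ⊥)
    (hn : ∀ h ∈ H, ∀ x ∈ X, h * x * h⁻¹ ∈ X) : ⁅F, X⁆ = F := by
  classical
  have hle : ⁅F, X⁆ ≤ F := Subgroup.commutator_le_left F X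
  have hdec : ∀ g : G, ∃ f ∈ F, ∃ h ∈ H, g = f * h := by
    intro g
    obtain ⟨⟨f, h⟩, hfh, -⟩ := Subgroup.isComplement'_def.1 hc |>.existsUnique g
    exact ⟨f, f.2, h, h.2, hfh.symm⟩
  have hconjH : ∀ h ∈ H, ∀ n ∈ ⁅F, X⁆, h * n * h⁻¹ ∈ ⁅F, X⁆ := by
    intro h hh n hnm
    have h1 : (⁅F, X⁆).map (MulAut.conj h).toMonoidHom ≤ ⁅F, X⁆ := by
      rw [Subgroup.map_commutator]
      refine Subgroup.commutator_mono ?_ ?_
      · rintro _ ⟨f, hf, rfl⟩
        exact hF.conj_mem f hf h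
      · rintro _ ⟨x, hx, rfl⟩
        exact hn h hh x hx
    exact h1 ⟨n, hnm, rfl⟩
  -- normality from invariance under `H`
  have hnorm : ∀ S : Subgroup G, S ≤ F → (∀ h ∈ H, ∀ n ∈ S, h * n * h⁻¹ ∈ S) → S.Normal := by
    intro S hS hSH
    refine ⟨fun n hnm g => ?_⟩
    obtain ⟨f, hf, h, hh, rfl⟩ := hdec g
    have h1 := hSH h hh n hnm
    have h2 : f * h * n * (f * h)⁻¹ = f * (h * n * h⁻¹) * f⁻¹ := by group
    rw [h2, hab f hf _ (hS h1), mul_assoc, mul_inv_cancel, mul_one]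
    exact h1
  have hnormal : (⁅F, X⁆).Normal := hnorm _ hle hconjH
  have hne : ⁅F, X⁆ ≠ ⊥ := by
    intro h
    apply hX0
    rw [eq_bot_iff]
    intro x hx
    have hxF : x ∈ F := by
      apply hself
      intro y hy
      have h1 : y * x * y⁻¹ * x⁻¹ ∈ ⁅F, X⁆ := Subgroup.commutator_mem_commutator hy hx
      rw [h, Subgroup.mem_bot, mul_inv_eq_one, mul_inv_eq_iff_eq_mul] at h1
      exact h1.symm
    have h2 := hc.disjoint
    rw [Subgroup.disjoint_def] at h2
    exact Subgroup.mem_bot.2 (h2 hxF (hX hx))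
  -- the fixed points
  obtain ⟨C, hC⟩ : ∃ C : Subgroup G, ∀ z, z ∈ C ↔ z ∈ F ∧ ∀ x ∈ X, x * z = z * x := by
    refine ⟨F ⊓ Subgroup.centralizer (X : Set G), fun z => ?_⟩
    rw [Subgroup.mem_inf, Subgroup.mem_centralizer_iff]
    rfl
  have hCnormal : C.Normal := by
    apply hnorm
    · intro z hz
      exact ((hC z).1 hz).1
    · intro h hh z hz
      obtain ⟨hz1, hz2⟩ := (hC z).1 hz
      rw [hC]
      refine ⟨hF.conj_mem z hz1 h, fun x hx => ?_⟩
      have h1 : h⁻¹ * x * h ∈ X := by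
        have := hn h⁻¹ (H.inv_mem hh) x hx
        rwa [inv_inv] at this
      have h2 := hz2 _ h1
      calc x * (h * z * h⁻¹) = h * ((h⁻¹ * x * h) * z) * h⁻¹ := by group
        _ = h * (z * (h⁻¹ * x * h)) * h⁻¹ := by rw [h2]
        _ = h * z * h⁻¹ * x := by group
  -- the norm map
  letI : CommGroup F := { (inferInstance : Group F) with
    mul_comm := fun a b => Subtype.ext (hab a a.2 b b.2) }
  haveI : Fintype X := Fintype.ofFinite X
  let cj : G → F →* F := fun g => (MulAut.conjNormal g : F ≃* F).toMonoidHom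
  have hcj : ∀ g (f : F), ((cj g f : F) : G) = g * f * g⁻¹ := by
    intro g f
    exact MulAut.conjNormal_apply g f
  let Nm : F →* F := ∏ x : X, cj (x : G)
  have hNm : ∀ f : F, Nm f = ∏ x : X, cj (x : G) f := by
    intro f
    simp only [Nm, MonoidHom.finsetProd_apply]
  have hmul : ∀ g g' (f : F), cj g (cj g' f) = cj (g * g') f := by
    intro g g' f
    apply Subtype.ext
    rw [hcj, hcj, hcj]
    group
  have hN1 : ∀ (y : X) (f : F), cj (y : G) (Nm f) = Nm f := by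
    intro y f
    rw [hNm, map_prod]
    simp only [hmul]
    exact Fintype.prod_equiv (Equiv.mulLeft y) _ _ (fun x => rfl)
  have hN2 : ∀ (y : X) (f : F), Nm (cj (y : G) f) = Nm f := by
    intro y f
    rw [hNm, hNm]
    simp only [hmul]
    exact Fintype.prod_equiv (Equiv.mulRight y) _ _ (fun x => rfl)
  have hNC : ∀ f : F, ((Nm f : F) : G) ∈ C := by
    intro f
    rw [hC]
    refine ⟨(Nm f).2, fun x hx => ?_⟩
    have h1 := congrArg (Subtype.val) (hN1 ⟨x, hx⟩ f)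
    rw [hcj] at h1
    rw [mul_inv_eq_iff_eq_mul] at h1
    exact h1
  have hNker : ∀ z : F, (z : G) ∈ ⁅F, X⁆ → Nm z = 1 := by
    have h1 : ⁅F, X⁆ ≤ (Nm.ker).map F.subtype := by
      rw [Subgroup.commutator_le]
      intro f hf x hx
      have hm : f * x * f⁻¹ * x⁻¹ ∈ F := hle (Subgroup.commutator_mem_commutator hf hx)
      refine ⟨⟨f * x * f⁻¹ * x⁻¹, hm⟩, ?_, rfl⟩
      have h2 : (⟨f * x * f⁻¹ * x⁻¹, hm⟩ : F) = ⟨f, hf⟩ * (cj x ⟨f, hf⟩)⁻¹ := by
        apply Subtype.ext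
        rw [Subgroup.coe_mul, Subgroup.coe_inv, hcj]
        group
      change Nm _ = 1
      rw [h2, map_mul, map_inv]
      have h3 := hN2 ⟨x, hx⟩ ⟨f, hf⟩
      rw [h3, mul_inv_cancel]
    intro z hz
    obtain ⟨w, hw, hwz⟩ := h1 hz
    have : w = z := Subtype.ext hwz
    rw [← this]
    exact hw
  have hNfix : ∀ z : F, (z : G) ∈ C → Nm z = z ^ (Fintype.card X) := by
    intro z hz
    rw [hNm]
    have h1 : ∀ x : X, cj (x : G) z = z := by
      intro x
      apply Subtype.ext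
      rw [hcj, ((hC _).1 hz).2 x x.2, mul_assoc, mul_inv_cancel, mul_one]
    rw [Finset.prod_congr rfl (fun x _ => h1 x), Finset.prod_const, Finset.card_univ]
  have hcard : ¬ p ∣ Fintype.card X := by
    intro h
    apply hind
    have h1 : Nat.card X ∣ Nat.card H := Subgroup.card_dvd_of_le hX
    have h2 : F.index = Nat.card H := hc.symm.index_eq_card
    rw [h2]
    rw [← Nat.card_eq_fintype_card] at h
    exact h.trans h1
  have hcop : ∀ j, (Fintype.card X).Coprime (p ^ j) := fun j =>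
    Nat.Coprime.pow_right j (((Nat.Prime.coprime_iff_not_dvd hp).2 hcard).symm)
  -- `C = ⊥`
  have hinf : ⁅F, X⁆ ⊓ C = ⊥ := by
    rw [eq_bot_iff]
    rintro z ⟨hz1, hz2⟩
    have hzF := hle hz1
    have h1 := hNker ⟨z, hzF⟩ hz1
    have h2 := hNfix ⟨z, hzF⟩ hz2
    rw [h1] at h2
    obtain ⟨j, hj⟩ := hpF ⟨z, hzF⟩
    have h3 := root_mem (⊥ : Subgroup F) (p := p) (m := Fintype.card X) (j := j) ⟨z, hzF⟩
      (by rw [← h2]; exact Subgroup.one_mem _) hj (hcop j)
    rw [Subgroup.mem_bot] at h3 ⊢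
    exact congrArg Subtype.val h3
  have hC0 : C = ⊥ := by
    rcases hMono.2 _ _ hnormal hCnormal hinf with h | h
    · exact (hne h).elim
    · exact h
  apply le_antisymm hle
  intro f hf
  have h1 : Nm ⟨f, hf⟩ = 1 := by
    have h2 := hNC ⟨f, hf⟩
    rw [hC0, Subgroup.mem_bot] at h2
    exact Subtype.ext h2
  have h3 : (⟨f, hf⟩ : F) ^ (Fintype.card X) = ∏ x : X, ((⟨f, hf⟩ : F) * (cj (x : G) ⟨f, hf⟩)⁻¹) := by
    rw [Finset.prod_mul_distrib, Finset.prod_inv_distrib, ← hNm, h1, inv_one, mul_one,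
      Finset.prod_const, Finset.card_univ]
  have h4 : (⟨f, hf⟩ : F) ^ (Fintype.card X) ∈ (⁅F, X⁆).subgroupOf F := by
    rw [h3]
    apply Subgroup.prod_mem
    intro x _
    rw [Subgroup.mem_subgroupOf, Subgroup.coe_mul, Subgroup.coe_inv, hcj]
    have h5 : f * ((x : G) * f * (x : G)⁻¹)⁻¹ = f * x * f⁻¹ * (x : G)⁻¹ := by group
    change f * ((x : G) * f * (x : G)⁻¹)⁻¹ ∈ ⁅F, X⁆
    rw [h5]
    exact Subgroup.commutator_mem_commutator hf x.2
  obtain ⟨j, hj⟩ := hpF ⟨f, hf⟩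
  have h6 := root_mem ((⁅F, X⁆).subgroupOf F) (p := p) (m := Fintype.card X) (j := j)
    (⟨f, hf⟩ : F) h4 hj (hcop j)
  exact Subgroup.mem_subgroupOf.1 h6

/-- The image of a normal subgroup of `H` is normalized by `H`. -/
theorem map_norm {G : Type} [Group G] (H : Subgroup G) (Y : Subgroup H) (hY : Y.Normal) :
    ∀ h ∈ H, ∀ x ∈ Y.map H.subtype, h * x * h⁻¹ ∈ Y.map H.subtype := by
  rintro h hh _ ⟨y, hy, rfl⟩
  exact ⟨⟨h, hh⟩ * y * ⟨h, hh⟩⁻¹, hY.conj_mem y hy ⟨h, hh⟩, rfl⟩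

end HmAux

theorem Hm : S_Hm := by
  intro G _ _ hMono h3 p hp F H hF hF0 hpF hab hc hind hself
  by_contra h2
  have hle21 : derivedSeries H 2 ≤ derivedSeries H 1 := derivedSeries_antitone H (by norm_num)
  have h2' : (derivedSeries H 2).map H.subtype ≠ ⊥ := by
    intro h
    exact h2 ((Subgroup.map_eq_bot_iff_of_injective _ H.subtype_injective).1 h)
  have h1' : (derivedSeries H 1).map H.subtype ≠ ⊥ := by
    intro h
    apply h2'
    rw [eq_bot_iff, ← h]
    exact Subgroup.map_mono hle21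
  have hH1 : (derivedSeries H 1).map H.subtype ≤ H := Subgroup.map_subtype_le _
  have hH2 : (derivedSeries H 2).map H.subtype ≤ H := Subgroup.map_subtype_le _
  have h0' : H ≠ ⊥ := by
    intro h
    apply h1'
    rw [eq_bot_iff]
    exact hH1.trans h.le
  have e0 := HmAux.comm_eq hMono p hp F H H hF hpF hab hc hind hself le_rfl h0' fun h hh x hx =>
    H.mul_mem (H.mul_mem hh hx) (H.inv_mem hh)
  have e1 := HmAux.comm_eq hMono p hp F H _ hF hpF hab hc hind hself hH1 h1'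
    (HmAux.map_norm H _ (derivedSeries_normal H 1))
  have e2 := HmAux.comm_eq hMono p hp F H _ hF hpF hab hc hind hself hH2 h2'
    (HmAux.map_norm H _ (derivedSeries_normal H 2))
  have f1 : F ≤ derivedSeries G 1 := by
    rw [← e0, derivedSeries_succ]
    exact Subgroup.commutator_mono (by rw [derivedSeries_zero]; exact le_top)
      (by rw [derivedSeries_zero]; exact le_top)
  have f2 : F ≤ derivedSeries G 2 := by
    rw [← e1, derivedSeries_succ]
    exact Subgroup.commutator_mono f1 (map_derivedSeries_le_derivedSeries H.subtype 1)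
  have f3 : F ≤ derivedSeries G 3 := by
    rw [← e2, derivedSeries_succ]
    exact Subgroup.commutator_mono f2 (map_derivedSeries_le_derivedSeries H.subtype 2)
  rw [h3] at f3
  exact hF0 (eq_bot_iff.2 f3)

end Pool.Agent.Lib.MP_f44088_fc
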