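import Mathlib
import Pool.Agent.Lib.MP_f44088_al.FB4.Spec

/-! Project FB4: a complement of `A` from complements of its primary parts. -/

set_option autoImplicit false

namespace Pool.Agent.Lib.MP_f44088_fc

namespace KinAux

variable {H : Type} [Group H]

/-- an element of order dividing `r` whose `m`-th power lies in `K`, `m` prime to `r` -/
theorem mem_of_pow (K : Subgroup H) (c : H) (m r : ℕ) (hmr : Nat.Coprime m r) (hr : c ^ r = 1)
    (hm : c ^ m ∈ K) : c ∈ K := by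
  obtain ⟨u, v, huv⟩ := Nat.isCoprime_iff_coprime.2 hmr
  have h1 : c = (c ^ m) ^ u * (c ^ r) ^ v := by
    rw [← zpow_natCast, ← zpow_natCast, ← zpow_mul, ← zpow_mul, ← zpow_add]
    have h2 : (m : ℤ) * u + (r : ℤ) * v = 1 := by
      rw [mul_comm (m : ℤ) u, mul_comm (r : ℤ) v]
      exact huv
    rw [h2, zpow_one]
  rw [h1, hr, one_zpow, mul_one]
  exact K.zpow_mem hm u

theorem step (A : Subgroup H) (hA : ∀ x ∈ A, ∀ y ∈ A, x * y = y * x) (K L : Subgroup H)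
    (m r : ℕ) (hmr : Nat.Coprime m r)
    (hK1 : ∀ x ∈ A, x ^ m = 1 → x ∈ K → x = 1)
    (hK2 : ∀ g : H, ∃ b ∈ A, b ^ m = 1 ∧ ∃ l ∈ K, g = b * l)
    (hL1 : ∀ x ∈ A, x ^ r = 1 → x ∈ L → x = 1)
    (hL2 : ∀ g : H, ∃ b ∈ A, b ^ r = 1 ∧ ∃ l ∈ L, g = b * l) :
    (∀ x ∈ A, x ^ (r * m) = 1 → x ∈ K ⊓ L → x = 1) ∧
      ∀ g : H, ∃ b ∈ A, b ^ (r * m) = 1 ∧ ∃ l ∈ K ⊓ L, g = b * l := by
  constructor
  · intro x hx hxp hxK
    have h1 : x ^ r = 1 := by
      refine hK1 (x ^ r) (A.pow_mem hx r) ?_ (K.pow_mem hxK.1 r)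
      rw [← pow_mul]
      exact hxp
    exact hL1 x hx h1 hxK.2
  · intro g
    obtain ⟨b, hb, hbm, l, hl, hg⟩ := hK2 g
    obtain ⟨c, hc, hcr, l', hl', hlc⟩ := hL2 l
    have hcK : c ∈ K := by
      obtain ⟨b', hb', hbm', k', hk', hck⟩ := hK2 c
      have hk'A : k' ∈ A := by
        have h2 : k' = b'⁻¹ * c := by rw [hck, inv_mul_cancel_left]
        rw [h2]
        exact A.mul_mem (A.inv_mem hb') hc
      have hcomm : Commute b' k' := hA b' hb' k' hk'A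
      refine mem_of_pow K c m r hmr hcr ?_
      rw [hck, hcomm.mul_pow, hbm', one_mul]
      exact K.pow_mem hk' m
    have hl'K : l' ∈ K := by
      have h2 : l' = c⁻¹ * l := by rw [hlc, inv_mul_cancel_left]
      rw [h2]
      exact K.mul_mem (K.inv_mem hcK) hl
    refine ⟨b * c, A.mul_mem hb hc, ?_, l', ⟨hl'K, hl'⟩, ?_⟩
    · have hcomm : Commute b c := hA b hb c hc
      rw [hcomm.mul_pow, mul_comm r m, pow_mul b, hbm, one_pow, one_mul, mul_comm m r, pow_mul, hcr,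
        one_pow]
    · rw [hg, hlc, mul_assoc]

theorem all (A : Subgroup H) (hA : ∀ x ∈ A, ∀ y ∈ A, x * y = y * x) (e : ℕ → ℕ)
    (hL : ∀ r : ℕ, r.Prime → ∃ L : Subgroup H, (∀ x ∈ A, x ^ (r ^ e r) = 1 → x ∈ L → x = 1) ∧
      ∀ g : H, ∃ b ∈ A, b ^ (r ^ e r) = 1 ∧ ∃ l ∈ L, g = b * l) (s : Finset ℕ) :
    (∀ r ∈ s, r.Prime) →
    ∃ K : Subgroup H, (∀ x ∈ A, x ^ (∏ r ∈ s, r ^ e r) = 1 → x ∈ K → x = 1) ∧
      ∀ g : H, ∃ b ∈ A, b ^ (∏ r ∈ s, r ^ e r) = 1 ∧ ∃ l ∈ K, g = b * l := by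
  induction s using Finset.induction_on with
  | empty =>
    intro _
    refine ⟨⊤, ?_, ?_⟩
    · intro x _ hx1 _
      rwa [Finset.prod_empty, pow_one] at hx1
    · intro g
      exact ⟨1, A.one_mem, one_pow _, g, Subgroup.mem_top g, (one_mul g).symm⟩
  | insert r s hr ih =>
    intro hs
    obtain ⟨K, hK1, hK2⟩ := ih fun q hq => hs q (Finset.mem_insert_of_mem hq)
    have hrp : r.Prime := hs r (Finset.mem_insert_self r s)
    obtain ⟨L, hL1, hL2⟩ := hL r hrp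
    have hcop : Nat.Coprime (∏ q ∈ s, q ^ e q) (r ^ e r) := by
      refine Nat.Coprime.prod_left fun q hq => ?_
      have hqp : q.Prime := hs q (Finset.mem_insert_of_mem hq)
      exact Nat.Coprime.pow _ _ ((Nat.coprime_primes hqp hrp).2 fun h => hr (h ▸ hq))
    have h := step A hA K L (∏ q ∈ s, q ^ e q) (r ^ e r) hcop hK1 hK2 hL1 hL2
    refine ⟨K ⊓ L, ?_⟩
    rw [Finset.prod_insert hr]
    exact h

/-- an `r`-element of a finite group is killed by the `r`-part of the order -/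
theorem pow_part [Finite H] (r : ℕ) (hr : r.Prime) (b : H) (j : ℕ) (hb : b ^ (r ^ j) = 1) :
    b ^ (r ^ (Nat.card H).factorization r) = 1 := by
  obtain ⟨i, _, hi⟩ := (Nat.dvd_prime_pow hr).1 (orderOf_dvd_of_pow_eq_one hb)
  have hN : Nat.card H ≠ 0 := Nat.card_pos.ne'
  have h1 : r ^ i ∣ Nat.card H := hi ▸ orderOf_dvd_natCard b
  have h2 : i ≤ (Nat.card H).factorization r := (hr.pow_dvd_iff_le_factorization hN).1 h1
  exact orderOf_dvd_iff_pow_eq_one.1 (hi ▸ pow_dvd_pow r h2)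

end KinAux

theorem Kin : S_Kin := by
  intro H _ _ A _ hA hL
  have hN : Nat.card H ≠ 0 := Nat.card_pos.ne'
  obtain ⟨K, hK1, hK2⟩ := KinAux.all A hA (fun r => (Nat.card H).factorization r)
    (fun r hr => by
      obtain ⟨L, hL1, hL2⟩ := hL r hr
      refine ⟨L, fun x hx hx1 hxL => hL1 x hx ⟨_, hx1⟩ hxL, fun g => ?_⟩
      obtain ⟨b, hb, ⟨j, hj⟩, l, hl, hg⟩ := hL2 g
      exact ⟨b, hb, KinAux.pow_part r hr b j hj, l, hl, hg⟩)
    (Nat.card H).primeFactors fun r hr => Nat.prime_of_mem_primeFactors hr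
  have hprod : ∏ r ∈ (Nat.card H).primeFactors, r ^ (Nat.card H).factorization r = Nat.card H :=
    Nat.factorization_prod_pow_eq_self hN
  simp only [hprod] at hK1 hK2
  refine ⟨K, Subgroup.isComplement'_of_disjoint_and_mul_eq_univ ?_ ?_⟩
  · rw [Subgroup.disjoint_def]
    intro x hxA hxK
    exact hK1 x hxA pow_card_eq_one' hxK
  · refine Set.eq_univ_of_forall fun g => ?_
    obtain ⟨b, hb, _, l, hl, hg⟩ := hK2 g
    exact Set.mem_mul.2 ⟨b, hb, l, hl, hg.symm⟩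

end Pool.Agent.Lib.MP_f44088_fc
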