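import Mathlib
import Pool.Agent.Lib.MP_f44088_al.FB4.Spec2

/-! Project FB4, part L: the lemma on coloured point sets in modules over `Z / q ^ h`. -/

set_option autoImplicit false

namespace Pool.Agent.Lib.MP_f44088_fc

open Pool.Agent.Lib.MP_f44088_fb (Sat InVar FGrp Cls Mono Rich IsChar Lam)

namespace LWAux

/-- germs along the hyperfilter -/
abbrev Ge (E : Type) : Type := Filter.Germ (Filter.hyperfilter ℕ : Filter ℕ) E

/-- the points whose coordinates are germs of a sequence of points -/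
def Zs {ι : Type} {E : ι → Type} (Z : ℕ → Set (∀ q, E q)) : Set (∀ q, Ge (E q)) :=
  {z | ∃ ζ : ℕ → ∀ q, E q, (∀ᶠ i in (Filter.hyperfilter ℕ : Filter ℕ), ζ i ∈ Z i) ∧
    ∀ q, z q = ((fun i => ζ i q : ℕ → E q) : Ge (E q))}

/-- the reduction of germs -/
noncomputable def redG (q h : ℕ) (hh : h ≠ 0) : Ge (ℕ →₀ ZMod (q ^ h)) →+ Ge (ℕ →₀ ZMod q) where
  toFun := Filter.Germ.map (redE q h hh)
  map_zero' := by
    show Filter.Germ.map (redE q h hh) (((fun _ => 0 : ℕ → (ℕ →₀ ZMod (q ^ h)))) :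
      Ge (ℕ →₀ ZMod (q ^ h))) = _
    rw [Filter.Germ.map_coe]
    apply Filter.Germ.coe_eq.2
    exact Filter.Eventually.of_forall fun i => map_zero _
  map_add' := by
    intro x y
    induction x using Filter.Germ.inductionOn with
    | h f =>
      induction y using Filter.Germ.inductionOn with
      | h g =>
        rw [← Filter.Germ.coe_add, Filter.Germ.map_coe, Filter.Germ.map_coe, Filter.Germ.map_coe,
          ← Filter.Germ.coe_add]
        apply Filter.Germ.coe_eq.2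
        exact Filter.Eventually.of_forall fun i => map_add (redE q h hh) (f i) (g i)

theorem redG_coe (q h : ℕ) (hh : h ≠ 0) (f : ℕ → (ℕ →₀ ZMod (q ^ h))) :
    redG q h hh (f : Ge (ℕ →₀ ZMod (q ^ h))) = ((fun i => redE q h hh (f i) : ℕ → (ℕ →₀ ZMod q)) :
      Ge (ℕ →₀ ZMod q)) := rfl

theorem redE_surj (q h : ℕ) (hh : h ≠ 0) : Function.Surjective (redE q h hh) := by
  intro y
  have h1 : Function.Surjective (ZMod.castHom (dvd_pow_self q hh) (ZMod q)) :=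
    ZMod.ringHom_surjective _
  obtain ⟨x, hx⟩ := Finsupp.mapRange_surjective (ZMod.castHom (dvd_pow_self q hh) (ZMod q))
    (map_zero _) h1 y
  exact ⟨x, hx⟩

theorem redG_surj (q h : ℕ) (hh : h ≠ 0) : Function.Surjective (redG q h hh) := by
  intro y
  induction y using Filter.Germ.inductionOn with
  | h g =>
    choose f hf using fun i => redE_surj q h hh (g i)
    refine ⟨(f : Ge _), ?_⟩
    rw [redG_coe]
    congr 1
    exact funext hf

/-- division of the coordinates by `q` -/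
noncomputable def dv (q h : ℕ) (x : ℕ →₀ ZMod (q ^ h)) : ℕ →₀ ZMod (q ^ h) :=
  x.mapRange (fun c => ((c.val / q : ℕ) : ZMod (q ^ h))) (by simp)

theorem redE_ker (q h : ℕ) [Fact q.Prime] (hh : h ≠ 0) (x : ℕ →₀ ZMod (q ^ h))
    (hx : redE q h hh x = 0) : x = q • dv q h x := by
  have hq : q.Prime := Fact.out
  have hN : NeZero (q ^ h) := ⟨pow_ne_zero _ hq.ne_zero⟩
  ext s
  have h1 : redE q h hh x s = 0 := by
    rw [hx]
    rfl
  have h2 : (ZMod.castHom (dvd_pow_self q hh) (ZMod q)) (x s) = 0 := h1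
  have h3 : ((x s).val : ZMod q) = 0 := by
    rw [← h2, ZMod.castHom_apply, ZMod.natCast_val]
  have h4 : q ∣ (x s).val := (ZMod.natCast_eq_zero_iff _ _).1 h3
  have h5 : (q • dv q h x) s = q • (((x s).val / q : ℕ) : ZMod (q ^ h)) := rfl
  rw [h5, nsmul_eq_mul, ← Nat.cast_mul, Nat.mul_div_cancel' h4, ZMod.natCast_zmod_val]

theorem redG_ker (q h : ℕ) [Fact q.Prime] (hh : h ≠ 0) (x : Ge (ℕ →₀ ZMod (q ^ h)))
    (hx : redG q h hh x = 0) : ∃ y, x = q • y := by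
  induction x using Filter.Germ.inductionOn with
  | h f =>
    rw [redG_coe] at hx
    have h1 : ∀ᶠ i in (Filter.hyperfilter ℕ : Filter ℕ), redE q h hh (f i) = 0 :=
      Filter.Germ.coe_eq.1 hx
    refine ⟨((fun i => dv q h (f i) : ℕ → (ℕ →₀ ZMod (q ^ h))) : Ge _), ?_⟩
    rw [← Filter.Germ.coe_smul]
    apply Filter.Germ.coe_eq.2
    filter_upwards [h1] with i hi
    exact redE_ker q h hh (f i) hi

theorem tor (q h : ℕ) (x : ℕ →₀ ZMod (q ^ h)) : (q ^ h) • x = 0 := by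
  ext s
  have h1 : ((q ^ h) • x) s = (q ^ h) • (x s) := rfl
  rw [h1, nsmul_eq_mul, ZMod.natCast_self, zero_mul]
  rfl

theorem torG (q h : ℕ) (x : Ge (ℕ →₀ ZMod (q ^ h))) : (q ^ h) • x = 0 := by
  induction x using Filter.Germ.inductionOn with
  | h f =>
    rw [← Filter.Germ.coe_smul]
    apply Filter.Germ.coe_eq.2
    exact Filter.Eventually.of_forall fun i => tor q h (f i)

theorem tor' (q h t : ℕ) (ht : h ≤ t) (x : ℕ →₀ ZMod (q ^ h)) : (q ^ t) • x = 0 := by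
  obtain ⟨d, rfl⟩ := Nat.exists_eq_add_of_le ht
  rw [pow_add, mul_comm, mul_smul, tor, smul_zero]

theorem cover {ι : Type} [Finite ι] {E : ι → Type} [∀ a, AddCommGroup (E a)] (m : ι → ℕ)
    (Z : ℕ → Set (∀ a, E a)) (T : Type) (t : T → ι → ℕ) (v : T → ∀ a, Ge (E a))
    (r : T → ∀ a, ℕ → E a) (hr : ∀ s, ∀ a, ((r s a : ℕ → E a) : Ge (E a)) = v s a)
    (hc : ∀ z ∈ Zs Z, ∃ s, ∀ a, ∃ x, z a = v s a + (m a ^ t s a) • x) :
    ∀ᶠ i in (Filter.hyperfilter ℕ : Filter ℕ), ∀ z ∈ Z i, ∃ s, ∀ a, ∃ x,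
      z a = r s a i + (m a ^ t s a) • x := by
  classical
  by_contra hcon
  have hf := Ultrafilter.frequently_iff_eventually.1 (Filter.not_eventually.1 hcon)
  let ζ : ℕ → ∀ a, E a := fun i =>
    if h : ∃ z ∈ Z i, ¬ ∃ s, ∀ a, ∃ x, z a = r s a i + (m a ^ t s a) • x then h.choose else 0
  have hζ : ∀ᶠ i in (Filter.hyperfilter ℕ : Filter ℕ),
      ζ i ∈ Z i ∧ ¬ ∃ s, ∀ a, ∃ x, ζ i a = r s a i + (m a ^ t s a) • x := by
    filter_upwards [hf] with i hi
    have h : ∃ z ∈ Z i, ¬ ∃ s, ∀ a, ∃ x, z a = r s a i + (m a ^ t s a) • x := by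
      by_contra h1
      apply hi
      intro z hz
      by_contra h2
      exact h1 ⟨z, hz, h2⟩
    have h3 : ζ i = h.choose := by
      simp only [ζ, dif_pos h]
    rw [h3]
    exact h.choose_spec
  obtain ⟨s, hs⟩ := hc (fun a => ((fun i => ζ i a : ℕ → E a) : Ge (E a)))
    ⟨ζ, hζ.mono (fun i h => h.1), fun q => rfl⟩
  have h2 : ∀ᶠ i in (Filter.hyperfilter ℕ : Filter ℕ), ∀ a, ∃ x,
      ζ i a = r s a i + (m a ^ t s a) • x := by
    rw [Filter.eventually_all]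
    intro a
    obtain ⟨x, hx⟩ := hs a
    obtain ⟨f, rfl⟩ := Quotient.exists_rep x
    have h4 : ((fun i => ζ i a : ℕ → E a) : Ge (E a)) =
        ((fun i => r s a i + (m a ^ t s a) • f i : ℕ → E a) : Ge (E a)) := by
      refine hx.trans ?_
      rw [← hr s a]
      rfl
    exact (Filter.Germ.coe_eq.1 h4).mono (fun i h => ⟨f i, h⟩)
  obtain ⟨i, h3, h4⟩ := (hζ.and h2).exists
  exact h3.2 ⟨s, h4⟩

theorem germ_sum {V S : Type} [AddCommGroup V] [Fintype S] (c : S → ℤ) (f : S → ℕ → V) :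
    (((fun i => ∑ s, c s • f s i) : ℕ → V) : Ge V) = ∑ s, c s • ((f s : ℕ → V) : Ge V) := by
  have h := map_sum (Filter.Germ.coeAddHom (M := V) (Filter.hyperfilter ℕ : Filter ℕ))
    (fun s => c s • f s) Finset.univ
  have e : (fun i => ∑ s, c s • f s i) = ∑ s, c s • f s := by
    funext i
    simp [Finset.sum_apply]
  rw [e]
  exact h

end LWAux

open LWAux in
theorem LW : S_Str → S_Pur → S_Lif → O_RM → O_Joint → O_Ger → S_LW := by
  intro hStr hPur hLif hRM hJoint hGer ι _ q h hq hh C _ Z hZ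
  classical
  have : ∀ a, Fact (q a).Prime := fun a => ⟨hq a⟩
  have hker : ∀ a, ∀ x : Ge (ℕ →₀ ZMod (q a ^ h a)), redG (q a) (h a) (hh a) x = 0 →
      ∃ y, x = (q a) • y := fun a => redG_ker (q a) (h a) (hh a)
  choose U0 T0 v0 t0 hFG hfin hcov hrich using
    fun c => hStr ι q h (fun a => Ge (ℕ →₀ ZMod (q a ^ h a))) (fun a => Ge (ℕ →₀ ZMod (q a)))
      (fun a => redG (q a) (h a) (hh a)) (fun a => redG_surj (q a) (h a) (hh a)) hker
      (Zs (fun i => Z i c))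
  choose r b coef hb hv using
    fun a => hPur (q a) (h a) (Ge (ℕ →₀ ZMod (q a ^ h a))) (Ge (ℕ →₀ ZMod (q a)))
      (redG (q a) (h a) (hh a)) (hker a) (torG (q a) (h a)) (Σ c, T0 c) (fun s => v0 s.1 s.2 a)
  let U : ∀ a, Submodule (ZMod (q a)) (Ge (ℕ →₀ ZMod (q a))) := fun a => (⨆ c, U0 c a) ⊔
    Submodule.span (ZMod (q a)) (Set.range (fun s => redG (q a) (h a) (hh a) (b a s)))
  have hUdef : ∀ a, U a = (⨆ c, U0 c a) ⊔
    Submodule.span (ZMod (q a)) (Set.range (fun s => redG (q a) (h a) (hh a) (b a s))) := fun a => rfl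
  have hU : ∀ a, (U a).FG := by
    intro a
    rw [hUdef]
    exact (Submodule.fg_iSup _ (fun c => hFG c a)).sup (Submodule.fg_span (Set.finite_range _))
  have hbU : ∀ a s, redG (q a) (h a) (hh a) (b a s) ∈ U a := by
    intro a s
    rw [hUdef]
    exact Submodule.mem_sup_right (Submodule.subset_span ⟨s, rfl⟩)
  have hR : ∀ t : (Σ c, T0 c), Rich U {a | t0 t.1 t.2 a < h a}
      (Cla q (fun a => redG (q a) (h a) (hh a)) (v0 t.1 t.2) (t0 t.1 t.2) (Zs (fun i => Z i t.1))) :=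
    fun t => hRM ι (fun a => ZMod (q a)) (fun a => Ge (ℕ →₀ ZMod (q a))) (U0 t.1) U _ _
      (hrich t.1 t.2)
      (fun a => by rw [hUdef]; exact (le_iSup (fun c => U0 c a) t.1).trans le_sup_left) hU
  choose rb hrb using fun a s => Quotient.exists_rep (b a s : Ge (ℕ →₀ ZMod (q a ^ h a)))
  have hvr : ∀ (t : (Σ c, T0 c)) (a : ι),
      (((fun i => ∑ s, coef a t s • rb a s i) : ℕ → (ℕ →₀ ZMod (q a ^ h a))) : Ge _) =
        v0 t.1 t.2 a := by
    intro t a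
    rw [germ_sum, hv a t]
    exact Finset.sum_congr rfl fun s _ => congrArg (fun z => coef a t s • z) (hrb a s)
  have hA : ∀ᶠ i in (Filter.hyperfilter ℕ : Filter ℕ), ∀ c, ∀ z ∈ Z i c, ∃ s : T0 c,
      ∀ a, ∃ x, z a = (∑ l, coef a ⟨c, s⟩ l • rb a l i) + (q a ^ t0 c s a) • x :=
    Filter.eventually_all.2 (fun c => cover q (fun i => Z i c) (T0 c) (t0 c) (v0 c)
      (fun s a i => ∑ l, coef a ⟨c, s⟩ l • rb a l i) (fun s a => hvr ⟨c, s⟩ a) (hcov c))
  obtain ⟨i, hAi⟩ := hA.exists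
  let WS : (Σ c, T0 c) → Set (∀ a, ℕ →₀ ZMod (q a ^ h a)) := fun t => {z | z ∈ Z i t.1 ∧ ∀ a, ∃ x,
    z a = (∑ l, coef a t l • rb a l i) + (q a ^ t0 t.1 t.2 a) • x}
  have hWf : ∀ t : (Σ c, T0 c), Finite (WS t) :=
    fun t => ((hZ i t.1).subset (fun z h => h.1)).to_subtype
  let e := fun t : (Σ c, T0 c) => Finite.equivFin (WS t)
  choose W hW using fun (t : (Σ c, T0 c)) (z : WS t) => z.2.2
  obtain ⟨w, hw, hwi⟩ := hJoint ι (fun a => ZMod (q a)) (fun a => Ge (ℕ →₀ ZMod (q a))) U hU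
    (Σ c, T0 c) (fun t => {a | t0 t.1 t.2 a < h a})
    (fun t => Cla q (fun a => redG (q a) (h a) (hh a)) (v0 t.1 t.2) (t0 t.1 t.2)
      (Zs (fun i => Z i t.1))) hR (fun t => Nat.card (WS t))
  choose yz hyz xx hxx hyx using hw
  choose ry hry1 hry2 using hyz
  choose rx hrx using fun t s a => Quotient.exists_rep (xx t s a : Ge (ℕ →₀ ZMod (q a ^ h a)))
  have hG : ∀ᶠ j in (Filter.hyperfilter ℕ : Filter ℕ), ∀ a, LinearIndependent (ZMod (q a))
      (fun s => (Sum.elim (fun l j => redE (q a) (h a) (hh a) (rb a l j))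
        (fun (s : {s : (Σ t : (Σ c, T0 c), Fin (Nat.card (WS t))) //
          a ∈ {a | t0 s.1.1 s.1.2 a < h a}}) j =>
          redE (q a) (h a) (hh a) (rx s.1.1 s.1.2 a j)) s : ℕ → (ℕ →₀ ZMod (q a))) j) := by
    refine Filter.eventually_all.2 (fun a => hGer (ZMod (q a)) (ℕ →₀ ZMod (q a)) _ _ ?_)
    have hf : LinearIndependent (ZMod (q a))
        (fun s => (⟨redG (q a) (h a) (hh a) (b a s), hbU a s⟩ : U a)) := by
      apply LinearIndependent.of_comp (U a).subtype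
      exact hb a
    have h1 := LinearIndependent.sumElim_of_quotient hf
      (fun s : {s : (Σ t : (Σ c, T0 c), Fin (Nat.card (WS t))) //
          a ∈ {a | t0 s.1.1 s.1.2 a < h a}} => w s.1.1 s.1.2 a) (hwi a)
    have he : (Sum.elim (fun s => ((⟨redG (q a) (h a) (hh a) (b a s), hbU a s⟩ : U a) :
        Ge (ℕ →₀ ZMod (q a))))
        (fun s : {s : (Σ t : (Σ c, T0 c), Fin (Nat.card (WS t))) //
          a ∈ {a | t0 s.1.1 s.1.2 a < h a}} => w s.1.1 s.1.2 a)) =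
        (fun s => ((Sum.elim (fun l j => redE (q a) (h a) (hh a) (rb a l j))
        (fun (s : {s : (Σ t : (Σ c, T0 c), Fin (Nat.card (WS t))) //
          a ∈ {a | t0 s.1.1 s.1.2 a < h a}}) j =>
          redE (q a) (h a) (hh a) (rx s.1.1 s.1.2 a j)) s : ℕ → (ℕ →₀ ZMod (q a))) :
          Ge (ℕ →₀ ZMod (q a)))) := by
      funext s
      rcases s with s | s
      · show redG (q a) (h a) (hh a) (b a s) = _
        rw [← hrb a s]
        rfl
      · show w s.1.1 s.1.2 a = _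
        rw [hxx s.1.1 s.1.2 a, ← hrx s.1.1 s.1.2 a]
        rfl
    rw [← he]
    exact h1
  have hM : ∀ᶠ j in (Filter.hyperfilter ℕ : Filter ℕ), ∀ t s, ry t s j ∈ Z j t.1 :=
    Filter.eventually_all.2 (fun t => Filter.eventually_all.2 (fun s => hry1 t s))
  have hV : ∀ᶠ j in (Filter.hyperfilter ℕ : Filter ℕ), ∀ t s a,
      ry t s j a = (∑ l, coef a t l • rb a l j) + (q a ^ t0 t.1 t.2 a) • rx t s a j := by
    refine Filter.eventually_all.2 (fun t => Filter.eventually_all.2 (fun s =>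
      Filter.eventually_all.2 (fun a => ?_)))
    have h4 : ((fun j => ry t s j a : ℕ → (ℕ →₀ ZMod (q a ^ h a))) : Ge (ℕ →₀ ZMod (q a ^ h a))) =
        (((fun j => (∑ l, coef a t l • rb a l j) + (q a ^ t0 t.1 t.2 a) • rx t s a j) :
          ℕ → (ℕ →₀ ZMod (q a ^ h a))) : Ge (ℕ →₀ ZMod (q a ^ h a))) := by
      refine (hry2 t s a).symm.trans ((hyx t s a).trans ?_)
      rw [← hvr t a, ← hrx t s a]
      rfl
    exact Filter.Germ.coe_eq.1 h4
  have hgt : ∀ᶠ j in (Filter.hyperfilter ℕ : Filter ℕ), i < j :=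
    (Filter.hyperfilter_le_cofinite.trans Nat.cofinite_eq_atTop.le) (Filter.eventually_gt_atTop i)
  obtain ⟨j, hGj, hMj, hVj, hij⟩ := (hG.and (hM.and (hV.and hgt))).exists
  have hπ0 : ∀ a, ∃ π : (ℕ →₀ ZMod (q a ^ h a)) →+ (ℕ →₀ ZMod (q a ^ h a)),
      (∀ l, π (rb a l j) = rb a l i) ∧
      ∀ s : {s : (Σ t : (Σ c, T0 c), Fin (Nat.card (WS t))) // a ∈ {a | t0 s.1.1 s.1.2 a < h a}},
        π (rx s.1.1 s.1.2 a j) = W s.1.1 ((e s.1.1).symm s.1.2) a := by
    intro a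
    obtain ⟨π, hπ⟩ := hLif (q a) (h a) (hh a) (Fin (r a) ⊕ {s : (Σ t : (Σ c, T0 c),
        Fin (Nat.card (WS t))) // a ∈ {a | t0 s.1.1 s.1.2 a < h a}})
      (Sum.elim (fun l => rb a l j) (fun s => rx s.1.1 s.1.2 a j))
      (Sum.elim (fun l => rb a l i) (fun s => W s.1.1 ((e s.1.1).symm s.1.2) a)) (by
        have h1 := hGj a
        have h2 : (fun s => (Sum.elim (fun l j => redE (q a) (h a) (hh a) (rb a l j))
          (fun (s : {s : (Σ t : (Σ c, T0 c), Fin (Nat.card (WS t))) //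
            a ∈ {a | t0 s.1.1 s.1.2 a < h a}}) j =>
            redE (q a) (h a) (hh a) (rx s.1.1 s.1.2 a j)) s : ℕ → (ℕ →₀ ZMod (q a))) j) =
          (fun s => redE (q a) (h a) (hh a) ((Sum.elim (fun l => rb a l j)
            (fun s => rx s.1.1 s.1.2 a j) : Fin (r a) ⊕ {s : (Σ t : (Σ c, T0 c),
        Fin (Nat.card (WS t))) // a ∈ {a | t0 s.1.1 s.1.2 a < h a}} → _) s)) := by
          funext s
          rcases s with s | s <;> rfl
        rw [h2] at h1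
        exact h1)
    exact ⟨π, fun l => hπ (Sum.inl l), fun s => hπ (Sum.inr s)⟩
  choose π hπ1 hπ2 using hπ0
  refine ⟨i, j, hij, π, fun c z hz => ?_⟩
  obtain ⟨t, ht⟩ := hAi c z hz
  refine ⟨ry ⟨c, t⟩ (e ⟨c, t⟩ ⟨z, hz, ht⟩) j, hMj ⟨c, t⟩ _, fun a => ?_⟩
  have h1 : π a (∑ l, coef a ⟨c, t⟩ l • rb a l j) = ∑ l, coef a ⟨c, t⟩ l • rb a l i := by
    rw [map_sum]
    exact Finset.sum_congr rfl fun l _ => by rw [map_zsmul, hπ1]
  rw [hVj ⟨c, t⟩ _ a, map_add, h1, map_nsmul]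
  have h2 := hW ⟨c, t⟩ ⟨z, hz, ht⟩ a
  rw [show z a = (⟨z, hz, ht⟩ : WS ⟨c, t⟩).1 a from rfl, h2]
  by_cases ha : t0 c t a < h a
  · have h3 := hπ2 a ⟨⟨⟨c, t⟩, e ⟨c, t⟩ ⟨z, hz, ht⟩⟩, ha⟩
    simp only [Equiv.symm_apply_apply] at h3
    rw [h3]
  · rw [tor' _ _ _ (not_lt.1 ha), tor' _ _ _ (not_lt.1 ha)]

end Pool.Agent.Lib.MP_f44088_fc
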