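import Mathlib
import Pool.Agent.Lib.MP_f44088_al.FB4.Spec2

/-! Project FB4 (MP_f44088_al), statement `Lif`: prescribed values of a homomorphism of free modules over
`ZMod (q ^ h)` at elements which are independent modulo `q`. -/

set_option autoImplicit false

namespace Pool.Agent.Lib.MP_f44088_fc

namespace LifAux

/-- An element of `ZMod (q ^ h)` which is 1 modulo `q` is a unit. -/
theorem isUnit_of_cast (q h : ℕ) [hq : Fact q.Prime] (hh : h ≠ 0) (u : ZMod (q ^ h))
    (hu : ZMod.castHom (dvd_pow_self q hh) (ZMod q) u = 1) : IsUnit u := by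
  have : NeZero (q ^ h) := ⟨pow_ne_zero _ hq.out.ne_zero⟩
  have h1 : ((u.val : ℕ) : ZMod (q ^ h)) = u := ZMod.natCast_zmod_val u
  rw [← h1] at hu ⊢
  rw [ZMod.isUnit_iff_coprime]
  apply Nat.Coprime.pow_right
  rw [Nat.coprime_comm, (Nat.Prime.coprime_iff_not_dvd hq.out)]
  intro hd
  rw [map_natCast, (ZMod.natCast_eq_zero_iff _ _).2 hd] at hu
  exact zero_ne_one hu

/-- functionals which separate independent vectors -/
theorem exists_dual (q : ℕ) [hq : Fact q.Prime] (S : Type) (v : S → (ℕ →₀ ZMod q))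
    (hv : LinearIndependent (ZMod q) v) :
    ∃ g : (ℕ →₀ ZMod q) →ₗ[ZMod q] (S →₀ ZMod q), ∀ s, g (v s) = Finsupp.single s 1 := by
  obtain ⟨g, hg⟩ := LinearMap.exists_leftInverse_of_injective (Finsupp.linearCombination (ZMod q) v)
    (LinearMap.ker_eq_bot.2 hv)
  refine ⟨g, fun s => ?_⟩
  have h1 := LinearMap.congr_fun hg (Finsupp.single s 1)
  simpa using h1

/-- the lifted functionals -/
theorem exists_lift (q h : ℕ) [hq : Fact q.Prime] (hh : h ≠ 0) (S : Type) [Finite S]
    (g : (ℕ →₀ ZMod q) →ₗ[ZMod q] (S →₀ ZMod q)) :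
    ∃ ρ : (ℕ →₀ ZMod (q ^ h)) →ₗ[ZMod (q ^ h)] (S → ZMod (q ^ h)), ∀ y s,
      ZMod.castHom (dvd_pow_self q hh) (ZMod q) (ρ y s) = g (redE q h hh y) s := by
  have hsurj : Function.Surjective (ZMod.castHom (dvd_pow_self q hh) (ZMod q)) :=
    ZMod.castHom_surjective _
  choose L hL using hsurj
  refine ⟨Finsupp.linearCombination (ZMod (q ^ h)) (fun n s => L (g (Finsupp.single n 1) s)), ?_⟩
  intro y s
  induction y using Finsupp.induction_linear with
  | zero => simp
  | add a b ha hb => 
    rw [map_add, map_add, map_add, Pi.add_apply, map_add, Finsupp.add_apply, ha, hb]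
  | single n r =>
    have h1 : redE q h hh (Finsupp.single n r)
        = (ZMod.castHom (dvd_pow_self q hh) (ZMod q) r) • Finsupp.single n (1 : ZMod q) := by
      unfold redE
      simp
    rw [h1, map_smul, Finsupp.linearCombination_single, Pi.smul_apply, smul_eq_mul, map_mul, hL,
      Finsupp.smul_apply, smul_eq_mul]

end LifAux

open LifAux in
theorem Lif : S_Lif := by
  intro q h hq hh S hS x t hli
  classical
  have := Fintype.ofFinite S
  obtain ⟨g, hg⟩ := exists_dual q S _ hli
  obtain ⟨ρ, hρ⟩ := exists_lift q h hh S g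
  let M : Matrix S S (ZMod (q ^ h)) := Matrix.of (fun s s' => ρ (x s') s)
  have hM : M.map (ZMod.castHom (dvd_pow_self q hh) (ZMod q)) = 1 := by
    ext s s'
    change ZMod.castHom (dvd_pow_self q hh) (ZMod q) (ρ (x s') s) = (1 : Matrix S S (ZMod q)) s s'
    rw [hρ, hg, Matrix.one_apply, Finsupp.single_apply]
    simp only [eq_comm]
  have hdet : IsUnit M.det := by
    apply isUnit_of_cast q h hh
    rw [RingHom.map_det]
    have : (ZMod.castHom (dvd_pow_self q hh) (ZMod q)).mapMatrix M
        = M.map (ZMod.castHom (dvd_pow_self q hh) (ZMod q)) := rfl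
    rw [this, hM, Matrix.det_one]
  refine ⟨((Fintype.linearCombination (ZMod (q ^ h)) t) ∘ₗ (M⁻¹).mulVecLin ∘ₗ ρ).toAddMonoidHom, ?_⟩
  intro s
  have h1 : ρ (x s) = M.mulVec (Pi.single s 1) := by
    ext s'
    rw [Matrix.mulVec_single_one]
    rfl
  change Fintype.linearCombination (ZMod (q ^ h)) t ((M⁻¹).mulVec (ρ (x s))) = t s
  rw [h1, Matrix.mulVec_mulVec, Matrix.nonsing_inv_mul _ hdet, Matrix.one_mulVec,
    Fintype.linearCombination_apply_single, one_smul]

end Pool.Agent.Lib.MP_f44088_fc
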