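import Mathlib
import Pool.Agent.Lib.MP_f44088_al.FB4.Spec

/-! Project FB4 (MP_f44088_al): the translation part of a word is linear in the translation parts, over a
commutative ring. -/

set_option autoImplicit false

namespace Pool.Agent.Lib.MP_f44088_fc

namespace LinAux

variable {K R : Type} [CommRing R] [AddCommGroup K]

/-- multiplication by a function after a translation -/
def tw (a : K → Rˣ) (x : K) : (K → R) →ₗ[R] (K → R) where
  toFun f := fun y => (a y : R) * f (y + x)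
  map_add' f g := by
    funext y
    simp only [Pi.add_apply]
    ring
  map_smul' c f := by
    funext y
    simp only [Pi.smul_apply, smul_eq_mul, RingHom.id_apply]
    ring

theorem tw_apply (a : K → Rˣ) (x : K) (f : K → R) (y : K) : tw a x f y = (a y : R) * f (y + x) := rfl

/-- the statement for one word -/
def Pw (u : ℕ → Aff K R) (w : FreeGroup ℕ) : Prop :=
  ∃ (T : (ℕ → K → R) →ₗ[R] (K → R)) (s : Finset ℕ),
    (∀ m : ℕ → K → R, (∀ i ∈ s, m i = 0) → T m = 0) ∧
    ∀ m : ℕ → K → R,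
      (FreeGroup.lift (fun i => (⟨m i, (u i).a, (u i).x⟩ : Aff K R)) w).m = T m ∧
      (FreeGroup.lift (fun i => (⟨m i, (u i).a, (u i).x⟩ : Aff K R)) w).a = (FreeGroup.lift u w).a ∧
      (FreeGroup.lift (fun i => (⟨m i, (u i).a, (u i).x⟩ : Aff K R)) w).x = (FreeGroup.lift u w).x

theorem Pw_one (u : ℕ → Aff K R) : Pw u 1 := by
  refine ⟨0, ∅, fun m _ => rfl, fun m => ?_⟩
  rw [map_one, map_one]
  exact ⟨rfl, rfl, rfl⟩

theorem Pw_of (u : ℕ → Aff K R) (i : ℕ) : Pw u (FreeGroup.of i) := by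
  refine ⟨LinearMap.proj i, {i}, fun m hm => hm i (Finset.mem_singleton_self i), fun m => ?_⟩
  rw [FreeGroup.lift_apply_of, FreeGroup.lift_apply_of]
  exact ⟨rfl, rfl, rfl⟩

theorem Pw_inv (u : ℕ → Aff K R) (i : ℕ) : Pw u (FreeGroup.of i)⁻¹ := by
  refine ⟨-((tw (fun y => ((u i).a (y - (u i).x))⁻¹) (-(u i).x)).comp (LinearMap.proj i)), {i},
    fun m hm => ?_, fun m => ?_⟩
  · have h : m i = 0 := hm i (Finset.mem_singleton_self i)
    funext y
    simp only [LinearMap.neg_apply, LinearMap.comp_apply, LinearMap.proj_apply, Pi.neg_apply, tw_apply, h,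
      Pi.zero_apply, mul_zero, neg_zero]
  · rw [map_inv, map_inv, FreeGroup.lift_apply_of, FreeGroup.lift_apply_of]
    refine ⟨?_, rfl, rfl⟩
    funext y
    simp only [LinearMap.neg_apply, LinearMap.comp_apply, LinearMap.proj_apply, Pi.neg_apply, tw_apply,
      Aff.inv_m, ← sub_eq_add_neg, neg_mul]

theorem Pw_mul (u : ℕ → Aff K R) (v w : FreeGroup ℕ) (hv : Pw u v) (hw : Pw u w) : Pw u (v * w) := by
  obtain ⟨T, s, hT, h⟩ := hv
  obtain ⟨T', s', hT', h'⟩ := hw
  refine ⟨T + (tw (FreeGroup.lift u v).a (FreeGroup.lift u v).x).comp T', s ∪ s', fun m hm => ?_,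
    fun m => ?_⟩
  · have e1 : T m = 0 := hT m fun i hi => hm i (Finset.mem_union_left _ hi)
    have e2 : T' m = 0 := hT' m fun i hi => hm i (Finset.mem_union_right _ hi)
    rw [LinearMap.add_apply, LinearMap.comp_apply, e1, e2, map_zero, add_zero]
  · obtain ⟨a1, a2, a3⟩ := h m
    obtain ⟨b1, b2, b3⟩ := h' m
    rw [map_mul, map_mul]
    refine ⟨?_, ?_, ?_⟩
    · funext y
      rw [Aff.mul_m, a1, a2, a3, b1, LinearMap.add_apply, LinearMap.comp_apply, Pi.add_apply, tw_apply]
    · funext y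
      rw [Aff.mul_a, Aff.mul_a, a2, a3, b2]
    · rw [Aff.mul_x, Aff.mul_x, a3, b3]

end LinAux

theorem Lin : S_Lin := by
  intro K R _ _ u w
  exact FreeGroup.induction_on (C := LinAux.Pw u) w (LinAux.Pw_one u) (LinAux.Pw_of u)
    (fun i _ => LinAux.Pw_inv u i) (fun v w hv hw => LinAux.Pw_mul u v w hv hw)

end Pool.Agent.Lib.MP_f44088_fc
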