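import Mathlib
import Pool.Agent.Lib.MP_f44088_al.FB4.Spec2

/-! FB4: the character of the scalars. -/

set_option autoImplicit false

namespace Pool.Agent.Lib.MP_f44088_fc

namespace LmdAux

/-- the group of scalars -/
def D0 {K k : Type} [Field k] [AddCommGroup K] (Δ : Subgroup (kˣ × Multiplicative K)) :
    Subgroup kˣ where
  carrier := {z | (z, (1 : Multiplicative K)) ∈ Δ}
  mul_mem' := by
    intro a b ha hb
    have h := Δ.mul_mem ha hb
    simpa using h
  one_mem' := Δ.one_mem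
  inv_mem' := by
    intro a ha
    have h := Δ.inv_mem ha
    simpa using h

theorem mem_D0 {K k : Type} [Field k] [AddCommGroup K] (Δ : Subgroup (kˣ × Multiplicative K))
    (z : kˣ) : z ∈ D0 Δ ↔ (z, (1 : Multiplicative K)) ∈ Δ := Iff.rfl

/-- a finite group of scalars of order `m` consists of all `m`-th roots of unity -/
theorem eq_roots {k : Type} [Field k] (n : ℕ) (hn : 0 < n) (H : Subgroup kˣ)
    (hH : ∀ z ∈ H, z ^ n = 1) : 0 < Nat.card H ∧ H = rootsOfUnity (Nat.card H) k := by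
  have hnz : NeZero n := ⟨hn.ne'⟩
  have hle : H ≤ rootsOfUnity n k := by
    intro z hz
    rw [mem_rootsOfUnity]
    exact hH z hz
  have hfin : Finite H := Finite.of_injective (Subgroup.inclusion hle) (Subgroup.inclusion_injective hle)
  have hpos : 0 < Nat.card H := Nat.card_pos
  refine ⟨hpos, ?_⟩
  have hmz : NeZero (Nat.card H) := ⟨hpos.ne'⟩
  have hle2 : H ≤ rootsOfUnity (Nat.card H) k := by
    intro z hz
    rw [mem_rootsOfUnity]
    have h := pow_card_eq_one' (x := (⟨z, hz⟩ : H))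
    exact congrArg Subtype.val h
  apply Subgroup.eq_of_le_of_card_ge hle2
  exact card_rootsOfUnity k (Nat.card H)

end LmdAux

open LmdAux in
theorem Lmd : S_Lmd := by
  intro n hn K k _ _ A Δ hA
  have hH : ∀ z ∈ D0 Δ, z ^ n = 1 := by
    intro z hz
    exact hA.expD z 1 hz
  obtain ⟨hpos, heq⟩ := eq_roots n hn (D0 Δ) hH
  have hcard : Nat.card {z : kˣ // (z, (1 : Multiplicative K)) ∈ Δ} = Nat.card (D0 Δ) := rfl
  rw [hcard]
  set m : ℕ := Nat.card (D0 Δ) with hm
  have hroot : ∀ z : kˣ, z ∈ D0 Δ ↔ z ^ m = 1 := by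
    intro z
    rw [heq, mem_rootsOfUnity]
  choose c hc using hA.onto
  have key : ∀ (z : kˣ) (x : K), ((z, Multiplicative.ofAdd x) ∈ Δ ↔ z ^ m = c x ^ m) := by
    intro z x
    have h1 : (z, Multiplicative.ofAdd x) ∈ Δ ↔ z * (c x)⁻¹ ∈ D0 Δ := by
      rw [mem_D0]
      constructor
      · intro h
        have h2 := Δ.mul_mem h (Δ.inv_mem (hc x))
        simpa using h2
      · intro h
        have h2 := Δ.mul_mem h (hc x)
        simpa using h2
    rw [h1, hroot, mul_pow, inv_pow, mul_inv_eq_one]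
  refine ⟨fun x => ((c x ^ m : kˣ) : k), ⟨?_, ?_⟩, ?_⟩
  · have h0 : (1 : kˣ) ^ m = c 0 ^ m := (key 1 0).1 Δ.one_mem
    show ((c 0 ^ m : kˣ) : k) = 1
    rw [← h0, one_pow, Units.val_one]
  · intro x y
    have h1 : (c x * c y, Multiplicative.ofAdd (x + y)) ∈ Δ := by
      have h2 := Δ.mul_mem (hc x) (hc y)
      simpa using h2
    have h3 := (key _ _).1 h1
    show ((c (x + y) ^ m : kˣ) : k) = ((c x ^ m : kˣ) : k) * ((c y ^ m : kˣ) : k)
    rw [← h3, mul_pow, Units.val_mul]
  · intro z x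
    rw [key z x]
    show z ^ m = c x ^ m ↔ (z : k) ^ m = ((c x ^ m : kˣ) : k)
    rw [← Units.val_pow_eq_pow_val, Units.val_inj]

end Pool.Agent.Lib.MP_f44088_fc
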