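import Mathlib
import Pool.Agent.Lib.MP_f44088_al.FB4.Spec2

set_option autoImplicit false

/-! Project FB4: comparison of two invariant groups of functions, with an `r`-part. -/

namespace Pool.Agent.Lib.MP_f44088_fc

namespace MLAux

theorem decomp (K : Type) [AddCommGroup K] [Finite K] (r a m : ℕ) (h : Nat.card K = r ^ a * m)
    (hc : m.Coprime (r ^ a)) (y : K) : ∃ y' x : K, m • y' = 0 ∧ (r ^ a) • x = 0 ∧ y = y' + x := by
  obtain ⟨u, v, huv⟩ := Nat.isCoprime_iff_coprime.2 hc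
  have hy : ((r ^ a * m : ℕ) : ℤ) • y = 0 := by
    rw [natCast_zsmul, ← h]
    exact card_nsmul_eq_zero'
  refine ⟨(v * ((r ^ a : ℕ) : ℤ)) • y, (u * (m : ℤ)) • y, ?_, ?_, ?_⟩
  · rw [← natCast_zsmul, smul_smul,
      show (m : ℤ) * (v * ((r ^ a : ℕ) : ℤ)) = v * ((r ^ a * m : ℕ) : ℤ) by push_cast; ring,
      mul_smul, hy, smul_zero]
  · rw [← natCast_zsmul, smul_smul,
      show ((r ^ a : ℕ) : ℤ) * (u * (m : ℤ)) = u * ((r ^ a * m : ℕ) : ℤ) by push_cast; ring,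
      mul_smul, hy, smul_zero]
  · rw [← add_smul, add_comm, huv, one_smul]

/-- restriction to a subgroup -/
def res {K S : Type} [AddCommGroup K] [AddCommGroup S] (K' : AddSubgroup K) : (K → S) →+ (K' → S) where
  toFun f x := f x
  map_zero' := rfl
  map_add' _ _ := rfl

theorem res_apply {K S : Type} [AddCommGroup K] [AddCommGroup S] (K' : AddSubgroup K) (f : K → S)
    (x : K') : res K' f x = f x := rfl

end MLAux

open MLAux in
theorem ML : S_ML0 → S_ML := by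
  intro h0 r N hr K _ _ D P hD hP hDi hPi H
  obtain ⟨a, m, hm, hcard⟩ := Nat.exists_eq_pow_mul_and_not_dvd (Nat.card_pos (α := K)).ne' r hr.ne_one
  have hmr : m.Coprime r := ((Nat.Prime.coprime_iff_not_dvd hr).2 hm).symm
  have hdec := decomp K r a m hcard (Nat.Coprime.pow_right a hmr)
  let K' : AddSubgroup K := (nsmulAddMonoidHom (α := K) m).ker
  have hK' : ∀ x : K, x ∈ K' ↔ m • x = 0 := fun x => AddMonoidHom.mem_ker
  have hval : ∀ f : K → ZMod (r ^ N), (∀ x : K, (∃ j : ℕ, (r ^ j) • x = 0) → ∀ y, f (y + x) = f y) →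
      ∀ y : K, ∃ y' : K', f y = res K' f y' ∧ ∀ g : K → ZMod (r ^ N),
        (∀ x : K, (∃ j : ℕ, (r ^ j) • x = 0) → ∀ y, g (y + x) = g y) → g y = res K' g y' := by
    intro f hf y
    obtain ⟨y', x, h1, h2, h3⟩ := hdec y
    refine ⟨⟨y', (hK' y').2 h1⟩, ?_, fun g hg => ?_⟩
    · rw [h3]; exact hf x ⟨a, h2⟩ y'
    · rw [h3]; exact hg x ⟨a, h2⟩ y'
  have key : D.map (res K') ≤ P.map (res K') := by
    refine h0 r N m hr hmr K' (fun x => ?_) (D.map (res K')) (P.map (res K')) ?_ ?_ ?_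
    · exact Subtype.ext ((hK' x).1 x.2)
    · rintro _ ⟨f, hf, rfl⟩ z
      exact ⟨fun y => f (y + z), hD f hf z, rfl⟩
    · rintro _ ⟨f, hf, rfl⟩ z
      exact ⟨fun y => f (y + z), hP f hf z, rfl⟩
    · rintro t ht _ ⟨f, hf, rfl⟩ h1
      have h2 : (r ^ (t + 1)) • f = 0 := by
        funext y
        obtain ⟨y', h3, -⟩ := hval f (hDi f hf) y
        rw [Pi.smul_apply, h3]
        exact congrFun h1 y'
      obtain ⟨g, hg, h3⟩ := H t ht f hf h2
      refine ⟨res K' g, ⟨g, hg, rfl⟩, ?_⟩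
      rw [← map_nsmul, ← map_nsmul, h3]
  intro f hf
  obtain ⟨g, hg, hfg⟩ := key ⟨f, hf, rfl⟩
  have : f = g := by
    funext y
    obtain ⟨y', h1, h2⟩ := hval f (hDi f hf) y
    rw [h1, h2 g (hPi g hg), hfg]
  rw [this]
  exact hg

end Pool.Agent.Lib.MP_f44088_fc
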