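import Mathlib
import Pool.Agent.Lib.MP_f44088_al.FB4.Spec2

/-! Project FB4 (MP_f44088_al), module ML0: comparison of two translation invariant groups of functions with values
in `ZMod (r ^ N)`. -/

set_option autoImplicit false

namespace Pool.Agent.Lib.MP_f44088_fc

namespace ML0Aux

/-- elements killed by `r ^ a` are divisible by `r ^ b`, `a + b = N` -/
theorem div {r N a b : ℕ} (hr : 0 < r) (hab : a + b = N) (x : ZMod (r ^ N))
    (hx : (r ^ a) • x = 0) : ∃ y : ZMod (r ^ N), x = (r ^ b) • y := by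
  subst hab
  have : NeZero (r ^ (a + b)) := ⟨(pow_pos hr (a + b)).ne'⟩
  have h1 : ((r ^ a * x.val : ℕ) : ZMod (r ^ (a + b))) = 0 := by
    rw [Nat.cast_mul, ZMod.natCast_zmod_val, ← nsmul_eq_mul]
    exact hx
  rw [ZMod.natCast_eq_zero_iff] at h1
  have h1' : r ^ a * r ^ b ∣ r ^ a * x.val := by
    rw [← pow_add]
    exact h1
  obtain ⟨c, hc⟩ := Nat.dvd_of_mul_dvd_mul_left (pow_pos hr a) h1'
  refine ⟨(c : ZMod (r ^ (a + b))), ?_⟩
  rw [nsmul_eq_mul, ← Nat.cast_mul, ← hc, ZMod.natCast_zmod_val]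

/-- the same for functions -/
theorem divf {K : Type} {r N a b : ℕ} (hr : 0 < r) (hab : a + b = N) (f : K → ZMod (r ^ N))
    (hf : (r ^ a) • f = 0) : ∃ g : K → ZMod (r ^ N), f = (r ^ b) • g := by
  have h : ∀ y, ∃ z : ZMod (r ^ N), f y = (r ^ b) • z := fun y => div hr hab (f y) (congrFun hf y)
  choose g hg using h
  exact ⟨g, funext hg⟩

variable {K S : Type} [AddCommGroup K] [Fintype K] [CommRing S]

theorem conv_add (γ f g : K → S) : conv γ (f + g) = conv γ f + conv γ g := by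
  funext y
  simp only [conv, Pi.add_apply, mul_add, Finset.sum_add_distrib]

theorem conv_nsmul (γ f : K → S) (k : ℕ) : conv γ (k • f) = k • conv γ f := by
  funext y
  simp only [conv, Pi.smul_apply, nsmul_eq_mul, Finset.mul_sum]
  apply Finset.sum_congr rfl
  intro x _
  ring

theorem conv_mem {r N : ℕ} (hr : 0 < r) (D : AddSubgroup (K → ZMod (r ^ N)))
    (hD : ∀ f ∈ D, ∀ z : K, (fun y => f (y + z)) ∈ D) (γ f : K → ZMod (r ^ N)) (hf : f ∈ D) :
    conv γ f ∈ D := by
  have : NeZero (r ^ N) := ⟨(pow_pos hr N).ne'⟩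
  have h : conv γ f = ∑ x : K, (γ x).val • (fun y => f (y + (-x))) := by
    funext y
    rw [Finset.sum_apply]
    unfold conv
    apply Finset.sum_congr rfl
    intro x _
    rw [Pi.smul_apply, nsmul_eq_mul, ZMod.natCast_zmod_val, sub_eq_add_neg]
  rw [h]
  exact D.sum_mem (fun x _ => D.nsmul_mem (hD f hf (-x)) _)

theorem key {r N m : ℕ} (hReg : S_Reg) (hr : r.Prime) (hm : m.Coprime r) (hK : ∀ x : K, m • x = 0)
    (D P : AddSubgroup (K → ZMod (r ^ N))) (hD : ∀ f ∈ D, ∀ z : K, (fun y => f (y + z)) ∈ D)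
    (hP : ∀ f ∈ P, ∀ z : K, (fun y => f (y + z)) ∈ P)
    (h : ∀ t < N, ∀ f ∈ D, (r ^ (t + 1)) • f = 0 → ∃ g ∈ P, (r ^ t) • f = (r ^ t) • g) :
    ∀ t ≤ N, ∀ f ∈ D, (r ^ t) • f = 0 → f ∈ P := by
  intro t
  induction t with
  | zero =>
    intro _ f _ hf
    rw [pow_zero, one_nsmul] at hf
    rw [hf]
    exact P.zero_mem
  | succ t ih =>
    intro ht f hfD hf
    obtain ⟨g, hgP, hfg⟩ := h t (by omega) f hfD hf
    obtain ⟨j, hj⟩ : ∃ j, t + 1 + j = N := ⟨N - (t + 1), by omega⟩
    have hg : (r ^ (t + 1)) • g = 0 := by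
      rw [pow_succ, mul_nsmul, ← hfg, ← mul_nsmul, ← pow_succ, hf]
    obtain ⟨f', hf'⟩ := divf hr.pos hj f hf
    obtain ⟨g', hg'⟩ := divf hr.pos hj g hg
    have hd : (r ^ (t + j)) • (g' - f') = 0 := by
      rw [pow_add, mul_comm, mul_nsmul, nsmul_sub, ← hf', ← hg', nsmul_sub, hfg, sub_self]
    obtain ⟨e, he⟩ := divf hr.pos (show t + j + 1 = N by omega) (g' - f') hd
    rw [pow_one] at he
    obtain ⟨γ, h1, w, hw⟩ := hReg r N m hr hm K hK f'
    obtain ⟨δ, hδ⟩ := h1 e
    have hgf : g' = f' + r • e := by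
      rw [← he]
      abel
    have hp : conv γ g = conv γ f + r • conv δ f := by
      calc conv γ g = (r ^ j) • conv γ (f' + r • e) := by rw [hg', ← hgf, conv_nsmul]
        _ = (r ^ j) • conv γ f' + (r ^ j) • (r • conv δ f') := by
            rw [conv_add, conv_nsmul, hδ, nsmul_add]
        _ = conv γ f + r • conv δ f := by
            rw [hf', conv_nsmul, conv_nsmul, nsmul_left_comm]
    have hpD : conv γ g ∈ D := by
      rw [hp]
      exact D.add_mem (conv_mem hr.pos D hD γ f hfD) (D.nsmul_mem (conv_mem hr.pos D hD δ f hfD) r)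
    have hpP : conv γ g ∈ P := conv_mem hr.pos P hP γ g hgP
    have hz : (r ^ t) • (f - conv γ g) = 0 := by
      have e1 : (r ^ t) • (r • conv δ f) = 0 := by
        rw [← mul_nsmul', ← pow_succ, ← conv_nsmul, hf]
        funext y
        simp [conv]
      have e2 : (r ^ t) • (f - conv γ f) = 0 := by
        have e3 : f - conv γ f = (r ^ j) • (f' - conv γ f') := by
          rw [nsmul_sub, ← conv_nsmul, ← hf']
        have e4 : f' - conv γ f' = -(r • w) := by
          rw [hw]
          abel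
        have e5 : (r ^ N) • w = 0 := by
          funext y
          rw [Pi.smul_apply, nsmul_eq_mul, ZMod.natCast_self, zero_mul]
          rfl
        rw [e3, e4, neg_nsmul, neg_nsmul, ← mul_nsmul', ← mul_nsmul']
        have e6 : r ^ t * r ^ j * r = r ^ N := by
          rw [← hj]
          ring
        rw [e6, e5, neg_zero]
      rw [hp, ← sub_sub, nsmul_sub, e1, e2, sub_zero]
    have hfin := ih (by omega) (f - conv γ g) (D.sub_mem hfD hpD) hz
    have := P.add_mem hfin hpP
    rwa [sub_add_cancel] at this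

end ML0Aux

theorem ML0 : S_Reg → S_ML0 := by
  intro hReg r N m hr hm K _ _ hK D P hD hP h f hf
  have : Fintype K := Fintype.ofFinite K
  refine ML0Aux.key hReg hr hm hK D P hD hP h N le_rfl f hf ?_
  funext y
  rw [Pi.smul_apply, nsmul_eq_mul, ZMod.natCast_self, zero_mul]
  rfl

end Pool.Agent.Lib.MP_f44088_fc
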