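import Pool.Agent.Lib.MP_f44088_al.FB4.Spec
import Pool.Agent.Lib.MP_f44088_al.FB4.Spec2

set_option autoImplicit false

namespace Pool.Agent.Lib.MP_f44088_fc

open Pool.Agent.Lib.MP_f44088_fb (Sat InVar FGrp Cls Mono)

theorem Main : S_Cod → S_GR → S_Sec → S_WC → S_Main := by
  intro hCod hGR hSec hWC n hn G h1 h2
  choose p hp e he hd hc using fun i => hCod n hn (G i).C (h1 i) (h2 i)
  have hlt : ∀ i, (p i, e i) ∈ Finset.product (Finset.range (n + 1)) (Finset.range (n + 1)) := by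
    intro i
    have hq : (p i).Prime := Nat.prime_of_mem_primeFactors (hp i)
    have hle : p i ^ e i ≤ n := Nat.le_of_dvd hn (hd i)
    have h1 : p i ≤ p i ^ e i := Nat.le_self_pow (he i).ne' _
    have h2 : e i < p i ^ e i := Nat.lt_pow_self hq.one_lt
    simp only [Finset.product_eq_sprod, Finset.mem_product, Finset.mem_range]
    omega
  obtain ⟨s, hs, a, ha⟩ := exists_const_subseq
    (fun i => (⟨(p i, e i), hlt i⟩ :
      {x // x ∈ Finset.product (Finset.range (n + 1)) (Finset.range (n + 1))}))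
  have hpa : ∀ i, p (s i) = a.1.1 := fun i => congrArg (fun x => x.1.1) (ha i)
  have hea : ∀ i, e (s i) = a.1.2 := fun i => congrArg (fun x => x.1.2) (ha i)
  have hq : a.1.1.Prime := by
    rw [← hpa 0]
    exact Nat.prime_of_mem_primeFactors (hp _)
  have he0 : 0 < a.1.2 := by
    rw [← hea 0]
    exact he _
  haveI : Fact a.1.1.Prime := ⟨hq⟩
  obtain ⟨R, hR, ⟨gr⟩⟩ := hGR a.1.1 a.1.2 hq he0 (AlgebraicClosure (ZMod a.1.1))
  have hcc : ∀ i, ∃ c : Code n (AlgebraicClosure (ZMod a.1.1)),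
      InVar (G (s i)).C (GA gr.tau c.A c.D) ∧ InVar (GA gr.tau c.A c.D) (G (s i)).C := by
    intro i
    have h := hc (s i)
    rw [hpa i, hea i] at h
    exact h (AlgebraicClosure (ZMod a.1.1)) R gr
  choose c hc1 hc2 using hcc
  obtain ⟨i, j, hij, hb⟩ := hWC n hn a.1.1 hq (AlgebraicClosure (ZMod a.1.1)) c
  refine ⟨s i, s j, hs hij, ?_⟩
  exact (hc1 i).trans ((hSec _ _ _ _ _ _ _ _ _ (c j).ok.tr hb).trans (hc2 j))

end Pool.Agent.Lib.MP_f44088_fc
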