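import Mathlib
import Pool.Agent.Lib.MP_f44088_al.FB4.Spec2

set_option autoImplicit false

/-! Project FB4: decomposition of a function with values in the `n`-th roots of unity. -/

namespace Pool.Agent.Lib.MP_f44088_fc

namespace PowAux

theorem exists_idem (n r : ℕ) (hn : 0 < n) (hr : r.Prime) :
    ∃ m : ℕ, m ≡ 1 [MOD r ^ n.factorization r] ∧ m ≡ 0 [MOD n / r ^ n.factorization r] := by
  have hco : Nat.Coprime (r ^ n.factorization r) (n / r ^ n.factorization r) :=
    Nat.Coprime.pow_left _ (Nat.coprime_ordCompl hr hn.ne')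
  obtain ⟨m, h1, h2⟩ := Nat.chineseRemainder hco 1 0
  exact ⟨m, h1, h2⟩

theorem prime_pow_dvd (n q r : ℕ) (hq : q.Prime) (hr : r.Prime) (hqr : q ≠ r) :
    q ^ n.factorization q ∣ n / r ^ n.factorization r := by
  have h1 : q ^ n.factorization q ∣ r ^ n.factorization r * (n / r ^ n.factorization r) := by
    rw [Nat.ordProj_mul_ordCompl_eq_self n r]
    exact Nat.ordProj_dvd n q
  refine Nat.Coprime.dvd_of_dvd_mul_left ?_ h1
  exact Nat.Coprime.pow _ _ ((Nat.coprime_primes hq hr).2 hqr)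

theorem sum_modEq (n : ℕ) (hn : 0 < n) (m : ℕ → ℕ)
    (hm : ∀ r ∈ n.primeFactors, m r ≡ 1 [MOD r ^ n.factorization r] ∧
      m r ≡ 0 [MOD n / r ^ n.factorization r]) :
    ∑ r ∈ n.primeFactors, m r ≡ 1 [MOD n] := by
  rw [Nat.ModEq.comm, Nat.modEq_iff_dvd]
  have hprod : (n : ℤ) = ∏ q ∈ n.primeFactors, ((q : ℤ) ^ n.factorization q) := by
    have h := Nat.prod_factorization_pow_eq_self hn.ne'
    rw [Finsupp.prod, Nat.support_factorization] at h
    conv_lhs => rw [← h]
    push_cast
    rfl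
  rw [hprod]
  refine Finset.prod_dvd_of_coprime ?_ ?_
  · intro a ha b hb hab
    have ha' : a.Prime := Nat.prime_of_mem_primeFactors ha
    have hb' : b.Prime := Nat.prime_of_mem_primeFactors hb
    have h := Nat.Coprime.pow (n.factorization a) (n.factorization b)
      ((Nat.coprime_primes ha' hb').2 hab)
    have h' := Nat.isCoprime_iff_coprime.2 h
    simpa [Function.onFun] using h'
  · intro q hq
    have hq' : q.Prime := Nat.prime_of_mem_primeFactors hq
    have h1 : 1 ≡ ∑ r ∈ n.primeFactors, m r [MOD q ^ n.factorization q] := by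
      rw [← Finset.add_sum_erase _ _ hq]
      have h2 : ∑ r ∈ n.primeFactors.erase q, m r ≡ 0 [MOD q ^ n.factorization q] := by
        rw [Nat.modEq_zero_iff_dvd]
        refine Finset.dvd_sum fun r hr => ?_
        have hr0 := Finset.mem_of_mem_erase hr
        have hr' : r.Prime := Nat.prime_of_mem_primeFactors hr0
        exact (prime_pow_dvd n q r hq' hr' (Finset.ne_of_mem_erase hr).symm).trans
          ((Nat.modEq_zero_iff_dvd).1 (hm r hr0).2)
      simpa using ((hm q hq).1.add h2).symm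
    have h3 := (Nat.modEq_iff_dvd).1 h1
    exact_mod_cast h3

theorem pow_eq_one_char {k : Type} [Field k] {p N : ℕ} (hp : p.Prime) [CharP k p] (z : kˣ)
    (h : z ^ (p ^ N) = 1) : z = 1 := by
  have : Fact p.Prime := ⟨hp⟩
  have h1 : ((z : k) - 1) ^ (p ^ N) = 0 := by
    rw [sub_pow_char_pow, one_pow, ← Units.val_pow_eq_pow_val, h, Units.val_one, sub_self]
  have h2 : (z : k) - 1 = 0 := (pow_eq_zero_iff (pow_pos hp.pos N).ne').1 h1
  exact Units.ext (sub_eq_zero.1 h2)

end PowAux

open PowAux in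
theorem Pow : S_Pow := by
  intro n p hn hp k _ _ ex hex K _ A f hf hfn
  have hidem : ∀ r : ℕ, ∃ m : ℕ, r.Prime → m ≡ 1 [MOD r ^ n.factorization r] ∧
      m ≡ 0 [MOD n / r ^ n.factorization r] := by
    intro r
    by_cases hr : r.Prime
    · obtain ⟨m, hm⟩ := exists_idem n r hn hr
      exact ⟨m, fun _ => hm⟩
    · exact ⟨0, fun h => absurd h hr⟩
  choose m hm using hidem
  have hpow : ∀ r : ℕ, r.Prime → ∀ y, (f y ^ m r) ^ (r ^ n.factorization r) = 1 := by
    intro r hr y
    obtain ⟨c, hc⟩ := (Nat.modEq_zero_iff_dvd).1 (hm r hr).2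
    rw [← pow_mul, hc, mul_comm _ (r ^ n.factorization r), ← mul_assoc,
      Nat.ordProj_mul_ordCompl_eq_self n r, pow_mul, hfn, one_pow]
  have hsum : ∀ y, ∏ r ∈ n.primeFactors.erase p, f y ^ m r = f y := by
    intro y
    have h0 : f y ^ m p = 1 := pow_eq_one_char hp _ (hpow p hp y)
    rw [Finset.prod_erase (f := fun r => f y ^ m r) n.primeFactors h0, Finset.prod_pow_eq_pow_sum]
    have h1 := sum_modEq n hn m fun r hr => hm r (Nat.prime_of_mem_primeFactors hr)
    have h2 : ∑ r ∈ n.primeFactors, m r ≡ 1 [MOD orderOf (f y)] :=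
      h1.of_dvd (orderOf_dvd_of_pow_eq_one (hfn y))
    have h3 := pow_eq_pow_iff_modEq.2 h2
    rw [h3, pow_one]
  have hex' : ∀ r : ℕ, ∀ y : K, ∃ t : ZMod (r ^ n.factorization r),
      r ∈ n.primeFactors.erase p → Additive.toMul (ex r t) = f y ^ m r := by
    intro r y
    by_cases hr : r ∈ n.primeFactors.erase p
    · obtain ⟨t, ht⟩ := (hex r hr).2 (f y ^ m r)
        (hpow r (Nat.prime_of_mem_primeFactors (Finset.mem_of_mem_erase hr)) y)
      exact ⟨t, fun _ => ht⟩
    · exact ⟨0, fun h => absurd h hr⟩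
  choose g hg using hex'
  refine ⟨g, fun r hr => ?_, fun y => ?_⟩
  · show (fun y => Additive.toMul (ex r (g r y))) ∈ A
    have h1 : (fun y => Additive.toMul (ex r (g r y))) = f ^ m r := by
      funext y
      rw [hg r y hr, Pi.pow_apply]
    rw [h1]
    exact A.pow_mem hf _
  · rw [Finset.prod_congr rfl fun r hr => hg r y hr, hsum]

end Pool.Agent.Lib.MP_f44088_fc
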