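import Pool.Agent.Lib.MP_f44088_al.FB4.Spec

/-! Project FB4 (MP_f44088_al): decomposition into eigenvectors (statement `S_Prj`). -/

set_option autoImplicit false

namespace Pool.Agent.Lib.MP_f44088_fc

namespace PrjAux

/-- elements with nonzero residue are units -/
theorem unit_of_res {p e : ℕ} {k R : Type} [Field k] [CommRing R] (gr : GRing p e k R) (x : R)
    (hx : gr.res x ≠ 0) : IsUnit x := by
  obtain ⟨y, hy⟩ := gr.ker (x - (gr.tau (Units.mk0 (gr.res x) hx) : R))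
    (by rw [map_sub, gr.res_tau]; simp)
  have hx' : x = (gr.tau (Units.mk0 (gr.res x) hx) : R) + (p : R) * y := by rw [← hy]; ring
  rw [hx']
  have hn : IsNilpotent ((p : R) * y) := ⟨e, by rw [mul_pow, gr.nil, zero_mul]⟩
  exact hn.isUnit_add_left_of_commute (Units.isUnit _) (Commute.all _ _)

/-- the sum over the characters vanishes away from the identity -/
theorem sum_eq_zero {p e : ℕ} {k R : Type} [Field k] [CommRing R] (gr : GRing p e k R)
    (A : Type) [CommGroup A] [Fintype (A →* kˣ)] (a : A) (χ0 : A →* kˣ) (h0 : χ0 a ≠ 1) :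
    ∑ χ : A →* kˣ, ((gr.tau (χ a)⁻¹ : Rˣ) : R) = 0 := by
  have h1 : ((gr.tau (χ0 a)⁻¹ : Rˣ) : R) * ∑ χ : A →* kˣ, ((gr.tau (χ a)⁻¹ : Rˣ) : R) =
      ∑ χ : A →* kˣ, ((gr.tau (χ a)⁻¹ : Rˣ) : R) := by
    rw [Finset.mul_sum]
    refine Fintype.sum_equiv (Equiv.mulLeft χ0) _ _ ?_
    intro χ
    rw [← Units.val_mul, ← map_mul]
    congr 2
    simp [mul_comm]
  have h2 : (((gr.tau (χ0 a)⁻¹ : Rˣ) : R) - 1) * ∑ χ : A →* kˣ, ((gr.tau (χ a)⁻¹ : Rˣ) : R) = 0 := by
    rw [sub_mul, h1, one_mul, sub_self]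
  have h3 : IsUnit (((gr.tau (χ0 a)⁻¹ : Rˣ) : R) - 1) := by
    apply unit_of_res gr
    rw [map_sub, gr.res_tau, map_one, sub_ne_zero]
    intro h
    apply h0
    have h4 : (χ0 a)⁻¹ = 1 := Units.ext (by simpa using h)
    exact inv_eq_one.mp h4
  exact (h3.mul_right_eq_zero).mp h2

end PrjAux

theorem Prj : S_Prj := by
  intro p e hp he k _ _ _ R _ gr A _ _ hcop M _ _ ρ L f hf
  classical
  have hNk : ((Nat.card A : ℕ) : k) ≠ 0 := by
    intro h
    rw [CharP.cast_eq_zero_iff k p] at h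
    have h1 : p ∣ 1 := by
      have := Nat.dvd_gcd h (dvd_refl p)
      rwa [hcop.gcd_eq_one] at this
    exact hp.one_lt.ne' (Nat.dvd_one.mp h1)
  have hEk : ((Monoid.exponent A : ℕ) : k) ≠ 0 := by
    intro h
    apply hNk
    obtain ⟨c, hc⟩ := Group.exponent_dvd_nat_card (G := A)
    rw [hc, Nat.cast_mul, h, zero_mul]
  haveI : NeZero ((Monoid.exponent A : ℕ) : k) := ⟨hEk⟩
  haveI hrt : HasEnoughRootsOfUnity k (Monoid.exponent A) := inferInstance
  obtain ⟨eqv⟩ := CommGroup.monoidHom_mulEquiv_of_hasEnoughRootsOfUnity A k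
  haveI : Finite (A →* kˣ) := Finite.of_equiv A eqv.symm.toEquiv
  haveI : Fintype (A →* kˣ) := Fintype.ofFinite _
  haveI : Fintype A := Fintype.ofFinite _
  have hcard : Fintype.card (A →* kˣ) = Nat.card A := by
    rw [← Nat.card_eq_fintype_card]
    exact CommGroup.card_monoidHom_of_hasEnoughRootsOfUnity A k
  have hNu : IsUnit ((Nat.card A : ℕ) : R) := by
    apply PrjAux.unit_of_res gr
    rw [map_natCast]
    exact hNk
  -- the components
  let g : (A →* kˣ) → M := fun χ => ∑ a : A, ((gr.tau (χ a)⁻¹ : Rˣ) : R) • ρ a f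
  have hg : ∀ χ : A →* kˣ, ∀ b, ρ b (g χ) = (gr.tau (χ b) : R) • g χ := by
    intro χ b
    show ρ b (∑ a : A, ((gr.tau (χ a)⁻¹ : Rˣ) : R) • ρ a f) = (gr.tau (χ b) : R) •
      ∑ a : A, ((gr.tau (χ a)⁻¹ : Rˣ) : R) • ρ a f
    rw [map_sum, Finset.smul_sum]
    refine Fintype.sum_equiv (Equiv.mulLeft b) _ _ ?_
    intro a
    rw [map_smul, smul_smul, ← Units.val_mul, ← map_mul]
    have h1 : χ b * (χ ((Equiv.mulLeft b) a))⁻¹ = (χ a)⁻¹ := by
      simp [mul_inv]
    rw [h1]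
    congr 1
    show ρ b (ρ a f) = ρ (b * a) f
    rw [map_mul]
    rfl
  have hsum : ∑ χ : A →* kˣ, g χ = ((Nat.card A : ℕ) : R) • f := by
    show ∑ χ : A →* kˣ, ∑ a : A, ((gr.tau (χ a)⁻¹ : Rˣ) : R) • ρ a f = ((Nat.card A : ℕ) : R) • f
    rw [Finset.sum_comm]
    rw [Finset.sum_eq_single (1 : A)]
    · rw [← Finset.sum_smul]
      have h1 : ∑ χ : A →* kˣ, ((gr.tau (χ 1)⁻¹ : Rˣ) : R) = ((Nat.card A : ℕ) : R) := by
        rw [← hcard]
        simp
      rw [h1, map_one]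
      rfl
    · intro a _ ha
      rw [← Finset.sum_smul]
      obtain ⟨χ0, h0⟩ := CommGroup.exists_apply_ne_one_of_hasEnoughRootsOfUnity A k ha
      rw [PrjAux.sum_eq_zero gr A a χ0 h0, zero_smul]
    · intro h
      exact absurd (Finset.mem_univ _) h
  by_contra hcon
  push Not at hcon
  apply hf
  have h1 : L (((Nat.card A : ℕ) : R) • f) = 0 := by
    rw [← hsum, map_sum]
    apply Finset.sum_eq_zero
    intro χ _
    exact hcon χ (g χ) (hg χ)
  rw [map_smul, smul_eq_mul] at h1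
  exact (hNu.mul_right_eq_zero).mp h1

end Pool.Agent.Lib.MP_f44088_fc
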