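import Pool.Agent.Lib.MP_f44088_al.FB4.Spec2

/-!
Project FB4, module Pur: finitely many elements lie in the span of elements which are independent
modulo `q`.
-/

set_option autoImplicit false

namespace Pool.Agent.Lib.MP_f44088_fc

namespace PurAux

/-- `y` is an integral combination of the `b s` -/
def Cb {X : Type} [AddCommGroup X] {r : ℕ} (b : Fin r → X) (y : X) : Prop :=
  ∃ c : Fin r → ℤ, y = ∑ s, c s • b s

theorem Cb.zero {X : Type} [AddCommGroup X] {r : ℕ} (b : Fin r → X) : Cb b 0 :=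
  ⟨fun _ => 0, by simp⟩

theorem Cb.add {X : Type} [AddCommGroup X] {r : ℕ} {b : Fin r → X} {y z : X} (hy : Cb b y)
    (hz : Cb b z) : Cb b (y + z) := by
  obtain ⟨c, rfl⟩ := hy
  obtain ⟨d, rfl⟩ := hz
  refine ⟨fun s => c s + d s, ?_⟩
  rw [← Finset.sum_add_distrib]
  exact Finset.sum_congr rfl fun s _ => (add_smul _ _ _).symm

theorem Cb.nsmul {X : Type} [AddCommGroup X] {r : ℕ} {b : Fin r → X} {y : X} (hy : Cb b y)
    (n : ℕ) : Cb b (n • y) := by
  obtain ⟨c, rfl⟩ := hy
  refine ⟨fun s => (n : ℤ) * c s, ?_⟩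
  rw [Finset.smul_sum]
  refine Finset.sum_congr rfl fun s _ => ?_
  rw [mul_smul, natCast_zsmul]

theorem Cb.cons {X : Type} [AddCommGroup X] {r : ℕ} {b : Fin r → X} {y : X} (hy : Cb b y)
    (w : X) : Cb (Fin.cons w b : Fin (r + 1) → X) y := by
  obtain ⟨c, rfl⟩ := hy
  refine ⟨Fin.cons 0 c, ?_⟩
  rw [Fin.sum_univ_succ]
  simp only [Fin.cons_zero, Fin.cons_succ, zero_smul, zero_add]

theorem Cb.self {X : Type} [AddCommGroup X] {r : ℕ} (b : Fin r → X) (w : X) :
    Cb (Fin.cons w b : Fin (r + 1) → X) w := by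
  refine ⟨Fin.cons 1 fun _ => 0, ?_⟩
  rw [Fin.sum_univ_succ]
  simp only [Fin.cons_zero, Fin.cons_succ, zero_smul, one_smul, Finset.sum_const_zero, add_zero]

theorem lift_span (q : ℕ) [Fact q.Prime] {X V : Type} [AddCommGroup X] [AddCommGroup V]
    [Module (ZMod q) V] (red : X →+ V) {r : ℕ} (b : Fin r → X) (z : V)
    (hz : z ∈ Submodule.span (ZMod q) (Set.range fun s => red (b s))) :
    ∃ y, Cb b y ∧ red y = z := by
  rw [Submodule.mem_span_range_iff_exists_fun] at hz
  obtain ⟨a, ha⟩ := hz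
  refine ⟨∑ s, ((a s).val : ℤ) • b s, ⟨_, rfl⟩, ?_⟩
  rw [map_sum, ← ha]
  refine Finset.sum_congr rfl fun s _ => ?_
  rw [map_zsmul, ← Int.cast_smul_eq_zsmul (ZMod q), Int.cast_natCast, ZMod.natCast_zmod_val]

theorem step (q h : ℕ) [Fact q.Prime] {X V : Type} [AddCommGroup X] [AddCommGroup V]
    [Module (ZMod q) V] (red : X →+ V) (hker : ∀ x, red x = 0 → ∃ y, x = q • y)
    (hX : ∀ x : X, (q ^ h) • x = 0) {r : ℕ} (b : Fin r → X)
    (hb : LinearIndependent (ZMod q) fun s => red (b s)) (x : X) :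
    ∃ (r' : ℕ) (b' : Fin r' → X), LinearIndependent (ZMod q) (fun s => red (b' s)) ∧
      (∀ y, Cb b y → Cb b' y) ∧ Cb b' x := by
  by_cases hP : ∃ t : ℕ, (∃ β w, Cb b β ∧ x = β + (q ^ t) • w) ∧
      ¬ ∃ β w, Cb b β ∧ x = β + (q ^ (t + 1)) • w
  · obtain ⟨t, ⟨β, w, hβ, hx⟩, hn⟩ := hP
    refine ⟨r + 1, Fin.cons w b, ?_, fun y hy => hy.cons w, ?_⟩
    · have h1 : (fun s => red ((Fin.cons w b : Fin (r + 1) → X) s)) =
          (Fin.cons (red w) fun s => red (b s) : Fin (r + 1) → V) := by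
        funext s
        refine Fin.cases ?_ (fun i => ?_) s
        · rw [Fin.cons_zero, Fin.cons_zero]
        · rw [Fin.cons_succ, Fin.cons_succ]
      rw [h1]
      refine linearIndependent_finCons.2 ⟨hb, fun hz => hn ?_⟩
      obtain ⟨y, hy, hyw⟩ := lift_span q red b _ hz
      obtain ⟨y', hy'⟩ := hker (w - y) (by rw [map_sub, hyw, sub_self])
      refine ⟨β + (q ^ t) • y, y', hβ.add (hy.nsmul _), ?_⟩
      have h2 : w = y + q • y' := by rw [← hy']; abel
      rw [hx]
      nth_rewrite 1 [h2]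
      rw [smul_add, smul_smul, ← pow_succ, add_assoc]
    · rw [hx]
      exact (hβ.cons w).add ((Cb.self b w).nsmul _)
  · have h1 : ∀ t : ℕ, ∃ β w, Cb b β ∧ x = β + (q ^ t) • w := by
      intro t
      induction t with
      | zero => exact ⟨0, x, Cb.zero b, by rw [pow_zero, one_smul, zero_add]⟩
      | succ t ih =>
        by_contra hn
        exact hP ⟨t, ih, hn⟩
    obtain ⟨β, w, hβ, hx⟩ := h1 h
    refine ⟨r, b, hb, fun y hy => hy, ?_⟩
    rw [hx, hX, add_zero]
    exact hβ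

end PurAux

open PurAux in
theorem Pur : S_Pur := by
  intro q h _ X V _ _ _ red hker hX T _ v
  classical
  have key : ∀ S : Finset T, ∃ (r : ℕ) (b : Fin r → X),
      LinearIndependent (ZMod q) (fun s => red (b s)) ∧ ∀ t ∈ S, Cb b (v t) := by
    intro S
    induction S using Finset.induction_on with
    | empty =>
      refine ⟨0, Fin.elim0, linearIndependent_empty_type, fun t ht => ?_⟩
      exact absurd ht (Finset.notMem_empty t)
    | insert x S hx ih =>
      obtain ⟨r, b, hb, hS⟩ := ih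
      obtain ⟨r', b', hb', h1, h2⟩ := step q h red hker hX b hb (v x)
      refine ⟨r', b', hb', fun t ht => ?_⟩
      rcases Finset.mem_insert.1 ht with rfl | ht
      · exact h2
      · exact h1 _ (hS t ht)
  have := Fintype.ofFinite T
  obtain ⟨r, b, hb, hS⟩ := key Finset.univ
  choose c hc using fun t => hS t (Finset.mem_univ t)
  exact ⟨r, b, c, hb, hc⟩

end Pool.Agent.Lib.MP_f44088_fc
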