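import Mathlib
import Pool.Agent.Lib.MP_f44088_al.FB4.Spec

/-! Project FB4 (MP_f44088_al), module Quo: the quotient of `D` by the elements which commute with `B`. -/

set_option autoImplicit false

namespace Pool.Agent.Lib.MP_f44088_fc

/-- (Quo) The quotient of `D`. -/
theorem Quo : S_Quo := by
  classical
  intro G _ _ B D hD
  let _inst : CommGroup D := { (inferInstance : Group D) with
    mul_comm := fun x y => Subtype.ext (hD x.1 x.2 y.1 y.2) }
  let D0 : Subgroup D := (Subgroup.centralizer (B : Set G)).subgroupOf D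
  have hmem : ∀ z : D, z ∈ D0 ↔ ∀ b ∈ B, (z : G) * b = b * z := by
    intro z
    rw [Subgroup.mem_subgroupOf, Subgroup.mem_centralizer_iff]
    exact ⟨fun h b hb => (h b hb).symm, fun h b hb => (h b hb).symm⟩
  refine ⟨Additive (D ⧸ D0), inferInstance, inferInstance,
    fun g => if h : g ∈ D then Additive.ofMul (QuotientGroup.mk (⟨g, h⟩ : D)) else 0,
    fun x => ((Quotient.out (Additive.toMul x) : D) : G), ?_, ?_, ?_⟩
  · intro y hy y' hy'
    beta_reduce
    rw [dif_pos hy, dif_pos hy', dif_pos (D.mul_mem hy hy')]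
    rfl
  · intro z hz
    beta_reduce
    rw [dif_pos hz, ← hmem ⟨z, hz⟩]
    constructor
    · intro h
      have h' : (QuotientGroup.mk (⟨z, hz⟩ : D) : D ⧸ D0) = 1 := h
      exact (QuotientGroup.eq_one_iff _).mp h'
    · intro h
      have h' : (QuotientGroup.mk (⟨z, hz⟩ : D) : D ⧸ D0) = 1 := (QuotientGroup.eq_one_iff _).mpr h
      exact h'
  · intro x
    refine ⟨(Quotient.out (Additive.toMul x) : D).2, ?_⟩
    beta_reduce
    rw [dif_pos (Quotient.out (Additive.toMul x) : D).2]
    have h := Quotient.out_eq (Additive.toMul x)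
    exact h

end Pool.Agent.Lib.MP_f44088_fc
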