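import Mathlib
import Pool.Agent.Lib.MP_f44088_al.FB4.Spec

/-! Project FB4 (MP_f44088_al): the code of `G`. -/

set_option autoImplicit false

namespace Pool.Agent.Lib.MP_f44088_fc

open Pool.Agent.Lib.MP_f44088_fb (Sat InVar FGrp Cls Mono Rich IsChar Lam)

namespace RepAux

theorem lift_map {H₁ H₂ : Type} [Group H₁] [Group H₂] (f : H₁ →* H₂) (u : ℕ → H₁)
    (w : FreeGroup ℕ) : FreeGroup.lift (fun i => f (u i)) w = f (FreeGroup.lift u w) := by
  have h : (FreeGroup.lift (fun i => f (u i)) : FreeGroup ℕ →* H₂) = f.comp (FreeGroup.lift u) := by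
    apply FreeGroup.ext_hom
    intro i
    simp
  rw [h]
  rfl

variable {n p e : ℕ} {G : Type} [Group G] {F B D : Subgroup G} {k R : Type} [Field k] [CommRing R]
  {gr : GRing p e k R} {ℓ : G → R} {χ ω : G → kˣ}

theorem tau_inj (gr : GRing p e k R) {a b : kˣ} (h : gr.tau a = gr.tau b) : a = b := by
  apply Units.ext
  rw [← gr.res_tau a, ← gr.res_tau b, h]

theorem chi_one (hE : Eigen gr G F B D ℓ χ ω) : χ 1 = 1 := by
  have h := hE.mulB 1 B.one_mem 1 B.one_mem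
  rw [mul_one] at h
  simpa using h

theorem chi_pow (hE : Eigen gr G F B D ℓ χ ω) {a : G} (ha : a ∈ B) (m : ℕ) :
    χ (a ^ m) = χ a ^ m := by
  induction m with
  | zero => rw [pow_zero, pow_zero, chi_one hE]
  | succ m ih => rw [pow_succ, pow_succ, hE.mulB _ (B.pow_mem ha m) _ ha, ih]

theorem om_one (hE : Eigen gr G F B D ℓ χ ω) : ω 1 = 1 := by
  have h := hE.mulD 1 D.one_mem 1 D.one_mem
  rw [mul_one] at h
  simpa using h

theorem om_pow (hE : Eigen gr G F B D ℓ χ ω) {a : G} (ha : a ∈ D) (m : ℕ) :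
    ω (a ^ m) = ω a ^ m := by
  induction m with
  | zero => rw [pow_zero, pow_zero, om_one hE]
  | succ m ih => rw [pow_succ, pow_succ, hE.mulD _ (D.pow_mem ha m) _ ha, ih]

theorem om_inv (hE : Eigen gr G F B D ℓ χ ω) {a : G} (ha : a ∈ D) : ω a⁻¹ = (ω a)⁻¹ := by
  have h := hE.mulD _ (D.inv_mem ha) _ ha
  rw [inv_mul_cancel, om_one hE] at h
  exact eq_inv_of_mul_eq_one_left h.symm

theorem ell_one (hE : Eigen gr G F B D ℓ χ ω) : ℓ 1 = 0 := by
  have h := hE.add 1 F.one_mem 1 F.one_mem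
  rw [mul_one] at h
  simpa using h

/-- the functions attached to the elements of `B` -/
def hat {K : Type} (χ : G → kˣ) (s : K → G) (b : G) (κ : K) : kˣ := χ (s κ * b * (s κ)⁻¹)

/-- the functions attached to the elements of `F` -/
def Th {K : Type} (gr : GRing p e k R) (ℓ : G → R) (ω : G → kˣ) (s : K → G) (x : G) (κ : K) : R :=
  (gr.tau (ω (s κ))⁻¹ : Rˣ) * ℓ (s κ * x * (s κ)⁻¹)

/-- the quotient of `D` and a section -/
structure Dat {K : Type} [AddCommGroup K] (B D : Subgroup G) (π : G → K) (s : K → G) : Prop where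
  add : ∀ y ∈ D, ∀ y' ∈ D, π (y * y') = π y + π y'
  zer : ∀ z ∈ D, (π z = 0 ↔ ∀ b ∈ B, z * b = b * z)
  sec : ∀ x : K, s x ∈ D ∧ π (s x) = x

section
variable {K : Type} [AddCommGroup K] {π : G → K} {s : K → G}

theorem pi_one (hK : Dat B D π s) : π 1 = 0 := by
  have h := hK.add 1 D.one_mem 1 D.one_mem
  rw [mul_one] at h
  simpa using h

theorem pi_pow (hK : Dat B D π s) {y : G} (hy : y ∈ D) (m : ℕ) : π (y ^ m) = m • π y := by
  induction m with
  | zero => rw [pow_zero, zero_smul, pi_one hK]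
  | succ m ih => rw [pow_succ, hK.add _ (D.pow_mem hy m) _ hy, ih, succ_nsmul]

theorem pi_inv (hK : Dat B D π s) {y : G} (hy : y ∈ D) : π y⁻¹ = -π y := by
  have h := hK.add _ (D.inv_mem hy) _ hy
  rw [inv_mul_cancel, pi_one hK] at h
  exact eq_neg_of_add_eq_zero_left h.symm

theorem conj_eq (hK : Dat B D π s) {y y' b : G} (hy : y ∈ D) (hy' : y' ∈ D) (h : π y = π y')
    (hb : b ∈ B) : y * b * y⁻¹ = y' * b * y'⁻¹ := by
  have hz : y'⁻¹ * y ∈ D := D.mul_mem (D.inv_mem hy') hy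
  have h0 : π (y'⁻¹ * y) = 0 := by
    rw [hK.add _ (D.inv_mem hy') _ hy, pi_inv hK hy', h, neg_add_cancel]
  have h1 := (hK.zer _ hz).mp h0 b hb
  have h2 : y * b = y' * (b * (y'⁻¹ * y)) := by
    rw [← h1]
    group
  rw [h2]
  group

theorem hat_tr (hK : Dat B D π s) {y b : G} (hy : y ∈ D) (hb : b ∈ B) (κ : K) :
    hat χ s b (κ + π y) = hat χ s (y * b * y⁻¹) κ := by
  have h := conj_eq hK (hK.sec (κ + π y)).1 (D.mul_mem (hK.sec κ).1 hy) (by
    rw [(hK.sec (κ + π y)).2, hK.add _ (hK.sec κ).1 _ hy, (hK.sec κ).2]) hb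
  unfold hat
  rw [h]
  congr 1
  group

variable (hS : Setup n p e G F B D) (hE : Eigen gr G F B D ℓ χ ω) (hK : Dat B D π s)

include hS hE hK in
theorem hat_mul {a b : G} (ha : a ∈ B) (hb : b ∈ B) :
    hat χ s (a * b) = hat χ s a * hat χ s b := by
  funext y
  have e : s y * (a * b) * (s y)⁻¹ = (s y * a * (s y)⁻¹) * (s y * b * (s y)⁻¹) := by group
  change χ _ = χ _ * χ _
  rw [e, hE.mulB _ (hS.nor _ (hK.sec y).1 a ha) _ (hS.nor _ (hK.sec y).1 b hb)]

omit [AddCommGroup K] in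
include hE in
theorem hat_one : hat χ s 1 = 1 := by
  funext y
  change χ _ = 1
  rw [mul_one, mul_inv_cancel, chi_one hE]

include hS hE hK in
theorem hat_inv {a : G} (ha : a ∈ B) : hat χ s a⁻¹ = (hat χ s a)⁻¹ := by
  have h := hat_mul hS hE hK (B.inv_mem ha) ha
  rw [inv_mul_cancel, hat_one hE] at h
  exact eq_inv_of_mul_eq_one_left h.symm

include hS hE hK in
theorem hat_pow {a : G} (ha : a ∈ B) (m : ℕ) : hat χ s (a ^ m) = (hat χ s a) ^ m := by
  induction m with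
  | zero => rw [pow_zero, pow_zero, hat_one hE]
  | succ m ih => rw [pow_succ, pow_succ, hat_mul hS hE hK (B.pow_mem ha m) ha, ih]

/-- the group of the functions `hat b` -/
def HA : Subgroup (K → kˣ) where
  carrier := {f | ∃ a ∈ B, f = hat χ s a}
  mul_mem' := by
    rintro _ _ ⟨a, ha, rfl⟩ ⟨b, hb, rfl⟩
    exact ⟨a * b, B.mul_mem ha hb, (hat_mul hS hE hK ha hb).symm⟩
  one_mem' := ⟨1, B.one_mem, (hat_one hE).symm⟩
  inv_mem' := by
    rintro _ ⟨a, ha, rfl⟩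
    exact ⟨a⁻¹, B.inv_mem ha, (hat_inv hS hE hK ha).symm⟩

/-- the group of the pairs `(ω y, π y)` -/
def HD : Subgroup (kˣ × Multiplicative K) where
  carrier := {u | ∃ y ∈ D, u = (ω y, Multiplicative.ofAdd (π y))}
  mul_mem' := by
    rintro _ _ ⟨a, ha, rfl⟩ ⟨b, hb, rfl⟩
    refine ⟨a * b, D.mul_mem ha hb, ?_⟩
    rw [hE.mulD a ha b hb, hK.add a ha b hb]
    rfl
  one_mem' := ⟨1, D.one_mem, by rw [om_one hE, pi_one hK]; rfl⟩
  inv_mem' := by
    rintro _ ⟨a, ha, rfl⟩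
    refine ⟨a⁻¹, D.inv_mem ha, ?_⟩
    rw [om_inv hE ha, pi_inv hK ha]
    rfl

end

/-- an `r`-element of `D` commutes with the `r`-elements of `B` -/
theorem comm_of (hS : Setup n p e G F B D) {r : ℕ} (hr : r.Prime) {a x : G} (ha : a ∈ B)
    (har : ∃ j : ℕ, a ^ (r ^ j) = 1) (hx : x ∈ D) (hxr : ∃ j : ℕ, x ^ (r ^ j) = 1) :
    a * x = x * a := by
  obtain ⟨v, hxv⟩ := hxr
  have hconj : ∀ (i : ℕ) (b : G), b ∈ B → (∃ j : ℕ, b ^ (r ^ j) = 1) → x ^ i * b * (x ^ i)⁻¹ ∈ B ∧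
      ∃ j : ℕ, (x ^ i * b * (x ^ i)⁻¹) ^ (r ^ j) = 1 := by
    rintro i b hb ⟨j, hbr⟩
    refine ⟨hS.nor _ (D.pow_mem hx i) b hb, j, ?_⟩
    rw [conj_pow, hbr, mul_one, mul_inv_cancel]
  have hAr : ∀ b c : G, b ∈ B → (∃ j : ℕ, b ^ (r ^ j) = 1) → c ∈ B → (∃ j : ℕ, c ^ (r ^ j) = 1) →
      ∃ j : ℕ, (b * c) ^ (r ^ j) = 1 := by
    rintro b c hb ⟨i, hbr⟩ hc ⟨j, hcr⟩
    refine ⟨i + j, ?_⟩
    rw [(show Commute b c from hS.abB b hb c hc).mul_pow, pow_add, pow_mul, hbr, one_pow, one_mul,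
      mul_comm, pow_mul, hcr, one_pow]
  have hmul : ∀ (g h : G), (∃ b ∈ B, (∃ j : ℕ, b ^ (r ^ j) = 1) ∧ ∃ i : ℕ, g = b * x ^ i) →
      (∃ b ∈ B, (∃ j : ℕ, b ^ (r ^ j) = 1) ∧ ∃ i : ℕ, h = b * x ^ i) →
      ∃ b ∈ B, (∃ j : ℕ, b ^ (r ^ j) = 1) ∧ ∃ i : ℕ, g * h = b * x ^ i := by
    rintro g h ⟨b, hb, hbr, i, rfl⟩ ⟨c, hc, hcr, j, rfl⟩
    have h1 := hconj i c hc hcr
    refine ⟨b * (x ^ i * c * (x ^ i)⁻¹), B.mul_mem hb h1.1, hAr _ _ hb hbr h1.1 h1.2, i + j, ?_⟩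
    rw [pow_add]
    group
  have hrv : 0 < r ^ v := pow_pos hr.pos v
  have hxinv : ∀ i : ℕ, ∃ j : ℕ, (x ^ i)⁻¹ = x ^ j := by
    intro i
    refine ⟨(r ^ v - 1) * i, ?_⟩
    rw [inv_eq_iff_mul_eq_one, ← pow_add]
    have e : i + (r ^ v - 1) * i = r ^ v * i := by
      obtain ⟨m, hm⟩ : ∃ m, r ^ v = m + 1 := ⟨r ^ v - 1, by omega⟩
      rw [hm, Nat.add_sub_cancel]
      ring
    rw [e, pow_mul, hxv, one_pow]
  let P : Subgroup G :=
    { carrier := {g | ∃ b ∈ B, (∃ j : ℕ, b ^ (r ^ j) = 1) ∧ ∃ i : ℕ, g = b * x ^ i}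
      mul_mem' := fun {g h} hg hh => hmul g h hg hh
      one_mem' := ⟨1, B.one_mem, ⟨0, one_pow _⟩, 0, by simp⟩
      inv_mem' := by
        rintro g ⟨b, hb, ⟨l, hbr⟩, i, rfl⟩
        obtain ⟨j, hj⟩ := hxinv i
        have h1 := hmul (1 * x ^ j) (b⁻¹ * x ^ 0) ⟨1, B.one_mem, ⟨0, one_pow _⟩, j, rfl⟩
          ⟨b⁻¹, B.inv_mem hb, ⟨l, by rw [inv_pow, hbr, inv_one]⟩, 0, rfl⟩
        rw [one_mul, ← hj, pow_zero, mul_one, ← mul_inv_rev] at h1
        exact h1 }
  have hpow : ∀ (b : G) (i m : ℕ), b ∈ B → (∃ j : ℕ, b ^ (r ^ j) = 1) →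
      ∃ c ∈ B, (∃ j : ℕ, c ^ (r ^ j) = 1) ∧ (b * x ^ i) ^ m = c * x ^ (i * m) := by
    intro b i m hb hbr
    induction m with
    | zero => exact ⟨1, B.one_mem, ⟨0, one_pow _⟩, by simp⟩
    | succ m ih =>
      obtain ⟨c, hc, hcr, e⟩ := ih
      have h1 := hconj (i * m) b hb hbr
      refine ⟨c * (x ^ (i * m) * b * (x ^ (i * m))⁻¹), B.mul_mem hc h1.1, hAr _ _ hc hcr h1.1 h1.2, ?_⟩
      rw [pow_succ, e, Nat.mul_succ, pow_add]
      group
  have hP : IsPGroup r P := by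
    rintro ⟨g, b, hb, hbr, i, rfl⟩
    obtain ⟨c, hc, ⟨j, hcr⟩, e⟩ := hpow b i (r ^ v) hb hbr
    refine ⟨v + j, ?_⟩
    apply Subtype.ext
    change (b * x ^ i) ^ (r ^ (v + j)) = 1
    rw [pow_add, pow_mul, e, Nat.mul_comm, pow_mul, hxv, one_pow, mul_one, hcr]
  exact hS.ag r hr P hP a ⟨a, ha, har, 0, by simp⟩ x ⟨1, B.one_mem, ⟨0, one_pow _⟩, 1, by simp⟩

/-- an `r`-element of `K` is the image of an `r`-element of `D` -/
theorem exists_lift [Finite G] {K : Type} [AddCommGroup K] {π : G → K} {s : K → G}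
    (hK : Dat B D π s) {r : ℕ} (hr : r.Prime) {x : K} (hx : ∃ j : ℕ, (r ^ j) • x = 0) :
    ∃ d ∈ D, π d = x ∧ ∃ j : ℕ, d ^ (r ^ j) = 1 := by
  obtain ⟨j, hj⟩ := hx
  have hN : orderOf (s x) ≠ 0 := (orderOf_pos (s x)).ne'
  obtain ⟨v, m, hm, hvm⟩ := Nat.exists_eq_pow_mul_and_not_dvd hN r hr.ne_one
  have hco : Nat.Coprime m (r ^ j) := by
    apply Nat.Coprime.pow_right
    exact ((Nat.Prime.coprime_iff_not_dvd hr).mpr hm).symm
  obtain ⟨t, ht0, ht1⟩ := Nat.chineseRemainder hco 0 1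
  refine ⟨s x ^ t, D.pow_mem (hK.sec x).1 t, ?_, v, ?_⟩
  · rw [pi_pow hK (hK.sec x).1, (hK.sec x).2]
    have hmod : ∀ t : ℕ, t • x = (t % (r ^ j)) • x := by
      intro t
      conv_lhs => rw [← Nat.div_add_mod t (r ^ j)]
      rw [add_nsmul, mul_comm, mul_nsmul', hj, nsmul_zero, zero_add]
    rw [hmod t, ht1, ← hmod 1, one_nsmul]
  · obtain ⟨l, hl⟩ := (Nat.modEq_zero_iff_dvd).mp ht0
    rw [← pow_mul, hl, show m * l * r ^ v = (r ^ v * m) * l by ring, ← hvm, pow_mul,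
      pow_orderOf_eq_one, one_pow]

end RepAux

open RepAux in
theorem Rep : S_Eig → S_Quo → S_Emb → S_Lin → S_Spn → S_Rep := by
  intro hEig hQuo hEmb hLin hSpn n p e hp he G _ _ F B D hS k _ _ _ R _ gr
  obtain ⟨ℓ, χ, ω, hE⟩ := hEig n p e hp he G F B D hS k R gr
  obtain ⟨K, instK, finK, π, s, hπ1, hπ2, hπ3⟩ := hQuo G B D hS.abD
  obtain ⟨ψ, hψ, hψv'⟩ := hEmb n p e G F B D hS k R gr ℓ χ ω hE K π s hπ1 hπ2 hπ3
  have hK : Dat B D π s := ⟨hπ1, hπ2, hπ3⟩
  have hψv : ∀ x ∈ F, ∀ b ∈ B, ∀ y ∈ D, ψ (x * b * y) =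
      ⟨Th gr ℓ ω s x, fun κ => gr.tau (ω y * hat χ s b κ), π y⟩ := hψv'
  have hTh1 : Th gr ℓ ω s 1 = 0 := by
    funext κ
    change (gr.tau (ω (s κ))⁻¹ : Rˣ) * ℓ (s κ * 1 * (s κ)⁻¹) = 0
    rw [mul_one, mul_inv_cancel, ell_one hE, mul_zero]
  have hψB : ∀ b ∈ B, ψ b = ⟨0, fun κ => gr.tau (hat χ s b κ), 0⟩ := by
    intro b hb
    have h := hψv 1 F.one_mem b hb 1 D.one_mem
    rw [hTh1, om_one hE, pi_one hK] at h
    simpa using h
  have hψD : ∀ y ∈ D, ψ y = ⟨0, fun _ => gr.tau (ω y), π y⟩ := by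
    intro y hy
    have h := hψv 1 F.one_mem 1 B.one_mem y hy
    rw [hTh1, hat_one hE] at h
    simpa using h
  have hψF : ∀ x ∈ F, ψ x = ⟨Th gr ℓ ω s x, 1, 0⟩ := by
    intro x hx
    have h := hψv x hx 1 B.one_mem 1 D.one_mem
    rw [hat_one hE, om_one hE, pi_one hK] at h
    have e : (fun κ : K => gr.tau (1 * (1 : K → kˣ) κ)) = 1 := by
      funext κ
      simp
    rw [e] at h
    simpa using h
  have hinj : ∀ a ∈ B, ∀ b ∈ B, hat χ s a = hat χ s b → a = b := by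
    intro a ha b hb hab
    apply hψ
    rw [hψB a ha, hψB b hb, hab]
  -- product formulas
  have hThD : ∀ x ∈ F, ∀ y ∈ D, ∀ κ, Th gr ℓ ω s (y * x * y⁻¹) κ =
      (gr.tau (ω y) : R) * Th gr ℓ ω s x (κ + π y) := by
    intro x hx y hy κ
    have e1 : y * x = (y * x * y⁻¹) * 1 * y := by group
    have h := congrArg (fun u : Aff K R => u.m κ) (congrArg ψ e1)
    have h2 := hψv _ (hS.normF.conj_mem x hx y) 1 B.one_mem y hy
    rw [h2, map_mul, hψD y hy, hψF x hx] at h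
    simp only [Aff.mul_m, Pi.zero_apply, zero_add] at h
    exact h.symm
  have hThB : ∀ x ∈ F, ∀ b ∈ B, ∀ κ, Th gr ℓ ω s (b * x * b⁻¹) κ =
      (gr.tau (hat χ s b κ) : R) * Th gr ℓ ω s x κ := by
    intro x hx b hb κ
    have e1 : b * x = (b * x * b⁻¹) * b * 1 := by group
    have h := congrArg (fun u : Aff K R => u.m κ) (congrArg ψ e1)
    have h2 := hψv _ (hS.normF.conj_mem x hx b) b hb 1 D.one_mem
    rw [h2, map_mul, hψB b hb, hψF x hx] at h
    simp only [Aff.mul_m, Pi.zero_apply, zero_add, add_zero] at h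
    exact h.symm
  have tr : ∀ f ∈ HA hS hE hK, ∀ z : K, (fun y => f (y + z)) ∈ HA hS hE hK := by
    rintro _ ⟨a, ha, rfl⟩ z
    refine ⟨_, hS.nor _ (hK.sec z).1 a ha, funext fun y => ?_⟩
    have h := hat_tr (χ := χ) hK (hK.sec z).1 ha y
    rw [(hK.sec z).2] at h
    exact h
  have ff : ∀ x : K, (∀ f ∈ HA hS hE hK, ∀ y, f (y + x) = f y) → x = 0 := by
    intro x hx
    rw [← (hK.sec x).2]
    rw [hK.zer _ (hK.sec x).1]
    intro a ha
    have h2 := hinj _ (hS.nor _ (hK.sec x).1 a ha) a ha (by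
      funext y
      rw [← hat_tr hK (hK.sec x).1 ha y, (hK.sec x).2]
      exact hx _ ⟨a, ha, rfl⟩ y)
    rw [mul_inv_eq_iff_eq_mul] at h2
    exact h2
  have ok : IsCode n K k (HA hS hE hK) (HD hE hK) := by
    refine ⟨?_, ?_, ?_, tr, ?_, ff, ?_⟩
    · intro x
      rw [← (hK.sec x).2, ← pi_pow hK (hK.sec x).1, hS.expG, pi_one hK]
    · rintro _ ⟨a, ha, rfl⟩ y
      change χ _ ^ n = 1
      rw [← chi_pow hE (hS.nor _ (hK.sec y).1 a ha), hS.expG, chi_one hE]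
    · rintro c x ⟨y, hy, hc⟩
      have h1 : c = ω y := congrArg Prod.fst hc
      rw [h1, ← om_pow hE hy, hS.expG, om_one hE]
    · rintro r hr _ ⟨a, ha, rfl⟩ ⟨j, hf⟩ x hx y
      have har : a ^ (r ^ j) = 1 := by
        apply hinj _ (B.pow_mem ha _) 1 B.one_mem
        rw [hat_pow hS hE hK ha, hat_one hE]
        funext y
        exact hf y
      obtain ⟨d, hd, hdx, hdr⟩ := exists_lift hK hr hx
      have h2 := comm_of hS hr ha ⟨j, har⟩ hd hdr
      rw [← hdx, hat_tr hK hd ha y, ← h2, mul_inv_cancel_right]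
    · intro x
      exact ⟨ω (s x), s x, (hK.sec x).1, by rw [(hK.sec x).2]⟩
  refine ⟨⟨K, instK, finK, HA hS hE hK, HD hE hK, ok⟩, ?_, ?_⟩
  · -- the embedding
    have hmem : ∀ g : G, ψ g ∈ GA gr.tau (HA hS hE hK) (HD hE hK) := by
      intro g
      obtain ⟨x, hx, a, ha, y, hy, rfl⟩ := hS.dec g
      have h := hψv x hx a ha y hy
      intro z
      refine ⟨ω y, fun κ => hat χ s a (κ + z), tr _ ⟨a, ha, rfl⟩ z, ⟨y, hy, ?_⟩, ?_⟩
      · rw [h]
      · intro κ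
        rw [h]
    exact Pool.Agent.Lib.MP_f44088_fb.inVar_of_injective
      (ψ.codRestrict (GA gr.tau (HA hS hE hK) (HD hE hK)) hmem) fun x y hxy =>
      hψ (congrArg Subtype.val hxy)
  · intro w hw u
    have hsub : ((FreeGroup.lift u w : GA gr.tau (HA hS hE hK) (HD hE hK)) : Aff K R) =
        FreeGroup.lift (fun i => ((u i : GA gr.tau (HA hS hE hK) (HD hE hK)) : Aff K R)) w :=
      (lift_map (GA gr.tau (HA hS hE hK) (HD hE hK)).subtype u w).symm
    apply Subtype.ext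
    rw [hsub]
    obtain ⟨T, t, hs, hT⟩ := hLin K R
      (fun i => ((u i : GA gr.tau (HA hS hE hK) (HD hE hK)) : Aff K R)) w
    have hua : ∀ i, ∃ b ∈ B, ∃ y ∈ D,
        ((u i : GA gr.tau (HA hS hE hK) (HD hE hK)) : Aff K R).a =
          (fun κ => gr.tau (ω y * hat χ s b κ)) ∧
        ((u i : GA gr.tau (HA hS hE hK) (HD hE hK)) : Aff K R).x = π y := by
      intro i
      obtain ⟨c, f, ⟨b, hb, rfl⟩, ⟨y, hy, hcy⟩, e1⟩ := (u i).2 0
      refine ⟨b, hb, y, hy, ?_, ?_⟩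
      · funext κ
        have h1 : c = ω y := congrArg Prod.fst hcy
        rw [← h1, ← e1 κ, add_zero]
      · exact congrArg (fun q => Multiplicative.toAdd q.2) hcy
    choose b hb y hy hae hxe using hua
    have key : ∀ x : ℕ → G, (∀ i, x i ∈ F) →
        FreeGroup.lift (fun i => (⟨Th gr ℓ ω s (x i),
          ((u i : GA gr.tau (HA hS hE hK) (HD hE hK)) : Aff K R).a,
          ((u i : GA gr.tau (HA hS hE hK) (HD hE hK)) : Aff K R).x⟩ : Aff K R)) w = 1 := by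
      intro x hx
      have h1 : (fun i => (⟨Th gr ℓ ω s (x i),
          ((u i : GA gr.tau (HA hS hE hK) (HD hE hK)) : Aff K R).a,
          ((u i : GA gr.tau (HA hS hE hK) (HD hE hK)) : Aff K R).x⟩ : Aff K R)) =
          fun i => ψ (x i * b i * y i) := by
        funext i
        rw [hψv (x i) (hx i) (b i) (hb i) (y i) (hy i), hae i, hxe i]
      rw [h1, lift_map ψ, hw, map_one]
    have key1 := key (fun _ => 1) (fun _ => F.one_mem)
    have hTF : ∀ (i : ℕ), ∀ x ∈ F, T (Pi.single i (Th gr ℓ ω s x)) = 0 := by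
      intro i x hx
      have h1 := key (fun j => if j = i then x else 1) (by
        intro j
        split_ifs
        · exact hx
        · exact F.one_mem)
      have h2 := (hT (fun j => Th gr ℓ ω s (if j = i then x else 1))).1
      rw [h1] at h2
      have h3 : (Pi.single i (Th gr ℓ ω s x) : ℕ → K → R) =
          fun j => Th gr ℓ ω s (if j = i then x else 1) := by
        funext j
        by_cases hj : j = i
        · subst hj
          simp
        · simp [hj, hTh1]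
      rw [h3, ← h2]
      rfl
    have hM : Submodule.span R {m | ∃ x ∈ F, m = Th gr ℓ ω s x} = ⊤ := by
      apply hSpn p e k R gr K (HA hS hE hK) tr ff
      · obtain ⟨x, hx, hne, -⟩ := hE.ne
        refine ⟨Th gr ℓ ω s x, Submodule.subset_span ⟨x, hx, rfl⟩, 0, ?_⟩
        have h0 := hE.eigD (s 0) (hK.sec 0).1 ((hK.zer _ (hK.sec 0).1).mp (hK.sec 0).2) x hx
        change gr.res ((gr.tau (ω (s 0))⁻¹ : Rˣ) * ℓ (s 0 * x * (s 0)⁻¹)) ≠ 0
        rw [h0, ← mul_assoc, ← Units.val_mul, ← map_mul, inv_mul_cancel, map_one, Units.val_one,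
          one_mul]
        exact hne
      · intro m hm z
        have hle : Submodule.span R {m | ∃ x ∈ F, m = Th gr ℓ ω s x} ≤
            (Submodule.span R {m | ∃ x ∈ F, m = Th gr ℓ ω s x}).comap
              (LinearMap.funLeft R R (fun y : K => y + z)) := by
          rw [Submodule.span_le]
          rintro _ ⟨x, hx, rfl⟩
          have h1 : LinearMap.funLeft R R (fun y : K => y + z) (Th gr ℓ ω s x) =
              ((gr.tau (ω (s z)))⁻¹ : Rˣ) • Th gr ℓ ω s (s z * x * (s z)⁻¹) := by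
            funext y
            change Th gr ℓ ω s x (y + z) = ((gr.tau (ω (s z)))⁻¹ : Rˣ) • _
            rw [hThD x hx (s z) (hK.sec z).1 y, (hK.sec z).2, Units.smul_def, smul_eq_mul,
              ← mul_assoc, Units.inv_mul, one_mul]
          change LinearMap.funLeft R R (fun y : K => y + z) (Th gr ℓ ω s x) ∈
            Submodule.span R {m | ∃ x ∈ F, m = Th gr ℓ ω s x}
          rw [h1]
          apply Submodule.smul_mem
          apply Submodule.subset_span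
          exact ⟨_, hS.normF.conj_mem x hx _, rfl⟩
        exact hle hm
      · intro m hm f hf
        obtain ⟨b, hb, rfl⟩ := hf
        have hle : Submodule.span R {m | ∃ x ∈ F, m = Th gr ℓ ω s x} ≤
            (Submodule.span R {m | ∃ x ∈ F, m = Th gr ℓ ω s x}).comap
              (LinearMap.mulLeft R (fun y : K => (gr.tau (hat χ s b y) : R))) := by
          rw [Submodule.span_le]
          rintro _ ⟨x, hx, rfl⟩
          apply Submodule.subset_span
          exact ⟨_, hS.normF.conj_mem x hx _, funext fun y => (hThB x hx b hb y).symm⟩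
        exact hle hm
    have hT1 : ∀ (i : ℕ) (m : K → R), T (Pi.single i m) = 0 := by
      intro i m
      have hle : Submodule.span R {m | ∃ x ∈ F, m = Th gr ℓ ω s x} ≤
          LinearMap.ker (T ∘ₗ LinearMap.single R (fun _ : ℕ => K → R) i) := by
        rw [Submodule.span_le]
        rintro _ ⟨x, hx, rfl⟩
        exact hTF i x hx
      have h1 : m ∈ LinearMap.ker (T ∘ₗ LinearMap.single R (fun _ : ℕ => K → R) i) := by
        apply hle
        rw [hM]
        exact Submodule.mem_top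
      exact h1
    have hT0 : ∀ m : ℕ → K → R, T m = 0 := by
      intro m
      have h1 : T (m - ∑ i ∈ t, Pi.single i (m i)) = 0 := by
        apply hs
        intro i hi
        rw [Pi.sub_apply, Finset.sum_apply]
        rw [Finset.sum_eq_single i]
        · simp
        · intro j _ hj
          exact Pi.single_eq_of_ne (Ne.symm hj) _
        · intro h
          exact absurd hi h
      rw [map_sub, map_sum, Finset.sum_eq_zero fun i _ => hT1 i (m i), sub_zero] at h1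
      exact h1
    have hfin := hT (fun i => ((u i : GA gr.tau (HA hS hE hK) (HD hE hK)) : Aff K R).m)
    have hz := hT (fun i => Th gr ℓ ω s ((fun _ => 1 : ℕ → G) i))
    rw [key1] at hz
    apply Aff.ext
    · have h1 := hfin.1
      rw [hT0] at h1
      exact h1
    · exact hz.2.1.symm
    · exact hz.2.2.symm

end Pool.Agent.Lib.MP_f44088_fc
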