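import Mathlib
import Pool.Agent.Lib.MP_f44088_al.FB4.Spec

/-! Project FB4 (MP_f44088_al): below implies section. -/

set_option autoImplicit false

namespace Pool.Agent.Lib.MP_f44088_fc

open Pool.Agent.Lib.MP_f44088_fb (InVar inVar_of_injective inVar_of_surjective)

namespace SecAux

variable {k R K₁ K₂ : Type} [Field k] [CommRing R] [AddCommGroup K₁] [AddCommGroup K₂]

/-- the pairs of an element of the big group and its restriction to `K₁` -/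
def P (G₂ : Subgroup (Aff K₂ R)) (G₁ : Subgroup (Aff K₁ R)) (φ : K₁ →+ K₂) : Subgroup (G₂ × G₁) where
  carrier := {q | q.1.1.x = φ q.2.1.x ∧ (∀ y, q.1.1.m (φ y) = q.2.1.m y) ∧
    ∀ y, q.1.1.a (φ y) = q.2.1.a y}
  mul_mem' := by
    rintro u v ⟨hx, hm, ha⟩ ⟨hx', hm', ha'⟩
    have hs : ∀ y, φ y + u.1.1.x = φ (y + u.2.1.x) := fun y => by rw [hx, map_add]
    refine ⟨?_, fun y => ?_, fun y => ?_⟩
    · change u.1.1.x + v.1.1.x = φ (u.2.1.x + v.2.1.x)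
      rw [map_add, hx, hx']
    · change u.1.1.m (φ y) + (u.1.1.a (φ y) : R) * v.1.1.m (φ y + u.1.1.x) =
        u.2.1.m y + (u.2.1.a y : R) * v.2.1.m (y + u.2.1.x)
      rw [hs, hm, ha, hm']
    · change u.1.1.a (φ y) * v.1.1.a (φ y + u.1.1.x) = u.2.1.a y * v.2.1.a (y + u.2.1.x)
      rw [hs, ha, ha']
  one_mem' := by
    refine ⟨?_, fun y => rfl, fun y => rfl⟩
    change (0 : K₂) = φ 0
    rw [map_zero]
  inv_mem' := by
    rintro u ⟨hx, hm, ha⟩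
    have hs : ∀ y, φ y - u.1.1.x = φ (y - u.2.1.x) := fun y => by rw [hx, map_sub]
    refine ⟨?_, fun y => ?_, fun y => ?_⟩
    · change -u.1.1.x = φ (-u.2.1.x)
      rw [map_neg, hx]
    · change -(((u.1.1.a (φ y - u.1.1.x))⁻¹ : Rˣ) : R) * u.1.1.m (φ y - u.1.1.x) =
        -(((u.2.1.a (y - u.2.1.x))⁻¹ : Rˣ) : R) * u.2.1.m (y - u.2.1.x)
      rw [hs, hm, ha]
    · change (u.1.1.a (φ y - u.1.1.x))⁻¹ = (u.2.1.a (y - u.2.1.x))⁻¹
      rw [hs, ha]

end SecAux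

open SecAux in
theorem Sec : S_Sec := by
  intro k R K₁ K₂ _ _ _ _ τ A₁ Δ₁ A₂ Δ₂ htr hb
  obtain ⟨φ, hφ, hA, hD⟩ := hb
  have hinj : Function.Injective
      ((MonoidHom.fst (GA τ A₂ Δ₂) (GA τ A₁ Δ₁)).comp (P (GA τ A₂ Δ₂) (GA τ A₁ Δ₁) φ).subtype) := by
    rintro ⟨⟨u, w⟩, hx, hm, ha⟩ ⟨⟨u', w'⟩, hx', hm', ha'⟩ h
    have hu : u = u' := h
    subst hu
    have hw : w = w' := by
      apply Subtype.ext
      apply Aff.ext
      · funext y
        exact (hm y).symm.trans (hm' y)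
      · funext y
        exact (ha y).symm.trans (ha' y)
      · exact hφ (hx.symm.trans hx')
    subst hw
    rfl
  have hsur : Function.Surjective
      ((MonoidHom.snd (GA τ A₂ Δ₂) (GA τ A₁ Δ₁)).comp (P (GA τ A₂ Δ₂) (GA τ A₁ Δ₁) φ).subtype) := by
    intro w
    obtain ⟨c, f, hf, hc, h⟩ := w.2 0
    obtain ⟨g, hg, hgf⟩ := hA f hf
    let u : GA τ A₂ Δ₂ := ⟨⟨Function.extend φ w.1.m 0, fun y => τ (c * g y), φ w.1.x⟩, fun z =>
      ⟨c, fun y => g (y + z), htr g hg z, hD c w.1.x hc, fun y => rfl⟩⟩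
    refine ⟨⟨(u, w), rfl, fun y => ?_, fun y => ?_⟩, rfl⟩
    · change Function.extend φ w.1.m 0 (φ y) = w.1.m y
      rw [hφ.extend_apply]
    · change τ (c * g (φ y)) = w.1.a y
      rw [← hgf y, ← h y, add_zero]
  exact (inVar_of_surjective _ hsur).trans (inVar_of_injective _ hinj)

end Pool.Agent.Lib.MP_f44088_fc
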