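import Pool.Agent.Lib.MP_f44088_al.FB4.Spec

/-! Project FB4 (MP_f44088_al): an invariant submodule which is not 0 modulo `p` is everything. -/

set_option autoImplicit false

namespace Pool.Agent.Lib.MP_f44088_fc

namespace SpnAux

variable {p e : ℕ} {k R K : Type} [Field k] [CommRing R]

/-- the reductions of the elements of `M` -/
def Red (gr : GRing p e k R) (M : Submodule R (K → R)) : Submodule k (K → k) where
  carrier := {h | ∃ m ∈ M, ∀ y, h y = gr.res (m y)}
  add_mem' := by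
    rintro a b ⟨m, hm, h1⟩ ⟨m', hm', h2⟩
    exact ⟨m + m', M.add_mem hm hm', fun y => by
      rw [Pi.add_apply, Pi.add_apply, map_add, h1, h2]⟩
  zero_mem' := ⟨0, M.zero_mem, fun y => by simp⟩
  smul_mem' := by
    rintro c a ⟨m, hm, h1⟩
    by_cases hc : c = 0
    · subst hc
      exact ⟨0, M.zero_mem, fun y => by simp⟩
    · refine ⟨((gr.tau (Units.mk0 c hc) : Rˣ) : R) • m, M.smul_mem _ hm, fun y => ?_⟩
      rw [Pi.smul_apply, Pi.smul_apply, smul_eq_mul, smul_eq_mul, map_mul, gr.res_tau, h1]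
      rfl

theorem mem_Red (gr : GRing p e k R) (M : Submodule R (K → R)) (h : K → k) :
    h ∈ Red gr M ↔ ∃ m ∈ M, ∀ y, h y = gr.res (m y) := Iff.rfl

/-- one step of the approximation -/
theorem step (gr : GRing p e k R) (M : Submodule R (K → R)) (hM : Red gr M = ⊤) (g : K → R) :
    ∃ m ∈ M, ∃ g' : K → R, g = m + (p : R) • g' := by
  have h : (fun y => gr.res (g y)) ∈ Red gr M := by
    rw [hM]
    exact Submodule.mem_top
  obtain ⟨m, hm, h1⟩ := (mem_Red gr M _).mp h
  have h2 : ∀ y, ∃ z, g y - m y = (p : R) * z := by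
    intro y
    apply gr.ker
    rw [map_sub, sub_eq_zero]
    exact h1 y
  choose g' hg' using h2
  refine ⟨m, hm, g', ?_⟩
  funext y
  rw [Pi.add_apply, Pi.smul_apply, smul_eq_mul, ← hg' y]
  ring

theorem iter (gr : GRing p e k R) (M : Submodule R (K → R)) (hM : Red gr M = ⊤) (j : ℕ) :
    ∀ g : K → R, ∃ m ∈ M, ∃ g' : K → R, g = m + ((p : R) ^ j) • g' := by
  induction j with
  | zero =>
    intro g
    exact ⟨0, M.zero_mem, g, by rw [pow_zero, one_smul, zero_add]⟩
  | succ j ih =>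
    intro g
    obtain ⟨m, hm, g', h1⟩ := ih g
    obtain ⟨m', hm', g'', h2⟩ := step gr M hM g'
    refine ⟨m + ((p : R) ^ j) • m', M.add_mem hm (M.smul_mem _ hm'), g'', ?_⟩
    rw [h1, h2, smul_add, smul_smul, ← pow_succ, add_assoc]

end SpnAux

open SpnAux in
theorem Spn : O_Spn → S_Spn := by
  intro hO p e k R _ _ gr K _ _ A htr hff M hne htrM hmul
  have hM : Red gr M = ⊤ := by
    refine hO K k A htr hff (Red gr M) ?_ ?_ ?_
    · obtain ⟨m, hm, y, hy⟩ := hne
      intro h0
      have h1 : (fun y => gr.res (m y)) ∈ Red gr M := (mem_Red gr M _).mpr ⟨m, hm, fun _ => rfl⟩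
      rw [h0, Submodule.mem_bot] at h1
      exact hy (congrFun h1 y)
    · rintro h ⟨m, hm, h1⟩ z
      exact ⟨fun y => m (y + z), htrM m hm z, fun y => h1 (y + z)⟩
    · rintro h ⟨m, hm, h1⟩ f hf
      refine ⟨fun y => (gr.tau (f y) : R) * m y, hmul m hm f hf, fun y => ?_⟩
      rw [map_mul, gr.res_tau, ← h1]
  rw [eq_top_iff]
  intro g _
  obtain ⟨m, hm, g', h1⟩ := iter gr M hM e g
  rw [gr.nil, zero_smul, add_zero] at h1
  rw [h1]
  exact hm

end Pool.Agent.Lib.MP_f44088_fc
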