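import Mathlib
import Pool.Agent.Lib.MP_f44088_al.FB4.Spec2

/-! Project FB4 (MP_f44088_al), module Str: an arbitrary set of points of modules over `Z / q ^ h` is a finite
union of rich classes. -/

set_option autoImplicit false

namespace Pool.Agent.Lib.MP_f44088_fc

open Pool.Agent.Lib.MP_f44088_fb (Rich)

namespace StrAux

theorem mem_of_mkQ {K V : Type} [Field K] [AddCommGroup V] [Module K V] (U : Submodule K V) {n : ℕ}
    (y : Fin n → V) (z : V)
    (h : U.mkQ z ∈ Submodule.span K (Set.range (fun s => U.mkQ (y s)))) :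
    z ∈ U ⊔ Submodule.span K (Set.range y) := by
  have h1 : Set.range (fun s => U.mkQ (y s)) = U.mkQ '' Set.range y := by
    rw [← Set.range_comp]
    rfl
  rw [h1, ← Submodule.map_span] at h
  rw [← Submodule.comap_map_mkQ]
  exact h

theorem indep_snoc {K V : Type} [Field K] [AddCommGroup V] [Module K V] (U : Submodule K V) {n : ℕ}
    (y : Fin n → V) (z : V) (hy : LinearIndependent K (fun s => U.mkQ (y s)))
    (hz : z ∉ U ⊔ Submodule.span K (Set.range y)) (w : Fin (n + 1) → V)
    (hw : ∀ s : Fin n, w s.castSucc = y s) (hwl : w (Fin.last n) = z) :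
    LinearIndependent K (fun s => U.mkQ (w s)) := by
  have h1 : (fun s => U.mkQ (w s))
      = (Fin.snoc (fun s => U.mkQ (y s)) (U.mkQ z) : Fin (n + 1) → V ⧸ U) := by
    funext s
    refine Fin.lastCases ?_ (fun i => ?_) s
    · rw [Fin.snoc_last, hwl]
    · rw [Fin.snoc_castSucc, hw i]
  rw [h1]
  exact LinearIndependent.finSnoc hy (fun h => hz (mem_of_mkQ U y z h))

theorem finite_of_fg {K V : Type} [Field K] [Finite K] [AddCommGroup V] [Module K V] (U : Submodule K V)
    (hU : U.FG) : Finite U := by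
  have : Module.Finite K U := Module.Finite.iff_fg.mpr hU
  exact Module.finite_of_finite K

theorem ind (hRM : O_RM) (ι : Type) [Fintype ι] (q h : ι → ℕ) [∀ a, Fact (q a).Prime] (X V : ι → Type)
    [∀ a, AddCommGroup (X a)] [∀ a, AddCommGroup (V a)] [∀ a, Module (ZMod (q a)) (V a)]
    (red : ∀ a, X a →+ V a) (hsur : ∀ a, Function.Surjective (red a))
    (hker : ∀ a x, red a x = 0 → ∃ y, x = (q a) • y) (Z : Set (∀ a, X a)) :
    ∀ n : ℕ, ∀ t0 : ι → ℕ, ∑ a, (h a - t0 a) = n → ∀ U0 : ∀ a, Submodule (ZMod (q a)) (V a),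
      (∀ a, (U0 a).FG) → ∀ v0 : ∀ a, X a,
      ∃ (U : ∀ a, Submodule (ZMod (q a)) (V a)) (T : Type) (v : T → ∀ a, X a) (t : T → ι → ℕ),
        (∀ a, (U a).FG) ∧ Finite T ∧
        (∀ z ∈ Z, (∀ a, ∃ x, z a = v0 a + (q a ^ t0 a) • x) →
          ∃ s, ∀ a, ∃ x, z a = v s a + (q a ^ t s a) • x) ∧
        ∀ s, Rich U {a | t s a < h a} (Cla q red (v s) (t s) Z) := by
  classical
  intro n
  induction n using Nat.strong_induction_on with
  | _ n ih =>
    intro t0 ht0 U0 hU0 v0
    by_cases hR : Rich U0 {a | t0 a < h a} (Cla q red v0 t0 Z)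
    · exact ⟨U0, Unit, fun _ => v0, fun _ => t0, hU0, inferInstance, fun z _ hz' => ⟨(), hz'⟩, fun _ => hR⟩
    · -- a largest number of independent points
      have hne : ∃ N : ℕ, ¬ ∃ y : Fin N → ∀ a, V a, (∀ s, y s ∈ Cla q red v0 t0 Z) ∧
            ∀ a ∈ {a | t0 a < h a}, LinearIndependent (ZMod (q a)) (fun s => (U0 a).mkQ (y s a)) := by
        by_contra hcon
        push Not at hcon
        exact hR hcon
      obtain ⟨M, hM, hM1⟩ : ∃ M : ℕ, (∃ y : Fin M → ∀ a, V a, (∀ s, y s ∈ Cla q red v0 t0 Z) ∧
            ∀ a ∈ {a | t0 a < h a}, LinearIndependent (ZMod (q a)) (fun s => (U0 a).mkQ (y s a))) ∧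
          ¬ ∃ y : Fin (M + 1) → ∀ a, V a, (∀ s, y s ∈ Cla q red v0 t0 Z) ∧
            ∀ a ∈ {a | t0 a < h a}, LinearIndependent (ZMod (q a)) (fun s => (U0 a).mkQ (y s a)) := by
        have h0 : Nat.find hne ≠ 0 := by
          intro h0
          have h1 := Nat.find_spec hne
          rw [h0] at h1
          exact h1 ⟨fun s => s.elim0, fun s => s.elim0, fun a _ => linearIndependent_empty_type⟩
        obtain ⟨M, hM⟩ := Nat.exists_eq_succ_of_ne_zero h0
        refine ⟨M, ?_, ?_⟩
        · have h2 : M < Nat.find hne := by omega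
          exact not_not.mp (Nat.find_min hne h2)
        · have h1 := Nat.find_spec hne
          rw [hM] at h1
          exact h1
      obtain ⟨y, hyY, hyI⟩ := hM
      set U1 : ∀ a, Submodule (ZMod (q a)) (V a) :=
        fun a => U0 a ⊔ Submodule.span (ZMod (q a)) (Set.range (fun s => y s a)) with hU1
      have hU1fg : ∀ a, (U1 a).FG := fun a =>
        (hU0 a).sup (Submodule.fg_span (Set.finite_range _))
      have hcov : ∀ z ∈ Z, ∀ x : ∀ a, X a, (∀ a, z a = v0 a + (q a ^ t0 a) • x a) →
          ∃ a, t0 a < h a ∧ red a (x a) ∈ U1 a := by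
        intro z hz x hx
        by_contra hcon
        push Not at hcon
        refine hM1 ⟨Fin.snoc (α := fun _ => ∀ a, V a) y (fun a => red a (x a)), ?_, ?_⟩
        · intro s
          refine Fin.lastCases ?_ (fun i => ?_) s
          · rw [Fin.snoc_last]
            exact ⟨z, hz, x, fun _ => rfl, hx⟩
          · rw [Fin.snoc_castSucc]
            exact hyY i
        · intro a ha
          refine indep_snoc (U0 a) (fun s => y s a) (red a (x a)) (hyI a ha) (hcon a ha)
            (fun s => Fin.snoc (α := fun _ => ∀ a, V a) y (fun a => red a (x a)) s a) ?_ ?_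
          · intro s
            simp only [Fin.snoc_castSucc]
          · simp only [Fin.snoc_last]
      -- the smaller sets
      have hsmall : ∀ b : (Σ a : {a // t0 a < h a}, U1 a.1),
          ∃ (U : ∀ a, Submodule (ZMod (q a)) (V a)) (T : Type) (v : T → ∀ a, X a) (t : T → ι → ℕ),
          (∀ a, (U a).FG) ∧ Finite T ∧
          (∀ z ∈ Z, (∀ a, ∃ x, z a = Function.update v0 b.1.1 (v0 b.1.1 + (q b.1.1 ^ t0 b.1.1) •
              Function.surjInv (hsur b.1.1) (b.2 : V b.1.1)) a +
              (q a ^ Function.update t0 b.1.1 (t0 b.1.1 + 1) a) • x) →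
            ∃ s, ∀ a, ∃ x, z a = v s a + (q a ^ t s a) • x) ∧
          ∀ s, Rich U {a | t s a < h a} (Cla q red (v s) (t s) Z) := by
        intro b
        have hlt : ∑ a, (h a - Function.update t0 b.1.1 (t0 b.1.1 + 1) a) < n := by
          rw [← ht0]
          refine Finset.sum_lt_sum ?_ ⟨b.1.1, Finset.mem_univ _, ?_⟩
          · intro a _
            by_cases hab : a = b.1.1
            · subst hab
              rw [Function.update_self]
              omega
            · rw [Function.update_of_ne hab]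
          · rw [Function.update_self]
            have := b.1.2
            omega
        exact ih _ hlt _ rfl U1 hU1fg _
      choose UA TA vA tA hfg hfin hcv hrich using hsmall
      have : ∀ a : {a // t0 a < h a}, Finite (U1 a.1) := fun a => finite_of_fg _ (hU1fg a.1)
      have : ∀ b, Finite (TA b) := hfin
      have hfgU : ∀ a, (⨆ b, UA b a).FG := fun a => Submodule.fg_iSup _ (fun b => hfg b a)
      have hleU : ∀ b a, UA b a ≤ ⨆ b, UA b a := fun b a => le_iSup (fun b => UA b a) b
      refine ⟨fun a => ⨆ b, UA b a, (Σ b, TA b), fun t => vA t.1 t.2, fun t => tA t.1 t.2, hfgU,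
        inferInstance, ?_, ?_⟩
      · intro z hz hzJ
        choose x hx using hzJ
        obtain ⟨a, ha, hza⟩ := hcov z hz x hx
        obtain ⟨s, hs⟩ := hcv ⟨⟨a, ha⟩, ⟨red a (x a), hza⟩⟩ z hz (by
          intro a'
          by_cases haa : a' = a
          · subst haa
            simp only [Function.update_self]
            obtain ⟨x', hx'⟩ := hker a' (x a' - Function.surjInv (hsur a') (red a' (x a'))) (by
              rw [map_sub, Function.surjInv_eq (hsur a'), sub_self])
            refine ⟨x', ?_⟩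
            have e1 : x a' = Function.surjInv (hsur a') (red a' (x a')) + q a' • x' := by
              rw [← hx']
              abel
            rw [pow_succ, mul_smul, add_assoc, ← smul_add, ← e1]
            exact hx a'
          · simp only [Function.update_of_ne haa]
            exact ⟨x a', hx a'⟩)
        exact ⟨⟨⟨⟨a, ha⟩, ⟨red a (x a), hza⟩⟩, s⟩, hs⟩
      · intro t
        exact hRM ι (fun a => ZMod (q a)) V (UA t.1) _ _ _ (hrich t.1 t.2) (hleU t.1) hfgU

end StrAux

/-- (Str) Structure of an arbitrary set of points. -/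
theorem Str : O_RM → S_Str := by
  intro hRM ι _ q h _ X V _ _ _ red hsur hker Z
  have := Fintype.ofFinite ι
  obtain ⟨U, T, v, t, h1, h2, h3, h4⟩ := StrAux.ind hRM ι q h X V red hsur hker Z _ (fun _ => 0) rfl
    (fun _ => ⊥) (fun _ => Submodule.fg_bot) (fun _ => 0)
  refine ⟨U, T, v, t, h1, h2, fun z hz => h3 z hz (fun a => ⟨z a, ?_⟩), h4⟩
  rw [pow_zero, one_smul, zero_add]

end Pool.Agent.Lib.MP_f44088_fc
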