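import Mathlib
import Pool.Agent.Lib.MP_f44088_al.FB4.Spec2

/-! Project FB4 (MP_f44088_al), module Tr1: the exponentials `ZMod (r ^ N) → kˣ`. -/

set_option autoImplicit false

namespace Pool.Agent.Lib.MP_f44088_fc.Tr1Aux

theorem exists_exp (p q : ℕ) (hq : q ≠ 0) (hpq : ¬ p ∣ q) (k : Type) [Field k]
    [IsAlgClosed k] [CharP k p] :
    ∃ e : ZMod q →+ Additive kˣ, Function.Injective e ∧
      ∀ z : kˣ, z ^ q = 1 → ∃ t : ZMod q, Additive.toMul (e t) = z := by
  haveI : NeZero q := ⟨hq⟩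
  haveI : NeZero ((q : ℕ) : k) := by
    refine ⟨fun h => ?_⟩
    exact hpq ((CharP.cast_eq_zero_iff k p q).1 h)
  obtain ⟨ζ, hζ⟩ := HasEnoughRootsOfUnity.exists_primitiveRoot k q
  obtain ⟨u, hu⟩ := hζ.isUnit hq
  have hu' : IsPrimitiveRoot u q := by
    rw [← IsPrimitiveRoot.coe_units_iff, hu]
    exact hζ
  refine ⟨(MonoidHom.toAdditive (Subgroup.zpowers u).subtype).comp
    hu'.zmodEquivZPowers.toAddMonoidHom, ?_, ?_⟩
  · intro a b hab
    apply hu'.zmodEquivZPowers.injective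
    apply Additive.toMul.injective
    apply Subtype.ext
    exact hab
  · intro z hz
    have hz' : z ∈ Subgroup.zpowers u := by
      rw [hu'.zpowers_eq]
      exact hz
    refine ⟨hu'.zmodEquivZPowers.symm (Additive.ofMul ⟨z, hz'⟩), ?_⟩
    show (((Additive.toMul (hu'.zmodEquivZPowers
      (hu'.zmodEquivZPowers.symm (Additive.ofMul ⟨z, hz'⟩)))) : Subgroup.zpowers u) : kˣ) = z
    rw [AddEquiv.apply_symm_apply]
    rfl

end Pool.Agent.Lib.MP_f44088_fc.Tr1Aux

namespace Pool.Agent.Lib.MP_f44088_fc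

theorem Tr1 : S_Tr1 := by
  intro n p hp k _ _ _
  have h : ∀ r : ℕ, ∃ e : ZMod (r ^ n.factorization r) →+ Additive kˣ, (r.Prime → r ≠ p →
      (Function.Injective e ∧
        ∀ z : kˣ, z ^ (r ^ n.factorization r) = 1 → ∃ t, Additive.toMul (e t) = z)) := by
    intro r
    by_cases h : r.Prime ∧ r ≠ p
    · have hq : r ^ n.factorization r ≠ 0 := pow_ne_zero _ h.1.ne_zero
      have hpq : ¬ p ∣ r ^ n.factorization r := by
        intro hd
        have h1 := hp.dvd_of_dvd_pow hd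
        exact h.2 ((Nat.prime_dvd_prime_iff_eq hp h.1).1 h1).symm
      obtain ⟨e, he⟩ := Tr1Aux.exists_exp p (r ^ n.factorization r) hq hpq k
      exact ⟨e, fun _ _ => he⟩
    · exact ⟨0, fun h1 h2 => absurd ⟨h1, h2⟩ h⟩
  choose e he using h
  refine ⟨e, fun r hr => ?_⟩
  rw [Finset.mem_erase] at hr
  exact he r (Nat.prime_of_mem_primeFactors hr.2) hr.1

end Pool.Agent.Lib.MP_f44088_fc
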