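import Pool.Agent.Lib.MP_f44088_al.FB4.Spec2

/-! Project FB4 (MP_f44088_al), the additive code of a code. -/

set_option autoImplicit false

namespace Pool.Agent.Lib.MP_f44088_fc

open Pool.Agent.Lib.MP_f44088_fb (Sat InVar FGrp Cls Mono Rich IsChar Lam)

namespace Tr2Aux

theorem inc_int (r N : ℕ) (b : ℤ) :
    inc r N (b : ZMod r) = (b : ZMod (r ^ N)) * (r : ZMod (r ^ N)) ^ (N - 1) := by
  unfold inc
  rw [ZMod.lift_coe]
  simp only [zmultiplesHom_apply, zsmul_eq_mul]

theorem inc_eq_zero (r N : ℕ) (hr : r.Prime) (hN : 0 < N) (a : ZMod r) (h : inc r N a = 0) : a = 0 := by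
  obtain ⟨b, rfl⟩ := ZMod.intCast_surjective a
  rw [inc_int] at h
  have h1 : ((b * (r : ℤ) ^ (N - 1) : ℤ) : ZMod (r ^ N)) = 0 := by
    push_cast
    exact h
  rw [ZMod.intCast_zmod_eq_zero_iff_dvd] at h1
  rw [ZMod.intCast_zmod_eq_zero_iff_dvd]
  have hr0 : ((r : ℤ) ^ (N - 1)) ≠ 0 := pow_ne_zero _ (by exact_mod_cast hr.ne_zero)
  have h2 : (((r ^ N : ℕ) : ℤ)) = (r : ℤ) * (r : ℤ) ^ (N - 1) := by
    rw [← pow_succ', Nat.sub_add_cancel hN]
    push_cast
    rfl
  rw [h2] at h1
  exact Int.dvd_of_mul_dvd_mul_right hr0 h1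

theorem inc_inj (r N : ℕ) (hr : r.Prime) (hN : 0 < N) : Function.Injective (inc r N) :=
  (injective_iff_map_eq_zero (inc r N)).2 (fun a h => inc_eq_zero r N hr hN a h)

theorem inc_surj (r N : ℕ) (hr : r.Prime) (hN : 0 < N) (a : ZMod (r ^ N)) (h : r • a = 0) :
    ∃ b, inc r N b = a := by
  obtain ⟨b, rfl⟩ := ZMod.intCast_surjective a
  have h1 : (((r : ℤ) * b : ℤ) : ZMod (r ^ N)) = 0 := by
    push_cast
    rw [← nsmul_eq_mul]
    exact h
  rw [ZMod.intCast_zmod_eq_zero_iff_dvd] at h1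
  have hr0 : (r : ℤ) ≠ 0 := by exact_mod_cast hr.ne_zero
  have h2 : (((r ^ N : ℕ) : ℤ)) = (r : ℤ) * (r : ℤ) ^ (N - 1) := by
    rw [← pow_succ', Nat.sub_add_cancel hN]
    push_cast
    rfl
  rw [h2] at h1
  obtain ⟨c, hc⟩ := Int.dvd_of_mul_dvd_mul_left hr0 h1
  refine ⟨(c : ZMod r), ?_⟩
  rw [inc_int, hc]
  push_cast
  ring

theorem Dfull_tr {K k : Type} [Field k] [AddCommGroup K] (n : ℕ)
    (ex : ∀ r : ℕ, ZMod (r ^ n.factorization r) →+ Additive kˣ)
    (A : Subgroup (K → kˣ)) (Δ : Subgroup (kˣ × Multiplicative K)) (hc : IsCode n K k A Δ) (r : ℕ)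
    (g : K → ZMod (r ^ n.factorization r)) (hg : g ∈ Dfull n ex A r) (z : K) :
    (fun y => g (y + z)) ∈ Dfull n ex A r :=
  hc.tr _ hg z

theorem Dfull_inv {K k : Type} [Field k] [AddCommGroup K] (n : ℕ)
    (ex : ∀ r : ℕ, ZMod (r ^ n.factorization r) →+ Additive kˣ)
    (A : Subgroup (K → kˣ)) (Δ : Subgroup (kˣ × Multiplicative K)) (hc : IsCode n K k A Δ) (r : ℕ)
    (hr : r.Prime) (hi : Function.Injective (ex r))
    (g : K → ZMod (r ^ n.factorization r)) (hg : g ∈ Dfull n ex A r) (x : K)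
    (hx : ∃ j : ℕ, (r ^ j) • x = 0) (y : K) : g (y + x) = g y := by
  have h1 : ∀ y, (fun y => Additive.toMul (ex r (g y))) y ^ (r ^ n.factorization r) = 1 := by
    intro y
    show Additive.toMul (ex r (g y)) ^ (r ^ n.factorization r) = 1
    rw [← toMul_nsmul, ← map_nsmul]
    have h0 : (r ^ n.factorization r) • g y = 0 := by
      rw [nsmul_eq_mul]
      have : ((r ^ n.factorization r : ℕ) : ZMod (r ^ n.factorization r)) = 0 := ZMod.natCast_self _
      rw [this, zero_mul]
    rw [h0, map_zero]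
    rfl
  have h2 := hc.ag r hr (fun y => Additive.toMul (ex r (g y))) hg ⟨_, h1⟩ x hx y
  exact hi (Additive.toMul.injective h2)

theorem Dfull_x {K k : Type} [Field k] [AddCommGroup K] (n : ℕ) (hn : 0 < n)
    (ex : ∀ r : ℕ, ZMod (r ^ n.factorization r) →+ Additive kˣ)
    (A : Subgroup (K → kˣ)) (Δ : Subgroup (kˣ × Multiplicative K)) (hc : IsCode n K k A Δ) (r : ℕ)
    (hr : r.Prime) (hN : 0 < n.factorization r) (hi : Function.Injective (ex r)) (x : K)
    (hx : ∀ h ∈ Dof n ex A r 0, ∀ y, h (y + x) = h y)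
    (g : K → ZMod (r ^ n.factorization r)) (hg : g ∈ Dfull n ex A r) (y : K) : g (y + x) = g y := by
  have hm : (n / r ^ n.factorization r).Coprime r := (Nat.coprime_ordCompl hr hn.ne').symm
  have hnm : r ^ n.factorization r * (n / r ^ n.factorization r) = n :=
    Nat.ordProj_mul_ordCompl_eq_self n r
  generalize n / r ^ n.factorization r = m at hm hnm
  have hmx : (r ^ n.factorization r) • (m • x) = 0 := by
    rw [← mul_nsmul', hnm]
    exact hc.expK x
  set δ : K → ZMod (r ^ n.factorization r) := fun y => g (y + x) - g y with hδ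
  have hδm : δ ∈ Dfull n ex A r := (Dfull n ex A r).sub_mem (Dfull_tr n ex A Δ hc r g hg x) hg
  have hsum : ∀ (l : ℕ) (y : K), ∑ s ∈ Finset.range l, δ (y + s • x) = g (y + l • x) - g y := by
    intro l y
    induction l with
    | zero => simp
    | succ l ih =>
      rw [Finset.sum_range_succ, ih, hδ]
      show g (y + l • x) - g y + (g (y + l • x + x) - g (y + l • x)) = _
      rw [succ_nsmul, add_assoc]
      abel
  have key : ∀ t : ℕ, ∀ s : ℕ, s + t = n.factorization r → ∀ y, (r ^ s) • δ y = 0 := by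
    intro t
    induction t with
    | zero =>
      intro s hs y
      rw [Nat.add_zero] at hs
      rw [hs, nsmul_eq_mul]
      have : ((r ^ n.factorization r : ℕ) : ZMod (r ^ n.factorization r)) = 0 := ZMod.natCast_self _
      rw [this, zero_mul]
    | succ t ih =>
      intro s hs y
      have h1 : ∀ y, r • ((r ^ s) • δ y) = 0 := by
        intro y
        rw [← mul_nsmul', ← pow_succ']
        exact ih (s + 1) (by omega) y
      have h2 : ∀ y, ∃ b, inc r (n.factorization r) b = (r ^ s) • δ y := fun y =>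
        inc_surj r _ hr hN _ (h1 y)
      choose h hh using h2
      have h3 : h ∈ Dof n ex A r 0 := by
        rw [mem_Dof]
        refine ⟨(r ^ s) • δ, (Dfull n ex A r).nsmul_mem hδm _, ?_⟩
        intro y
        rw [pow_zero, one_nsmul, hh y]
        rfl
      have h4 : ∀ y, (r ^ s) • δ (y + x) = (r ^ s) • δ y := by
        intro y
        rw [← hh, ← hh, hx h h3 y]
      have h5 : ∀ (l : ℕ) (y : K), (r ^ s) • δ (y + l • x) = (r ^ s) • δ y := by
        intro l y
        induction l with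
        | zero => simp
        | succ l ihl =>
          rw [succ_nsmul, ← add_assoc, h4, ihl]
      have h6 : m • ((r ^ s) • δ y) = 0 := by
        have e1 : ∑ l ∈ Finset.range m, (r ^ s) • δ (y + l • x) = m • ((r ^ s) • δ y) := by
          rw [Finset.sum_congr rfl (fun l _ => h5 l y), Finset.sum_const, Finset.card_range]
        rw [← e1, ← Finset.smul_sum, hsum m y,
          Dfull_inv n ex A Δ hc r hr hi g hg (m • x) ⟨_, hmx⟩ y, sub_self, smul_zero]
      have h7 := h1 y
      have hb := Nat.gcd_eq_gcd_ab m r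
      rw [hm] at hb
      have e2 : (r ^ s) • δ y = (1 : ℤ) • ((r ^ s) • δ y) := (one_zsmul _).symm
      rw [e2]
      have hb' : (1 : ℤ) = Nat.gcdA m r * m + Nat.gcdB m r * r := by
        have : ((1 : ℕ) : ℤ) = 1 := rfl
        rw [← this, hb]
        ring
      rw [hb', add_zsmul, mul_zsmul, mul_zsmul, natCast_zsmul, natCast_zsmul, h6, h7]
      simp
  have hfin := key (n.factorization r) 0 (by omega) y
  rw [pow_zero, one_nsmul] at hfin
  exact sub_eq_zero.1 hfin

end Tr2Aux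

open Tr2Aux in
theorem Tr2 : S_Pow → S_Tr2 := by
  intro hPow n p hn hp k _ _ ex hex K _ _ A Δ hc Λ hΛ
  have hprime : ∀ r ∈ n.primeFactors.erase p, r.Prime := fun r hr =>
    Nat.prime_of_mem_primeFactors (Finset.mem_of_mem_erase hr)
  have hpos : ∀ r ∈ n.primeFactors.erase p, 0 < n.factorization r := by
    intro r hr
    have h1 : r ∈ n.primeFactors := Finset.mem_of_mem_erase hr
    exact (hprime r hr).factorization_pos_of_dvd hn.ne' (Nat.dvd_of_mem_primeFactors h1)
  constructor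
  · exact hc.expK
  · rintro ⟨⟨r, t⟩, hr, ht⟩ h hh z
    change h ∈ Dof n ex A r t at hh
    change (fun y => h (y + z)) ∈ Dof n ex A r t
    rw [mem_Dof] at hh ⊢
    obtain ⟨g, hg, hgh⟩ := hh
    exact ⟨fun y => g (y + z), Dfull_tr n ex A Δ hc r g hg z, fun y => hgh (y + z)⟩
  · rintro ⟨⟨r, t⟩, hr, ht⟩ h hh x hx y
    change h ∈ Dof n ex A r t at hh
    change ∃ j : ℕ, (r ^ j) • x = 0 at hx
    rw [mem_Dof] at hh
    obtain ⟨g, hg, hgh⟩ := hh
    apply inc_inj r _ (hprime r hr) (hpos r hr)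
    rw [← hgh, ← hgh, Dfull_inv n ex A Δ hc r (hprime r hr) (hex r hr).1 g hg x hx y]
  · intro x hx
    apply hc.ff
    intro f hf y
    obtain ⟨g, hg, hfg⟩ := hPow n p hn hp k ex hex K A f hf (hc.expA f hf)
    rw [hfg, hfg]
    apply Finset.prod_congr rfl
    intro r hr
    rw [Dfull_x n hn ex A Δ hc r (hprime r hr) (hpos r hr) (hex r hr).1 x
      (fun h hh y => hx ⟨(r, 0), hr, hpos r hr⟩ h hh y) (g r) (hg r hr) y]
  · exact hΛ

end Pool.Agent.Lib.MP_f44088_fc
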