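import Pool.Agent.Lib.MP_f44088_al.FB4.Spec2

set_option autoImplicit false

namespace Pool.Agent.Lib.MP_f44088_fc

namespace Tr3Aux

/-- elements killed by `r` are in the image of `inc` -/
theorem inc_of_kill (r N : ℕ) (hr : r.Prime) (hN : 0 < N) (x : ZMod (r ^ N)) (hx : r • x = 0) :
    ∃ h : ZMod r, inc r N h = x := by
  have : NeZero (r ^ N) := ⟨pow_ne_zero _ hr.ne_zero⟩
  have h1 : ((r * x.val : ℕ) : ZMod (r ^ N)) = 0 := by
    rw [Nat.cast_mul, ZMod.natCast_zmod_val, ← nsmul_eq_mul]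
    exact hx
  rw [ZMod.natCast_eq_zero_iff] at h1
  have h2 : r ^ N = r * r ^ (N - 1) := by rw [← pow_succ', Nat.sub_add_cancel hN]
  have h3 : r ^ (N - 1) ∣ x.val := by
    have h4 : r * r ^ (N - 1) ∣ r * x.val := by rw [← h2]; exact h1
    exact Nat.dvd_of_mul_dvd_mul_left hr.pos h4
  obtain ⟨c, hc⟩ := h3
  refine ⟨((c : ℤ) : ZMod r), ?_⟩
  unfold inc
  rw [ZMod.lift_coe]
  simp only [zmultiplesHom_apply]
  rw [natCast_zsmul, nsmul_eq_mul]
  have h5 : x = ((r ^ (N - 1) * c : ℕ) : ZMod (r ^ N)) := by rw [← hc, ZMod.natCast_zmod_val]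
  rw [h5]
  push_cast
  ring

theorem full_tr {K k : Type} [Field k] [AddCommGroup K] (n : ℕ)
    (ex : ∀ r : ℕ, ZMod (r ^ n.factorization r) →+ Additive kˣ)
    (A : Subgroup (K → kˣ)) (Δ : Subgroup (kˣ × Multiplicative K)) (hA : IsCode n K k A Δ) (r : ℕ) :
    ∀ f ∈ Dfull n ex A r, ∀ z : K, (fun y => f (y + z)) ∈ Dfull n ex A r := by
  intro f hf z
  exact hA.tr _ hf z

theorem full_inv {K k : Type} [Field k] [AddCommGroup K] (n : ℕ)
    (ex : ∀ r : ℕ, ZMod (r ^ n.factorization r) →+ Additive kˣ)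
    (A : Subgroup (K → kˣ)) (Δ : Subgroup (kˣ × Multiplicative K)) (hA : IsCode n K k A Δ) (r : ℕ)
    (hr : r.Prime) (hinj : Function.Injective (ex r)) :
    ∀ f ∈ Dfull n ex A r, ∀ x : K, (∃ j : ℕ, (r ^ j) • x = 0) → ∀ y, f (y + x) = f y := by
  intro f hf x hx y
  have h1 := hA.ag r hr (fun y => Additive.toMul (ex r (f y))) hf
    ⟨n.factorization r, fun y => by
      have h2 : (r ^ n.factorization r) • f y = 0 := by
        rw [nsmul_eq_mul, ZMod.natCast_self, zero_mul]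
      have h3 : (r ^ n.factorization r) • ex r (f y) = 0 := by rw [← map_nsmul, h2, map_zero]
      exact h3⟩ x hx y
  exact hinj (Additive.toMul.injective h1)

/-- composition with a map -/
def comp {K₁ K₂ S : Type} [AddCommGroup K₁] [AddCommGroup K₂] [AddCommGroup S] (φ : K₁ →+ K₂) :
    (K₂ → S) →+ (K₁ → S) where
  toFun g := fun y => g (φ y)
  map_zero' := rfl
  map_add' _ _ := rfl

end Tr3Aux

open Tr3Aux in
theorem Tr3 : S_Pow → S_ML → S_Tr3 := by
  classical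
  intro hPow hML n p hn hp k _ _ ex he K₁ K₂ _ _ _ _ A₁ Δ₁ A₂ Δ₂ h₁ h₂ m Λ₁ Λ₂ hΛ₁ hΛ₂ φ hφ hc hΛ
  have claim : ∀ r ∈ n.primeFactors.erase p, ∀ f ∈ Dfull n ex A₁ r, ∃ g ∈ Dfull n ex A₂ r,
      ∀ y, f y = g (φ y) := by
    intro r hr f hf
    have hrp : r.Prime := Nat.prime_of_mem_primeFactors (Finset.mem_of_mem_erase hr)
    have hle := hML r (n.factorization r) hrp K₁ (Dfull n ex A₁ r)
      ((Dfull n ex A₂ r).map (comp φ)) (full_tr n ex A₁ Δ₁ h₁ r)
      (by
        rintro _ ⟨g, hg, rfl⟩ z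
        refine ⟨fun y => g (y + φ z), full_tr n ex A₂ Δ₂ h₂ r g hg (φ z), ?_⟩
        funext y
        show g (φ y + φ z) = g (φ (y + z))
        rw [map_add])
      (full_inv n ex A₁ Δ₁ h₁ r hrp (he r hr).1)
      (by
        rintro _ ⟨g, hg, rfl⟩ x ⟨j, hj⟩ y
        show g (φ (y + x)) = g (φ y)
        rw [map_add]
        exact full_inv n ex A₂ Δ₂ h₂ r hrp (he r hr).1 g hg (φ x)
          ⟨j, by rw [← map_nsmul, hj, map_zero]⟩ (φ y))
      (by
        intro t ht f hf hft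
        have hN : 0 < n.factorization r := by omega
        have h3 : ∀ y, ∃ h : ZMod r, inc r (n.factorization r) h = (r ^ t) • f y := by
          intro y
          apply inc_of_kill r _ hrp hN
          rw [← mul_nsmul', ← pow_succ']
          exact congrFun hft y
        choose h hh using h3
        have hD : h ∈ Dof n ex A₁ r t := (mem_Dof n ex A₁ r t h).2 ⟨f, hf, fun y => (hh y).symm⟩
        obtain ⟨h', hh', hhh⟩ := hc ⟨(r, t), hr, ht⟩ h hD
        obtain ⟨g', hg', hgg⟩ := (mem_Dof n ex A₂ r t h').1 hh'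
        refine ⟨comp φ g', ⟨g', hg', rfl⟩, ?_⟩
        funext y
        show (r ^ t) • f y = (r ^ t) • g' (φ y)
        rw [hgg, ← hh, hhh])
    obtain ⟨g, hg, hgf⟩ := hle hf
    exact ⟨g, hg, fun y => (congrFun hgf y).symm⟩
  refine ⟨φ, hφ, ?_, ?_⟩
  · intro f hf
    obtain ⟨g, hg, hfg⟩ := hPow n p hn hp k ex he K₁ A₁ f hf (h₁.expA f hf)
    have key : ∀ r, ∃ g' : K₂ → ZMod (r ^ n.factorization r), (r ∈ n.primeFactors.erase p →
        g' ∈ Dfull n ex A₂ r ∧ ∀ y, g r y = g' (φ y)) := by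
      intro r
      by_cases hr : r ∈ n.primeFactors.erase p
      · obtain ⟨g', hg', hgg⟩ := claim r hr (g r) (hg r hr)
        exact ⟨g', fun _ => ⟨hg', hgg⟩⟩
      · exact ⟨0, fun h => absurd h hr⟩
    choose G hG using key
    refine ⟨∏ r ∈ n.primeFactors.erase p, (fun y => Additive.toMul (ex r (G r y))), ?_, fun y => ?_⟩
    · exact A₂.prod_mem fun r hr => (hG r hr).1
    · rw [hfg y, Finset.prod_apply]
      refine Finset.prod_congr rfl fun r hr => ?_
      rw [(hG r hr).2 y]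
  · intro c x hcx
    rw [hΛ₂ c (φ x), ← hΛ x]
    exact (hΛ₁ c x).1 hcx

end Pool.Agent.Lib.MP_f44088_fc
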