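import Mathlib
import Pool.Agent.Lib.MP_f44088_al.FB4.Spec2

/-! Project FB4 (MP_f44088_al), module WC: well quasi order of the codes. -/

set_option autoImplicit false

namespace Pool.Agent.Lib.MP_f44088_fc

open Pool.Agent.Lib.MP_f44088_fb (Sat InVar FGrp Cls Mono Rich IsChar Lam)

namespace WCAux

/-- the number of the scalars of a code is at most `n` -/
theorem card_le (n : ℕ) (hn : 0 < n) (k : Type) [Field k] (c : Code n k) :
    Nat.card {z : kˣ // (z, (1 : Multiplicative c.K)) ∈ c.D} ≤ n := by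
  have : NeZero n := ⟨hn.ne'⟩
  have h : ∀ z : {z : kˣ // (z, (1 : Multiplicative c.K)) ∈ c.D}, z.1 ∈ rootsOfUnity n k := by
    intro z
    rw [mem_rootsOfUnity]
    exact c.ok.expD z.1 1 z.2
  have h2 : Nat.card {z : kˣ // (z, (1 : Multiplicative c.K)) ∈ c.D} ≤ Nat.card (rootsOfUnity n k) :=
    Nat.card_le_card_of_injective
      (fun z : {z : kˣ // (z, (1 : Multiplicative c.K)) ∈ c.D} => (⟨z.1, h z⟩ : rootsOfUnity n k))
      (fun a b hab => Subtype.ext (congrArg (fun x : rootsOfUnity n k => (x : kˣ)) hab))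
  refine h2.trans ?_
  exact card_rootsOfUnity k n

end WCAux

/-- **(WC)** Well quasi order of the codes. -/
theorem WC : S_Tr1 → S_Tr2 → S_Lmd → S_Tr3 → S_WD → S_WC := by
  intro h1 h2 hL h3 hw n hn p hp k _ _ _ c
  obtain ⟨ex, hex⟩ := h1 n p hp k
  have hQ : Finite (QQ n p) := finite_QQ n p
  obtain ⟨s, hs, a, ha⟩ := exists_const_subseq (fun i : ℕ =>
    (⟨Nat.card {z : kˣ // (z, (1 : Multiplicative (c i).K)) ∈ (c i).D},
      Nat.lt_succ_of_le (WCAux.card_le n hn k (c i))⟩ : Fin (n + 1)))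
  have ha' : ∀ i, Nat.card {z : kˣ // (z, (1 : Multiplicative (c (s i)).K)) ∈ (c (s i)).D} = a.val :=
    fun i => congrArg Fin.val (ha i)
  have hL' : ∀ i : ℕ, ∃ Λ : (c i).K → k, IsChar Λ ∧ ∀ (z : kˣ) (x : (c i).K),
      ((z, Multiplicative.ofAdd x) ∈ (c i).D ↔
      (z : k) ^ (Nat.card {z : kˣ // (z, (1 : Multiplicative (c i).K)) ∈ (c i).D}) = Λ x) :=
    fun i => hL n hn (c i).K k (c i).A (c i).D (c i).ok
  choose Λ hΛ hΛ' using hL'
  let d : ℕ → DCode n (QQ n p) (fun q => q.1.1) k := fun i =>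
    { K := (c (s i)).K
      grp := (c (s i)).grp
      fin := (c (s i)).fin
      D := fun q => Dof n ex (c (s i)).A q.1.1 q.1.2
      Λ := Λ (s i)
      ok := h2 n p hn hp k ex hex (c (s i)).K (c (s i)).A (c (s i)).D (c (s i)).ok (Λ (s i)) (hΛ (s i)) }
  obtain ⟨i, j, hij, φ, hφ, hD, hl⟩ := hw n hn p hp k (QQ n p) (fun q => q.1.1)
    (fun q => Nat.prime_of_mem_primeFactors (Finset.mem_of_mem_erase q.2.1)) d
  refine ⟨s i, s j, hs hij, h3 n p hn hp k ex hex (c (s i)).K (c (s j)).K (c (s i)).A (c (s i)).D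
    (c (s j)).A (c (s j)).D (c (s i)).ok (c (s j)).ok a.val (Λ (s i)) (Λ (s j)) ?_ ?_ φ hφ hD hl⟩
  · intro z x
    rw [← ha' i]
    exact hΛ' (s i) z x
  · intro z x
    rw [← ha' j]
    exact hΛ' (s j) z x

end Pool.Agent.Lib.MP_f44088_fc
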