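import Mathlib
import Pool.Agent.Lib.MP_f44088_al.FB4.Spec2

/-! Project FB4 (MP_f44088_al), module WD: well quasi order of the additive codes. -/

set_option autoImplicit false

namespace Pool.Agent.Lib.MP_f44088_fc

open Pool.Agent.Lib.MP_f44088_fb (Sat InVar FGrp Cls Mono Rich IsChar Lam)

namespace WDAux

/-- the finitely supported functions which vanish from `D` on form a finite set -/
theorem fin1 (m D : ℕ) [NeZero m] : {l : ℕ →₀ ZMod m | ∀ s, D ≤ s → l s = 0}.Finite := by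
  have hinj : Function.Injective
      (fun (l : {l : ℕ →₀ ZMod m | ∀ s, D ≤ s → l s = 0}) => fun s : Fin D => l.1 s) := by
    intro l l' h
    apply Subtype.ext
    apply Finsupp.ext
    intro s
    by_cases hs : s < D
    · exact congrFun h ⟨s, hs⟩
    · rw [l.2 s (not_lt.1 hs), l'.2 s (not_lt.1 hs)]
  have : Finite {l : ℕ →₀ ZMod m | ∀ s, D ≤ s → l s = 0} := Finite.of_injective _ hinj
  exact Set.toFinite _

/-- the vectors of logarithms form a finite set -/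
theorem fin2 (n : ℕ) (hn : 0 < n) (D : Idx n → ℕ) :
    {l : ∀ a : Idx n, (ℕ →₀ ZMod (a.1.1 ^ a.1.2)) | ∀ a s, D a ≤ s → l a s = 0}.Finite := by
  have hI : Finite (Idx n) := finite_Idx n hn
  have h := Set.Finite.pi' (t := fun a : Idx n => {l : ℕ →₀ ZMod (a.1.1 ^ a.1.2) | ∀ s, D a ≤ s → l s = 0})
    (fun a => by
      have : NeZero (a.1.1 ^ a.1.2) := ⟨pow_ne_zero _ a.2.1.ne_zero⟩
      exact fin1 _ _)
  exact h

end WDAux

open WDAux in
/-- **(WD)** Well quasi order of the additive codes. -/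
theorem WD : S_LW → S_Coo → S_Dual → S_Ch → S_F1 → O_F2 → S_WD := by
  intro hLW hCoo hDual hCh hF1 hF2 n hn p hp k _ _ _ Q _ rr hrr d
  have hI : Finite (Idx n) := finite_Idx n hn
  have hpC : ∀ c : Q, Fact (rr c).Prime := fun c => ⟨hrr c⟩
  have hCh' : ∀ c : Q, ∃ E : ∀ a : Idx n, ZMod (a.1.1 ^ a.1.2) → AlgebraicClosure (ZMod (rr c)),
      ∀ (K : Type) [AddCommGroup K] [Finite K] (co : Coord n K)
      (χ : K → AlgebraicClosure (ZMod (rr c))), IsChar χ →
      ∃ l : ∀ a : Idx n, (ℕ →₀ ZMod (a.1.1 ^ a.1.2)), (∀ a s, co.d a ≤ s → l a s = 0) ∧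
        ∀ y, χ y = ∏ᶠ a : Idx n, E a (co.pair a (l a) y) :=
    fun c => hCh n hn (rr c) (hrr c) (AlgebraicClosure (ZMod (rr c)))
  choose E hE using hCh'
  obtain ⟨E0, hE0⟩ := hCh n hn p hp k
  have hco : ∀ i, Nonempty (Coord n (d i).K) := fun i => hCoo n hn (d i).K (d i).ok.expK
  let co : ∀ i, Coord n (d i).K := fun i => (hco i).some
  have hlog : ∀ (i : ℕ) (c : Q) (χ : Lam (F := AlgebraicClosure (ZMod (rr c))) ((d i).D c)),
      ∃ l : ∀ a : Idx n, (ℕ →₀ ZMod (a.1.1 ^ a.1.2)), (∀ a s, (co i).d a ≤ s → l a s = 0) ∧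
        ∀ y, χ.1 y = ∏ᶠ a : Idx n, E c a ((co i).pair a (l a) y) :=
    fun i c χ => hE c (d i).K (co i) χ.1 χ.2.1
  choose l hl0 hl using hlog
  have hlog0 : ∀ i : ℕ,
      ∃ l : ∀ a : Idx n, (ℕ →₀ ZMod (a.1.1 ^ a.1.2)), (∀ a s, (co i).d a ≤ s → l a s = 0) ∧
        ∀ y, (d i).Λ y = ∏ᶠ a : Idx n, E0 a ((co i).pair a (l a) y) :=
    fun i => hE0 (d i).K (co i) (d i).Λ (d i).ok.ch
  choose l0 hl00 hl0' using hlog0
  let Z : ℕ → Option Q → Set (∀ a : Idx n, ℕ →₀ ZMod (a.1.1 ^ a.1.2)) := fun i c =>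
    match c with
    | none => {l0 i}
    | some c => Set.range (fun χ : Lam (F := AlgebraicClosure (ZMod (rr c))) ((d i).D c) => l i c χ)
  have hZ : ∀ i c, (Z i c).Finite := by
    intro i c
    match c with
    | none => exact Set.finite_singleton _
    | some c =>
      refine (fin2 n hn (co i).d).subset ?_
      rintro z ⟨χ, rfl⟩
      exact hl0 i c χ
  obtain ⟨i, j, hij, π, hπ⟩ := hLW (Idx n) (fun a => a.1.1) (fun a => a.1.2) (fun a => a.2.1)
    (fun a => a.2.2.1.ne') (Option Q) Z hZ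
  obtain ⟨φ, hφ⟩ := hDual n (d i).K (d j).K (co i) (co j) π
  have key : ∀ c, ∀ f ∈ (d i).D c, ∃ g ∈ (d j).D c, ∀ y, f y = g (φ y) := by
    intro c
    refine hF2 (rr c) (hrr c) (AlgebraicClosure (ZMod (rr c))) (d i).K (d j).K φ ((d i).D c)
      ((d j).D c) ?_ ?_
    · exact hF1 (rr c) (hrr c) (AlgebraicClosure (ZMod (rr c))) (d i).K ((d i).D c)
        ((d i).ok.tr c) ((d i).ok.rinv c)
    · intro χ hχ
      obtain ⟨z', ⟨χ', rfl⟩, hz'⟩ := hπ (some c) (l i c ⟨χ, hχ⟩) ⟨⟨χ, hχ⟩, rfl⟩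
      refine ⟨χ'.1, χ'.2, fun y => ?_⟩
      have e1 := hl i c ⟨χ, hχ⟩ y
      have e2 := hl j c χ' (φ y)
      change χ y = _ at e1
      rw [e1, e2]
      refine finprod_congr fun a => ?_
      rw [hφ a (l j c χ' a) (hl0 j c χ' a) y]
      exact congrArg (fun t => E c a ((co i).pair a t y)) (hz' a).symm
  refine ⟨i, j, hij, φ, ?_, key, ?_⟩
  · rw [injective_iff_map_eq_zero]
    intro x hx
    refine (d i).ok.ff x fun c f hf y => ?_
    obtain ⟨g, _, hg⟩ := key c f hf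
    rw [hg, hg, map_add, hx, add_zero]
  · intro y
    obtain ⟨z', hz0, hz'⟩ := hπ none (l0 i) rfl
    have hz1 : z' = l0 j := hz0
    subst hz1
    rw [hl0' i y, hl0' j (φ y)]
    refine finprod_congr fun a => ?_
    rw [hφ a (l0 j a) (hl00 j a) y]
    exact congrArg (fun t => E0 a ((co i).pair a t y)) (hz' a).symm

end Pool.Agent.Lib.MP_f44088_fc
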