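import Pool.Agent.Lib.MP_f44088_al.FB3.FgF
import Pool.Agent.Lib.MP_f44088_al.FB3.D3
import Pool.Agent.Lib.MP_f44088_al.FB3.Two
import Pool.Agent.Lib.MP_f44088_al.FB3.Seq
import Pool.Agent.Lib.MP_f44088_al.FB3.Fa
import Pool.Agent.Lib.MP_f44088_al.FB3.Fb
import Pool.Agent.Lib.MP_f44088_al.FB3.Conj
import Pool.Agent.Lib.MP_f44088_al.FB3.Spn
import Pool.Agent.Lib.MP_f44088_al.FB3.RM
import Pool.Agent.Lib.MP_f44088_al.FB3.Joint
import Pool.Agent.Lib.MP_f44088_al.FB3.Ger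
import Pool.Agent.Lib.MP_f44088_al.FB3.F2
import Pool.Agent.Lib.MP_f44088_al.FB4.Exp
import Pool.Agent.Lib.MP_f44088_al.FB4.Main
import Pool.Agent.Lib.MP_f44088_al.FB4.Fin
import Pool.Agent.Lib.MP_f44088_al.FB4.Fit
import Pool.Agent.Lib.MP_f44088_al.FB4.Hm
import Pool.Agent.Lib.MP_f44088_al.FB4.EU
import Pool.Agent.Lib.MP_f44088_al.FB4.Br
import Pool.Agent.Lib.MP_f44088_al.FB4.Kin
import Pool.Agent.Lib.MP_f44088_al.FB4.Dec
import Pool.Agent.Lib.MP_f44088_al.FB4.Mol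
import Pool.Agent.Lib.MP_f44088_al.FB4.GR
import Pool.Agent.Lib.MP_f44088_al.FB4.Dua
import Pool.Agent.Lib.MP_f44088_al.FB4.Prj
import Pool.Agent.Lib.MP_f44088_al.FB4.Ex
import Pool.Agent.Lib.MP_f44088_al.FB4.Eig
import Pool.Agent.Lib.MP_f44088_al.FB4.Quo
import Pool.Agent.Lib.MP_f44088_al.FB4.Emb
import Pool.Agent.Lib.MP_f44088_al.FB4.Lin
import Pool.Agent.Lib.MP_f44088_al.FB4.Spn
import Pool.Agent.Lib.MP_f44088_al.FB4.Rep
import Pool.Agent.Lib.MP_f44088_al.FB4.Cod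
import Pool.Agent.Lib.MP_f44088_al.FB4.Sec
import Pool.Agent.Lib.MP_f44088_al.FB4.Str
import Pool.Agent.Lib.MP_f44088_al.FB4.Pur
import Pool.Agent.Lib.MP_f44088_al.FB4.Lif
import Pool.Agent.Lib.MP_f44088_al.FB4.LW
import Pool.Agent.Lib.MP_f44088_al.FB4.Coo
import Pool.Agent.Lib.MP_f44088_al.FB4.Dual
import Pool.Agent.Lib.MP_f44088_al.FB4.Ch
import Pool.Agent.Lib.MP_f44088_al.FB4.F1
import Pool.Agent.Lib.MP_f44088_al.FB4.WD
import Pool.Agent.Lib.MP_f44088_al.FB4.Reg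
import Pool.Agent.Lib.MP_f44088_al.FB4.ML0
import Pool.Agent.Lib.MP_f44088_al.FB4.ML
import Pool.Agent.Lib.MP_f44088_al.FB4.Tr1
import Pool.Agent.Lib.MP_f44088_al.FB4.Pow
import Pool.Agent.Lib.MP_f44088_al.FB4.Tr2
import Pool.Agent.Lib.MP_f44088_al.FB4.Lmd
import Pool.Agent.Lib.MP_f44088_al.FB4.Tr3
import Pool.Agent.Lib.MP_f44088_al.FB4.WC

/-! Project FB4 (MP_f44088_al): assembly. -/

set_option autoImplicit false

namespace Pool.Agent.Lib.MP_f44088_fc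

theorem old_Seq : O_Seq := Pool.Agent.Lib.MP_f44088_fb.Seq Pool.Agent.Lib.MP_f44088_fb.FgF Pool.Agent.Lib.MP_f44088_fb.D3 Pool.Agent.Lib.MP_f44088_fb.Two
theorem old_Fa : O_Fa := Pool.Agent.Lib.MP_f44088_fb.Fa
theorem old_Fb : O_Fb := Pool.Agent.Lib.MP_f44088_fb.Fb
theorem old_Conj : O_Conj := Pool.Agent.Lib.MP_f44088_fb.Conj
theorem old_Spn : O_Spn := Pool.Agent.Lib.MP_f44088_fb.Spn
theorem old_RM : O_RM := Pool.Agent.Lib.MP_f44088_fb.RM
theorem old_Joint : O_Joint := Pool.Agent.Lib.MP_f44088_fb.Joint old_RM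
theorem old_Ger : O_Ger := Pool.Agent.Lib.MP_f44088_fb.Ger
theorem old_F2 : O_F2 := Pool.Agent.Lib.MP_f44088_fb.F2
theorem all_Exp : S_Exp := Exp
theorem all_Fit : S_Fit := Fit old_Fa old_Fb
theorem all_Hm : S_Hm := Hm
theorem all_EU : S_EU := EU
theorem all_Br : S_Br := Br old_Conj all_EU
theorem all_Kin : S_Kin := Kin
theorem all_Dec : S_Dec := Dec all_Br all_Kin
theorem all_Mol : S_Mol := Mol
theorem all_Dua : S_Dua := Dua
theorem all_Prj : S_Prj := Prj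
theorem all_Ex : S_Ex := Ex
theorem all_Eig : S_Eig := Eig all_Dua all_Prj all_Ex
theorem all_Quo : S_Quo := Quo
theorem all_Emb : S_Emb := Emb
theorem all_Lin : S_Lin := Lin
theorem all_Spn : S_Spn := Spn old_Spn
theorem all_Rep : S_Rep := Rep all_Eig all_Quo all_Emb all_Lin all_Spn
theorem all_Cod : S_Cod := Cod all_Fit all_Hm all_Dec all_Mol all_Rep
theorem all_GR : S_GR := GR
theorem all_Sec : S_Sec := Sec
theorem all_Tr1 : S_Tr1 := Tr1
theorem all_Pow : S_Pow := Pow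
theorem all_Tr2 : S_Tr2 := Tr2 all_Pow
theorem all_Lmd : S_Lmd := Lmd
theorem all_Reg : S_Reg := Reg
theorem all_ML0 : S_ML0 := ML0 all_Reg
theorem all_ML : S_ML := ML all_ML0
theorem all_Tr3 : S_Tr3 := Tr3 all_Pow all_ML
theorem all_Str : S_Str := Str old_RM
theorem all_Pur : S_Pur := Pur
theorem all_Lif : S_Lif := Lif
theorem all_LW : S_LW := LW all_Str all_Pur all_Lif old_RM old_Joint old_Ger
theorem all_Coo : S_Coo := Coo
theorem all_Dual : S_Dual := Dual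
theorem all_Ch : S_Ch := Ch
theorem all_F1 : S_F1 := F1
theorem all_WD : S_WD := WD all_LW all_Coo all_Dual all_Ch all_F1 old_F2
theorem all_WC : S_WC := WC all_Tr1 all_Tr2 all_Lmd all_Tr3 all_WD
theorem all_Main : S_Main := Main all_Cod all_GR all_Sec all_WC
theorem all_Fin : S_Fin := Fin all_Exp old_Seq all_Main

end Pool.Agent.Lib.MP_f44088_fc
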