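import Mathlib
import Pool.Agent.Lib.MP_f44088_al.FB4.Spec

/-! Project FB4 (MP_f44088_al): codes of monolithic groups. -/

set_option autoImplicit false

namespace Pool.Agent.Lib.MP_f44088_fc

open Pool.Agent.Lib.MP_f44088_fb (Sat InVar FGrp Cls Mono Rich IsChar Lam)
open scoped commutatorElement

namespace CodAux

/-- the decomposition `G = F B D` of a group in two steps -/
theorem setup_of {n p e : ℕ} {G : Type} [Group G] [Finite G] {F H : Subgroup G} {B D : Subgroup H}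
    (hp : p.Prime) (hFn : F.Normal) (hFab : ∀ x ∈ F, ∀ y ∈ F, x * y = y * x)
    (hFe : ∀ x ∈ F, x ^ (p ^ e) = 1)
    (hmono : ∃ x ∈ F, x ^ (p ^ (e - 1)) ≠ 1 ∧
      ∀ N : Subgroup G, N.Normal → N ≠ ⊥ → x ^ (p ^ (e - 1)) ∈ N)
    (hFc : ∀ g : G, (∀ x ∈ F, g * x = x * g) → g ∈ F) (hH : Subgroup.IsComplement' F H)
    (hBn : B.Normal) (hBD : Subgroup.IsComplement' B D) (hBab : ∀ x ∈ B, ∀ y ∈ B, x * y = y * x)
    (hDab : ∀ x ∈ D, ∀ y ∈ D, x * y = y * x) (hFi : ¬ p ∣ F.index) (hC : Cls n G) :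
    Setup n p e G F (B.map H.subtype) (D.map H.subtype) where
  normF := hFn
  abF := hFab
  expF := hFe
  mono := hmono
  faith := hFc
  abB := by
    rintro _ ⟨x, hx, rfl⟩ _ ⟨y, hy, rfl⟩
    exact congrArg H.subtype (hBab x hx y hy)
  abD := by
    rintro _ ⟨x, hx, rfl⟩ _ ⟨y, hy, rfl⟩
    exact congrArg H.subtype (hDab x hx y hy)
  nor := by
    rintro _ ⟨y, _, rfl⟩ _ ⟨a, ha, rfl⟩
    exact ⟨y * a * y⁻¹, hBn.conj_mem a ha y, rfl⟩
  dec := by
    intro g
    obtain ⟨⟨x, h⟩, hxh⟩ := hH.2 g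
    obtain ⟨⟨a, y⟩, hay⟩ := hBD.2 ⟨h, h.2⟩
    refine ⟨x, x.2, H.subtype a, ⟨a, a.2, rfl⟩, H.subtype y, ⟨y, y.2, rfl⟩, ?_⟩
    have h1 : ((a : H) : G) * ((y : H) : G) = h := congrArg H.subtype hay
    have h2 : (x : G) * (h : G) = g := hxh
    rw [← h2, ← h1]
    simp only [Subgroup.coe_subtype, mul_assoc]
  uni := by
    rintro x hx _ ⟨a, ha, rfl⟩ _ ⟨y, hy, rfl⟩ h
    have h0 : x * ((a * y : H) : G) = 1 := by
      rw [← h]
      simp [mul_assoc]
    have h1 : ((a * y : H) : G) ∈ F := by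
      have : ((a * y : H) : G) = x⁻¹ := (eq_inv_of_mul_eq_one_right h0)
      rw [this]
      exact F.inv_mem hx
    have h2 : ((a * y : H) : G) = 1 := by
      have h3 := hH.disjoint.le_bot (show ((a * y : H) : G) ∈ F ⊓ H from ⟨h1, (a * y : H).2⟩)
      simpa using h3
    have h4 : a * y = 1 := by
      apply Subtype.ext
      exact h2
    have h5 : a = 1 := by
      have h6 : a ∈ D := by
        rw [eq_inv_of_mul_eq_one_left h4]
        exact D.inv_mem hy
      have h7 := hBD.disjoint.le_bot (show a ∈ B ⊓ D from ⟨ha, h6⟩)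
      simpa using h7
    have h8 : y = 1 := by
      rw [h5, one_mul] at h4
      exact h4
    refine ⟨?_, ?_, ?_⟩
    · rw [h2, mul_one] at h0
      exact h0
    · rw [h5]
      simp
    · rw [h8]
      simp
  cop := by
    have hi : F.index = Nat.card H := hH.symm.index_eq_card
    have hpow : ∀ h : H, h ^ Nat.card H = 1 := fun h => pow_card_eq_one'
    refine ⟨Nat.card H, ?_, ?_, ?_⟩
    · rw [← hi]
      exact ((Nat.Prime.coprime_iff_not_dvd hp).2 hFi).symm
    · rintro _ ⟨x, _, rfl⟩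
      rw [← map_pow, hpow, map_one]
    · rintro _ ⟨x, _, rfl⟩
      rw [← map_pow, hpow, map_one]
  expG := hC.1
  ag := hC.2.2

end CodAux

theorem Cod : S_Fit → S_Hm → S_Dec → S_Mol → S_Rep → S_Cod := by
  intro hFit hHm hDec hMol hRep n hn G _ _ hC hM
  obtain ⟨p, hp, F, hFn, hFne, hFp, hFab, hFc, hFi⟩ := hFit n hn G hC hM
  have hpp : p.Prime := Nat.prime_of_mem_primeFactors hp
  obtain ⟨e, he, hdvd, hFe, hmono⟩ := hMol n hn G hC.1 hM p hpp F hFn hFne hFp hFab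
  refine ⟨p, hp, e, he, hdvd, ?_⟩
  intro k _ _ _ R _ gr
  have hcop : (Nat.card F).Coprime F.index := by
    have : Fact p.Prime := ⟨hpp⟩
    obtain ⟨j, hj⟩ := IsPGroup.iff_card.1 hFp
    rw [hj]
    exact Nat.Coprime.pow_left _ ((Nat.Prime.coprime_iff_not_dvd hpp).2 hFi)
  have := hFn
  obtain ⟨H, hH⟩ := Subgroup.exists_right_complement'_of_coprime hcop
  have hder : derivedSeries H 2 = ⊥ := hHm G hM hC.2.1 p hpp F H hFn hFne hFp hFab hH hFi hFc
  have hag : ∀ q : ℕ, q.Prime → ∀ P : Subgroup H, IsPGroup q P → ∀ x ∈ P, ∀ y ∈ P,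
      x * y = y * x := by
    intro q hq P hP x hx y hy
    apply Subtype.ext
    exact hC.2.2 q hq (P.map H.subtype) (hP.map _) x ⟨x, hx, rfl⟩ y ⟨y, hy, rfl⟩
  obtain ⟨D, hBD, hDab⟩ := hDec H hder hag
  have hBab : ∀ x ∈ commutator H, ∀ y ∈ commutator H, x * y = y * x := by
    intro x hx y hy
    have h1 : ⁅x, y⁆ ∈ derivedSeries H 2 := by
      have h2 : derivedSeries H 1 = commutator H := derivedSeries_one H
      rw [derivedSeries_succ]
      rw [h2]
      exact Subgroup.commutator_mem_commutator hx hy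
    rw [hder, Subgroup.mem_bot, commutatorElement_eq_one_iff_mul_comm] at h1
    exact h1
  exact hRep n p e hpp he G F _ _
    (CodAux.setup_of hpp hFn hFab hFe hmono hFc hH inferInstance hBD hBab hDab hFi hC) k R gr

end Pool.Agent.Lib.MP_f44088_fc
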