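import Pool.Agent.Lib.MP_f44088_al.FB3.Seq
import Pool.Agent.Lib.MP_f44088_al.FB3.D3

/-! Project FB4 (MP_f44088_al): a finite soluble group with abelian Sylow subgroups whose order has at most `k` prime
divisors has derived length at most `k`. -/

set_option autoImplicit false

namespace Pool.Agent.Lib.MP_f44088_fc

open Pool.Agent.Lib.MP_f44088_fb (Sat InVar FGrp Cls Mono inVar_of_injective)
open Pool.Agent.Lib.MP_f44088_fb.SeqAux (card_quot letters map_lift sat_inVar)

open scoped commutatorElement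

namespace DLAux

/-- all `p`-subgroups are abelian -/
def AG (G : Type) [Group G] : Prop :=
  ∀ p : ℕ, p.Prime → ∀ P : Subgroup G, IsPGroup p P → ∀ x ∈ P, ∀ y ∈ P, x * y = y * x

theorem ag_quot {G : Type} [Group G] [Finite G] (h : AG G) (N : Subgroup G) [N.Normal] :
    AG (G ⧸ N) := by
  intro p hp Q hQ x hx y hy
  have : Fact p.Prime := ⟨hp⟩
  have hsurj : Function.Surjective (QuotientGroup.mk' N) := QuotientGroup.mk'_surjective N
  let f : (Q.comap (QuotientGroup.mk' N)) →* Q := (QuotientGroup.mk' N).subgroupComap Q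
  have hf : Function.Surjective f :=
    MonoidHom.subgroupComap_surjective_of_surjective (QuotientGroup.mk' N) Q hsurj
  let P0 : Sylow p (Q.comap (QuotientGroup.mk' N)) := default
  let S : Sylow p Q := P0.mapSurjective hf
  have hT : IsPGroup p (⊤ : Subgroup Q) := hQ.to_subgroup ⊤
  have hS : (⊤ : Subgroup Q) = S := S.is_maximal' hT le_top
  have key : ∀ q : Q, ∃ g : (Q.comap (QuotientGroup.mk' N)), g ∈ P0 ∧ f g = q := by
    intro q
    have h1 : q ∈ (S : Subgroup Q) := by
      rw [← hS]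
      exact Subgroup.mem_top _
    have h2 : (S : Subgroup Q) = (P0 : Subgroup _).map f := Sylow.coe_mapSurjective hf P0
    rw [h2] at h1
    obtain ⟨g, hg, rfl⟩ := h1
    exact ⟨g, hg, rfl⟩
  obtain ⟨a, ha, hax⟩ := key ⟨x, hx⟩
  obtain ⟨b, hb, hby⟩ := key ⟨y, hy⟩
  have hP1 : IsPGroup p ((P0 : Subgroup _).map (Q.comap (QuotientGroup.mk' N)).subtype) :=
    P0.isPGroup'.map _
  have hc := h p hp _ hP1 a.1 ⟨a, ha, rfl⟩ b.1 ⟨b, hb, rfl⟩
  have hx1 : QuotientGroup.mk' N a.1 = x := congrArg Subtype.val hax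
  have hy1 : QuotientGroup.mk' N b.1 = y := congrArg Subtype.val hby
  rw [← hx1, ← hy1, ← map_mul, hc, map_mul]

theorem ag_sub {G : Type} [Group G] (h : AG G) (H : Subgroup G) : AG H := by
  intro p hp P hP x hx y hy
  have h1 : IsPGroup p (P.map H.subtype) := hP.map _
  have h2 := h p hp _ h1 x.1 ⟨x, hx, rfl⟩ y.1 ⟨y, hy, rfl⟩
  exact Subtype.ext h2

theorem der_le {G : Type} [Group G] (N : Subgroup G) [N.Normal] (k : ℕ)
    (h : derivedSeries (G ⧸ N) k = ⊥) : derivedSeries G k ≤ N := by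
  intro x hx
  have h1 := map_derivedSeries_le_derivedSeries (QuotientGroup.mk' N) k
  have h2 : QuotientGroup.mk' N x ∈ derivedSeries (G ⧸ N) k := h1 ⟨x, hx, rfl⟩
  rw [h, Subgroup.mem_bot] at h2
  exact (QuotientGroup.eq_one_iff x).1 h2

theorem primes_quot {G : Type} [Group G] [Finite G] (N : Subgroup G) :
    (Nat.card (G ⧸ N)).primeFactors ⊆ (Nat.card G).primeFactors :=
  Nat.primeFactors_mono N.card_quotient_dvd_card Nat.card_pos.ne'

/-- a normal abelian `p`-subgroup which is not trivial -/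
theorem exists_normal_p {G : Type} [Group G] [Finite G] [Group.IsSolvable G] [Nontrivial G] :
    ∃ p : ℕ, p.Prime ∧ ∃ A : Subgroup G, A.Normal ∧ A ≠ ⊥ ∧ IsPGroup p A := by
  classical
  have hex : ∃ n, derivedSeries G n = ⊥ := Group.IsSolvable.solvable
  have h0 : Nat.find hex ≠ 0 := by
    intro h
    have h1 := Nat.find_spec hex
    rw [h, derivedSeries_zero] at h1
    exact top_ne_bot h1
  obtain ⟨m, hm⟩ := Nat.exists_eq_succ_of_ne_zero h0
  have hD1 : derivedSeries G m ≠ ⊥ := Nat.find_min hex (by omega)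
  have hD2 : derivedSeries G (m + 1) = ⊥ := by
    have h1 := Nat.find_spec hex
    rw [hm] at h1
    exact h1
  have hab : ∀ x ∈ derivedSeries G m, ∀ y ∈ derivedSeries G m, x * y = y * x := by
    intro x hx y hy
    have h1 : ⁅x, y⁆ ∈ derivedSeries G (m + 1) := by
      rw [derivedSeries_succ]
      exact Subgroup.commutator_mem_commutator hx hy
    rw [hD2, Subgroup.mem_bot] at h1
    exact commutatorElement_eq_one_iff_mul_comm.1 h1
  have hex1 : ∃ x : G, x ∈ derivedSeries G m ∧ x ≠ 1 := by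
    by_contra hcon
    apply hD1
    rw [eq_bot_iff]
    intro x hx
    rw [Subgroup.mem_bot]
    by_contra hx1
    exact hcon ⟨x, hx, hx1⟩
  obtain ⟨x, hx, hx1⟩ := hex1
  have ho : orderOf x ≠ 1 := fun h => hx1 (orderOf_eq_one_iff.1 h)
  obtain ⟨p, hp, hpd⟩ := Nat.exists_prime_and_dvd ho
  have hpos : 0 < orderOf x := orderOf_pos x
  have hy : orderOf (x ^ (orderOf x / p)) = p := by
    rw [orderOf_pow_of_dvd (Nat.div_pos (Nat.le_of_dvd hpos hpd) hp.pos).ne' (Nat.div_dvd_of_dvd hpd),
      Nat.div_div_self hpd hpos.ne']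
  refine ⟨p, hp, ?_⟩
  let A : Subgroup G :=
    { carrier := {z | z ∈ derivedSeries G m ∧ ∃ j : ℕ, z ^ (p ^ j) = 1}
      one_mem' := ⟨one_mem _, 0, one_pow _⟩
      mul_mem' := by
        rintro a b ⟨ha, i, hi⟩ ⟨hb, j, hj⟩
        refine ⟨mul_mem ha hb, i + j, ?_⟩
        have hc : Commute a b := hab a ha b hb
        rw [hc.mul_pow, pow_add, pow_mul, hi, one_pow, one_mul, mul_comm (p ^ i), pow_mul, hj,
          one_pow]
      inv_mem' := by
        rintro a ⟨ha, i, hi⟩
        exact ⟨inv_mem ha, i, by rw [inv_pow, hi, inv_one]⟩ }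
  refine ⟨A, ⟨?_⟩, ?_, ?_⟩
  · rintro a ⟨ha, i, hi⟩ g
    refine ⟨(derivedSeries_normal G m).conj_mem a ha g, i, ?_⟩
    rw [conj_pow, hi, mul_one, mul_inv_cancel]
  · intro hA
    have h1 : x ^ (orderOf x / p) ∈ A := by
      refine ⟨pow_mem hx _, 1, ?_⟩
      rw [pow_one]
      nth_rewrite 2 [← hy]
      exact pow_orderOf_eq_one _
    rw [hA, Subgroup.mem_bot] at h1
    rw [h1, orderOf_one] at hy
    exact hp.one_lt.ne hy
  · rintro ⟨a, ha, i, hi⟩
    exact ⟨i, Subtype.ext hi⟩

/-- transfer: a central `p`-element in the commutator subgroup of a group with abelian Sylow `p`-subgroup -/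
theorem central_eq_one {C : Type} [Group C] [Finite C] (p : ℕ) (hp : p.Prime) (P : Subgroup C)
    (hab : ∀ x ∈ P, ∀ y ∈ P, x * y = y * x) (hP : ¬ p ∣ P.index) (z : C) (hz : ∀ g, z * g = g * z)
    (hz1 : ∃ j : ℕ, z ^ (p ^ j) = 1) (hz2 : z ∈ commutator C) : z = 1 := by
  let : CommGroup P :=
    { (inferInstance : Group P) with mul_comm := fun a b => Subtype.ext (hab a.1 a.2 b.1 b.2) }
  have hzk : ∀ (k : ℕ) (g : C), g⁻¹ * z ^ k * g = z ^ k := by
    intro k g
    have h1 : Commute (z ^ k) g := (show Commute z g from hz g).pow_left k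
    rw [mul_assoc, h1.eq, inv_mul_cancel_left]
  have h1 : MonoidHom.transfer (MonoidHom.id P) z = 1 := by
    have h2 := Abelianization.commutator_subset_ker (MonoidHom.transfer (MonoidHom.id P)) hz2
    exact h2
  rw [MonoidHom.transfer_eq_pow (MonoidHom.id P) z (fun k g _ => hzk k g)] at h1
  have h3 : z ^ P.index = 1 := congrArg Subtype.val h1
  obtain ⟨j, hj⟩ := hz1
  have h4 : orderOf z ∣ P.index := orderOf_dvd_of_pow_eq_one h3
  have h5 : orderOf z ∣ p ^ j := orderOf_dvd_of_pow_eq_one hj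
  obtain ⟨i, _, hi⟩ := (Nat.dvd_prime_pow hp).1 h5
  rcases Nat.eq_zero_or_pos i with h | h
  · rw [h, pow_zero] at hi
    exact orderOf_eq_one_iff.1 hi
  · exact absurd (((dvd_pow_self p h.ne').trans (hi ▸ dvd_rfl)).trans h4) hP

/-- a monolithic soluble group with abelian Sylow subgroups has a normal Sylow subgroup -/
theorem mono_sylow {G : Type} [Group G] [Finite G] [Group.IsSolvable G] (hM : Mono G) (hG : AG G) :
    ∃ p : ℕ, p.Prime ∧ ∃ P : Subgroup G, P.Normal ∧ P ≠ ⊥ ∧ IsPGroup p P ∧ ¬ p ∣ P.index := by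
  have := hM.1
  obtain ⟨p, hp, A, hAn, hA0, hAp⟩ := exists_normal_p (G := G)
  have : Fact p.Prime := ⟨hp⟩
  have := hAn
  obtain ⟨P, hAP⟩ := hAp.exists_le_sylow
  let C : Subgroup G := Subgroup.centralizer (A : Set G)
  have hPC : (P : Subgroup G) ≤ C := by
    intro x hx
    rw [Subgroup.mem_centralizer_iff]
    intro a ha
    exact hG p hp P P.isPGroup' a (hAP ha) x hx
  have hCn : C.Normal := by
    refine ⟨fun c hc g => ?_⟩
    rw [Subgroup.mem_centralizer_iff] at hc ⊢
    intro a ha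
    have h1 := hc (g⁻¹ * a * g) (by simpa using hAn.conj_mem a ha g⁻¹)
    calc a * (g * c * g⁻¹) = g * ((g⁻¹ * a * g) * c) * g⁻¹ := by group
      _ = g * (c * (g⁻¹ * a * g)) * g⁻¹ := by rw [h1]
      _ = g * c * g⁻¹ * a := by group
  have := hCn
  have hidx : ¬ p ∣ ((P : Subgroup G).subgroupOf C).index := by
    intro h
    have h1 : (P : Subgroup G).relIndex C * C.index = (P : Subgroup G).index :=
      Subgroup.relIndex_mul_index hPC
    have h2 : ¬ p ∣ (P : Subgroup G).index := P.not_dvd_index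
    exact h2 (h1 ▸ Dvd.dvd.mul_right h _)
  have hcap : ⁅C, C⁆ ⊓ A = ⊥ := by
    rw [eq_bot_iff]
    rintro z ⟨hz1, hz2⟩
    have hz3 : z ∈ (commutator C).map C.subtype := by
      rw [Subgroup.map_subtype_commutator]
      exact hz1
    obtain ⟨y, hy, rfl⟩ := hz3
    rw [Subgroup.mem_bot]
    have h1 : y = 1 := by
      refine central_eq_one p hp ((P : Subgroup G).subgroupOf C) ?_ hidx y ?_ ?_ hy
      · intro a ha b hb
        exact Subtype.ext (hG p hp P P.isPGroup' a.1 ha b.1 hb)
      · intro g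
        have h2 := g.2
        rw [Subgroup.mem_centralizer_iff] at h2
        exact Subtype.ext (h2 y.1 hz2)
      · obtain ⟨j, hj⟩ := hAp ⟨y.1, hz2⟩
        have h3 : y.1 ^ (p ^ j) = 1 := congrArg Subtype.val hj
        exact ⟨j, Subtype.ext h3⟩
    rw [h1]
    rfl
  have hCC : ⁅C, C⁆ = ⊥ := by
    rcases hM.2 _ _ inferInstance hAn hcap with h | h
    · exact h
    · exact absurd h hA0
  have hCab : ∀ x ∈ C, ∀ y ∈ C, x * y = y * x := by
    intro x hx y hy
    have h1 : ⁅x, y⁆ ∈ ⁅C, C⁆ := Subgroup.commutator_mem_commutator hx hy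
    rw [hCC, Subgroup.mem_bot] at h1
    exact commutatorElement_eq_one_iff_mul_comm.1 h1
  let Q : Subgroup G :=
    { carrier := {z | z ∈ C ∧ ∃ j : ℕ, z ^ (p ^ j) = 1}
      one_mem' := ⟨one_mem _, 0, one_pow _⟩
      mul_mem' := by
        rintro a b ⟨ha, i, hi⟩ ⟨hb, j, hj⟩
        refine ⟨mul_mem ha hb, i + j, ?_⟩
        have hc : Commute a b := hCab a ha b hb
        rw [hc.mul_pow, pow_add, pow_mul, hi, one_pow, one_mul, mul_comm (p ^ i), pow_mul, hj,
          one_pow]
      inv_mem' := by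
        rintro a ⟨ha, i, hi⟩
        exact ⟨inv_mem ha, i, by rw [inv_pow, hi, inv_one]⟩ }
  have hQp : IsPGroup p Q := by
    rintro ⟨a, ha, i, hi⟩
    exact ⟨i, Subtype.ext hi⟩
  have hPQ : (P : Subgroup G) ≤ Q := by
    intro x hx
    obtain ⟨j, hj⟩ := P.isPGroup' ⟨x, hx⟩
    exact ⟨hPC hx, j, congrArg Subtype.val hj⟩
  have hQP : Q = P := P.is_maximal' hQp hPQ
  refine ⟨p, hp, P, ?_, ?_, P.isPGroup', P.not_dvd_index⟩
  · rw [← hQP]
    refine ⟨?_⟩
    rintro a ⟨ha, i, hi⟩ g
    refine ⟨hCn.conj_mem a ha g, i, ?_⟩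
    rw [conj_pow, hi, mul_one, mul_inv_cancel]
  · intro h
    rw [h, le_bot_iff] at hAP
    exact hA0 hAP

/-- the derived length is at most the number of primes -/
theorem dl_aux : ∀ (m k : ℕ) (G : Type) [Group G] [Finite G], Group.IsSolvable G → AG G → Nat.card G ≤ m →
    (Nat.card G).primeFactors.card ≤ k → derivedSeries G k = ⊥ := by
  intro m
  induction m with
  | zero =>
    intro k G _ _ _ _ h
    exact absurd h (by have := Nat.card_pos (α := G); omega)
  | succ m ih =>
    intro k G _ _ hs hG hm hk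
    have := hs
    by_cases hM : Mono G
    · obtain ⟨p, hp, P, hPn, hP0, hPp, hPi⟩ := mono_sylow hM hG
      have := hPn
      have hlt : Nat.card (G ⧸ P) < Nat.card G := card_quot P hP0
      have hpG : p ∈ (Nat.card G).primeFactors := by
        have : Fact p.Prime := ⟨hp⟩
        rw [Nat.mem_primeFactors]
        refine ⟨hp, ?_, Nat.card_pos.ne'⟩
        obtain ⟨n, hn⟩ := IsPGroup.iff_card.1 hPp
        have h1 : Nat.card P ∣ Nat.card G := P.card_subgroup_dvd_card
        have h2 : n ≠ 0 := by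
          rintro rfl
          rw [pow_zero] at hn
          exact hP0 (Subgroup.card_eq_one.1 hn)
        exact (dvd_pow_self p h2).trans (hn ▸ h1)
      have hpQ : p ∉ (Nat.card (G ⧸ P)).primeFactors := by
        intro h
        exact hPi (Nat.dvd_of_mem_primeFactors h)
      have hcard : (Nat.card (G ⧸ P)).primeFactors.card < (Nat.card G).primeFactors.card := by
        apply Finset.card_lt_card
        refine ⟨primes_quot P, fun h => hpQ (h hpG)⟩
      obtain ⟨k', rfl⟩ : ∃ k', k = k' + 1 := ⟨k - 1, by omega⟩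
      have h1 : derivedSeries (G ⧸ P) k' = ⊥ :=
        ih k' (G ⧸ P) (inferInstance) (ag_quot hG P) (by omega) (by omega)
      have h2 : derivedSeries G k' ≤ P := der_le P k' h1
      rw [derivedSeries_succ, eq_bot_iff, Subgroup.commutator_le]
      intro x hx y hy
      rw [Subgroup.mem_bot]
      exact commutatorElement_eq_one_iff_mul_comm.2 (hG p hp P hPp x (h2 hx) y (h2 hy))
    · by_cases hnt : Nontrivial G
      · have h1 : ∃ M N : Subgroup G, M.Normal ∧ N.Normal ∧ M ⊓ N = ⊥ ∧ M ≠ ⊥ ∧ N ≠ ⊥ := by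
          by_contra hcon
          apply hM
          refine ⟨hnt, fun M N hMn hNn hMN => ?_⟩
          by_contra h2
          rw [not_or] at h2
          exact hcon ⟨M, N, hMn, hNn, hMN, h2.1, h2.2⟩
        obtain ⟨M, N, hMn, hNn, hMN, hM0, hN0⟩ := h1
        have := hMn
        have := hNn
        have key : ∀ L : Subgroup G, ∀ _ : L.Normal, L ≠ ⊥ → derivedSeries G k ≤ L := by
          intro L hL hL0
          apply der_le
          have hlt : Nat.card (G ⧸ L) < Nat.card G := card_quot L hL0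
          refine ih k (G ⧸ L) (inferInstance) (ag_quot hG L) (by omega) ?_
          exact (Finset.card_le_card (primes_quot L)).trans hk
        rw [eq_bot_iff, ← hMN]
        exact le_inf (key M hMn hM0) (key N hNn hN0)
      · rw [not_nontrivial_iff_subsingleton] at hnt
        rw [eq_bot_iff]
        intro x _
        rw [Subgroup.mem_bot]
        exact Subsingleton.elim _ _

end DLAux

open DLAux

/-- a finite soluble group with abelian Sylow subgroups and at most `k` primes has derived length at most `k` -/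
theorem dl_finite (k : ℕ) (G : Type) [Group G] [Finite G] (hs : Group.IsSolvable G)
    (hG : ∀ p : ℕ, p.Prime → ∀ P : Subgroup G, IsPGroup p P → ∀ x ∈ P, ∀ y ∈ P, x * y = y * x)
    (hk : (Nat.card G).primeFactors.card ≤ k) : derivedSeries G k = ⊥ :=
  dl_aux (Nat.card G) k G hs hG le_rfl hk

/-- varieties of soluble A-groups with at most three primes have derived length at most 3 -/
theorem dl_variety (W : Set (FreeGroup ℕ))
    (hW : ∀ (G : Type) [Group G], Sat W G →
      (∀ s : Finset G, Finite (Subgroup.closure (s : Set G))) ∧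
      (∀ p : ℕ, p.Prime → ∀ P : Sylow p G, ∀ x ∈ P, ∀ y ∈ P, x * y = y * x))
    (hsol : ∀ (G : Type) [Group G] [Finite G], Sat W G → Group.IsSolvable G)
    (hpr : ∃ S : Finset ℕ, S.card ≤ 3 ∧ ∀ (G : Type) [Group G] [Finite G], Sat W G →
      (Nat.card G).primeFactors ⊆ S) :
    ∀ (G : Type) [Group G], Sat W G → derivedSeries G 3 = ⊥ := by
  classical
  obtain ⟨w3, hw3⟩ := Pool.Agent.Lib.MP_f44088_fb.D3
  obtain ⟨S, hS3, hS⟩ := hpr
  intro G _ hG
  rw [← hw3]
  intro f
  obtain ⟨K, hK⟩ := letters w3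
  let s : Finset G := (Finset.range K).image f
  have hfin : Finite (Subgroup.closure (s : Set G)) := (hW G hG).1 s
  let H : Subgroup G := Subgroup.closure (s : Set G)
  have : Finite H := hfin
  have hH : Sat W H := sat_inVar (inVar_of_injective H.subtype H.subtype_injective) hG
  have hder : derivedSeries H 3 = ⊥ := by
    refine dl_finite 3 H (hsol H hH) ?_ ((Finset.card_le_card (hS H hH)).trans hS3)
    intro p hp P hP x hx y hy
    obtain ⟨Q, hQ⟩ := hP.exists_le_sylow
    exact (hW H hH).2 p hp Q x (hQ hx) y (hQ hy)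
  have hlaw := (hw3 H).2 hder
  let g : ℕ → H := fun i => if h : i < K then ⟨f i, Subgroup.subset_closure (by
    show f i ∈ (s : Set G)
    exact Finset.mem_coe.2 (Finset.mem_image.2 ⟨i, Finset.mem_range.2 h, rfl⟩))⟩ else 1
  have h4 := hlaw g
  have h5 : FreeGroup.lift f w3 = FreeGroup.lift (fun i => H.subtype (g i)) w3 := by
    refine hK G f _ fun i hi => ?_
    have h6 : g i = ⟨f i, Subgroup.subset_closure (by
      show f i ∈ (s : Set G)
      exact Finset.mem_coe.2 (Finset.mem_image.2 ⟨i, Finset.mem_range.2 hi, rfl⟩))⟩ := dif_pos hi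
    rw [h6]
    rfl
  rw [h5, ← map_lift, h4, map_one]

end Pool.Agent.Lib.MP_f44088_fc
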