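import Pool.Agent.Lib.MP_f44088_al.FB4.Spec
import Pool.Agent.Lib.MP_f44088_al.FB4.DL

/-! Project FB4 (MP_f44088_al): the final form of the theorem. -/

set_option autoImplicit false

namespace Pool.Agent.Lib.MP_f44088_fc

open Pool.Agent.Lib.MP_f44088_fb (Sat InVar FGrp Cls Mono)

/-- (Fin2) A variety of A-groups is finitely based if its members have derived length at most 3, or if its finite
members are soluble and at most three primes divide their orders. -/
def S_Fin2 : Prop :=
  ∀ W : Set (FreeGroup ℕ), (∀ (G : Type) [Group G], Sat W G →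
      (∀ s : Finset G, Finite (Subgroup.closure (s : Set G))) ∧
      (∀ p : ℕ, p.Prime → ∀ P : Sylow p G, ∀ x ∈ P, ∀ y ∈ P, x * y = y * x)) →
    ((∀ (G : Type) [Group G], Sat W G → derivedSeries G 3 = ⊥) ∨
      ((∀ (G : Type) [Group G] [Finite G], Sat W G → Group.IsSolvable G) ∧
        ∃ S : Finset ℕ, S.card ≤ 3 ∧ ∀ (G : Type) [Group G] [Finite G], Sat W G →
          (Nat.card G).primeFactors ⊆ S)) →
    ∃ B : Finset (FreeGroup ℕ), ∀ (G : Type) [Group G], (Sat W G ↔ Sat (B : Set (FreeGroup ℕ)) G)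

/-- **Fin2.** -/
theorem Fin2 : S_Fin → S_Fin2 := by
  intro hF W hW h
  have h3 : ∀ (G : Type) [Group G], Sat W G → derivedSeries G 3 = ⊥ := by
    rcases h with h | ⟨h1, h2⟩
    · exact h
    · exact dl_variety W hW h1 h2
  exact hF W fun G _ hG => ⟨(hW G hG).1, (hW G hG).2, h3 G hG⟩

end Pool.Agent.Lib.MP_f44088_fc
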