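import Mathlib
import Pool.Agent.Lib.MP_f44088_al.FB4.Spec

/-! Project FB4 (MP_f44088_al): the monolith. -/

set_option autoImplicit false

namespace Pool.Agent.Lib.MP_f44088_fc

open Pool.Agent.Lib.MP_f44088_fb (Sat InVar FGrp Cls Mono Rich IsChar Lam)

namespace MolAux

/-- a least nontrivial normal subgroup of a monolithic finite group -/
theorem exists_least (G : Type) [Group G] [Finite G] (hm : Mono G) :
    ∃ N0 : Subgroup G, N0 ≠ ⊥ ∧ ∀ N : Subgroup G, N.Normal → N ≠ ⊥ → N0 ≤ N := by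
  have : Nontrivial G := hm.1
  have : Finite (Subgroup G) := inferInstance
  have hfin : ({N : Subgroup G | N.Normal ∧ N ≠ ⊥} : Set (Subgroup G)).Finite := Set.toFinite _
  have hne : ({N : Subgroup G | N.Normal ∧ N ≠ ⊥} : Set (Subgroup G)).Nonempty := by
    refine ⟨⊤, inferInstance, ?_⟩
    exact top_ne_bot
  obtain ⟨N0, hN0⟩ := hfin.exists_minimal hne
  refine ⟨N0, hN0.1.2, ?_⟩
  intro N hN hNb
  have hN0n : N0.Normal := hN0.1.1
  have h1 : (N0 ⊓ N).Normal := by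
    have := hN0n
    have := hN
    exact Subgroup.normal_inf_normal N0 N
  have h2 : N0 ⊓ N ≠ ⊥ := by
    intro h
    rcases hm.2 N0 N hN0n hN h with h3 | h3
    · exact hN0.1.2 h3
    · exact hNb h3
  have h3 : N0 ≤ N0 ⊓ N := hN0.2 ⟨h1, h2⟩ inf_le_left
  exact le_trans h3 inf_le_right

/-- the subgroup of the `m`-th powers of the elements of an abelian subgroup -/
def pw {G : Type} [Group G] (F : Subgroup G) (hab : ∀ x ∈ F, ∀ y ∈ F, x * y = y * x) (m : ℕ) :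
    Subgroup G where
  carrier := {y | ∃ x ∈ F, x ^ m = y}
  mul_mem' := by
    rintro a b ⟨x, hx, rfl⟩ ⟨y, hy, rfl⟩
    refine ⟨x * y, F.mul_mem hx hy, ?_⟩
    exact Commute.mul_pow (hab x hx y hy) m
  one_mem' := ⟨1, F.one_mem, one_pow m⟩
  inv_mem' := by
    rintro a ⟨x, hx, rfl⟩
    exact ⟨x⁻¹, F.inv_mem hx, inv_pow x m⟩

theorem pw_normal {G : Type} [Group G] (F : Subgroup G) (hF : F.Normal)
    (hab : ∀ x ∈ F, ∀ y ∈ F, x * y = y * x) (m : ℕ) : (pw F hab m).Normal := by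
  constructor
  rintro a ⟨x, hx, rfl⟩ g
  refine ⟨g * x * g⁻¹, hF.conj_mem x hx g, ?_⟩
  exact conj_pow

end MolAux

theorem Mol : S_Mol := by
  classical
  intro n hn G _ _ hexp hm p hp F hF hFb hFp hab
  have : Fact p.Prime := ⟨hp⟩
  -- an exponent
  have hex0 : ∀ x ∈ F, x ^ (p ^ n.factorization p) = 1 := by
    intro x hx
    obtain ⟨k, hk⟩ := hFp ⟨x, hx⟩
    have hk' : x ^ (p ^ k) = 1 := by
      have := congrArg Subtype.val hk
      simpa using this
    have h1 : orderOf x ∣ p ^ k := orderOf_dvd_of_pow_eq_one hk'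
    obtain ⟨j, hj, hj'⟩ := (Nat.dvd_prime_pow hp).1 h1
    have h2 : orderOf x ∣ n := orderOf_dvd_of_pow_eq_one (hexp x)
    rw [hj'] at h2
    have h3 : j ≤ n.factorization p := (hp.pow_dvd_iff_le_factorization hn.ne').1 h2
    rw [← orderOf_dvd_iff_pow_eq_one, hj']
    exact pow_dvd_pow p h3
  have hex : ∃ e : ℕ, ∀ x ∈ F, x ^ (p ^ e) = 1 := ⟨_, hex0⟩
  obtain ⟨e, he, hmin⟩ : ∃ e : ℕ, (∀ x ∈ F, x ^ (p ^ e) = 1) ∧
      ∀ e' : ℕ, (∀ x ∈ F, x ^ (p ^ e') = 1) → e ≤ e' :=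
    ⟨Nat.find hex, Nat.find_spec hex, fun e' h' => Nat.find_min' hex h'⟩
  have hepos : 0 < e := by
    rcases Nat.eq_zero_or_pos e with h | h
    · exfalso
      apply hFb
      rw [Subgroup.eq_bot_iff_forall]
      intro x hx
      have := he x hx
      rw [h] at this
      simpa using this
    · exact h
  refine ⟨e, hepos, ?_, he, ?_⟩
  · exact (pow_dvd_pow p (hmin _ hex0)).trans (Nat.ordProj_dvd n p)
  · obtain ⟨N0, hN0b, hN0⟩ := MolAux.exists_least G hm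
    have hpb : MolAux.pw F hab (p ^ (e - 1)) ≠ ⊥ := by
      intro h
      have h1 : ∀ x ∈ F, x ^ (p ^ (e - 1)) = 1 := by
        intro x hx
        have h2 : x ^ (p ^ (e - 1)) ∈ MolAux.pw F hab (p ^ (e - 1)) := ⟨x, hx, rfl⟩
        rw [h] at h2
        exact Subgroup.mem_bot.1 h2
      have := hmin _ h1
      omega
    have hle := hN0 _ (MolAux.pw_normal F hF hab (p ^ (e - 1))) hpb
    obtain ⟨y, hy, hy1⟩ : ∃ y : G, y ∈ N0 ∧ y ≠ 1 := by
      obtain ⟨a, ha⟩ := Subgroup.ne_bot_iff_exists_ne_one.1 hN0b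
      exact ⟨a.1, a.2, fun h => ha (Subtype.ext h)⟩
    obtain ⟨x, hx, hxy⟩ := hle hy
    refine ⟨x, hx, ?_, ?_⟩
    · rw [hxy]
      exact hy1
    · intro N hN hNb
      rw [hxy]
      exact hN0 N hN hNb hy

end Pool.Agent.Lib.MP_f44088_fc
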