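import Pool.Agent.Lib.MP_f44088_al.FB4.Spec2

/-! Project FB4 (MP_f44088_al): idempotents in the convolution ring (module Reg). -/

set_option autoImplicit false

namespace Pool.Agent.Lib.MP_f44088_fc

namespace RegAux

/-- a function as an element of the group ring -/
noncomputable def tm {K S : Type} [CommRing S] [Finite K] (f : K → S) : AddMonoidAlgebra S K :=
  AddMonoidAlgebra.ofCoeff (Finsupp.equivFunOnFinite.symm f)

theorem tm_coeff {K S : Type} [CommRing S] [Finite K] (f : K → S) (y : K) : (tm f).coeff y = f y := rfl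

theorem tm_of {K S : Type} [CommRing S] [Finite K] (x : AddMonoidAlgebra S K) :
    tm (fun y => x.coeff y) = x := by
  apply AddMonoidAlgebra.ext
  ext y
  rfl

theorem conv_eq {K S : Type} [AddCommGroup K] [Fintype K] [CommRing S] (f g : K → S) (y : K) :
    conv f g y = (tm f * tm g).coeff y := by
  rw [AddMonoidAlgebra.coeff_mul_apply_left, Finsupp.sum_fintype _ _ (fun _ => zero_mul _)]
  unfold conv
  refine Finset.sum_congr rfl fun x _ => ?_
  rw [tm_coeff, tm_coeff, neg_add_eq_sub]

/-- the kernel of the reduction -/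
theorem ker_red {r N : ℕ} (hN : N ≠ 0) (hr : 0 < r) (c : ZMod (r ^ N))
    (h : ZMod.castHom (dvd_pow_self r hN) (ZMod r) c = 0) : ∃ w : ZMod (r ^ N), c = r • w := by
  have : NeZero (r ^ N) := ⟨(pow_pos hr N).ne'⟩
  have h1 : c = ((c.val : ℕ) : ZMod (r ^ N)) := (ZMod.natCast_zmod_val c).symm
  rw [h1, map_natCast, ZMod.natCast_eq_zero_iff] at h
  obtain ⟨j, hj⟩ := h
  refine ⟨(j : ZMod (r ^ N)), ?_⟩
  rw [h1, hj, nsmul_eq_mul, Nat.cast_mul]

/-- the power map is the identity modulo `r` -/
theorem pow_id {r s : ℕ} (hr : r.Prime) {K : Type} [AddCommGroup K]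
    (hM : ∀ x : K, (r ^ s) • x = x) (x : AddMonoidAlgebra (ZMod r) K) : x ^ (r ^ s) = x := by
  have : Fact r.Prime := ⟨hr⟩
  have : CharP (AddMonoidAlgebra (ZMod r) K) r :=
    charP_of_injective_ringHom (algebraMap (ZMod r) (AddMonoidAlgebra (ZMod r) K)).injective r
  have h : iterateFrobenius (AddMonoidAlgebra (ZMod r) K) r s = RingHom.id _ := by
    apply AddMonoidAlgebra.ringHom_ext
    · intro a
      rw [iterateFrobenius_def, AddMonoidAlgebra.single_pow, ZMod.pow_card_pow, smul_zero,
        RingHom.id_apply]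
    · intro a
      rw [iterateFrobenius_def, AddMonoidAlgebra.single_pow, hM, one_pow, RingHom.id_apply]
  have h1 := congrArg (fun f : AddMonoidAlgebra (ZMod r) K →+* AddMonoidAlgebra (ZMod r) K => f x) h
  rw [iterateFrobenius_def] at h1
  exact h1

end RegAux

open RegAux in
theorem Reg : S_Reg := by
  intro r N m hr hm K _ _ hK u
  rcases Nat.eq_zero_or_pos N with hN | hN
  · subst hN
    have h0 : ∀ a b : ZMod (r ^ 0), a = b := by
      rw [pow_zero]
      intro a b
      exact Subsingleton.elim _ _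
    exact ⟨0, fun f => ⟨0, funext fun y => h0 _ _⟩, 0, funext fun y => h0 _ _⟩
  · have hN' : N ≠ 0 := hN.ne'
    have hm0 : 0 < m := by
      rcases Nat.eq_zero_or_pos m with h | h
      · subst h
        rw [Nat.coprime_zero_left] at hm
        exact absurd hm hr.one_lt.ne'
      · exact h
    obtain ⟨s, hs0, hs⟩ : ∃ s, 0 < s ∧ r ^ s ≡ 1 [MOD m] :=
      ⟨m.totient, Nat.totient_pos.2 hm0, Nat.ModEq.pow_totient hm.symm⟩
    have hM2 : 2 ≤ r ^ s := by
      calc 2 ≤ r := hr.two_le
        _ ≤ r ^ s := Nat.le_self_pow hs0.ne' r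
    have hMx : ∀ x : K, (r ^ s) • x = x := by
      intro x
      obtain ⟨j, hj⟩ := (Nat.modEq_iff_dvd' (by omega : 1 ≤ r ^ s)).1 hs.symm
      have h1 : r ^ s = 1 + j * m := by rw [mul_comm j m]; omega
      rw [h1, add_smul, one_smul, mul_smul, hK, smul_zero, add_zero]
    have key : ∀ y, ∃ w : ZMod (r ^ N), ((tm u) ^ (r ^ s)).coeff y - u y = r • w := by
      intro y
      apply ker_red hN' hr.pos
      have h1 := pow_id hr hMx (AddMonoidAlgebra.mapRingHom K
        (ZMod.castHom (dvd_pow_self r hN') (ZMod r)) (tm u))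
      rw [← map_pow] at h1
      have h2 := congrArg (fun z : AddMonoidAlgebra (ZMod r) K => z.coeff y) h1
      simp only [AddMonoidAlgebra.coeff_mapRingHom] at h2
      rw [map_sub, h2, tm_coeff, sub_self]
    choose w hw using key
    refine ⟨fun y => ((tm u) ^ (r ^ s - 1)).coeff y, fun f =>
      ⟨fun y => ((tm u) ^ (r ^ s - 2) * tm f).coeff y, ?_⟩, w, ?_⟩
    · funext y
      rw [conv_eq, conv_eq, tm_of, tm_of]
      rw [show r ^ s - 1 = (r ^ s - 2) + 1 by omega, pow_succ, mul_assoc, mul_comm (tm u) (tm f),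
        ← mul_assoc]
    · funext y
      rw [conv_eq, tm_of, ← pow_succ, Nat.sub_add_cancel (by omega), Pi.add_apply, Pi.smul_apply,
        ← hw y]
      ring

end Pool.Agent.Lib.MP_f44088_fc
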